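import Mathlib
import Pool.Agent.Helper24.Br.Defs

/-!
MP_16b0ee, project MH (moment hierarchy for the mean of the power -2 of the derivative):
common definitions. Everything lives in the unit disc (coordinate `1/z`): `H = log psi'(1/z)`,
`G = exp (-H)`.
-/

set_option autoImplicit false

open MeasureTheory Set Metric Filter Topology
open scoped Real ComplexConjugate

namespace Pool.Agent.Helper39.MH

open Pool.Agent.Helper22.Half
open Pool.Agent.Helper22.Marshall (coeff SepHol LogPhi dcoeff GLe)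
open Pool.Agent.Helper39.Area (Ext phi)

/-- the Euler operator -/
noncomputable def th (F : ℂ → ℂ) (z : ℂ) : ℂ := z * deriv F z

/-- the jets: `th g0 = 3 g1 - g0^2`, `th gn = (n+3) g(n+1) + sum_(i+j=n, i,j>=1) gi gj` -/
noncomputable def gg (H : ℂ → ℂ) : ℕ → (ℂ → ℂ)
  | 0 => fun z => -(th H z) / 2
  | 1 => fun z => (th (gg H 0) z + (gg H 0 z) ^ 2) / 3
  | (n + 2) => fun z =>
      (th (gg H (n + 1)) z - ∑ i : Fin n, gg H (i.1 + 1) z * gg H (n - i.1) z) / ((n : ℂ) + 4)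
termination_by n => n
decreasing_by all_goals omega

/-- the weight of a monomial (a list of indices) -/
def wt (A : List ℕ) : ℕ := (A.map (fun n => n + 1)).sum

/-- the value of a monomial -/
noncomputable def ev (c : ℕ → ℂ) (A : List ℕ) : ℂ := (A.map c).prod

/-- the formal derivative of the variable `n` -/
noncomputable def dval (c : ℕ → ℂ) (n : ℕ) : ℂ :=
  if n = 0 then 3 * c 1 - c 0 ^ 2
  else ((n : ℂ) + 3) * c (n + 1) + ∑ i ∈ Finset.range (n - 1), c (i + 1) * c (n - 1 - i)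

/-- the formal derivative of a monomial -/
noncomputable def Dv (c : ℕ → ℂ) : List ℕ → ℂ
  | [] => 0
  | a :: A => dval c a * ev c A + c a * Dv c A

/-- the formal weighted derivative: `th (G * A) = G * DG A` -/
noncomputable def DG (c : ℕ → ℂ) (A : List ℕ) : ℂ := 2 * c 0 * ev c A + Dv c A

/-- the scaled jets -/
noncomputable def cc (H : ℂ → ℂ) (z : ℂ) (n : ℕ) : ℂ :=
  (((1 - ‖z‖ ^ 2) ^ (n + 1) : ℝ) : ℂ) * gg H n z

/-- weighted area integral with the density `|G|^2 (1-|z|^2)^(b-1)` -/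
noncomputable def LG (H : ℂ → ℂ) (b : ℝ) (f : ℂ → ℝ) : ℝ :=
  (1 / π) * ∫ z in ball (0 : ℂ) 1, (1 - ‖z‖ ^ 2) ^ (b - 1) * ‖Complex.exp (-H z)‖ ^ 2 * f z

/-- the relation polynomial of the pair `(A, B)` -/
noncomputable def relv (b : ℝ) (c : ℕ → ℂ) (A B : List ℕ) : ℝ :=
  (DG c A * conj (ev c B)).re - (b + wt A + wt B) * (ev c A * conj (ev c B)).re

/-- the value of a polynomial in the variables and their conjugates -/
noncomputable def evv (c : ℕ → ℂ) (v : List (ℝ × List ℕ × List ℕ)) : ℂ :=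
  (v.map (fun x => (x.1 : ℂ) * (ev c x.2.1 * conj (ev c x.2.2)))).sum

/-- the pointwise constraint (area theorem of the square root transform) -/
noncomputable def ell (c : ℕ → ℂ) : ℝ :=
  1 - ‖(1 + c 0) / 2‖ ^ 2 - 3 * ‖c 1 / 2 - (1 + c 0) ^ 2 / 8‖ ^ 2
    - 5 * ‖(c 1 - c 2) / 2 + (1 + c 0) * c 1 / 4 - (1 + c 0) ^ 3 / 16‖ ^ 2

/-- test data for the lower forms; the variable is `y = 1 - x` -/
structure Test where
  /-- even parts -/
  E : Fin 3 → ℝ → ℝ
  /-- coefficients of the odd parts -/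
  α : Fin 3 → ℝ
  /-- coefficients of the odd parts -/
  β : Fin 3 → ℝ
  /-- the quotients by `y` -/
  ν : Fin 3 → ℝ → ℝ
  cont : ∀ r, ContinuousOn (ν r) (Icc 0 1)
  even : ∀ r, ∀ y ∈ Icc (0:ℝ) 1, E r (1 - y) = E r y
  eq : ∀ r, ∀ y ∈ Icc (0:ℝ) 1, E r y + α r * (1 / 2 - y) + β r * (1 / 2 - y) ^ 3 = y * ν r y

/-- the pairing matrix -/
noncomputable def Test.P (T : Test) (r : Fin 3) : Fin 3 → ℝ :=
  ![(∫ y in (0:ℝ)..1, T.E r y) / 2 + T.α r / 8 + T.β r / 64, -(T.α r) / 2, -(T.β r) / 4]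

/-- the quadratic form in the variables `G, K2/m^2, K4/m^4` -/
noncomputable def Test.Qv (T : Test) (b : ℝ) (r s : Fin 3) : ℝ :=
  T.P r s + T.P s r - ∫ y in (0:ℝ)..1, T.ν r y * T.ν s y * y * (1 - y) ^ (b + 2)

/-- change of variables from `G, (G g1)/m^2, (G g3)/m^4` to `G, K2/m^2, K4/m^4` -/
noncomputable def Mt : Fin 3 → Fin 3 → ℝ := ![![1, 0, 0], ![-(1 / 4), 2, 0], ![5 / 16, -3, 24]]

/-- the quadratic form in the variables `G, (G g1)/m^2, (G g3)/m^4` -/
noncomputable def Qam (Q : Fin 3 → Fin 3 → ℝ) (r s : Fin 3) : ℝ :=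
  ∑ i, ∑ j, Mt i r * Q i j * Mt j s

/-- the monomials `1, c1, c3` -/
def am : Fin 3 → List ℕ := ![[], [1], [3]]

/-- the area form in the scaled variables: the coefficients are divided by the Pochhammer symbol
`b (b+1) ... (b+w-1)` of the total weight `w` -/
noncomputable def qf (Q : Fin 3 → Fin 3 → ℝ) (b : ℝ) (c : ℕ → ℂ) : ℝ :=
  b * (b + 1) * ∑ r, ∑ s, Qam Q r s
    / ((Nat.factorial (wt (am r) + wt (am s)) : ℝ) * pq b (wt (am r) + wt (am s)))
    * (ev c (am r) * conj (ev c (am s))).re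

/-- the class of data: a dilated map of the class -/
structure Data (ρ : ℝ) (β H : ℂ → ℂ) (Φ : ℂ → ℂ → ℂ) : Prop where
  one_lt : 1 < ρ
  ext : Ext β
  logPhi : LogPhi β H Φ
  diff : DifferentiableOn ℂ H (ball 0 ρ)
  bloch : ∀ z ∈ ball (0 : ℂ) 1, (1 - ‖z‖ ^ 2) * ‖deriv H z‖ ≤ 28
  exp_eq : ∀ z ∈ ball (0 : ℂ) 1, Complex.exp (H z) = 1 - z ^ 2 * deriv β z

end Pool.Agent.Helper39.MH
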