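import Mathlib
import Pool.Agent.Helper39.MH.Defs
import Pool.Agent.Helper22.Marshall.CoeffMul

/-!
MP_16b0ee, project MH: the jets are analytic; the formal derivative.
-/

set_option autoImplicit false

open MeasureTheory Set Metric Filter Topology
open scoped Real ComplexConjugate

namespace Pool.Agent.Helper39.MH

open Pool.Agent.Helper22.Half
open Pool.Agent.Helper22.Marshall (coeff SepHol LogPhi dcoeff GLe)
open Pool.Agent.Helper39.Area (Ext phi)

/-! ### equation lemmas of the jets -/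

theorem gg_zero (H : ℂ → ℂ) (z : ℂ) : gg H 0 z = -(th H z) / 2 := by
  rw [gg]

theorem gg_one (H : ℂ → ℂ) (z : ℂ) :
    gg H 1 z = (th (gg H 0) z + (gg H 0 z) ^ 2) / 3 := by
  rw [gg.eq_2]

theorem gg_succ (H : ℂ → ℂ) (n : ℕ) (z : ℂ) :
    gg H (n + 2) z = (th (gg H (n + 1)) z
      - ∑ i : Fin n, gg H (i.1 + 1) z * gg H (n - i.1) z) / ((n : ℂ) + 4) := by
  rw [gg.eq_3]

theorem gg_succ_range (H : ℂ → ℂ) (n : ℕ) (z : ℂ) :
    gg H (n + 2) z = (th (gg H (n + 1)) z
      - ∑ i ∈ Finset.range n, gg H (i + 1) z * gg H (n - i) z) / ((n : ℂ) + 4) := by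
  rw [gg_succ, Fin.sum_univ_eq_sum_range (fun i => gg H (i + 1) z * gg H (n - i) z) n]

/-! ### the Euler operator -/

theorem th_diff {F : ℂ → ℂ} {ρ : ℝ} (hF : DifferentiableOn ℂ F (ball 0 ρ)) :
    DifferentiableOn ℂ (th F) (ball 0 ρ) :=
  differentiableOn_id.mul (hF.deriv isOpen_ball)

theorem th_const (c : ℂ) (z : ℂ) : th (fun _ => c) z = 0 := by
  simp [th]

theorem th_add {F K : ℂ → ℂ} {z : ℂ} (hF : DifferentiableAt ℂ F z)
    (hK : DifferentiableAt ℂ K z) : th (fun w => F w + K w) z = th F z + th K z := by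
  unfold th
  rw [deriv_fun_add hF hK]
  ring

theorem th_const_mul (c : ℂ) {F : ℂ → ℂ} {z : ℂ} (hF : DifferentiableAt ℂ F z) :
    th (fun w => c * F w) z = c * th F z := by
  unfold th
  rw [deriv_const_mul _ hF]
  ring

theorem th_mul {F K : ℂ → ℂ} {z : ℂ} (hF : DifferentiableAt ℂ F z)
    (hK : DifferentiableAt ℂ K z) :
    th (fun w => F w * K w) z = th F z * K z + F z * th K z := by
  unfold th
  rw [deriv_fun_mul hF hK]
  ring

theorem th_congr {F K : ℂ → ℂ} {z : ℂ} (h : F =ᶠ[𝓝 z] K) : th F z = th K z := by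
  unfold th
  rw [h.deriv_eq]

theorem th_exp_neg {H : ℂ → ℂ} {z : ℂ} (hH : DifferentiableAt ℂ H z) :
    th (fun w => Complex.exp (-H w)) z = 2 * gg H 0 z * Complex.exp (-H z) := by
  rw [gg_zero]
  unfold th
  rw [deriv_cexp hH.fun_neg, deriv.fun_neg]
  ring

theorem coeff_th {F : ℂ → ℂ} (hF : DifferentiableOn ℂ F (ball 0 1)) (m : ℕ) :
    coeff (th F) m = (m : ℂ) * coeff F m :=
  Pool.Agent.Helper22.Marshall.coeff_eq_of_hasSum one_pos
    (fun _ hz => Pool.Agent.Helper22.Marshall.hasSum_coeff_deriv hF hz) m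

/-- local version of `coeff_th` -/
theorem coeff_th' {F : ℂ → ℂ} {ρ : ℝ} (h1 : 1 ≤ ρ) (hF : DifferentiableOn ℂ F (ball 0 ρ))
    (m : ℕ) : coeff (th F) m = (m : ℂ) * coeff F m :=
  coeff_th (hF.mono (ball_subset_ball h1)) m

/-! ### the jets are analytic -/

theorem gg_diff {H : ℂ → ℂ} {ρ : ℝ} (hρ : 0 < ρ) (hH : DifferentiableOn ℂ H (ball 0 ρ)) (n : ℕ) :
    DifferentiableOn ℂ (gg H n) (ball 0 ρ) := by
  have _ := hρ
  induction n using Nat.strong_induction_on with
  | _ n ih =>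
    match n with
    | 0 =>
      have e : gg H 0 = fun z => -(th H z) / 2 := by
        funext z
        exact gg_zero H z
      rw [e]
      exact (th_diff hH).fun_neg.div_const 2
    | 1 =>
      have e : gg H 1 = fun z => (th (gg H 0) z + (gg H 0 z) ^ 2) / 3 := by
        funext z
        exact gg_one H z
      rw [e]
      have h0 := ih 0 (by omega)
      exact ((th_diff h0).fun_add (h0.fun_pow 2)).div_const 3
    | (k + 2) =>
      have e : gg H (k + 2) = fun z => (th (gg H (k + 1)) z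
          - ∑ i ∈ Finset.range k, gg H (i + 1) z * gg H (k - i) z) / ((k : ℂ) + 4) := by
        funext z
        exact gg_succ_range H k z
      rw [e]
      refine ((th_diff (ih (k + 1) (by omega))).fun_sub ?_).div_const _
      apply DifferentiableOn.fun_sum
      intro i hi
      have hi' := Finset.mem_range.mp hi
      exact (ih (i + 1) (by omega)).fun_mul (ih (k - i) (by omega))

theorem th_gg {H : ℂ → ℂ} {z : ℂ} (n : ℕ) :
    th (gg H n) z = dval (fun k => gg H k z) n := by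
  unfold dval
  match n with
  | 0 =>
    simp only [if_true]
    rw [gg_one]
    ring
  | (m + 1) =>
    rw [if_neg (Nat.succ_ne_zero m)]
    have e : m + 1 - 1 = m := by omega
    rw [e]
    have h1 : m + 1 + 1 = m + 2 := rfl
    rw [h1]
    have h := gg_succ_range H m z
    have h4 : (m : ℂ) + 4 ≠ 0 := by
      have : ((m + 4 : ℕ) : ℂ) ≠ 0 := Nat.cast_ne_zero.mpr (by omega)
      push_cast at this
      exact this
    beta_reduce
    rw [h]
    push_cast
    field_simp
    ring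

theorem ev_nil (c : ℕ → ℂ) : ev c [] = 1 := by simp [ev]

theorem ev_cons (c : ℕ → ℂ) (a : ℕ) (A : List ℕ) : ev c (a :: A) = c a * ev c A := by
  simp [ev]

theorem ev_append (c : ℕ → ℂ) (A B : List ℕ) : ev c (A ++ B) = ev c A * ev c B := by
  simp [ev]

theorem wt_nil : wt [] = 0 := rfl

theorem wt_cons (a : ℕ) (A : List ℕ) : wt (a :: A) = a + 1 + wt A := by
  simp [wt]

theorem wt_append (A B : List ℕ) : wt (A ++ B) = wt A + wt B := by
  simp [wt]

theorem ev_gg_diff {H : ℂ → ℂ} {ρ : ℝ} (hρ : 0 < ρ) (hH : DifferentiableOn ℂ H (ball 0 ρ))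
    (A : List ℕ) : DifferentiableOn ℂ (fun w => ev (fun k => gg H k w) A) (ball 0 ρ) := by
  induction A with
  | nil =>
    simp only [ev_nil]
    exact differentiableOn_const 1
  | cons a A ih =>
    simp only [ev_cons]
    exact (gg_diff hρ hH a).fun_mul ih

theorem exp_neg_diff {H : ℂ → ℂ} {ρ : ℝ} (hH : DifferentiableOn ℂ H (ball 0 ρ)) :
    DifferentiableOn ℂ (fun w => Complex.exp (-H w)) (ball 0 ρ) :=
  hH.fun_neg.cexp

theorem exp_ev_diff {H : ℂ → ℂ} {ρ : ℝ} (hρ : 0 < ρ) (hH : DifferentiableOn ℂ H (ball 0 ρ))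
    (A : List ℕ) :
    DifferentiableOn ℂ (fun w => Complex.exp (-H w) * ev (fun k => gg H k w) A) (ball 0 ρ) :=
  (exp_neg_diff hH).fun_mul (ev_gg_diff hρ hH A)

theorem th_ev_gg {H : ℂ → ℂ} {ρ : ℝ} (hρ : 0 < ρ) (hH : DifferentiableOn ℂ H (ball 0 ρ)) {z : ℂ}
    (hz : z ∈ ball (0 : ℂ) ρ) (A : List ℕ) :
    th (fun w => ev (fun k => gg H k w) A) z = Dv (fun k => gg H k z) A := by
  induction A with
  | nil =>
    simp only [ev_nil, Dv]
    exact th_const 1 z
  | cons a A ih =>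
    simp only [ev_cons, Dv]
    have h1 : DifferentiableAt ℂ (gg H a) z :=
      (gg_diff hρ hH a).differentiableAt (isOpen_ball.mem_nhds hz)
    have h2 : DifferentiableAt ℂ (fun w => ev (fun k => gg H k w) A) z :=
      (ev_gg_diff hρ hH A).differentiableAt (isOpen_ball.mem_nhds hz)
    rw [th_mul h1 h2, ih, th_gg]

theorem th_ev {H : ℂ → ℂ} {ρ : ℝ} (hρ : 0 < ρ) (hH : DifferentiableOn ℂ H (ball 0 ρ)) {z : ℂ}
    (hz : z ∈ ball (0 : ℂ) ρ) (A : List ℕ) :
    th (fun w => Complex.exp (-H w) * ev (fun k => gg H k w) A) z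
      = Complex.exp (-H z) * DG (fun k => gg H k z) A := by
  have h0 : DifferentiableAt ℂ H z := hH.differentiableAt (isOpen_ball.mem_nhds hz)
  have h1 : DifferentiableAt ℂ (fun w => Complex.exp (-H w)) z :=
    (exp_neg_diff hH).differentiableAt (isOpen_ball.mem_nhds hz)
  have h2 : DifferentiableAt ℂ (fun w => ev (fun k => gg H k w) A) z :=
    (ev_gg_diff hρ hH A).differentiableAt (isOpen_ball.mem_nhds hz)
  rw [th_mul h1 h2, th_exp_neg h0, th_ev_gg hρ hH hz, DG]
  ring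

/-! ### homogeneity -/

/-- scaling of the variables -/
theorem ev_scale (t : ℂ) (g : ℕ → ℂ) (A : List ℕ) :
    ev (fun n => t ^ (n + 1) * g n) A = t ^ (wt A) * ev g A := by
  induction A with
  | nil => simp [ev, wt]
  | cons a A ih =>
    rw [ev_cons, ev_cons, ih, wt_cons, pow_add]
    ring

theorem dval_scale (t : ℂ) (g : ℕ → ℂ) (n : ℕ) :
    dval (fun n => t ^ (n + 1) * g n) n = t ^ (n + 2) * dval g n := by
  unfold dval
  by_cases hn : n = 0
  · subst hn
    simp only [if_true]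
    ring
  · rw [if_neg hn, if_neg hn, mul_add, Finset.mul_sum]
    congr 1
    · ring
    · apply Finset.sum_congr rfl
      intro i hi
      have hi' := Finset.mem_range.mp hi
      have e : n + 2 = (i + 1 + 1) + (n - 1 - i + 1) := by omega
      rw [e, pow_add]
      ring

theorem Dv_scale (t : ℂ) (g : ℕ → ℂ) (A : List ℕ) :
    Dv (fun n => t ^ (n + 1) * g n) A = t ^ (wt A + 1) * Dv g A := by
  induction A with
  | nil => simp [Dv]
  | cons a A ih =>
    have e1 : Dv (fun n => t ^ (n + 1) * g n) (a :: A)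
        = dval (fun n => t ^ (n + 1) * g n) a * ev (fun n => t ^ (n + 1) * g n) A
          + t ^ (a + 1) * g a * Dv (fun n => t ^ (n + 1) * g n) A := rfl
    have e2 : Dv g (a :: A) = dval g a * ev g A + g a * Dv g A := rfl
    rw [e1, e2, ih, dval_scale, ev_scale, wt_cons]
    have h1 : a + 1 + wt A + 1 = (a + 2) + wt A := by omega
    rw [h1, pow_add, pow_add, pow_add, pow_add]
    ring

theorem DG_scale (t : ℂ) (g : ℕ → ℂ) (A : List ℕ) :
    DG (fun n => t ^ (n + 1) * g n) A = t ^ (wt A + 1) * DG g A := by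
  unfold DG
  rw [Dv_scale, ev_scale, pow_add]
  ring

theorem cc_eq (H : ℂ → ℂ) (z : ℂ) :
    cc H z = fun n => (((1 - ‖z‖ ^ 2 : ℝ) : ℂ)) ^ (n + 1) * gg H n z := by
  funext n
  unfold cc
  push_cast
  ring

theorem ev_cc (H : ℂ → ℂ) (z : ℂ) (A : List ℕ) :
    ev (cc H z) A = (((1 - ‖z‖ ^ 2) ^ (wt A) : ℝ) : ℂ) * ev (fun k => gg H k z) A := by
  rw [cc_eq, ev_scale]
  push_cast
  ring

theorem DG_cc (H : ℂ → ℂ) (z : ℂ) (A : List ℕ) :
    DG (cc H z) A = (((1 - ‖z‖ ^ 2) ^ (wt A + 1) : ℝ) : ℂ) * DG (fun k => gg H k z) A := by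
  rw [cc_eq, DG_scale]
  push_cast
  ring

end Pool.Agent.Helper39.MH
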