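import Mathlib
import Pool.Agent.Helper39.MH.Euler

/-!
MP_16b0ee, project MH: the formal weighted derivative for `G = exp (s H)`, `s` complex
(the case `s = -1` is `DG`).
-/

set_option autoImplicit false

open MeasureTheory Set Metric Filter Topology
open scoped Real ComplexConjugate

namespace Pool.Agent.Helper39.MH

/-- the formal weighted derivative: `th (exp (s H) * A) = exp (s H) * DGs s A` -/
noncomputable def DGs (s : ℂ) (c : ℕ → ℂ) (A : List ℕ) : ℂ := -2 * s * c 0 * ev c A + Dv c A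

theorem DGs_neg_one (c : ℕ → ℂ) (A : List ℕ) : DGs (-1) c A = DG c A := by
  unfold DGs DG
  ring

theorem th_exp_mul (s : ℂ) {H : ℂ → ℂ} {z : ℂ} (hH : DifferentiableAt ℂ H z) :
    th (fun w => Complex.exp (s * H w)) z = -2 * s * gg H 0 z * Complex.exp (s * H z) := by
  rw [gg_zero]
  unfold th
  rw [deriv_cexp (hH.const_mul s), deriv_const_mul s hH]
  ring

theorem exp_mul_diff (s : ℂ) {H : ℂ → ℂ} {ρ : ℝ} (hH : DifferentiableOn ℂ H (ball 0 ρ)) :
    DifferentiableOn ℂ (fun w => Complex.exp (s * H w)) (ball 0 ρ) :=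
  (hH.const_mul s).cexp

theorem exp_ev_diff_s (s : ℂ) {H : ℂ → ℂ} {ρ : ℝ} (hρ : 0 < ρ)
    (hH : DifferentiableOn ℂ H (ball 0 ρ)) (A : List ℕ) :
    DifferentiableOn ℂ (fun w => Complex.exp (s * H w) * ev (fun k => gg H k w) A) (ball 0 ρ) :=
  (exp_mul_diff s hH).fun_mul (ev_gg_diff hρ hH A)

theorem th_ev_s (s : ℂ) {H : ℂ → ℂ} {ρ : ℝ} (hρ : 0 < ρ) (hH : DifferentiableOn ℂ H (ball 0 ρ))
    {z : ℂ} (hz : z ∈ ball (0 : ℂ) ρ) (A : List ℕ) :
    th (fun w => Complex.exp (s * H w) * ev (fun k => gg H k w) A) z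
      = Complex.exp (s * H z) * DGs s (fun k => gg H k z) A := by
  have h0 : DifferentiableAt ℂ H z := hH.differentiableAt (isOpen_ball.mem_nhds hz)
  have h1 : DifferentiableAt ℂ (fun w => Complex.exp (s * H w)) z :=
    (exp_mul_diff s hH).differentiableAt (isOpen_ball.mem_nhds hz)
  have h2 : DifferentiableAt ℂ (fun w => ev (fun k => gg H k w) A) z :=
    (ev_gg_diff hρ hH A).differentiableAt (isOpen_ball.mem_nhds hz)
  rw [th_mul h1 h2, th_exp_mul s h0, th_ev_gg hρ hH hz, DGs]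
  ring

theorem DGs_scale (s t : ℂ) (g : ℕ → ℂ) (A : List ℕ) :
    DGs s (fun n => t ^ (n + 1) * g n) A = t ^ (wt A + 1) * DGs s g A := by
  unfold DGs
  rw [Dv_scale, ev_scale, pow_add]
  ring

theorem DGs_cc (s : ℂ) (H : ℂ → ℂ) (z : ℂ) (A : List ℕ) :
    DGs s (cc H z) A
      = (((1 - ‖z‖ ^ 2) ^ (wt A + 1) : ℝ) : ℂ) * DGs s (fun k => gg H k z) A := by
  rw [cc_eq, DGs_scale]
  push_cast
  ring

end Pool.Agent.Helper39.MH
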