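import Mathlib
import Pool.Agent.Helper39.MH.Defs

/-!
MP_16b0ee, project MH, module MH-8: the weighted area integral of a product in terms of the
Taylor coefficients.
-/

set_option autoImplicit false

open MeasureTheory Set Metric Filter Topology
open scoped Real ComplexConjugate

namespace Pool.Agent.Helper39.MH

open Pool.Agent.Helper22.Half
open Pool.Agent.Helper22.Marshall (coeff SepHol LogPhi dcoeff GLe)
open Pool.Agent.Helper39.Area (Ext phi)

namespace Bridge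

theorem hasSum_c {ρ : ℝ} {F : ℂ → ℂ} (hF : DifferentiableOn ℂ F (ball 0 ρ)) {z : ℂ}
    (hz : ‖z‖ < ρ) : HasSum (fun n => coeff F n * z ^ n) (F z) := by
  have h := Complex.hasSum_taylorSeries_on_ball (c := 0) (r := ρ) (z := z) hF (by simpa using hz)
  have : (fun n => coeff F n * z ^ n)
      = fun n : ℕ => (n.factorial : ℂ)⁻¹ • (z - 0) ^ n • iteratedDeriv n F 0 := by
    funext n
    simp only [coeff, smul_eq_mul, sub_zero]
    ring
  rw [this]
  exact h

theorem summable_c {ρ : ℝ} {F : ℂ → ℂ} (hF : DifferentiableOn ℂ F (ball 0 ρ)) {r : ℝ}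
    (hr0 : 0 ≤ r) (hr : r < ρ) : Summable (fun n => ‖coeff F n‖ * r ^ n) := by
  have h := (hasSum_c hF (z := (r : ℂ)) (by
    rw [Complex.norm_real, Real.norm_of_nonneg hr0]; exact hr)).summable.norm
  have e : (fun n => ‖coeff F n‖ * r ^ n) = fun n => ‖coeff F n * (r : ℂ) ^ n‖ := by
    funext n
    rw [norm_mul, norm_pow, Complex.norm_real, Real.norm_of_nonneg hr0]
  rw [e]
  exact h

/-- the radial integrals -/
noncomputable def J (p : ℝ) (m : ℕ) : ℝ := ∫ r in (0:ℝ)..1, r ^ (2 * m + 1) * (1 - r ^ 2) ^ p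

theorem cont_rad {p : ℝ} (hp : 0 ≤ p) (k : ℕ) :
    Continuous (fun r : ℝ => r ^ k * (1 - r ^ 2) ^ p) := by
  have h1 : Continuous (fun r : ℝ => (1 - r ^ 2 : ℝ) ^ p) := by
    apply Continuous.rpow_const (by fun_prop)
    intro r
    right
    exact hp
  exact (continuous_pow k).mul h1

theorem J_zero {p : ℝ} (hp : 0 ≤ p) : J p 0 = 1 / (2 * (p + 1)) := by
  have hd : ∀ r ∈ Set.uIcc (0:ℝ) 1, HasDerivAt (fun r : ℝ => -(1 - r ^ 2) ^ (p + 1) / (2 * (p + 1)))
      (r ^ (2 * 0 + 1) * (1 - r ^ 2) ^ p) r := by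
    intro r _
    have h1 : HasDerivAt (fun r : ℝ => 1 - r ^ 2) (-(2 * r)) r := by
      have := (hasDerivAt_pow 2 r).const_sub 1
      simpa using this
    have h2 : HasDerivAt (fun r : ℝ => -(1 - r ^ 2) ^ (p + 1) / (2 * (p + 1)))
        (-(-(2 * r) * (p + 1) * (1 - r ^ 2) ^ (p + 1 - 1)) / (2 * (p + 1))) r :=
      (h1.rpow_const (p := p + 1) (Or.inr (by linarith))).neg.div_const (2 * (p + 1))
    refine h2.congr_deriv ?_
    have hp1 : p + 1 ≠ 0 := by positivity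
    rw [show p + 1 - 1 = p by ring]
    field_simp
    ring
  have h := intervalIntegral.integral_eq_sub_of_hasDerivAt hd
    ((cont_rad hp _).intervalIntegrable 0 1)
  unfold J
  rw [h]
  have h0 : (0:ℝ) ^ (p + 1) = 0 := Real.zero_rpow (by positivity)
  have hp1 : p + 1 ≠ 0 := by positivity
  rw [show (1:ℝ) - 1 ^ 2 = 0 by norm_num, show (1:ℝ) - 0 ^ 2 = 1 by norm_num, h0, Real.one_rpow]
  field_simp
  ring

theorem J_succ {p : ℝ} (hp : 0 ≤ p) (m : ℕ) :
    ((m : ℝ) + 1) * J p m = ((m : ℝ) + p + 2) * J p (m + 1) := by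
  have hd : ∀ r ∈ Set.uIcc (0:ℝ) 1,
      HasDerivAt (fun r : ℝ => r ^ (2 * m + 2) * (1 - r ^ 2) ^ (p + 1))
      ((2 * m + 2) * (r ^ (2 * m + 1) * (1 - r ^ 2) ^ p)
        - (2 * m + 2 * p + 4) * (r ^ (2 * (m + 1) + 1) * (1 - r ^ 2) ^ p)) r := by
    intro r hr
    rw [Set.uIcc_of_le (by norm_num)] at hr
    have hnn : 0 ≤ 1 - r ^ 2 := by nlinarith [hr.1, hr.2]
    have h1 : HasDerivAt (fun r : ℝ => 1 - r ^ 2) (-(2 * r)) r := by
      have := (hasDerivAt_pow 2 r).const_sub 1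
      simpa using this
    have h2 := h1.rpow_const (p := p + 1) (Or.inr (by linarith))
    have h3 : HasDerivAt (fun r : ℝ => r ^ (2 * m + 2) * (1 - r ^ 2) ^ (p + 1))
        (((2 * m + 2 : ℕ) : ℝ) * r ^ (2 * m + 2 - 1) * (1 - r ^ 2) ^ (p + 1)
          + r ^ (2 * m + 2) * (-(2 * r) * (p + 1) * (1 - r ^ 2) ^ (p + 1 - 1))) r :=
      (hasDerivAt_pow (2 * m + 2) r).mul h2
    refine h3.congr_deriv ?_
    have e1 : (1 - r ^ 2) ^ (p + 1) = (1 - r ^ 2) * (1 - r ^ 2) ^ p := by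
      rw [Real.rpow_add' hnn (by positivity), Real.rpow_one]
      ring
    rw [e1, show p + 1 - 1 = p by ring, show 2 * m + 2 - 1 = 2 * m + 1 by omega]
    push_cast
    ring
  have c1 : Continuous (fun r : ℝ => (2 * (m:ℝ) + 2) * (r ^ (2 * m + 1) * (1 - r ^ 2) ^ p)) :=
    continuous_const.mul (cont_rad hp (2 * m + 1))
  have c2 : Continuous (fun r : ℝ =>
      (2 * (m:ℝ) + 2 * p + 4) * (r ^ (2 * (m + 1) + 1) * (1 - r ^ 2) ^ p)) :=
    continuous_const.mul (cont_rad hp (2 * (m + 1) + 1))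
  have h := intervalIntegral.integral_eq_sub_of_hasDerivAt hd
    ((c1.sub c2).intervalIntegrable 0 1)
  rw [intervalIntegral.integral_sub (c1.intervalIntegrable 0 1) (c2.intervalIntegrable 0 1),
    intervalIntegral.integral_const_mul, intervalIntegral.integral_const_mul] at h
  have h0 : (0:ℝ) ^ (p + 1) = 0 := Real.zero_rpow (by positivity)
  have h5 : (1:ℝ) ^ (2 * m + 2) * (1 - 1 ^ 2) ^ (p + 1) - 0 ^ (2 * m + 2) * (1 - 0 ^ 2) ^ (p + 1)
      = 0 := by
    rw [show (1:ℝ) - 1 ^ 2 = 0 by norm_num, h0, zero_pow (by omega)]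
    ring
  rw [h5] at h
  change (2 * (m:ℝ) + 2) * J p m - (2 * m + 2 * p + 4) * J p (m + 1) = 0 at h
  linarith

theorem J_eq {p : ℝ} (hp : 0 ≤ p) (m : ℕ) : J p m = ((p + 1) * pq (p + 2) m)⁻¹ / 2 := by
  induction m with
  | zero =>
    rw [J_zero hp, pq_zero]
    have hp1 : p + 1 ≠ 0 := by positivity
    field_simp
  | succ m ih =>
    have h1 := J_succ hp m
    rw [ih] at h1
    have h2 : (0:ℝ) < pq (p + 2) m := pq_pos (by linarith) m
    have h3 : (0:ℝ) < (m : ℝ) + p + 2 := by positivity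
    have h4 : (0:ℝ) < (m : ℝ) + 1 := by positivity
    have h5 : (0:ℝ) < p + 1 := by positivity
    have h6 : J p (m + 1) = ((m : ℝ) + 1) * (((p + 1) * pq (p + 2) m)⁻¹ / 2) / ((m : ℝ) + p + 2) := by
      rw [eq_div_iff h3.ne']
      linarith
    rw [h6, pq_succ]
    have h7 : (0:ℝ) < p + 2 + m := by positivity
    field_simp
    ring

theorem exp_int (n : ℤ) (hn : n ≠ 0) :
    ∫ θ in Ioo (-π) π, Complex.exp ((n : ℂ) * (θ : ℂ) * Complex.I) = 0 := by
  rw [← integral_Ioc_eq_integral_Ioo, ← intervalIntegral.integral_of_le (by linarith [Real.pi_pos])]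
  exact Pool.Agent.Helper22.Marshall.integral_exp_int n hn

/-- the integral of a monomial -/
theorem mono_int {p : ℝ} (hp : 0 ≤ p) (m n : ℕ) :
    ∫ z in ball (0 : ℂ) 1, (((1 - ‖z‖ ^ 2) ^ p : ℝ) : ℂ) * (z ^ m * conj z ^ n)
      = if m = n then ((π * ((p + 1) * pq (p + 2) m)⁻¹ : ℝ) : ℂ) else 0 := by
  have hsplit : ∀ q ∈ polarCoord.target,
      q.1 • (ball (0 : ℂ) 1).indicator
        (fun z : ℂ => (((1 - ‖z‖ ^ 2) ^ p : ℝ) : ℂ) * (z ^ m * conj z ^ n))
        (Complex.polarCoord.symm q)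
      = (Ioo (0:ℝ) 1 ×ˢ Ioo (-π) π).indicator (fun q : ℝ × ℝ =>
          ((q.1 ^ (m + n + 1) * (1 - q.1 ^ 2) ^ p : ℝ) : ℂ)
            * Complex.exp (((m : ℤ) - (n : ℤ) : ℤ) * (q.2 : ℂ) * Complex.I)) q := by
    rintro ⟨r, θ⟩ hq
    rw [polarCoord_target] at hq
    obtain ⟨hr, hθ⟩ := hq
    have hr0 : 0 < r := hr
    have hz : (Complex.polarCoord.symm (r, θ) : ℂ) = (r : ℂ) * Complex.exp ((θ : ℂ) * Complex.I) := by
      rw [Complex.polarCoord_symm_apply, Complex.exp_mul_I]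
      simp
    have hnorm : ‖(Complex.polarCoord.symm (r, θ) : ℂ)‖ = r := by
      rw [Complex.norm_polarCoord_symm]
      exact abs_of_pos hr0
    by_cases h1 : r < 1
    · have hmem : ((r, θ) : ℝ × ℝ) ∈ (Ioo (0:ℝ) 1 ×ˢ Ioo (-π) π : Set (ℝ × ℝ)) :=
        ⟨⟨hr0, h1⟩, hθ⟩
      rw [indicator_of_mem (by rw [mem_ball_zero_iff, hnorm]; exact h1), indicator_of_mem hmem]
      rw [hnorm, hz]
      simp only [map_mul, Complex.conj_ofReal]
      rw [← Complex.exp_conj]
      simp only [map_mul, Complex.conj_ofReal, Complex.conj_I]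
      rw [mul_pow, mul_pow, ← Complex.exp_nat_mul, ← Complex.exp_nat_mul]
      have h5 : Complex.exp (((m : ℤ) - (n : ℤ) : ℤ) * (θ : ℂ) * Complex.I)
          = Complex.exp ((m : ℂ) * ((θ : ℂ) * Complex.I))
            * Complex.exp ((n : ℂ) * ((θ : ℂ) * -Complex.I)) := by
        rw [← Complex.exp_add]
        congr 1
        push_cast
        ring
      rw [h5]
      simp only [Complex.real_smul]
      push_cast
      ring
    · have hmem : ((r, θ) : ℝ × ℝ) ∉ (Ioo (0:ℝ) 1 ×ˢ Ioo (-π) π : Set (ℝ × ℝ)) :=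
        fun h => h1 h.1.2
      rw [indicator_of_notMem (by rw [mem_ball_zero_iff, hnorm]; exact h1),
        indicator_of_notMem hmem, smul_zero]
  rw [← integral_indicator measurableSet_ball, ← Complex.integral_comp_polarCoord_symm,
    setIntegral_congr_fun polarCoord.open_target.measurableSet hsplit,
    setIntegral_indicator (measurableSet_Ioo.prod measurableSet_Ioo)]
  have hinter : polarCoord.target ∩ (Ioo (0:ℝ) 1 ×ˢ Ioo (-π) π) = Ioo (0:ℝ) 1 ×ˢ Ioo (-π) π := by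
    rw [polarCoord_target]
    apply inter_eq_self_of_subset_right
    exact prod_mono Ioo_subset_Ioi_self Subset.rfl
  rw [hinter, Measure.volume_eq_prod]
  rw [setIntegral_prod_mul (fun r : ℝ => ((r ^ (m + n + 1) * (1 - r ^ 2) ^ p : ℝ) : ℂ))
    (fun θ : ℝ => Complex.exp (((m : ℤ) - (n : ℤ) : ℤ) * (θ : ℂ) * Complex.I))]
  by_cases hmn : m = n
  · subst hmn
    rw [if_pos rfl]
    have h1 : ∫ θ in Ioo (-π) π, Complex.exp (((m : ℤ) - (m : ℤ) : ℤ) * (θ : ℂ) * Complex.I)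
        = ((2 * π : ℝ) : ℂ) := by
      simp only [sub_self, Int.cast_zero, zero_mul, Complex.exp_zero]
      rw [setIntegral_const, Real.volume_real_Ioo_of_le (by linarith [Real.pi_pos])]
      simp only [sub_neg_eq_add, Complex.real_smul, mul_one]
      push_cast
      ring
    have h2 : ∫ r in Ioo (0:ℝ) 1, ((r ^ (m + m + 1) * (1 - r ^ 2) ^ p : ℝ) : ℂ) = ((J p m : ℝ) : ℂ) := by
      rw [integral_complex_ofReal]
      congr 1
      unfold J
      rw [intervalIntegral.integral_of_le (by norm_num), integral_Ioc_eq_integral_Ioo]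
      rw [show m + m + 1 = 2 * m + 1 by ring]
    rw [h1, h2, J_eq hp]
    push_cast
    ring
  · rw [if_neg hmn, exp_int _ (sub_ne_zero.mpr (by exact_mod_cast hmn)), mul_zero]

end Bridge

open Bridge

theorem bridge {ρ : ℝ} (hρ : 1 < ρ) {F K : ℂ → ℂ} (hF : DifferentiableOn ℂ F (ball 0 ρ))
    (hK : DifferentiableOn ℂ K (ball 0 ρ)) {p : ℝ} (hp : 0 ≤ p) :
    HasSum (fun m : ℕ => ((p + 1) * pq (p + 2) m)⁻¹ * (coeff F m * conj (coeff K m)).re)
      ((1 / π) * ∫ z in ball (0 : ℂ) 1, (1 - ‖z‖ ^ 2) ^ p * (F z * conj (K z)).re) := by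
  have hsF : Summable (fun n => ‖coeff F n‖) := by
    simpa using summable_c hF (r := 1) zero_le_one hρ
  have hsK : Summable (fun n => ‖coeff K n‖) := by
    simpa using summable_c hK (r := 1) zero_le_one hρ
  have hcw : Continuous (fun z : ℂ => (((1 - ‖z‖ ^ 2) ^ p : ℝ) : ℂ)) := by
    have h1 : Continuous (fun z : ℂ => (1 - ‖z‖ ^ 2 : ℝ) ^ p) := by
      apply Continuous.rpow_const (by fun_prop)
      intro z
      right
      exact hp
    exact Complex.continuous_ofReal.comp h1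
  -- the double series
  let T : ℕ × ℕ → ℂ → ℂ := fun q z =>
    (((1 - ‖z‖ ^ 2) ^ p : ℝ) : ℂ) * ((coeff F q.1 * z ^ q.1) * conj (coeff K q.2 * z ^ q.2))
  have hTc : ∀ q, Continuous (T q) := by
    intro q
    exact hcw.mul (((continuous_const.mul (continuous_pow _))).mul
      (Complex.continuous_conj.comp (continuous_const.mul (continuous_pow _))))
  have hTi : ∀ q, IntegrableOn (T q) (ball (0 : ℂ) 1) := by
    intro q
    exact ((hTc q).continuousOn.integrableOn_compact (isCompact_closedBall 0 1)).mono_set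
      ball_subset_closedBall
  have hpt : ∀ z ∈ ball (0 : ℂ) 1, HasSum (fun q => T q z)
      ((((1 - ‖z‖ ^ 2) ^ p : ℝ) : ℂ) * (F z * conj (K z))) := by
    intro z hz
    have hz1 : ‖z‖ < 1 := mem_ball_zero_iff.mp hz
    have h1 := hasSum_c hF (z := z) (by linarith)
    have h2 := (hasSum_c hK (z := z) (by linarith)).map (starRingEnd ℂ) Complex.continuous_conj
    have h2' : HasSum (fun n => conj (coeff K n * z ^ n)) (conj (K z)) := h2
    have hn1 : Summable (fun n => ‖coeff F n * z ^ n‖) := h1.summable.norm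
    have hn2 : Summable (fun n => ‖conj (coeff K n * z ^ n)‖) := h2'.summable.norm
    have h3 := Pool.Agent.Helper22.Marshall.hasSum_mul_aux (fun n => coeff F n * z ^ n)
      (fun n => conj (coeff K n * z ^ n)) (F z) (conj (K z)) h1 h2' hn1 hn2
    exact h3.mul_left (((1 - ‖z‖ ^ 2) ^ p : ℝ) : ℂ)
  have hbound : ∀ q, ∫ z in ball (0 : ℂ) 1, ‖T q z‖ ≤ π * (‖coeff F q.1‖ * ‖coeff K q.2‖) := by
    intro q
    have h1 : ∀ z ∈ ball (0 : ℂ) 1, ‖T q z‖ ≤ ‖coeff F q.1‖ * ‖coeff K q.2‖ := by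
      intro z hz
      have hz1 : ‖z‖ < 1 := mem_ball_zero_iff.mp hz
      have hz0 := norm_nonneg z
      have h3 : ‖(((1 - ‖z‖ ^ 2) ^ p : ℝ) : ℂ)‖ ≤ 1 := by
        rw [Complex.norm_real, Real.norm_of_nonneg (Real.rpow_nonneg (by nlinarith) _)]
        apply Real.rpow_le_one (by nlinarith) (by nlinarith) hp
      have h4 : ∀ k : ℕ, ‖z‖ ^ k ≤ 1 := fun k => pow_le_one₀ hz0 hz1.le
      simp only [T, norm_mul, Complex.norm_conj, norm_pow]
      have h5 : ‖coeff F q.1‖ * ‖z‖ ^ q.1 ≤ ‖coeff F q.1‖ :=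
        mul_le_of_le_one_right (norm_nonneg _) (h4 _)
      have h6 : ‖coeff K q.2‖ * ‖z‖ ^ q.2 ≤ ‖coeff K q.2‖ :=
        mul_le_of_le_one_right (norm_nonneg _) (h4 _)
      calc ‖(((1 - ‖z‖ ^ 2) ^ p : ℝ) : ℂ)‖ * (‖coeff F q.1‖ * ‖z‖ ^ q.1
            * (‖coeff K q.2‖ * ‖z‖ ^ q.2))
          ≤ 1 * (‖coeff F q.1‖ * ‖coeff K q.2‖) :=
            mul_le_mul h3 (mul_le_mul h5 h6 (by positivity) (norm_nonneg _)) (by positivity)
              zero_le_one
        _ = _ := one_mul _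
    have hfin : volume (ball (0 : ℂ) 1) ≠ ⊤ := measure_ball_lt_top.ne
    have h2 := setIntegral_mono_on (hTi q).norm
      (integrableOn_const (C := ‖coeff F q.1‖ * ‖coeff K q.2‖) hfin) measurableSet_ball h1
    refine h2.trans (le_of_eq ?_)
    rw [setIntegral_const, smul_eq_mul]
    congr 1
    rw [measureReal_def, Complex.volume_ball]
    simp
  have hsum : HasSum (fun q => ∫ z in ball (0 : ℂ) 1, T q z)
      (∫ z in ball (0 : ℂ) 1, (((1 - ‖z‖ ^ 2) ^ p : ℝ) : ℂ) * (F z * conj (K z))) := by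
    have h1 := hasSum_integral_of_summable_integral_norm (μ := volume.restrict (ball (0 : ℂ) 1))
      (F := T) hTi (Summable.of_nonneg_of_le
        (fun q => integral_nonneg fun z => norm_nonneg _) hbound
        ((summable_mul_of_summable_norm (f := fun n => ‖coeff F n‖) (g := fun n => ‖coeff K n‖)
          (by simpa using hsF) (by simpa using hsK)).mul_left π))
    have h2 : ∫ z in ball (0 : ℂ) 1, ∑' q, T q z
        = ∫ z in ball (0 : ℂ) 1, (((1 - ‖z‖ ^ 2) ^ p : ℝ) : ℂ) * (F z * conj (K z)) := by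
      apply setIntegral_congr_fun measurableSet_ball
      intro z hz
      exact (hpt z hz).tsum_eq
    rw [h2] at h1
    exact h1
  have hval : ∀ q : ℕ × ℕ, ∫ z in ball (0 : ℂ) 1, T q z
      = if q.1 = q.2 then ((π * ((p + 1) * pq (p + 2) q.1)⁻¹ : ℝ) : ℂ)
          * (coeff F q.1 * conj (coeff K q.1)) else 0 := by
    rintro ⟨m, n⟩
    have h1 : ∀ z : ℂ, T (m, n) z = (coeff F m * conj (coeff K n))
        * ((((1 - ‖z‖ ^ 2) ^ p : ℝ) : ℂ) * (z ^ m * conj z ^ n)) := by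
      intro z
      simp only [T, map_mul, map_pow]
      ring
    simp_rw [h1]
    rw [integral_const_mul, mono_int hp]
    by_cases hmn : m = n
    · subst hmn
      simp only [if_true]
      ring
    · simp only [if_neg hmn, mul_zero]
  simp_rw [hval] at hsum
  have hdiag : HasSum (fun n : ℕ => ((π * ((p + 1) * pq (p + 2) n)⁻¹ : ℝ) : ℂ)
      * (coeff F n * conj (coeff K n)))
      (∫ z in ball (0 : ℂ) 1, (((1 - ‖z‖ ^ 2) ^ p : ℝ) : ℂ) * (F z * conj (K z))) := by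
    have hinj : Function.Injective (fun n : ℕ => (n, n)) := by
      intro a b h
      exact (Prod.mk.inj h).1
    have := (hinj.hasSum_iff (f := fun q : ℕ × ℕ =>
      if q.1 = q.2 then ((π * ((p + 1) * pq (p + 2) q.1)⁻¹ : ℝ) : ℂ)
          * (coeff F q.1 * conj (coeff K q.1)) else 0)
      (a := ∫ z in ball (0 : ℂ) 1, (((1 - ‖z‖ ^ 2) ^ p : ℝ) : ℂ) * (F z * conj (K z))) ?_).mpr hsum
    · simpa [Function.comp_def] using this
    · rintro ⟨a, b⟩ hab
      rw [if_neg]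
      intro h
      apply hab
      refine ⟨a, ?_⟩
      simp only [Prod.mk.injEq, true_and]
      exact h
  have hre := Complex.hasSum_re hdiag
  have hcF : ContinuousOn F (closedBall 0 1) := hF.continuousOn.mono (closedBall_subset_ball hρ)
  have hcK : ContinuousOn K (closedBall 0 1) := hK.continuousOn.mono (closedBall_subset_ball hρ)
  have hInt : IntegrableOn (fun z => (((1 - ‖z‖ ^ 2) ^ p : ℝ) : ℂ) * (F z * conj (K z)))
      (ball (0 : ℂ) 1) := by
    apply (ContinuousOn.integrableOn_compact (isCompact_closedBall 0 1) _).mono_set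
      ball_subset_closedBall
    exact hcw.continuousOn.mul (hcF.mul (Complex.continuous_conj.comp_continuousOn hcK))
  have h3 : (∫ z in ball (0 : ℂ) 1, (((1 - ‖z‖ ^ 2) ^ p : ℝ) : ℂ) * (F z * conj (K z))).re
      = ∫ z in ball (0 : ℂ) 1, (1 - ‖z‖ ^ 2) ^ p * (F z * conj (K z)).re := by
    have h4 := integral_re (μ := volume.restrict (ball (0 : ℂ) 1)) hInt
    have h5 : ∀ z : ℂ, RCLike.re ((((1 - ‖z‖ ^ 2) ^ p : ℝ) : ℂ) * (F z * conj (K z)))
        = (1 - ‖z‖ ^ 2) ^ p * (F z * conj (K z)).re := by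
      intro z
      exact Complex.re_ofReal_mul _ _
    simp_rw [h5] at h4
    exact h4.symm
  rw [h3] at hre
  have h6 := hre.mul_left (1 / π)
  have h7 : (fun m : ℕ => ((p + 1) * pq (p + 2) m)⁻¹ * (coeff F m * conj (coeff K m)).re)
      = fun n : ℕ => 1 / π * (((π * ((p + 1) * pq (p + 2) n)⁻¹ : ℝ) : ℂ)
        * (coeff F n * conj (coeff K n))).re := by
    funext n
    rw [Complex.re_ofReal_mul]
    have hpi := Real.pi_pos
    field_simp
  rw [h7]
  exact h6

theorem coeff_decay {ρ : ℝ} (hρ : 1 < ρ) {F : ℂ → ℂ} (hF : DifferentiableOn ℂ F (ball 0 ρ)) (k : ℕ) :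
    Summable (fun m : ℕ => (m : ℝ) ^ k * ‖coeff F m‖ ^ 2) := by
  obtain ⟨r, hr1, hr2⟩ := exists_between hρ
  have hr0 : 0 < r := by linarith
  have hs := summable_c hF hr0.le hr2
  obtain ⟨C, hC⟩ : ∃ C : ℝ, ∀ n, ‖coeff F n‖ * r ^ n ≤ C := by
    obtain ⟨C, hC⟩ := (hs.tendsto_atTop_zero).bddAbove_range
    exact ⟨C, fun n => hC ⟨n, rfl⟩⟩
  have hlt : ‖(r⁻¹ ^ 2 : ℝ)‖ < 1 := by
    rw [Real.norm_of_nonneg (by positivity)]
    have h1 : r⁻¹ < 1 := inv_lt_one_of_one_lt₀ hr1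
    have h2 : 0 < r⁻¹ := by positivity
    nlinarith
  have hg := (summable_pow_mul_geometric_of_norm_lt_one k hlt).mul_right (C ^ 2)
  apply Summable.of_nonneg_of_le (fun m => by positivity) _ hg
  intro m
  have h1 : ‖coeff F m‖ ≤ C * r⁻¹ ^ m := by
    have h2 := hC m
    rw [inv_pow]
    rw [← div_eq_mul_inv, le_div_iff₀ (by positivity)]
    exact h2
  have h2 : ‖coeff F m‖ ^ 2 ≤ (C * r⁻¹ ^ m) ^ 2 := pow_le_pow_left₀ (norm_nonneg _) h1 2
  calc (m : ℝ) ^ k * ‖coeff F m‖ ^ 2 ≤ (m : ℝ) ^ k * (C * r⁻¹ ^ m) ^ 2 :=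
        mul_le_mul_of_nonneg_left h2 (by positivity)
    _ = (m : ℝ) ^ k * (r⁻¹ ^ 2) ^ m * C ^ 2 := by
        rw [mul_pow, ← pow_mul, ← pow_mul, mul_comm m 2]
        ring

end Pool.Agent.Helper39.MH
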