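import Mathlib
import Pool.Agent.Helper39.MH.Defs
import Pool.Agent.Helper24.Br.Seq

/-!
MP_16b0ee, project MH, module MH-3: the area inequality summed over all Faber type polynomials
(finite form).
-/

set_option autoImplicit false

open MeasureTheory Set Metric Filter Topology
open scoped Real ComplexConjugate

namespace Pool.Agent.Helper39.MH

open Pool.Agent.Helper22.Half
open Pool.Agent.Helper22.Marshall (coeff SepHol LogPhi dcoeff GLe gLe_one)
open Pool.Agent.Helper39.Area (Ext phi)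
open Pool.Agent.Helper24.Br (Um tt upper_le)

theorem area_sum {β H : ℂ → ℂ} {Φ : ℂ → ℂ → ℂ} (hE : Ext β) (hΦ : LogPhi β H Φ) {b : ℝ}
    (hb : 0 < b) (M : ℕ) :
    ∑ m ∈ Finset.range M, Pf (-1) b (diagc (EE Φ (-1)) m) m
      ≤ ∑ m ∈ Finset.range M, Um b (diagc (EE Φ (-1)) m) m := by
  have hσ : 0 < b + 1 - 2 * (-1 : ℂ).re := by
    simp only [Complex.neg_re, Complex.one_re]
    linarith
  have h1 := double_fin (S := fun m i => ‖Vd (-1) (diagc (EE Φ (-1)) m) m i‖ ^ 2)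
    (lam := fun i => (pq (b + 1 - 2 * (-1 : ℂ).re) i)⁻¹) (κ := 1 ^ 2)
    (fun i => (inv_pos.mpr (pq_pos hσ i)).le)
    (fun i M => area_V (gLe_one hE) hE hΦ (-1) i M) M
  rw [one_pow, one_mul] at h1
  have e1 : ∑ m ∈ Finset.range M, ∑ i ∈ Finset.range M, ((m - i : ℕ) : ℝ)
      * (pq (b + 1 - 2 * (-1 : ℂ).re) i)⁻¹ * ‖Vd (-1) (diagc (EE Φ (-1)) m) m i‖ ^ 2
      = ∑ m ∈ Finset.range M, Pf (-1) b (diagc (EE Φ (-1)) m) m := by
    apply Finset.sum_congr rfl
    intro m hm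
    exact lower_eq _ (Finset.mem_range.mp hm)
  rw [e1] at h1
  refine h1.trans ?_
  apply Finset.sum_le_sum
  intro m _
  have h3 := upper_eq (fun i => (pq (b + 1 - 2 * (-1 : ℂ).re) i)⁻¹
    * ‖Vd (-1) (diagc (EE Φ (-1)) m) m i‖ ^ 2) m M
  simp only [← mul_assoc] at h3 ⊢
  rw [h3]
  exact upper_le hb _ m _

end Pool.Agent.Helper39.MH
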