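import Mathlib
import Pool.Agent.Helper39.MH.Defs
import Pool.Agent.Helper22.Marshall.DoubleSeries

/-!
MP_16b0ee, project MH, module MH-7: bounds for the jets and for `exp (-H)`, uniform in the class.
-/

set_option autoImplicit false

open MeasureTheory Set Metric Filter Topology
open scoped Real ComplexConjugate

namespace Pool.Agent.Helper39.MH

open Pool.Agent.Helper22.Half
open Pool.Agent.Helper22.Marshall (coeff SepHol LogPhi dcoeff GLe)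
open Pool.Agent.Helper39.Area (Ext phi)

namespace Bounds

theorem one_sub_sq_pos {z : ℂ} (hz : z ∈ ball (0 : ℂ) 1) : 0 < 1 - ‖z‖ ^ 2 := by
  have h1 : ‖z‖ < 1 := mem_ball_zero_iff.mp hz
  have h0 := norm_nonneg z
  nlinarith

theorem th_diff {F : ℂ → ℂ} (hF : DifferentiableOn ℂ F (ball 0 1)) :
    DifferentiableOn ℂ (th F) (ball 0 1) := by
  have h : DifferentiableOn ℂ (fun z : ℂ => z * deriv F z) (ball 0 1) :=
    differentiableOn_id.mul (hF.deriv isOpen_ball)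
  exact h

/-- the Euler operator raises the order of growth by one -/
theorem th_bound {F : ℂ → ℂ} (hF : DifferentiableOn ℂ F (ball 0 1)) {w : ℕ} {C : ℝ}
    (hC : ∀ z ∈ ball (0 : ℂ) 1, (1 - ‖z‖ ^ 2) ^ w * ‖F z‖ ≤ C) {z : ℂ}
    (hz : z ∈ ball (0 : ℂ) 1) :
    (1 - ‖z‖ ^ 2) ^ (w + 1) * ‖th F z‖ ≤ 4 ^ (w + 1) * C := by
  have hz1 : ‖z‖ < 1 := mem_ball_zero_iff.mp hz
  have hz0 := norm_nonneg z
  have hpos := one_sub_sq_pos hz
  set s : ℝ := 1 - ‖z‖ ^ 2 with hs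
  set r : ℝ := (1 - ‖z‖) / 2 with hr
  have hr0 : 0 < r := by rw [hr]; linarith
  have hrs : s / 4 ≤ r := by rw [hr, hs]; nlinarith
  have hC0 : 0 ≤ C := le_trans (mul_nonneg (pow_nonneg hpos.le _) (norm_nonneg _)) (hC z hz)
  have hsub : closedBall z r ⊆ ball (0 : ℂ) 1 := by
    intro ζ hζ
    have h1 : ‖ζ - z‖ ≤ r := by simpa [dist_eq_norm] using hζ
    have h2 : ‖ζ‖ ≤ ‖ζ - z‖ + ‖z‖ := by
      have := norm_add_le (ζ - z) z
      simpa using this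
    rw [mem_ball_zero_iff]
    rw [hr] at h1
    linarith
  have hd : DiffContOnCl ℂ F (ball z r) := by
    apply DifferentiableOn.diffContOnCl
    apply hF.mono
    exact closure_ball_subset_closedBall.trans hsub
  have key : ∀ ζ ∈ sphere z r, ‖F ζ‖ ≤ 4 ^ w * C / s ^ w := by
    intro ζ hζ
    have hζb : ζ ∈ ball (0 : ℂ) 1 := hsub (sphere_subset_closedBall hζ)
    have h1 : ‖ζ - z‖ = r := by simpa [dist_eq_norm] using hζ
    have h2 : ‖ζ‖ ≤ ‖ζ - z‖ + ‖z‖ := by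
      have := norm_add_le (ζ - z) z
      simpa using this
    have h3 : ‖ζ‖ ≤ (1 + ‖z‖) / 2 := by rw [h1, hr] at h2; linarith
    have h4 : s / 4 ≤ 1 - ‖ζ‖ ^ 2 := by
      have h5 := norm_nonneg ζ
      have h6 : ‖ζ‖ ^ 2 ≤ ‖ζ‖ := by nlinarith
      rw [hs]
      nlinarith
    have h5 : (s / 4) ^ w * ‖F ζ‖ ≤ C :=
      le_trans (mul_le_mul_of_nonneg_right (pow_le_pow_left₀ (by positivity) h4 w)
        (norm_nonneg _)) (hC ζ hζb)
    rw [div_pow, div_mul_eq_mul_div, div_le_iff₀ (by positivity)] at h5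
    rw [le_div_iff₀ (by positivity)]
    linarith
  have h7 := Complex.norm_deriv_le_of_forall_mem_sphere_norm_le hr0 hd key
  have h8 : ‖th F z‖ ≤ 4 ^ w * C / s ^ w / r := by
    unfold th
    rw [norm_mul]
    calc ‖z‖ * ‖deriv F z‖ ≤ 1 * ‖deriv F z‖ :=
          mul_le_mul_of_nonneg_right hz1.le (norm_nonneg _)
      _ = ‖deriv F z‖ := one_mul _
      _ ≤ _ := h7
  have h9 : 4 ^ w * C / s ^ w / r ≤ 4 ^ w * C / s ^ w / (s / 4) := by
    apply div_le_div_of_nonneg_left _ (by positivity) hrs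
    positivity
  calc s ^ (w + 1) * ‖th F z‖ ≤ s ^ (w + 1) * (4 ^ w * C / s ^ w / (s / 4)) :=
        mul_le_mul_of_nonneg_left (h8.trans h9) (by positivity)
    _ = 4 ^ (w + 1) * C := by
        have hsw : s ^ w ≠ 0 := (pow_pos hpos w).ne'
        have hs0 : s ≠ 0 := hpos.ne'
        field_simp
        ring

theorem gg_diff1 {H : ℂ → ℂ} (hH : DifferentiableOn ℂ H (ball 0 1)) (n : ℕ) :
    DifferentiableOn ℂ (gg H n) (ball 0 1) := by
  induction n using Nat.strong_induction_on with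
  | _ n ih =>
    match n with
    | 0 =>
      have h : DifferentiableOn ℂ (fun z => -(th H z) / 2) (ball (0 : ℂ) 1) :=
        (th_diff hH).neg.div_const 2
      rw [gg]
      exact h
    | 1 =>
      have h0 := ih 0 (by norm_num)
      have h : DifferentiableOn ℂ (fun z => (th (gg H 0) z + (gg H 0 z) ^ 2) / 3)
          (ball (0 : ℂ) 1) := ((th_diff h0).add (h0.pow 2)).div_const 3
      rw [gg]
      exact h
    | (n + 2) =>
      have h1 := ih (n + 1) (by omega)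
      have h2 : ∀ i : Fin n, DifferentiableOn ℂ (fun z => gg H (i.1 + 1) z * gg H (n - i.1) z)
          (ball (0 : ℂ) 1) := fun i =>
        (ih (i.1 + 1) (by omega)).mul (ih (n - i.1) (by omega))
      have h : DifferentiableOn ℂ (fun z => (th (gg H (n + 1)) z
          - ∑ i : Fin n, gg H (i.1 + 1) z * gg H (n - i.1) z) / ((n : ℂ) + 4))
          (ball (0 : ℂ) 1) :=
        ((th_diff h1).sub (DifferentiableOn.fun_sum fun i _ => h2 i)).div_const _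
      rw [gg]
      exact h

/-- the hypotheses on `H` -/
def Hyp (H : ℂ → ℂ) : Prop :=
  DifferentiableOn ℂ H (ball 0 1) ∧ ∀ z ∈ ball (0 : ℂ) 1, (1 - ‖z‖ ^ 2) * ‖deriv H z‖ ≤ 28

theorem gg_bound_one (n : ℕ) : ∃ C : ℝ, 0 ≤ C ∧ ∀ H : ℂ → ℂ, Hyp H →
    ∀ z ∈ ball (0 : ℂ) 1, (1 - ‖z‖ ^ 2) ^ (n + 1) * ‖gg H n z‖ ≤ C := by
  induction n using Nat.strong_induction_on with
  | _ n ih =>
    match n with
    | 0 =>
      refine ⟨14, by norm_num, fun H hH z hz => ?_⟩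
      have h1 := hH.2 z hz
      have hz1 : ‖z‖ < 1 := mem_ball_zero_iff.mp hz
      have hpos := one_sub_sq_pos hz
      have e : gg H 0 z = -(th H z) / 2 := by rw [gg]
      have h2 : ‖gg H 0 z‖ ≤ ‖deriv H z‖ / 2 := by
        rw [e, norm_div, norm_neg]
        unfold th
        rw [norm_mul]
        have h3 : ‖z‖ * ‖deriv H z‖ ≤ 1 * ‖deriv H z‖ :=
          mul_le_mul_of_nonneg_right hz1.le (norm_nonneg _)
        have h4 : ‖(2 : ℂ)‖ = 2 := by simp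
        rw [h4]
        linarith
      have h3 : (1 - ‖z‖ ^ 2) * ‖gg H 0 z‖ ≤ (1 - ‖z‖ ^ 2) * (‖deriv H z‖ / 2) :=
        mul_le_mul_of_nonneg_left h2 hpos.le
      simp only [zero_add, pow_one]
      linarith
    | 1 =>
      obtain ⟨C, hC0, hC⟩ := ih 0 (by norm_num)
      refine ⟨(4 ^ (1 + 1) * C + C * C) / 3, by positivity, fun H hH z hz => ?_⟩
      have hpos := one_sub_sq_pos hz
      have hd := gg_diff1 hH.1 0
      have h1 := th_bound hd (w := 1) (C := C) (fun z hz => by simpa using hC H hH z hz) hz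
      have h2 := hC H hH z hz
      have e : gg H 1 z = (th (gg H 0) z + (gg H 0 z) ^ 2) / 3 := by conv_lhs => rw [gg]
      have h3 : ‖gg H 1 z‖ ≤ (‖th (gg H 0) z‖ + ‖gg H 0 z‖ * ‖gg H 0 z‖) / 3 := by
        rw [e, norm_div]
        have h4 : ‖(3 : ℂ)‖ = 3 := by simp
        rw [h4]
        apply div_le_div_of_nonneg_right _ (by norm_num)
        calc ‖th (gg H 0) z + gg H 0 z ^ 2‖ ≤ ‖th (gg H 0) z‖ + ‖gg H 0 z ^ 2‖ := norm_add_le _ _
          _ = ‖th (gg H 0) z‖ + ‖gg H 0 z‖ * ‖gg H 0 z‖ := by rw [norm_pow, sq]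
      have h5 : ((1 - ‖z‖ ^ 2) ^ (0 + 1) * ‖gg H 0 z‖) * ((1 - ‖z‖ ^ 2) ^ (0 + 1) * ‖gg H 0 z‖)
          ≤ C * C := mul_le_mul h2 h2 (by positivity) hC0
      calc (1 - ‖z‖ ^ 2) ^ (1 + 1) * ‖gg H 1 z‖
          ≤ (1 - ‖z‖ ^ 2) ^ (1 + 1) * ((‖th (gg H 0) z‖ + ‖gg H 0 z‖ * ‖gg H 0 z‖) / 3) :=
            mul_le_mul_of_nonneg_left h3 (by positivity)
        _ = ((1 - ‖z‖ ^ 2) ^ (1 + 1) * ‖th (gg H 0) z‖
            + ((1 - ‖z‖ ^ 2) ^ (0 + 1) * ‖gg H 0 z‖)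
              * ((1 - ‖z‖ ^ 2) ^ (0 + 1) * ‖gg H 0 z‖)) / 3 := by ring
        _ ≤ (4 ^ (1 + 1) * C + C * C) / 3 := by
            apply div_le_div_of_nonneg_right _ (by norm_num)
            linarith
    | (n + 2) =>
      have hex : ∀ k : Fin (n + 2), ∃ C : ℝ, 0 ≤ C ∧ ∀ H : ℂ → ℂ, Hyp H →
          ∀ z ∈ ball (0 : ℂ) 1, (1 - ‖z‖ ^ 2) ^ (k.1 + 1) * ‖gg H k.1 z‖ ≤ C :=
        fun k => ih k.1 k.2
      choose B hB0 hB using hex
      let B' : ℕ → ℝ := fun k => if h : k < n + 2 then B ⟨k, h⟩ else 0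
      have hB'0 : ∀ k, 0 ≤ B' k := by
        intro k
        simp only [B']
        split_ifs with h
        · exact hB0 _
        · exact le_refl _
      have hB' : ∀ k, k < n + 2 → ∀ H : ℂ → ℂ, Hyp H → ∀ z ∈ ball (0 : ℂ) 1,
          (1 - ‖z‖ ^ 2) ^ (k + 1) * ‖gg H k z‖ ≤ B' k := by
        intro k hk H hH z hz
        simp only [B', dif_pos hk]
        exact hB ⟨k, hk⟩ H hH z hz
      refine ⟨(4 ^ (n + 1 + 1 + 1) * B' (n + 1)
        + ∑ i : Fin n, B' (i.1 + 1) * B' (n - i.1)) / ((n : ℝ) + 4), ?_, fun H hH z hz => ?_⟩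
      · have : 0 ≤ ∑ i : Fin n, B' (i.1 + 1) * B' (n - i.1) :=
          Finset.sum_nonneg fun i _ => mul_nonneg (hB'0 _) (hB'0 _)
        have h2 := hB'0 (n + 1)
        positivity
      · have hpos := one_sub_sq_pos hz
        have hd := gg_diff1 hH.1 (n + 1)
        have h1 := th_bound hd (w := n + 1 + 1) (C := B' (n + 1))
          (fun z hz => hB' (n + 1) (by omega) H hH z hz) hz
        have e : gg H (n + 2) z = (th (gg H (n + 1)) z
          - ∑ i : Fin n, gg H (i.1 + 1) z * gg H (n - i.1) z) / ((n : ℂ) + 4) := by rw [gg]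
        have h4 : ‖(n : ℂ) + 4‖ = (n : ℝ) + 4 := by
          have : ((n : ℂ) + 4) = (((n : ℝ) + 4 : ℝ) : ℂ) := by push_cast; ring
          rw [this, Complex.norm_real, Real.norm_of_nonneg (by positivity)]
        have h3 : ‖gg H (n + 2) z‖ ≤ (‖th (gg H (n + 1)) z‖
            + ∑ i : Fin n, ‖gg H (i.1 + 1) z‖ * ‖gg H (n - i.1) z‖) / ((n : ℝ) + 4) := by
          rw [e, norm_div, h4]
          apply div_le_div_of_nonneg_right _ (by positivity)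
          refine (norm_sub_le _ _).trans ?_
          gcongr
          refine (norm_sum_le _ _).trans ?_
          apply Finset.sum_le_sum
          intro i _
          rw [norm_mul]
        have h5 : ∀ i : Fin n, (1 - ‖z‖ ^ 2) ^ (n + 2 + 1)
            * (‖gg H (i.1 + 1) z‖ * ‖gg H (n - i.1) z‖) ≤ B' (i.1 + 1) * B' (n - i.1) := by
          intro i
          have hi := i.2
          have e1 : n + 2 + 1 = (i.1 + 1 + 1) + (n - i.1 + 1) := by omega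
          have h6 := hB' (i.1 + 1) (by omega) H hH z hz
          have h7 := hB' (n - i.1) (by omega) H hH z hz
          calc (1 - ‖z‖ ^ 2) ^ (n + 2 + 1) * (‖gg H (i.1 + 1) z‖ * ‖gg H (n - i.1) z‖)
              = ((1 - ‖z‖ ^ 2) ^ (i.1 + 1 + 1) * ‖gg H (i.1 + 1) z‖)
                * ((1 - ‖z‖ ^ 2) ^ (n - i.1 + 1) * ‖gg H (n - i.1) z‖) := by
                rw [e1, pow_add]; ring
            _ ≤ B' (i.1 + 1) * B' (n - i.1) :=
                mul_le_mul h6 h7 (by positivity) (hB'0 _)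
        calc (1 - ‖z‖ ^ 2) ^ (n + 2 + 1) * ‖gg H (n + 2) z‖
            ≤ (1 - ‖z‖ ^ 2) ^ (n + 2 + 1) * ((‖th (gg H (n + 1)) z‖
              + ∑ i : Fin n, ‖gg H (i.1 + 1) z‖ * ‖gg H (n - i.1) z‖) / ((n : ℝ) + 4)) :=
              mul_le_mul_of_nonneg_left h3 (by positivity)
          _ = ((1 - ‖z‖ ^ 2) ^ (n + 1 + 1 + 1) * ‖th (gg H (n + 1)) z‖
              + ∑ i : Fin n, (1 - ‖z‖ ^ 2) ^ (n + 2 + 1)
                * (‖gg H (i.1 + 1) z‖ * ‖gg H (n - i.1) z‖)) / ((n : ℝ) + 4) := by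
              rw [← Finset.mul_sum]; ring
          _ ≤ _ := by
              apply div_le_div_of_nonneg_right _ (by positivity)
              exact add_le_add h1 (Finset.sum_le_sum fun i _ => h5 i)

theorem norm_H_le {H : ℂ → ℂ} (hH : Hyp H) (h0 : H 0 = 0) {δ : ℝ} (hδ : 0 < δ) {z : ℂ}
    (hz : z ∈ ball (0 : ℂ) 1) (hzδ : δ ≤ 1 - ‖z‖ ^ 2) : ‖H z‖ ≤ 28 / δ := by
  have hz1 : ‖z‖ < 1 := mem_ball_zero_iff.mp hz
  have hsub : closedBall (0 : ℂ) ‖z‖ ⊆ ball (0 : ℂ) 1 := closedBall_subset_ball hz1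
  have hb : ∀ w ∈ closedBall (0 : ℂ) ‖z‖, ‖deriv H w‖ ≤ 28 / δ := by
    intro w hw
    have hw1 : ‖w‖ ≤ ‖z‖ := mem_closedBall_zero_iff.mp hw
    have hw2 : ‖w‖ ^ 2 ≤ ‖z‖ ^ 2 := pow_le_pow_left₀ (norm_nonneg _) hw1 2
    have h1 := hH.2 w (hsub hw)
    rw [le_div_iff₀ hδ]
    have h2 : δ * ‖deriv H w‖ ≤ (1 - ‖w‖ ^ 2) * ‖deriv H w‖ :=
      mul_le_mul_of_nonneg_right (by linarith) (norm_nonneg _)
    linarith
  have hd : ∀ w ∈ closedBall (0 : ℂ) ‖z‖, DifferentiableAt ℂ H w := fun w hw =>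
    hH.1.differentiableAt (isOpen_ball.mem_nhds (hsub hw))
  have h := Convex.norm_image_sub_le_of_norm_deriv_le (𝕜 := ℂ) hd hb
    (convex_closedBall (0 : ℂ) ‖z‖) (mem_closedBall_self (norm_nonneg z))
    (mem_closedBall_zero_iff.mpr le_rfl)
  rw [h0, sub_zero, sub_zero] at h
  calc ‖H z‖ ≤ 28 / δ * ‖z‖ := h
    _ ≤ 28 / δ * 1 := mul_le_mul_of_nonneg_left hz1.le (by positivity)
    _ = 28 / δ := mul_one _

theorem norm_exp_le {H : ℂ → ℂ} (hH : Hyp H) (h0 : H 0 = 0) {δ : ℝ} (hδ : 0 < δ) {z : ℂ}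
    (hz : z ∈ ball (0 : ℂ) 1) (hzδ : δ ≤ 1 - ‖z‖ ^ 2) :
    ‖Complex.exp (-H z)‖ ≤ Real.exp (28 / δ) := by
  rw [Complex.norm_exp]
  apply Real.exp_le_exp.mpr
  have h1 := norm_H_le hH h0 hδ hz hzδ
  have h2 : (-H z).re ≤ ‖-H z‖ := Complex.re_le_norm _
  rw [norm_neg] at h2
  linarith

end Bounds

open Bounds

theorem gg_bound : ∃ Cb : ℕ → ℝ, (∀ n, 0 ≤ Cb n) ∧ ∀ H : ℂ → ℂ,
    DifferentiableOn ℂ H (ball 0 1) → (∀ z ∈ ball (0 : ℂ) 1, (1 - ‖z‖ ^ 2) * ‖deriv H z‖ ≤ 28) →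
    ∀ (n : ℕ), ∀ z ∈ ball (0 : ℂ) 1, ‖cc H z n‖ ≤ Cb n := by
  choose Cb h0 h using gg_bound_one
  refine ⟨Cb, h0, fun H hH hB n z hz => ?_⟩
  have hpos := one_sub_sq_pos hz
  have h1 := h n H ⟨hH, hB⟩ z hz
  unfold cc
  rw [norm_mul, Complex.norm_real, Real.norm_of_nonneg (by positivity)]
  exact h1

theorem exp_bound {δ : ℝ} (hδ : 0 < δ) : ∃ C : ℝ, ∀ H : ℂ → ℂ,
    DifferentiableOn ℂ H (ball 0 1) → (∀ z ∈ ball (0 : ℂ) 1, (1 - ‖z‖ ^ 2) * ‖deriv H z‖ ≤ 28) →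
    H 0 = 0 → ∀ z ∈ ball (0 : ℂ) 1, δ ≤ 1 - ‖z‖ ^ 2 → ‖Complex.exp (-H z)‖ ^ 2 ≤ C := by
  refine ⟨Real.exp (28 / δ) ^ 2, fun H hH hB h0 z hz hzδ => ?_⟩
  exact pow_le_pow_left₀ (norm_nonneg _) (norm_exp_le ⟨hH, hB⟩ h0 hδ hz hzδ) 2

theorem coeff_exp_bound (m : ℕ) : ∃ C : ℝ, ∀ H : ℂ → ℂ,
    DifferentiableOn ℂ H (ball 0 1) → (∀ z ∈ ball (0 : ℂ) 1, (1 - ‖z‖ ^ 2) * ‖deriv H z‖ ≤ 28) →
    H 0 = 0 → ‖coeff (fun z => Complex.exp (-H z)) m‖ ≤ C := by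
  refine ⟨Real.exp (28 / (3 / 4)) * 2 ^ m, fun H hH hB h0 => ?_⟩
  have hf : DifferentiableOn ℂ (fun z => Complex.exp (-H z)) (ball 0 1) := hH.neg.cexp
  have h1 := Pool.Agent.Helper22.Marshall.coeff_bound hf (r := 1 / 2)
    (M := Real.exp (28 / (3 / 4))) (by norm_num) (by norm_num) (fun z hz => by
      have hzb : z ∈ ball (0 : ℂ) 1 := by rw [mem_ball_zero_iff]; linarith
      apply norm_exp_le ⟨hH, hB⟩ h0 (by norm_num) hzb
      have := norm_nonneg z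
      nlinarith) m
  rw [one_div, inv_pow] at h1
  have h2 : (0 : ℝ) < 2 ^ m := by positivity
  calc ‖coeff (fun z => Complex.exp (-H z)) m‖
      = ‖coeff (fun z => Complex.exp (-H z)) m‖ * (2 ^ m)⁻¹ * 2 ^ m := by field_simp
    _ ≤ Real.exp (28 / (3 / 4)) * 2 ^ m := mul_le_mul_of_nonneg_right h1 h2.le

end Pool.Agent.Helper39.MH
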