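import Mathlib
import Pool.Agent.Helper39.MH.Defs
import Pool.Agent.Helper39.HR.Jet

/-!
MP_16b0ee, project MH: the second and the fourth moment of the antidiagonals of
`E(z,w) = exp (-Phi z w)`, from `E * Q = 1`, `Q = exp Phi`, and the derivation
`z^m x^l -> (l - m/2) z^m x^l`.
-/

set_option autoImplicit false

open MeasureTheory Set Metric Filter Topology
open scoped Real ComplexConjugate

namespace Pool.Agent.Helper39.MH

open Pool.Agent.Helper22.Half
open Pool.Agent.Helper22.Marshall (coeff SepHol LogPhi dcoeff GLe coeff_eq_of_hasSum hasSum_coeff)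
open Pool.Agent.Helper39.Area (Ext phi)
open Pool.Agent.Helper39.HR (Dt coeff_Dt Dt_mul Th coeff_Th Th_mul Th_Pa Ev Pa Ev_Pa psf coeff_psf
  psf_mul psf_congr psf_const_mul psf_D qa qa_sum map_E map_Q Ev_Q line_diff)

/-- `X_j`: `(th - 1)^j (1/G) = X_j / G` -/
noncomputable def XX (H : ℂ → ℂ) : ℕ → (ℂ → ℂ)
  | 0 => fun _ => 1
  | (n + 1) => fun z => th (XX H n) z - 2 * gg H 0 z * XX H n z - XX H n z

theorem Dt_Pa (a : ℕ → ℕ → ℂ) : Dt (Pa a) = Pa (fun m l => (m : ℂ) * a m l) := by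
  ext1 m
  rw [coeff_Dt, Pa, Pa, PowerSeries.coeff_mk, PowerSeries.coeff_mk, Finset.mul_sum]
  apply Finset.sum_congr rfl
  intro l _
  rw [Polynomial.C_mul, map_natCast]
  ring

/-- the derivation `z^m x^l -> (l - m/2) z^m x^l` -/
noncomputable def La (f : PowerSeries (Polynomial ℂ)) : PowerSeries (Polynomial ℂ) :=
  Th f - PowerSeries.C (Polynomial.C (1 / 2 : ℂ)) * Dt f

theorem La_mul (f g : PowerSeries (Polynomial ℂ)) : La (f * g) = La f * g + f * La g := by
  unfold La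
  rw [Th_mul, Dt_mul]
  ring

theorem La_add (f g : PowerSeries (Polynomial ℂ)) : La (f + g) = La f + La g := by
  unfold La
  rw [Pool.Agent.Helper39.HR.Th_add, Pool.Agent.Helper39.HR.Dt_add]
  ring

theorem La_one : La 1 = 0 := by
  have h := La_mul 1 1
  rw [mul_one, mul_one, one_mul] at h
  exact left_eq_add.mp h

theorem La_zero : La 0 = 0 := by
  have h := La_add 0 0
  rw [add_zero] at h
  exact left_eq_add.mp h

theorem La_Pa (a : ℕ → ℕ → ℂ) : La (Pa a) = Pa (fun m l => ((l : ℂ) - m / 2) * a m l) := by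
  unfold La
  rw [Th_Pa, Dt_Pa]
  ext1 m
  rw [map_sub, PowerSeries.coeff_C_mul, Pa, Pa, Pa, PowerSeries.coeff_mk, PowerSeries.coeff_mk,
    PowerSeries.coeff_mk, Finset.mul_sum, ← Finset.sum_sub_distrib]
  apply Finset.sum_congr rfl
  intro l _
  rw [← mul_assoc, ← Polynomial.C_mul, ← sub_mul, ← Polynomial.C_sub]
  congr 2
  ring

private theorem sum_refl_zero {f : ℕ → ℂ} {m : ℕ} (h : ∀ l ≤ m, f (m - l) = -f l) :
    ∑ l ∈ Finset.range (m + 1), f l = 0 := by
  have h1 := Finset.sum_range_reflect f (m + 1)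
  have h2 : ∑ j ∈ Finset.range (m + 1), f (m + 1 - 1 - j) = -∑ l ∈ Finset.range (m + 1), f l := by
    rw [← Finset.sum_neg_distrib]
    apply Finset.sum_congr rfl
    intro l hl
    rw [Finset.mem_range] at hl
    rw [Nat.add_sub_cancel, h l (by omega)]
  rw [h2] at h1
  have h3 : (2 : ℂ) * ∑ l ∈ Finset.range (m + 1), f l = 0 := by linear_combination -h1
  exact (mul_eq_zero.mp h3).resolve_left two_ne_zero

/-- the odd moments of a symmetric array vanish -/
theorem ev_odd {a : ℕ → ℕ → ℂ} (ha : ∀ m, ∀ l ≤ m, a m l = a m (m - l)) {c : ℕ → ℕ → ℂ}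
    (hc : ∀ m, ∀ l ≤ m, c m (m - l) = -c m l) : Ev (Pa (fun m l => c m l * a m l)) = 0 := by
  ext m
  rw [Ev_Pa, map_zero]
  apply sum_refl_zero
  intro l hl
  rw [hc m l hl, ← ha m l hl]
  ring

theorem qa_symm (β : ℂ → ℂ) (m : ℕ) : ∀ l ≤ m, qa β m l = qa β m (m - l) := by
  intro l hl
  unfold qa
  by_cases h0 : l = 0
  · subst h0
    rw [if_pos rfl, Nat.sub_zero]
    by_cases h1 : m = 0
    · simp [h1]
    · rw [if_neg h1, if_neg h1, if_neg (lt_irrefl m)]
  · rw [if_neg h0]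
    by_cases h1 : l = m
    · subst h1
      rw [if_neg (lt_irrefl l), Nat.sub_self, if_pos rfl, if_neg h0]
    · rw [if_pos (by omega), if_neg (by omega), if_pos (by omega)]

private theorem half_refl (m l : ℕ) (hl : l ≤ m) : (((m - l : ℕ) : ℂ) - m / 2) = -((l : ℂ) - m / 2) := by
  rw [Nat.cast_sub hl]
  ring

private theorem sum_pow1 (c : ℂ) (k : ℕ) : ∑ l ∈ Finset.range k, (((l + 1 : ℕ) : ℂ) - c) ^ 2
    = (k : ℂ) * (k + 1) * (2 * k + 1) / 6 - c * (k * (k + 1)) + c ^ 2 * k := by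
  induction k with
  | zero => simp
  | succ k ih =>
    rw [Finset.sum_range_succ, ih]
    push_cast
    ring

private theorem sum_pow4 (c : ℂ) (k : ℕ) : ∑ l ∈ Finset.range k, (((l + 1 : ℕ) : ℂ) - c) ^ 4
    = (k : ℂ) * (k + 1) * (2 * k + 1) * (3 * k ^ 2 + 3 * k - 1) / 30 - c * (k * (k + 1)) ^ 2
      + c ^ 2 * (k * (k + 1) * (2 * k + 1)) - 2 * c ^ 3 * (k * (k + 1)) + c ^ 4 * k := by
  induction k with
  | zero => simp
  | succ k ih =>
    rw [Finset.sum_range_succ, ih]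
    push_cast
    ring

/-- the operator `Dt - 1` -/
noncomputable def Dm (f : PowerSeries ℂ) : PowerSeries ℂ := Dt f - f

theorem coeff_Dm (f : PowerSeries ℂ) (n : ℕ) :
    PowerSeries.coeff n (Dm f) = ((n : ℂ) - 1) * PowerSeries.coeff n f := by
  rw [Dm, map_sub, coeff_Dt]
  ring

theorem ev_Q0 (β : ℂ → ℂ) (m : ℕ) : PowerSeries.coeff m (Ev (Pa (qa β)))
    = if m = 0 then 1 else -coeff β (m - 1) * ((m : ℂ) - 1) := by
  rw [Ev_Pa]
  cases m with
  | zero => simp [qa]
  | succ m =>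
    have h2 := qa_sum β (fun _ => 1) m
    simp only [mul_one, Finset.sum_const, Finset.card_range, nsmul_eq_mul] at h2
    rw [h2, if_neg (Nat.succ_ne_zero m), Nat.add_sub_cancel]
    push_cast
    ring

theorem ev_Q2 (β : ℂ → ℂ) : Ev (La (La (Pa (qa β))))
    = PowerSeries.C (1 / 12) * (Dm (Dm (Ev (Pa (qa β)))) - Ev (Pa (qa β))) := by
  ext m
  rw [La_Pa, La_Pa, Ev_Pa, PowerSeries.coeff_C_mul, map_sub, coeff_Dm, coeff_Dm, ev_Q0]
  cases m with
  | zero => simp [qa]
  | succ m =>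
    have h1 := qa_sum β (fun l => ((l : ℂ) - ((m + 1 : ℕ) : ℂ) / 2) ^ 2) m
    rw [sum_pow1] at h1
    rw [if_neg (Nat.succ_ne_zero m), Nat.add_sub_cancel]
    have h3 : ∑ l ∈ Finset.range (m + 1 + 1), ((l : ℂ) - ((m + 1 : ℕ) : ℂ) / 2)
          * (((l : ℂ) - ((m + 1 : ℕ) : ℂ) / 2) * qa β (m + 1) l)
        = ∑ l ∈ Finset.range (m + 1 + 1), qa β (m + 1) l * ((l : ℂ) - ((m + 1 : ℕ) : ℂ) / 2) ^ 2 := by
      apply Finset.sum_congr rfl
      intro l _
      ring
    rw [h3, h1]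
    push_cast
    ring

theorem ev_Q4 (β : ℂ → ℂ) : Ev (La (La (La (La (Pa (qa β))))))
    = PowerSeries.C (1 / 240) * (3 * Dm (Dm (Dm (Dm (Ev (Pa (qa β))))))
        - 10 * Dm (Dm (Ev (Pa (qa β)))) + 7 * Ev (Pa (qa β))) := by
  have hc : ∀ (k : ℕ) (f : PowerSeries ℂ) (n : ℕ), PowerSeries.coeff n ((k : PowerSeries ℂ) * f)
      = (k : ℂ) * PowerSeries.coeff n f := by
    intro k f n
    rw [← map_natCast (PowerSeries.C (R := ℂ)) k, PowerSeries.coeff_C_mul]
  ext m
  have h3' := hc 3 (Dm (Dm (Dm (Dm (Ev (Pa (qa β))))))) m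
  have h10' := hc 10 (Dm (Dm (Ev (Pa (qa β))))) m
  have h7' := hc 7 (Ev (Pa (qa β))) m
  push_cast at h3' h10' h7'
  rw [La_Pa, La_Pa, La_Pa, La_Pa, Ev_Pa, PowerSeries.coeff_C_mul, map_add, map_sub, h3', h10', h7',
    coeff_Dm, coeff_Dm, coeff_Dm, coeff_Dm, ev_Q0]
  cases m with
  | zero => simp [qa]; norm_num
  | succ m =>
    have h1 := qa_sum β (fun l => ((l : ℂ) - ((m + 1 : ℕ) : ℂ) / 2) ^ 4) m
    rw [sum_pow4] at h1
    rw [if_neg (Nat.succ_ne_zero m), Nat.add_sub_cancel]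
    have h3 : ∑ l ∈ Finset.range (m + 1 + 1), ((l : ℂ) - ((m + 1 : ℕ) : ℂ) / 2)
          * (((l : ℂ) - ((m + 1 : ℕ) : ℂ) / 2) * (((l : ℂ) - ((m + 1 : ℕ) : ℂ) / 2)
          * (((l : ℂ) - ((m + 1 : ℕ) : ℂ) / 2) * qa β (m + 1) l)))
        = ∑ l ∈ Finset.range (m + 1 + 1), qa β (m + 1) l * ((l : ℂ) - ((m + 1 : ℕ) : ℂ) / 2) ^ 4 := by
      apply Finset.sum_congr rfl
      intro l _
      ring
    rw [h3, h1]
    push_cast
    ring

/-! functions on the disc -/

private theorem dsub {f g : ℂ → ℂ} (hf : DifferentiableOn ℂ f (ball 0 1))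
    (hg : DifferentiableOn ℂ g (ball 0 1)) : DifferentiableOn ℂ (fun z => f z - g z) (ball 0 1) :=
  hf.sub hg

private theorem dmul {f g : ℂ → ℂ} (hf : DifferentiableOn ℂ f (ball 0 1))
    (hg : DifferentiableOn ℂ g (ball 0 1)) : DifferentiableOn ℂ (fun z => f z * g z) (ball 0 1) :=
  hf.mul hg

private theorem dcm (c : ℂ) {f : ℂ → ℂ} (hf : DifferentiableOn ℂ f (ball 0 1)) :
    DifferentiableOn ℂ (fun z => c * f z) (ball 0 1) := hf.const_mul c

theorem psf_sub {f g : ℂ → ℂ} (hf : DifferentiableOn ℂ f (ball 0 1))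
    (hg : DifferentiableOn ℂ g (ball 0 1)) : psf (fun z => f z - g z) = psf f - psf g := by
  ext n
  rw [map_sub, coeff_psf, coeff_psf, coeff_psf]
  apply coeff_eq_of_hasSum (f := fun z => f z - g z) (a := fun n => coeff f n - coeff g n) one_pos
  intro z hz
  have h1 := (hasSum_coeff hf hz).sub (hasSum_coeff hg hz)
  have e : (fun n => (coeff f n - coeff g n) * z ^ n)
      = fun n => coeff f n * z ^ n - coeff g n * z ^ n := by
    funext n
    ring
  rw [e]
  exact h1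

theorem psf_one : psf (fun _ => (1 : ℂ)) = 1 := by
  ext n
  rw [coeff_psf]
  apply coeff_eq_of_hasSum (f := fun _ => (1 : ℂ)) (a := fun n => PowerSeries.coeff n (1 : PowerSeries ℂ))
    one_pos
  intro z _
  have h := hasSum_ite_eq (0 : ℕ) (1 : ℂ)
  have e : (fun n => PowerSeries.coeff n (1 : PowerSeries ℂ) * z ^ n)
      = fun n => if n = 0 then (1 : ℂ) else 0 := by
    funext n
    rw [PowerSeries.coeff_one]
    by_cases h0 : n = 0
    · simp [h0]
    · simp [h0]
  rw [e]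
  exact h

private theorem th_diffA {f : ℂ → ℂ} (hf : DifferentiableOn ℂ f (ball 0 1)) :
    DifferentiableOn ℂ (th f) (ball 0 1) := differentiableOn_id.mul (hf.deriv isOpen_ball)

theorem gg0_diff {H : ℂ → ℂ} (hH : DifferentiableOn ℂ H (ball 0 1)) :
    DifferentiableOn ℂ (gg H 0) (ball 0 1) := by
  unfold gg
  exact (th_diffA hH).neg.div_const 2

theorem XX_diff {H : ℂ → ℂ} (hH : DifferentiableOn ℂ H (ball 0 1)) (n : ℕ) :
    DifferentiableOn ℂ (XX H n) (ball 0 1) := by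
  induction n with
  | zero => exact differentiableOn_const 1
  | succ n ih =>
    show DifferentiableOn ℂ (fun z => th (XX H n) z - 2 * gg H 0 z * XX H n z - XX H n z) (ball 0 1)
    exact ((th_diffA ih).sub (((gg0_diff hH).const_mul 2).mul ih)).sub ih

/-- `x_n = X_n exp H` -/
theorem psf_XX {H : ℂ → ℂ} (hH : DifferentiableOn ℂ H (ball 0 1)) (n : ℕ) :
    psf (fun z => XX H (n + 1) z * Complex.exp (H z))
      = Dm (psf (fun z => XX H n z * Complex.exp (H z))) := by
  have hX := XX_diff hH n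
  have hF : DifferentiableOn ℂ (fun z => XX H n z * Complex.exp (H z)) (ball 0 1) :=
    hX.mul hH.cexp
  rw [Dm, ← psf_D hF, ← psf_sub (f := fun z => z * deriv (fun z => XX H n z * Complex.exp (H z)) z)
      (differentiableOn_id.mul (hF.deriv isOpen_ball)) hF]
  apply psf_congr
  intro z hz
  have h1 := (hX.differentiableAt (isOpen_ball.mem_nhds hz)).hasDerivAt
  have h2 := (hH.differentiableAt (isOpen_ball.mem_nhds hz)).hasDerivAt
  have h3 := (h1.mul h2.cexp).deriv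
  have h4 : deriv (fun z => XX H n z * Complex.exp (H z)) z
      = deriv (XX H n) z * Complex.exp (H z) + XX H n z * (Complex.exp (H z) * deriv H z) := h3
  have h5 : gg H 0 z = -(z * deriv H z) / 2 := by
    unfold gg
    rfl
  show XX H (n + 1) z * Complex.exp (H z)
    = z * deriv (fun z => XX H n z * Complex.exp (H z)) z - XX H n z * Complex.exp (H z)
  rw [h4]
  show (th (XX H n) z - 2 * gg H 0 z * XX H n z - XX H n z) * Complex.exp (H z) = _
  rw [h5, th]
  ring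

theorem psf_X0 {H : ℂ → ℂ} : psf (fun z => XX H 0 z * Complex.exp (H z))
    = psf (fun z => Complex.exp (1 * H z)) := by
  apply psf_congr
  intro z _
  show 1 * Complex.exp (H z) = _
  rw [one_mul, one_mul]

section
variable {β H : ℂ → ℂ} {Φ : ℂ → ℂ → ℂ}

theorem EQ_one (hE : Ext β) (hΦ : LogPhi β H Φ) :
    Pa (fun m l => diagc (EE Φ (-1)) m l) * Pa (qa β) = 1 := by
  ext1 n
  apply Polynomial.eq_of_infinite_eval_eq
  apply Set.Infinite.mono (s := ball (0 : ℂ) 1)
  · intro x hx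
    rw [mem_ball_zero_iff] at hx
    show Polynomial.evalRingHom x _ = Polynomial.evalRingHom x _
    rw [← PowerSeries.coeff_map, ← PowerSeries.coeff_map]
    congr 1
    have hL := line_diff hE hΦ hx
    rw [map_mul, map_E hΦ (-1) hx, map_Q hE hΦ hx, map_one,
      ← psf_mul (hL.const_mul (-1)).cexp (hL.const_mul 1).cexp, ← psf_one]
    apply psf_congr
    intro z _
    rw [← Complex.exp_add]
    have : -1 * Φ z (x * z) + 1 * Φ z (x * z) = 0 := by ring
    rw [this, Complex.exp_zero]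
  · exact infinite_of_mem_nhds (0 : ℂ) (ball_mem_nhds _ one_pos)

/-- the two identities at the diagonal -/
theorem moments (hE : Ext β) (hΦ : LogPhi β H Φ) :
    Ev (La (La (Pa (fun m l => diagc (EE Φ (-1)) m l))))
      = -(Ev (Pa (fun m l => diagc (EE Φ (-1)) m l)) ^ 2 * Ev (La (La (Pa (qa β))))) ∧
    Ev (La (La (La (La (Pa (fun m l => diagc (EE Φ (-1)) m l))))))
      = 6 * Ev (Pa (fun m l => diagc (EE Φ (-1)) m l)) ^ 3 * Ev (La (La (Pa (qa β)))) ^ 2
        - Ev (Pa (fun m l => diagc (EE Φ (-1)) m l)) ^ 2 * Ev (La (La (La (La (Pa (qa β)))))) := by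
  have h0 := EQ_one hE hΦ
  have hsE := fun m => EE_symm hΦ (-1) m
  have hsQ := fun m => qa_symm β m
  -- the odd moments
  have oE1 : Ev (La (Pa (fun m l => diagc (EE Φ (-1)) m l))) = 0 := by
    rw [La_Pa]
    exact ev_odd hsE (fun m l hl => half_refl m l hl)
  have oE3 : Ev (La (La (La (Pa (fun m l => diagc (EE Φ (-1)) m l))))) = 0 := by
    rw [La_Pa, La_Pa, La_Pa]
    have h := ev_odd (c := fun m l => ((l : ℂ) - m / 2) ^ 3) hsE
      (fun m l hl => by simp only [half_refl m l hl]; ring)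
    rw [← h]
    congr 1
    congr 1
    funext m l
    ring
  have oQ1 : Ev (La (Pa (qa β))) = 0 := by
    rw [La_Pa]
    exact ev_odd hsQ (fun m l hl => half_refl m l hl)
  have oQ3 : Ev (La (La (La (Pa (qa β))))) = 0 := by
    rw [La_Pa, La_Pa, La_Pa]
    have h := ev_odd (c := fun m l => ((l : ℂ) - m / 2) ^ 3) hsQ
      (fun m l hl => by simp only [half_refl m l hl]; ring)
    rw [← h]
    congr 1
    congr 1
    funext m l
    ring
  generalize Pa (fun m l => diagc (EE Φ (-1)) m l) = E at *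
  generalize Pa (qa β) = Q at *
  have h1 := congrArg La h0
  rw [La_mul, La_one] at h1
  have h2 := congrArg La h1
  rw [La_add, La_mul, La_mul, La_zero] at h2
  have h3 := congrArg La h2
  rw [La_add, La_add, La_add, La_mul, La_mul, La_mul, La_zero] at h3
  have h4 := congrArg La h3
  simp only [La_add, La_mul, La_zero] at h4
  have hmul : ∀ a b, Ev (a * b) = Ev a * Ev b := fun a b => map_mul _ a b
  have hadd : ∀ a b, Ev (a + b) = Ev a + Ev b := fun a b => map_add _ a b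
  have hz : Ev 0 = 0 := map_zero _
  have ho : Ev 1 = 1 := map_one _
  have g0 := congrArg Ev h0
  have g2 := congrArg Ev h2
  have g4 := congrArg Ev h4
  simp only [hmul, hadd, hz, ho, oE1, oE3, oQ1, oQ3] at g0 g2 g4
  generalize Ev E = e0 at *
  generalize Ev Q = q0 at *
  generalize Ev (La (La E)) = e2 at *
  generalize Ev (La (La Q)) = q2 at *
  generalize Ev (La (La (La (La E)))) = e4 at *
  generalize Ev (La (La (La (La Q)))) = q4 at *
  have k2 : e2 = -(e0 ^ 2 * q2) := by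
    linear_combination e0 * g2 - e2 * g0
  refine ⟨k2, ?_⟩
  rw [k2] at g4
  linear_combination e0 * g4 - e4 * g0
end

theorem ev_E0 {β H : ℂ → ℂ} {Φ : ℂ → ℂ → ℂ} (hΦ : LogPhi β H Φ) :
    Ev (Pa (fun m l => diagc (EE Φ (-1)) m l)) = psf (fun z => Complex.exp (-1 * H z)) := by
  ext n
  rw [Ev_Pa, coeff_psf]
  exact EE_diag hΦ (-1) n

private theorem half_sum (d : ℕ → ℂ) (m : ℕ) : ∑ l ∈ Finset.range (m + 1), d l * ((l : ℂ) - m / 2) ^ 2
    = ∑ l ∈ Finset.range (m + 1), ((l : ℂ) - m / 2) * (((l : ℂ) - m / 2) * d l) := by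
  apply Finset.sum_congr rfl
  intro l _
  ring

private theorem half_sum4 (d : ℕ → ℂ) (m : ℕ) : ∑ l ∈ Finset.range (m + 1), d l * ((l : ℂ) - m / 2) ^ 4
    = ∑ l ∈ Finset.range (m + 1), ((l : ℂ) - m / 2) * (((l : ℂ) - m / 2)
      * (((l : ℂ) - m / 2) * (((l : ℂ) - m / 2) * d l))) := by
  apply Finset.sum_congr rfl
  intro l _
  ring

theorem Data.diff1 {ρ : ℝ} {β H : ℂ → ℂ} {Φ : ℂ → ℂ → ℂ} (h : Data ρ β H Φ) :
    DifferentiableOn ℂ H (ball 0 1) := h.diff.mono (ball_subset_ball h.one_lt.le)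

theorem jetA2 {ρ : ℝ} {β H : ℂ → ℂ} {Φ : ℂ → ℂ → ℂ} (h : Data ρ β H Φ) (m : ℕ) :
    ∑ l ∈ Finset.range (m + 1), diagc (EE Φ (-1)) m l * ((l : ℂ) - m / 2) ^ 2
      = coeff (fun z => Complex.exp (-H z) * ((1 - XX H 2 z) / 12)) m := by
  have hH := h.diff1
  have h1 := (moments h.ext h.logPhi).1
  rw [ev_Q2, Ev_Q h.ext h.logPhi, ← psf_X0, ← psf_XX hH, ← psf_XX hH, ev_E0 h.logPhi] at h1
  have hE : DifferentiableOn ℂ (fun z => Complex.exp (-1 * H z)) (ball 0 1) :=
    (hH.const_mul (-1)).cexp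
  have hX : ∀ n, DifferentiableOn ℂ (fun z => XX H n z * Complex.exp (H z)) (ball 0 1) :=
    fun n => (XX_diff hH n).mul hH.cexp
  rw [← psf_sub (hX 2) (hX 0), ← psf_const_mul, pow_two, ← psf_mul hE hE,
    ← psf_mul (dmul hE hE) (dcm _ (dsub (hX 2) (hX 0)))] at h1
  have h2 : ∀ f : PowerSeries ℂ, -f = PowerSeries.C (-1 : ℂ) * f := by
    intro f
    simp
  rw [h2, ← psf_const_mul, La_Pa, La_Pa] at h1
  have h3 := congrArg (PowerSeries.coeff m) h1
  rw [Ev_Pa, ← half_sum, coeff_psf] at h3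
  rw [h3]
  apply Pool.Agent.Helper22.Marshall.coeff_congr
  filter_upwards [ball_mem_nhds (0 : ℂ) one_pos] with z hz
  have e1 : Complex.exp (-1 * H z) * Complex.exp (H z) = 1 := by
    rw [← Complex.exp_add]
    have : -1 * H z + H z = 0 := by ring
    rw [this, Complex.exp_zero]
  have e2 : Complex.exp (-H z) = Complex.exp (-1 * H z) := by rw [neg_one_mul]
  have e3 : XX H 0 z = 1 := rfl
  rw [e2, e3]
  linear_combination (Complex.exp (-1 * H z) * (1 - XX H 2 z) / 12) * e1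

theorem jetA4 {ρ : ℝ} {β H : ℂ → ℂ} {Φ : ℂ → ℂ → ℂ} (h : Data ρ β H Φ) (m : ℕ) :
    ∑ l ∈ Finset.range (m + 1), diagc (EE Φ (-1)) m l * ((l : ℂ) - m / 2) ^ 4
      = coeff (fun z => Complex.exp (-H z) * ((XX H 2 z - 1) ^ 2 / 24
          - (3 * XX H 4 z - 10 * XX H 2 z + 7) / 240)) m := by
  have hH := h.diff1
  have h1 := (moments h.ext h.logPhi).2
  rw [ev_Q2, ev_Q4, Ev_Q h.ext h.logPhi, ← psf_X0, ← psf_XX hH, ← psf_XX hH, ← psf_XX hH,
    ← psf_XX hH, ev_E0 h.logPhi] at h1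
  have hE : DifferentiableOn ℂ (fun z => Complex.exp (-1 * H z)) (ball 0 1) :=
    (hH.const_mul (-1)).cexp
  have hX : ∀ n, DifferentiableOn ℂ (fun z => XX H n z * Complex.exp (H z)) (ball 0 1) :=
    fun n => (XX_diff hH n).mul hH.cexp
  -- the right side as a function
  have hsub := dsub (hX 2) (hX 0)
  have f1 : PowerSeries.C (1 / 12) * (psf (fun z => XX H 2 z * Complex.exp (H z))
      - psf (fun z => XX H 0 z * Complex.exp (H z)))
      = psf (fun z => 1 / 12 * (XX H 2 z * Complex.exp (H z) - XX H 0 z * Complex.exp (H z))) := by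
    rw [← psf_sub (hX 2) (hX 0), ← psf_const_mul]
  have cst : ∀ k : ℕ, (k : PowerSeries ℂ) = PowerSeries.C (k : ℂ) := by
    intro k
    rw [map_natCast]
  have c3 : (3 : PowerSeries ℂ) = PowerSeries.C (3 : ℂ) := by exact_mod_cast cst 3
  have c10 : (10 : PowerSeries ℂ) = PowerSeries.C (10 : ℂ) := by exact_mod_cast cst 10
  have c7 : (7 : PowerSeries ℂ) = PowerSeries.C (7 : ℂ) := by exact_mod_cast cst 7
  have c6 : (6 : PowerSeries ℂ) = PowerSeries.C (6 : ℂ) := by exact_mod_cast cst 6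
  have f2 : PowerSeries.C (1 / 240) * (3 * psf (fun z => XX H 4 z * Complex.exp (H z))
      - 10 * psf (fun z => XX H 2 z * Complex.exp (H z)) + 7 * psf (fun z => XX H 0 z * Complex.exp (H z)))
      = psf (fun z => 1 / 240 * (3 * (XX H 4 z * Complex.exp (H z))
        - (10 * (XX H 2 z * Complex.exp (H z)) - 7 * (XX H 0 z * Complex.exp (H z))))) := by
    rw [psf_const_mul, psf_sub (dcm 3 (hX 4)) (dsub (dcm 10 (hX 2)) (dcm 7 (hX 0))),
      psf_sub (dcm 10 (hX 2)) (dcm 7 (hX 0)), psf_const_mul, psf_const_mul,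
      psf_const_mul, c3, c10, c7]
    ring
  rw [f1, f2] at h1
  have hA := dcm (1 / 12 : ℂ) hsub
  have hB : DifferentiableOn ℂ (fun z => 1 / 240 * (3 * (XX H 4 z * Complex.exp (H z))
        - (10 * (XX H 2 z * Complex.exp (H z)) - 7 * (XX H 0 z * Complex.exp (H z))))) (ball 0 1) :=
    (((hX 4).const_mul 3).sub (((hX 2).const_mul 10).sub ((hX 0).const_mul 7))).const_mul _
  have f3 : psf (fun z => Complex.exp (-1 * H z)) ^ 3
      * psf (fun z => 1 / 12 * (XX H 2 z * Complex.exp (H z) - XX H 0 z * Complex.exp (H z))) ^ 2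
      = psf (fun z => (Complex.exp (-1 * H z) * Complex.exp (-1 * H z) * Complex.exp (-1 * H z))
        * ((1 / 12 * (XX H 2 z * Complex.exp (H z) - XX H 0 z * Complex.exp (H z)))
          * (1 / 12 * (XX H 2 z * Complex.exp (H z) - XX H 0 z * Complex.exp (H z))))) := by
    rw [psf_mul (dmul (dmul hE hE) hE) (dmul hA hA), psf_mul (dmul hE hE) hE, psf_mul hE hE,
      psf_mul hA hA]
    ring
  have f4 : psf (fun z => Complex.exp (-1 * H z)) ^ 2
      * psf (fun z => 1 / 240 * (3 * (XX H 4 z * Complex.exp (H z))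
        - (10 * (XX H 2 z * Complex.exp (H z)) - 7 * (XX H 0 z * Complex.exp (H z)))))
      = psf (fun z => (Complex.exp (-1 * H z) * Complex.exp (-1 * H z))
        * (1 / 240 * (3 * (XX H 4 z * Complex.exp (H z))
        - (10 * (XX H 2 z * Complex.exp (H z)) - 7 * (XX H 0 z * Complex.exp (H z)))))) := by
    rw [psf_mul (dmul hE hE) hB, psf_mul hE hE]
    ring
  rw [mul_assoc 6, f3, f4, c6, ← psf_const_mul, ← psf_sub
    (dcm 6 (dmul (dmul (dmul hE hE) hE) (dmul hA hA))) (dmul (dmul hE hE) hB), La_Pa, La_Pa,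
    La_Pa, La_Pa] at h1
  have h3 := congrArg (PowerSeries.coeff m) h1
  rw [Ev_Pa, ← half_sum4, coeff_psf] at h3
  rw [h3]
  apply Pool.Agent.Helper22.Marshall.coeff_congr
  filter_upwards [ball_mem_nhds (0 : ℂ) one_pos] with z hz
  have e1 : Complex.exp (-1 * H z) * Complex.exp (H z) = 1 := by
    rw [← Complex.exp_add]
    have : -1 * H z + H z = 0 := by ring
    rw [this, Complex.exp_zero]
  have e2 : Complex.exp (-H z) = Complex.exp (-1 * H z) := by rw [neg_one_mul]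
  have e3 : XX H 0 z = 1 := rfl
  rw [e2, e3]
  generalize Complex.exp (-1 * H z) = a at *
  generalize Complex.exp (H z) = b at *
  generalize XX H 2 z = x2 at *
  generalize XX H 4 z = x4 at *
  have e4 : (a * b) ^ 2 = 1 := by rw [e1, one_pow]
  linear_combination (a * (x2 - 1) ^ 2 / 24) * e4 - (a * (3 * x4 - 10 * x2 + 7) / 240) * e1

end Pool.Agent.Helper39.MH
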