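import Mathlib
import Pool.Agent.Helper39.MH.Defs
import Pool.Agent.Helper39.MH.JetsA
import Pool.Agent.Helper39.MH.Euler

/-!
MP_16b0ee, project MH: algebra of the jets; the second and the fourth moment of the
antidiagonals in terms of `g0, g1, g2, g3`.
-/

set_option autoImplicit false

open MeasureTheory Set Metric Filter Topology
open scoped Real ComplexConjugate

namespace Pool.Agent.Helper39.MH

open Pool.Agent.Helper22.Half
open Pool.Agent.Helper22.Marshall (coeff SepHol LogPhi dcoeff GLe coeff_eq_of_hasSum hasSum_coeff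
  coeff_const_mul)
open Pool.Agent.Helper39.Area (Ext phi)

/-! ### a calculus for the Euler operator -/

/-- `F` is differentiable at `z` and `th F z = d` -/
def HT (F : ℂ → ℂ) (z d : ℂ) : Prop := DifferentiableAt ℂ F z ∧ th F z = d

theorem HT.add {F K : ℂ → ℂ} {z a b : ℂ} (hF : HT F z a) (hK : HT K z b) :
    HT (fun w => F w + K w) z (a + b) :=
  ⟨hF.1.fun_add hK.1, by rw [th_add hF.1 hK.1, hF.2, hK.2]⟩

theorem HT.mul {F K : ℂ → ℂ} {z a b : ℂ} (hF : HT F z a) (hK : HT K z b) :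
    HT (fun w => F w * K w) z (a * K z + F z * b) :=
  ⟨hF.1.fun_mul hK.1, by rw [th_mul hF.1 hK.1, hF.2, hK.2]⟩

theorem HT.const (c z : ℂ) : HT (fun _ => c) z 0 :=
  ⟨differentiableAt_const c, th_const c z⟩

theorem HT.cm (c : ℂ) {F : ℂ → ℂ} {z a : ℂ} (hF : HT F z a) :
    HT (fun w => c * F w) z (c * a) :=
  ⟨hF.1.const_mul c, by rw [th_const_mul c hF.1, hF.2]⟩

theorem HT.congr {F K : ℂ → ℂ} {z a : ℂ} (hF : HT F z a) (h : K =ᶠ[𝓝 z] F) : HT K z a :=
  ⟨hF.1.congr_of_eventuallyEq h, by rw [th_congr h, hF.2]⟩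

section

variable {H : ℂ → ℂ} {ρ : ℝ}

theorem HT_gg (hρ : 0 < ρ) (hH : DifferentiableOn ℂ H (ball 0 ρ)) {z : ℂ}
    (hz : z ∈ ball (0 : ℂ) ρ) (n : ℕ) : HT (gg H n) z (dval (fun k => gg H k z) n) :=
  ⟨(gg_diff hρ hH n).differentiableAt (isOpen_ball.mem_nhds hz), th_gg n⟩

theorem HT_g0 (hρ : 0 < ρ) (hH : DifferentiableOn ℂ H (ball 0 ρ)) {z : ℂ}
    (hz : z ∈ ball (0 : ℂ) ρ) : HT (gg H 0) z (3 * gg H 1 z - gg H 0 z ^ 2) := by
  have h := HT_gg hρ hH hz 0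
  simpa [dval] using h

theorem HT_g1 (hρ : 0 < ρ) (hH : DifferentiableOn ℂ H (ball 0 ρ)) {z : ℂ}
    (hz : z ∈ ball (0 : ℂ) ρ) : HT (gg H 1) z (4 * gg H 2 z) := by
  have h := HT_gg hρ hH hz 1
  have e : dval (fun k => gg H k z) 1 = 4 * gg H 2 z := by
    unfold dval
    rw [if_neg one_ne_zero]
    simp only [Nat.cast_one, Nat.sub_self, Finset.range_zero, Finset.sum_empty]
    ring
  rw [e] at h
  exact h

theorem HT_g2 (hρ : 0 < ρ) (hH : DifferentiableOn ℂ H (ball 0 ρ)) {z : ℂ}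
    (hz : z ∈ ball (0 : ℂ) ρ) : HT (gg H 2) z (5 * gg H 3 z + gg H 1 z ^ 2) := by
  have h := HT_gg hρ hH hz 2
  have e : dval (fun k => gg H k z) 2 = 5 * gg H 3 z + gg H 1 z ^ 2 := by
    unfold dval
    rw [if_neg two_ne_zero]
    have e1 : Finset.range (2 - 1) = Finset.range 1 := rfl
    rw [e1, Finset.sum_range_one]
    push_cast
    ring
  rw [e] at h
  exact h

theorem XX_one (z : ℂ) : XX H 1 z = -(2 * gg H 0 z + 1) := by
  have e : XX H 1 z = th (XX H 0) z - 2 * gg H 0 z * XX H 0 z - XX H 0 z := rfl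
  have e0 : XX H 0 = fun _ => (1 : ℂ) := rfl
  rw [e, e0, th_const]
  ring

theorem XX_succ (n : ℕ) (z : ℂ) :
    XX H (n + 1) z = th (XX H n) z - 2 * gg H 0 z * XX H n z - XX H n z := rfl

theorem HT_XX1 (hρ : 0 < ρ) (hH : DifferentiableOn ℂ H (ball 0 ρ)) {z : ℂ}
    (hz : z ∈ ball (0 : ℂ) ρ) : HT (XX H 1) z (-2 * (3 * gg H 1 z - gg H 0 z ^ 2)) := by
  have h := ((HT_g0 hρ hH hz).cm (-2)).add (HT.const (-1) z)
  rw [add_zero] at h
  refine h.congr (Eventually.of_forall fun w => ?_)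
  show XX H 1 w = -2 * gg H 0 w + -1
  rw [XX_one]
  ring

theorem XX_two (hρ : 0 < ρ) (hH : DifferentiableOn ℂ H (ball 0 ρ)) {z : ℂ}
    (hz : z ∈ ball (0 : ℂ) ρ) :
    XX H 2 z = 1 + 4 * gg H 0 z + 6 * gg H 0 z ^ 2 - 6 * gg H 1 z := by
  rw [XX_succ, (HT_XX1 hρ hH hz).2, XX_one]
  ring

theorem HT_XX2 (hρ : 0 < ρ) (hH : DifferentiableOn ℂ H (ball 0 ρ)) {z : ℂ}
    (hz : z ∈ ball (0 : ℂ) ρ) :
    HT (XX H 2) z ((4 + 12 * gg H 0 z) * (3 * gg H 1 z - gg H 0 z ^ 2) - 24 * gg H 2 z) := by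
  have h0 := HT_g0 hρ hH hz
  have h1 := HT_g1 hρ hH hz
  have h := ((h0.cm 4).add ((h0.mul h0).cm 6)).add ((h1.cm (-6)).add (HT.const 1 z))
  have h2 := h.congr (K := XX H 2) (by
    filter_upwards [isOpen_ball.mem_nhds hz] with w hw
    rw [XX_two hρ hH hw]
    ring)
  refine ⟨h2.1, ?_⟩
  rw [h2.2]
  ring

theorem XX_three (hρ : 0 < ρ) (hH : DifferentiableOn ℂ H (ball 0 ρ)) {z : ℂ}
    (hz : z ∈ ball (0 : ℂ) ρ) :
    XX H 3 z = (4 + 12 * gg H 0 z) * (3 * gg H 1 z - gg H 0 z ^ 2) - 24 * gg H 2 z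
      - (2 * gg H 0 z + 1) * (1 + 4 * gg H 0 z + 6 * gg H 0 z ^ 2 - 6 * gg H 1 z) := by
  rw [XX_succ, (HT_XX2 hρ hH hz).2, XX_two hρ hH hz]
  ring

theorem HT_XX3 (hρ : 0 < ρ) (hH : DifferentiableOn ℂ H (ball 0 ρ)) {z : ℂ}
    (hz : z ∈ ball (0 : ℂ) ρ) :
    HT (XX H 3) z (12 * (3 * gg H 1 z - gg H 0 z ^ 2) ^ 2
      + (4 + 12 * gg H 0 z) * (12 * gg H 2 z - 2 * gg H 0 z * (3 * gg H 1 z - gg H 0 z ^ 2))
      - 24 * (5 * gg H 3 z + gg H 1 z ^ 2)
      - 2 * (3 * gg H 1 z - gg H 0 z ^ 2)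
        * (1 + 4 * gg H 0 z + 6 * gg H 0 z ^ 2 - 6 * gg H 1 z)
      - (2 * gg H 0 z + 1)
        * ((4 + 12 * gg H 0 z) * (3 * gg H 1 z - gg H 0 z ^ 2) - 24 * gg H 2 z)) := by
  have h0 := HT_g0 hρ hH hz
  have h1 := HT_g1 hρ hH hz
  have h2 := HT_g2 hρ hH hz
  have hX := HT_XX2 hρ hH hz
  have ha := (HT.const 4 z).add (h0.cm 12)
  have hb := (h1.cm 3).add ((h0.mul h0).cm (-1))
  have hc := ((h0.cm (-2)).add (HT.const (-1) z)).mul hX
  have h := ((ha.mul hb).add (h2.cm (-24))).add hc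
  have h3 := h.congr (K := XX H 3) (by
    filter_upwards [isOpen_ball.mem_nhds hz] with w hw
    rw [XX_three hρ hH hw, XX_two hρ hH hw]
    ring)
  refine ⟨h3.1, ?_⟩
  rw [h3.2, XX_two hρ hH hz]
  ring

theorem XX_four (hρ : 0 < ρ) (hH : DifferentiableOn ℂ H (ball 0 ρ)) {z : ℂ}
    (hz : z ∈ ball (0 : ℂ) ρ) :
    XX H 4 z = (12 * (3 * gg H 1 z - gg H 0 z ^ 2) ^ 2
      + (4 + 12 * gg H 0 z) * (12 * gg H 2 z - 2 * gg H 0 z * (3 * gg H 1 z - gg H 0 z ^ 2))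
      - 24 * (5 * gg H 3 z + gg H 1 z ^ 2)
      - 2 * (3 * gg H 1 z - gg H 0 z ^ 2)
        * (1 + 4 * gg H 0 z + 6 * gg H 0 z ^ 2 - 6 * gg H 1 z)
      - (2 * gg H 0 z + 1)
        * ((4 + 12 * gg H 0 z) * (3 * gg H 1 z - gg H 0 z ^ 2) - 24 * gg H 2 z))
      - (2 * gg H 0 z + 1) * ((4 + 12 * gg H 0 z) * (3 * gg H 1 z - gg H 0 z ^ 2)
        - 24 * gg H 2 z
        - (2 * gg H 0 z + 1) * (1 + 4 * gg H 0 z + 6 * gg H 0 z ^ 2 - 6 * gg H 1 z)) := by
  rw [XX_succ, (HT_XX3 hρ hH hz).2, XX_three hρ hH hz]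
  ring

/-! ### the exponential factor -/

theorem HT_exp (hH : DifferentiableOn ℂ H (ball 0 ρ)) {z : ℂ}
    (hz : z ∈ ball (0 : ℂ) ρ) :
    HT (fun w => Complex.exp (-H w)) z (2 * gg H 0 z * Complex.exp (-H z)) :=
  ⟨(exp_neg_diff hH).differentiableAt (isOpen_ball.mem_nhds hz),
    th_exp_neg (hH.differentiableAt (isOpen_ball.mem_nhds hz))⟩

end

theorem XX2 {H : ℂ → ℂ} {ρ : ℝ} (hρ : 0 < ρ) (hH : DifferentiableOn ℂ H (ball 0 ρ)) {z : ℂ}
    (hz : z ∈ ball (0 : ℂ) ρ) :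
    (1 - XX H 2 z) / 12 = gg H 1 z / 2 - gg H 0 z ^ 2 / 2 - gg H 0 z / 3 := by
  rw [XX_two hρ hH hz]
  ring

/-- the lower order part of the fourth moment -/
noncomputable def low4 (g : ℕ → ℂ) : ℂ :=
  2 / 5 * g 0 * g 1 + 4 / 5 * g 0 ^ 3 - 6 / 5 * g 2 + 7 / 15 * g 0 ^ 2 + 1 / 5 * g 1 + 1 / 15 * g 0

/-! ### coefficients -/

theorem coeff_addB {f g : ℂ → ℂ} (hf : DifferentiableOn ℂ f (ball 0 1))
    (hg : DifferentiableOn ℂ g (ball 0 1)) (n : ℕ) :
    coeff (fun z => f z + g z) n = coeff f n + coeff g n := by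
  apply coeff_eq_of_hasSum (f := fun z => f z + g z) (a := fun n => coeff f n + coeff g n) one_pos
  intro z hz
  have h1 := (hasSum_coeff hf hz).add (hasSum_coeff hg hz)
  have e : (fun n => (coeff f n + coeff g n) * z ^ n)
      = fun n => coeff f n * z ^ n + coeff g n * z ^ n := by
    funext n
    ring
  rw [e]
  exact h1

theorem coeff_congrB {f g : ℂ → ℂ} (h : ∀ z ∈ ball (0 : ℂ) 1, f z = g z) (n : ℕ) :
    coeff f n = coeff g n := by
  apply Pool.Agent.Helper22.Marshall.coeff_congr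
  filter_upwards [ball_mem_nhds (0 : ℂ) one_pos] with z hz
  exact h z hz

/-- `th (G p) = G (2 g0 p + q)` gives the coefficients of the right side -/
theorem coeff_step {H p q : ℂ → ℂ} (hH : DifferentiableOn ℂ H (ball 0 1))
    (hp : ∀ z ∈ ball (0 : ℂ) 1, HT p z (q z)) (m : ℕ) :
    coeff (fun z => Complex.exp (-H z) * (2 * gg H 0 z * p z + q z)) m
      = (m : ℂ) * coeff (fun z => Complex.exp (-H z) * p z) m := by
  have hd : DifferentiableOn ℂ (fun z => Complex.exp (-H z) * p z) (ball 0 1) :=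
    (exp_neg_diff hH).fun_mul fun z hz => (hp z hz).1.differentiableWithinAt
  rw [← coeff_th hd m]
  apply coeff_congrB
  intro z hz
  have h := (HT_exp hH hz).mul (hp z hz)
  rw [h.2]
  ring

theorem coeff_linB {H : ℂ → ℂ} (hH : DifferentiableOn ℂ H (ball 0 1)) (a : ℂ) {f g : ℂ → ℂ}
    (hf : DifferentiableOn ℂ f (ball 0 1)) (hg : DifferentiableOn ℂ g (ball 0 1)) (m : ℕ) :
    coeff (fun z => Complex.exp (-H z) * (a * f z + g z)) m
      = a * coeff (fun z => Complex.exp (-H z) * f z) m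
        + coeff (fun z => Complex.exp (-H z) * g z) m := by
  have hE := exp_neg_diff hH
  have e : (fun z => Complex.exp (-H z) * (a * f z + g z))
      = fun z => a * (Complex.exp (-H z) * f z) + Complex.exp (-H z) * g z := by
    funext z
    ring
  rw [e, coeff_addB ((hE.fun_mul hf).const_mul a) (hE.fun_mul hg), coeff_const_mul]

section

variable {H : ℂ → ℂ}

theorem coeff_G1 (hH : DifferentiableOn ℂ H (ball 0 1)) (m : ℕ) :
    coeff (fun z => Complex.exp (-H z) * (2 * gg H 0 z)) m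
      = (m : ℂ) * coeff (fun z => Complex.exp (-H z)) m := by
  have h := coeff_step (p := fun _ => 1) (q := fun _ => 0) hH (fun z _ => HT.const 1 z) m
  simp only [mul_one, add_zero] at h
  exact h

theorem coeff_G2 (hH : DifferentiableOn ℂ H (ball 0 1)) (m : ℕ) :
    coeff (fun z => Complex.exp (-H z) * (6 * gg H 1 z + 2 * gg H 0 z ^ 2)) m
      = (m : ℂ) ^ 2 * coeff (fun z => Complex.exp (-H z)) m := by
  have h := coeff_step (p := fun z => 2 * gg H 0 z)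
    (q := fun z => 2 * (3 * gg H 1 z - gg H 0 z ^ 2)) hH
    (fun z hz => (HT_g0 one_pos hH hz).cm 2) m
  rw [coeff_G1 hH m] at h
  rw [pow_two, mul_assoc, ← h]
  apply coeff_congrB
  intro z _
  ring

theorem coeff_G3 (hH : DifferentiableOn ℂ H (ball 0 1)) (m : ℕ) :
    coeff (fun z => Complex.exp (-H z) * (24 * gg H 0 z * gg H 1 z + 24 * gg H 2 z)) m
      = (m : ℂ) ^ 3 * coeff (fun z => Complex.exp (-H z)) m := by
  have h := coeff_step (p := fun z => 6 * gg H 1 z + 2 * gg H 0 z ^ 2)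
    (q := fun z => 24 * gg H 2 z + 4 * gg H 0 z * (3 * gg H 1 z - gg H 0 z ^ 2)) hH
    (fun z hz => by
      have h0 := HT_g0 one_pos hH hz
      have h1 := HT_g1 one_pos hH hz
      have h2 := ((h1.cm 6).add ((h0.mul h0).cm 2)).congr
        (K := fun z => 6 * gg H 1 z + 2 * gg H 0 z ^ 2) (Eventually.of_forall fun w => by ring)
      refine ⟨h2.1, ?_⟩
      rw [h2.2]
      ring) m
  rw [coeff_G2 hH m] at h
  rw [pow_succ', mul_assoc, ← h]
  apply coeff_congrB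
  intro z _
  ring

theorem coeff_G4 (hH : DifferentiableOn ℂ H (ball 0 1)) (m : ℕ) :
    coeff (fun z => Complex.exp (-H z) * (24 * gg H 0 z ^ 2 * gg H 1 z + 144 * gg H 0 z * gg H 2 z
        + 96 * gg H 1 z ^ 2 + 120 * gg H 3 z)) m
      = (m : ℂ) ^ 4 * coeff (fun z => Complex.exp (-H z)) m := by
  have h := coeff_step (p := fun z => 24 * gg H 0 z * gg H 1 z + 24 * gg H 2 z)
    (q := fun z => 24 * (3 * gg H 1 z - gg H 0 z ^ 2) * gg H 1 z + 96 * gg H 0 z * gg H 2 z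
      + 24 * (5 * gg H 3 z + gg H 1 z ^ 2)) hH
    (fun z hz => by
      have h0 := HT_g0 one_pos hH hz
      have h1 := HT_g1 one_pos hH hz
      have h2 := HT_g2 one_pos hH hz
      have h3 := (((h0.mul h1).cm 24).add (h2.cm 24)).congr
        (K := fun z => 24 * gg H 0 z * gg H 1 z + 24 * gg H 2 z)
        (Eventually.of_forall fun w => by ring)
      refine ⟨h3.1, ?_⟩
      rw [h3.2]
      ring) m
  rw [coeff_G3 hH m] at h
  rw [pow_succ', mul_assoc, ← h]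
  apply coeff_congrB
  intro z _
  ring

theorem coeff_Gg1 (hH : DifferentiableOn ℂ H (ball 0 1)) (m : ℕ) :
    coeff (fun z => Complex.exp (-H z) * (2 * gg H 0 z ^ 2 * gg H 1 z + 16 * gg H 0 z * gg H 2 z
        + 10 * gg H 1 z ^ 2 + 20 * gg H 3 z)) m
      = (m : ℂ) ^ 2 * coeff (fun z => Complex.exp (-H z) * gg H 1 z) m := by
  have h1 := coeff_step (p := gg H 1) (q := fun z => 4 * gg H 2 z) hH
    (fun z hz => HT_g1 one_pos hH hz) m
  have h := coeff_step (p := fun z => 2 * gg H 0 z * gg H 1 z + 4 * gg H 2 z)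
    (q := fun z => 2 * (3 * gg H 1 z - gg H 0 z ^ 2) * gg H 1 z + 8 * gg H 0 z * gg H 2 z
      + 4 * (5 * gg H 3 z + gg H 1 z ^ 2)) hH
    (fun z hz => by
      have h0 := HT_g0 one_pos hH hz
      have h1 := HT_g1 one_pos hH hz
      have h2 := HT_g2 one_pos hH hz
      have h3 := (((h0.mul h1).cm 2).add (h2.cm 4)).congr
        (K := fun z => 2 * gg H 0 z * gg H 1 z + 4 * gg H 2 z)
        (Eventually.of_forall fun w => by ring)
      refine ⟨h3.1, ?_⟩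
      rw [h3.2]
      ring) m
  rw [h1] at h
  rw [pow_two, mul_assoc, ← h]
  apply coeff_congrB
  intro z _
  ring

end

theorem jet2 {ρ : ℝ} {β H : ℂ → ℂ} {Φ : ℂ → ℂ → ℂ} (h : Data ρ β H Φ) (m : ℕ) :
    ∑ l ∈ Finset.range (m + 1), diagc (EE Φ (-1)) m l * ((l : ℂ) - m / 2) ^ 2
      = 2 * coeff (fun z => Complex.exp (-H z) * gg H 1 z) m
        - (m : ℂ) ^ 2 / 4 * coeff (fun z => Complex.exp (-H z)) m
        - coeff (fun z => Complex.exp (-H z) * gg H 0 z) m / 3 := by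
  have hH := h.diff1
  have d0 := gg_diff one_pos hH 0
  have d1 := gg_diff one_pos hH 1
  have d2 : DifferentiableOn ℂ (fun z => 6 * gg H 1 z + 2 * gg H 0 z ^ 2) (ball 0 1) :=
    (d1.const_mul 6).fun_add ((d0.fun_pow 2).const_mul 2)
  have e1 := coeff_linB hH (-(1 / 3)) d0 (d2.const_mul (-(1 / 4))) m
  have e2 := coeff_linB hH 2 d1 ((d0.const_mul (-(1 / 3))).fun_add (d2.const_mul (-(1 / 4)))) m
  have e3 : coeff (fun z => Complex.exp (-H z) * (-(1 / 4) * (6 * gg H 1 z + 2 * gg H 0 z ^ 2))) m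
      = -(1 / 4) * ((m : ℂ) ^ 2 * coeff (fun z => Complex.exp (-H z)) m) := by
    rw [← coeff_G2 hH m, ← coeff_const_mul]
    apply coeff_congrB
    intro z _
    ring
  rw [jetA2 h m]
  have e4 : coeff (fun z => Complex.exp (-H z) * ((1 - XX H 2 z) / 12)) m
      = coeff (fun z => Complex.exp (-H z) * (2 * gg H 1 z + (-(1 / 3) * gg H 0 z
        + -(1 / 4) * (6 * gg H 1 z + 2 * gg H 0 z ^ 2)))) m := by
    apply coeff_congrB
    intro z hz
    rw [XX2 one_pos hH hz]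
    ring
  rw [e4, e2, e1, e3]
  ring

theorem jet4 {ρ : ℝ} {β H : ℂ → ℂ} {Φ : ℂ → ℂ → ℂ} (h : Data ρ β H Φ) (m : ℕ) :
    ∑ l ∈ Finset.range (m + 1), diagc (EE Φ (-1)) m l * ((l : ℂ) - m / 2) ^ 4
      = 24 * coeff (fun z => Complex.exp (-H z) * gg H 3 z) m
        - 3 * (m : ℂ) ^ 2 * coeff (fun z => Complex.exp (-H z) * gg H 1 z) m
        + 5 / 16 * (m : ℂ) ^ 4 * coeff (fun z => Complex.exp (-H z)) m
        + coeff (fun z => Complex.exp (-H z) * low4 (fun n => gg H n z)) m := by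
  have hH := h.diff1
  have d0 := gg_diff one_pos hH 0
  have d1 := gg_diff one_pos hH 1
  have d2 := gg_diff one_pos hH 2
  have d3 := gg_diff one_pos hH 3
  have dr : DifferentiableOn ℂ (fun z => 2 * gg H 0 z ^ 2 * gg H 1 z + 16 * gg H 0 z * gg H 2 z
        + 10 * gg H 1 z ^ 2 + 20 * gg H 3 z) (ball 0 1) :=
    (((((d0.fun_pow 2).const_mul 2).fun_mul d1).fun_add
      ((d0.const_mul 16).fun_mul d2)).fun_add ((d1.fun_pow 2).const_mul 10)).fun_add
        (d3.const_mul 20)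
  have ds : DifferentiableOn ℂ (fun z => 24 * gg H 0 z ^ 2 * gg H 1 z
        + 144 * gg H 0 z * gg H 2 z + 96 * gg H 1 z ^ 2 + 120 * gg H 3 z) (ball 0 1) :=
    (((((d0.fun_pow 2).const_mul 24).fun_mul d1).fun_add
      ((d0.const_mul 144).fun_mul d2)).fun_add ((d1.fun_pow 2).const_mul 96)).fun_add
        (d3.const_mul 120)
  have dl : DifferentiableOn ℂ (fun z => low4 (fun n => gg H n z)) (ball 0 1) :=
    (((((d0.const_mul (2 / 5)).fun_mul d1).fun_add ((d0.fun_pow 3).const_mul (4 / 5))).fun_sub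
      (d2.const_mul (6 / 5))).fun_add ((d0.fun_pow 2).const_mul (7 / 15))).fun_add
        (d1.const_mul (1 / 5)) |>.fun_add (d0.const_mul (1 / 15))
  have e1 := coeff_linB hH (5 / 16) ds dl m
  have e2 := coeff_linB hH (-3) dr ((ds.const_mul (5 / 16)).fun_add dl) m
  have e3 := coeff_linB hH 24 d3
    ((dr.const_mul (-3)).fun_add ((ds.const_mul (5 / 16)).fun_add dl)) m
  rw [coeff_G4 hH m] at e1
  rw [coeff_Gg1 hH m] at e2
  rw [jetA4 h m]
  have e4 : coeff (fun z => Complex.exp (-H z) * ((XX H 2 z - 1) ^ 2 / 24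
          - (3 * XX H 4 z - 10 * XX H 2 z + 7) / 240)) m
      = coeff (fun z => Complex.exp (-H z) * (24 * gg H 3 z
        + (-3 * (2 * gg H 0 z ^ 2 * gg H 1 z + 16 * gg H 0 z * gg H 2 z
          + 10 * gg H 1 z ^ 2 + 20 * gg H 3 z)
          + (5 / 16 * (24 * gg H 0 z ^ 2 * gg H 1 z
            + 144 * gg H 0 z * gg H 2 z + 96 * gg H 1 z ^ 2 + 120 * gg H 3 z)
            + low4 (fun n => gg H n z))))) m := by
    apply coeff_congrB
    intro z hz
    rw [XX_two one_pos hH hz, XX_four one_pos hH hz, low4]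
    ring
  rw [e4, e3, e2, e1]
  ring

end Pool.Agent.Helper39.MH
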