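import Mathlib
import Pool.Agent.Helper39.MH.Defs

/-!
MP_16b0ee, project MH: linearity and monotonicity of the functional `LG`.
-/

set_option autoImplicit false

open MeasureTheory Set Metric Filter Topology
open scoped Real ComplexConjugate

namespace Pool.Agent.Helper39.MH

variable {H : ℂ → ℂ} {b : ℝ}

theorem cont_weight (hH : ContinuousOn H (closedBall 0 1)) (hb : 1 ≤ b) :
    ContinuousOn (fun z => (1 - ‖z‖ ^ 2) ^ (b - 1) * ‖Complex.exp (-H z)‖ ^ 2)
      (closedBall (0 : ℂ) 1) := by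
  have h1 : Continuous (fun z : ℂ => (1 - ‖z‖ ^ 2 : ℝ) ^ (b - 1)) := by
    apply Continuous.rpow_const (by fun_prop)
    intro z
    right
    linarith
  have h2 : ContinuousOn (fun z => ‖Complex.exp (-H z)‖ ^ 2) (closedBall (0 : ℂ) 1) :=
    (hH.neg.cexp.norm.pow 2)
  exact h1.continuousOn.mul h2

theorem lg_int (hH : ContinuousOn H (closedBall 0 1)) (hb : 1 ≤ b) {f : ℂ → ℝ}
    (hf : ContinuousOn f (closedBall 0 1)) :
    IntegrableOn (fun z => (1 - ‖z‖ ^ 2) ^ (b - 1) * ‖Complex.exp (-H z)‖ ^ 2 * f z)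
      (ball (0 : ℂ) 1) :=
  (((cont_weight hH hb).mul hf).integrableOn_compact (isCompact_closedBall 0 1)).mono_set
    ball_subset_closedBall

theorem LG_add (hH : ContinuousOn H (closedBall 0 1)) (hb : 1 ≤ b) {f g : ℂ → ℝ}
    (hf : ContinuousOn f (closedBall 0 1)) (hg : ContinuousOn g (closedBall 0 1)) :
    LG H b (fun z => f z + g z) = LG H b f + LG H b g := by
  unfold LG
  rw [← mul_add, ← integral_add (lg_int hH hb hf) (lg_int hH hb hg)]
  congr 1
  apply integral_congr_ae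
  filter_upwards with z
  ring

theorem LG_smul (k : ℝ) (f : ℂ → ℝ) : LG H b (fun z => k * f z) = k * LG H b f := by
  have h : ∫ z in ball (0 : ℂ) 1, (1 - ‖z‖ ^ 2) ^ (b - 1) * ‖Complex.exp (-H z)‖ ^ 2 * (k * f z)
      = k * ∫ z in ball (0 : ℂ) 1, (1 - ‖z‖ ^ 2) ^ (b - 1) * ‖Complex.exp (-H z)‖ ^ 2 * f z := by
    rw [← integral_const_mul]
    apply integral_congr_ae
    filter_upwards with z
    ring
  unfold LG
  rw [h]
  ring

theorem LG_mono (hH : ContinuousOn H (closedBall 0 1)) (hb : 1 ≤ b) {f g : ℂ → ℝ}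
    (hf : ContinuousOn f (closedBall 0 1)) (hg : ContinuousOn g (closedBall 0 1))
    (hfg : ∀ z ∈ ball (0 : ℂ) 1, f z ≤ g z) : LG H b f ≤ LG H b g := by
  unfold LG
  apply mul_le_mul_of_nonneg_left _ (by positivity)
  apply setIntegral_mono_on (lg_int hH hb hf) (lg_int hH hb hg) measurableSet_ball
  intro z hz
  have hz1 : ‖z‖ < 1 := by simpa using hz
  have h0 : 0 ≤ 1 - ‖z‖ ^ 2 := by nlinarith [norm_nonneg z]
  have h1 : 0 ≤ (1 - ‖z‖ ^ 2) ^ (b - 1) := Real.rpow_nonneg h0 _
  exact mul_le_mul_of_nonneg_left (hfg z hz) (by positivity)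

theorem LG_congr {f g : ℂ → ℝ} (hfg : ∀ z ∈ ball (0 : ℂ) 1, f z = g z) : LG H b f = LG H b g := by
  unfold LG
  congr 1
  apply setIntegral_congr_fun measurableSet_ball
  intro z hz
  simp only
  rw [hfg z hz]

theorem LG_nonneg (hH : ContinuousOn H (closedBall 0 1)) (hb : 1 ≤ b) {f : ℂ → ℝ}
    (hf : ContinuousOn f (closedBall 0 1)) (h0 : ∀ z ∈ ball (0 : ℂ) 1, 0 ≤ f z) :
    0 ≤ LG H b f := by
  have h := LG_mono (f := fun _ => (0 : ℝ)) hH hb continuousOn_const hf h0
  have h2 : LG H b (fun _ => (0 : ℝ)) = 0 := by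
    unfold LG
    simp
  rw [h2] at h
  exact h

theorem LG_list {X : Type} (hH : ContinuousOn H (closedBall 0 1)) (hb : 1 ≤ b) (l : List X)
    (f : X → ℂ → ℝ) (hf : ∀ x ∈ l, ContinuousOn (f x) (closedBall 0 1)) :
    LG H b (fun z => (l.map (fun x => f x z)).sum) = (l.map (fun x => LG H b (f x))).sum ∧
      ContinuousOn (fun z => (l.map (fun x => f x z)).sum) (closedBall 0 1) := by
  induction l with
  | nil =>
    refine ⟨?_, ?_⟩
    · unfold LG
      simp
    · simp only [List.map_nil, List.sum_nil]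
      exact continuousOn_const
  | cons x l ih =>
    have ih' := ih (fun y hy => hf y (List.mem_cons_of_mem _ hy))
    have hx := hf x List.mem_cons_self
    refine ⟨?_, ?_⟩
    · simp only [List.map_cons, List.sum_cons]
      rw [LG_add hH hb hx ih'.2, ih'.1]
    · simp only [List.map_cons, List.sum_cons]
      exact hx.add ih'.2

end Pool.Agent.Helper39.MH
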