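import Pool.Agent.Helper39.MH.Defs

/-!
MH-1: discrete pairings of the partial sums of a palindrome.
-/

set_option autoImplicit false

namespace Pool.Agent.Helper39.MH

theorem pair_even (d : ℕ → ℂ) {m : ℕ} (hd : ∀ l ≤ m, d l = d (m - l)) (e : ℕ → ℝ)
    (he : ∀ i < m, e (m - 1 - i) = e i) :
    ∑ i ∈ Finset.range m, (e i : ℂ) * ∑ l ∈ Finset.range (i + 1), d l
      = (∑ i ∈ Finset.range m, (e i : ℂ)) / 2 * ∑ l ∈ Finset.range (m + 1), d l := by
  set G : ℂ := ∑ l ∈ Finset.range (m + 1), d l with hG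
  have hV : ∀ i, i < m → (∑ l ∈ Finset.range (i + 1), d l)
      + (∑ l ∈ Finset.range (m - 1 - i + 1), d l) = G := by
    intro i hi
    have h1 : m - 1 - i + 1 = m - i := by omega
    rw [h1]
    have h2 : ∑ l ∈ Finset.range (m - i), d l = ∑ l ∈ Finset.range (m - i), d (i + 1 + l) := by
      rw [← Finset.sum_range_reflect]
      refine Finset.sum_congr rfl fun l hl => ?_
      rw [Finset.mem_range] at hl
      rw [hd (m - i - 1 - l) (by omega)]
      congr 1
      omega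
    rw [h2, hG]
    have h3 : m + 1 = (i + 1) + (m - i) := by omega
    rw [h3, Finset.sum_range_add d (i + 1) (m - i)]
  have hr : ∑ i ∈ Finset.range m, (e i : ℂ) * ∑ l ∈ Finset.range (i + 1), d l
      = ∑ i ∈ Finset.range m, (e i : ℂ) * ∑ l ∈ Finset.range (m - 1 - i + 1), d l := by
    rw [← Finset.sum_range_reflect]
    refine Finset.sum_congr rfl fun i hi => ?_
    rw [Finset.mem_range] at hi
    rw [he i hi]
  have hs : (∑ i ∈ Finset.range m, (e i : ℂ) * ∑ l ∈ Finset.range (i + 1), d l)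
      + (∑ i ∈ Finset.range m, (e i : ℂ) * ∑ l ∈ Finset.range (m - 1 - i + 1), d l)
      = (∑ i ∈ Finset.range m, (e i : ℂ)) * G := by
    rw [← Finset.sum_add_distrib, Finset.sum_mul]
    refine Finset.sum_congr rfl fun i hi => ?_
    rw [Finset.mem_range] at hi
    rw [← mul_add, hV i hi]
  rw [← hr] at hs
  linear_combination hs / 2

/-- summation by parts against a primitive -/
theorem abel_pair (d f F : ℕ → ℂ) (hF : ∀ l, f l + F (l + 1) = F l) (n : ℕ) :
    ∑ i ∈ Finset.range n, f i * ∑ l ∈ Finset.range (i + 1), d l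
      + F n * ∑ l ∈ Finset.range n, d l = ∑ l ∈ Finset.range n, d l * F l := by
  induction n with
  | zero => simp
  | succ n ih =>
    rw [Finset.sum_range_succ, Finset.sum_range_succ (fun l => d l * F l) n, ← ih]
    have h1 := hF n
    have h2 : ∑ l ∈ Finset.range (n + 1), d l = ∑ l ∈ Finset.range n, d l + d n :=
      Finset.sum_range_succ _ _
    rw [h2]
    linear_combination (∑ l ∈ Finset.range n, d l + d n) * h1

theorem pair_of_primitive (d f F : ℕ → ℂ) (m : ℕ) (hF : ∀ l, f l + F (l + 1) = F l)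
    (h0 : F m = 0) :
    ∑ i ∈ Finset.range m, f i * ∑ l ∈ Finset.range (i + 1), d l
      = ∑ l ∈ Finset.range (m + 1), d l * F l := by
  have h := abel_pair d f F hF m
  rw [h0, zero_mul, add_zero] at h
  rw [h, Finset.sum_range_succ, h0, mul_zero, add_zero]

theorem pair_one (d : ℕ → ℂ) {m : ℕ} (hm : 1 ≤ m) (hd : ∀ l ≤ m, d l = d (m - l)) :
    ∑ i ∈ Finset.range m, ((i : ℂ) - ((m : ℂ) - 1) / 2) * ∑ l ∈ Finset.range (i + 1), d l
      = (m : ℂ) ^ 2 / 8 * (∑ l ∈ Finset.range (m + 1), d l)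
        - (∑ l ∈ Finset.range (m + 1), d l * ((l : ℂ) - m / 2) ^ 2) / 2 := by
  rw [pair_of_primitive d (fun i => (i : ℂ) - ((m : ℂ) - 1) / 2)
    (fun l => ((m : ℂ) ^ 2 / 4 - ((l : ℂ) - m / 2) ^ 2) / 2) m
    (fun l => by push_cast; ring) (by ring)]
  rw [Finset.mul_sum, Finset.sum_div, ← Finset.sum_sub_distrib]
  refine Finset.sum_congr rfl fun l _ => ?_
  ring

theorem pair_three (d : ℕ → ℂ) {m : ℕ} (hm : 1 ≤ m) (hd : ∀ l ≤ m, d l = d (m - l)) :
    ∑ i ∈ Finset.range m, ((i : ℂ) - ((m : ℂ) - 1) / 2) ^ 3 * ∑ l ∈ Finset.range (i + 1), d l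
      = ((m : ℂ) ^ 4 / 64 - (m : ℂ) ^ 2 / 32) * (∑ l ∈ Finset.range (m + 1), d l)
        + (∑ l ∈ Finset.range (m + 1), d l * ((l : ℂ) - m / 2) ^ 2) / 8
        - (∑ l ∈ Finset.range (m + 1), d l * ((l : ℂ) - m / 2) ^ 4) / 4 := by
  rw [pair_of_primitive d (fun i => ((i : ℂ) - ((m : ℂ) - 1) / 2) ^ 3)
    (fun l => 1 / 4 * ((m : ℂ) ^ 2 / 4 - ((l : ℂ) - m / 2) ^ 2)
      * ((m : ℂ) ^ 2 / 4 + ((l : ℂ) - m / 2) ^ 2 - 1 / 2)) m
    (fun l => by push_cast; ring) (by ring)]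
  rw [Finset.mul_sum, Finset.sum_div, Finset.sum_div, ← Finset.sum_add_distrib,
    ← Finset.sum_sub_distrib]
  refine Finset.sum_congr rfl fun l _ => ?_
  ring

end Pool.Agent.Helper39.MH
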