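import Mathlib
import Pool.Agent.Helper39.MH.Defs
import Pool.Agent.Helper39.MH.Pairs
import Pool.Agent.Helper24.Br.Seq
import Pool.Agent.Helper24.Br.Cont

/-!
MP_16b0ee, project MH, module MH-2: the inequality for a large order `m`.
-/

set_option autoImplicit false

open MeasureTheory Set Metric Filter Topology
open scoped Real ComplexConjugate

namespace Pool.Agent.Helper39.MH

open Pool.Agent.Helper22.Half
open Pool.Agent.Helper24.Br (tt)

/-- the normalised functionals of an antidiagonal -/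
noncomputable def vv (d : ℕ → ℂ) (m : ℕ) : Fin 3 → ℂ :=
  ![∑ l ∈ Finset.range (m + 1), d l,
    (∑ l ∈ Finset.range (m + 1), d l * ((l : ℂ) - m / 2) ^ 2) / (m : ℂ) ^ 2,
    (∑ l ∈ Finset.range (m + 1), d l * ((l : ℂ) - m / 2) ^ 4) / (m : ℂ) ^ 4]

/-- the test function of index `r` -/
noncomputable def mu (T : Test) (r : Fin 3) (y : ℝ) : ℝ :=
  T.E r y + T.α r * (1 / 2 - y) + T.β r * (1 / 2 - y) ^ 3

/-- finite version of the pairing matrix -/
noncomputable def Pm (T : Test) (m : ℕ) (r : Fin 3) : Fin 3 → ℝ :=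
  ![(∑ i ∈ Finset.range m, T.E r (tt m i)) / m / 2 + T.α r / 8 + T.β r / 64
      - T.β r / 32 * (1 / (m : ℝ)) ^ 2,
    -(T.α r) / 2 + T.β r / 8 * (1 / (m : ℝ)) ^ 2, -(T.β r) / 4]

/-- finite version of the Gram matrix -/
noncomputable def Jm (T : Test) (b : ℝ) (m : ℕ) (r s : Fin 3) : ℝ :=
  (∑ i ∈ Finset.range m, pq (b + 3) i * (T.ν r (tt m i) * T.ν s (tt m i) * tt m i))
    / (m * pq (b + 3) m)

theorem tt_symm {m i : ℕ} (hi : i < m) : tt m (m - 1 - i) = 1 - tt m i := by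
  unfold tt
  have hm : (0:ℝ) < m := by exact_mod_cast (by omega : 0 < m)
  have e1 : m - (m - 1 - i) = i + 1 := by omega
  have e2 : ((m - i : ℕ) : ℝ) = m - i := by rw [Nat.cast_sub hi.le]
  rw [e1, e2]
  push_cast
  field_simp
  ring

theorem half_tt {m i : ℕ} (hi : i < m) :
    ((1 / 2 - tt m i : ℝ) : ℂ) = ((i : ℂ) - ((m : ℂ) - 1) / 2) / m := by
  unfold tt
  have hm : (m:ℂ) ≠ 0 := by exact_mod_cast (by omega : m ≠ 0)
  have e2 : ((m - i : ℕ) : ℝ) = m - i := by rw [Nat.cast_sub hi.le]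
  rw [e2]
  push_cast
  field_simp
  ring

theorem mu_sum (T : Test) (d : ℕ → ℂ) {m : ℕ} (hm : 1 ≤ m) (hd : ∀ l ≤ m, d l = d (m - l))
    (r : Fin 3) :
    ∑ i ∈ Finset.range m, ((mu T r (tt m i) : ℝ) : ℂ) * ∑ l ∈ Finset.range (i + 1), d l
      = m * ∑ s, ((Pm T m r s : ℝ) : ℂ) * vv d m s := by
  have hm0 : (m:ℂ) ≠ 0 := by exact_mod_cast (by omega : m ≠ 0)
  have h0 := pair_even d hd (fun i => T.E r (tt m i)) (fun i hi => by
    show T.E r (tt m (m - 1 - i)) = T.E r (tt m i)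
    rw [tt_symm hi]
    exact T.even r _ (Pool.Agent.Helper24.Br.tt_mem hi))
  have h1 := pair_one d hm hd
  have h3 := pair_three d hm hd
  have e : ∑ i ∈ Finset.range m, ((mu T r (tt m i) : ℝ) : ℂ) * ∑ l ∈ Finset.range (i + 1), d l
      = ∑ i ∈ Finset.range m, ((T.E r (tt m i) : ℝ) : ℂ) * ∑ l ∈ Finset.range (i + 1), d l
        + (T.α r : ℂ) / m * ∑ i ∈ Finset.range m,
          ((i : ℂ) - ((m : ℂ) - 1) / 2) * ∑ l ∈ Finset.range (i + 1), d l
        + (T.β r : ℂ) / m ^ 3 * ∑ i ∈ Finset.range m,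
          ((i : ℂ) - ((m : ℂ) - 1) / 2) ^ 3 * ∑ l ∈ Finset.range (i + 1), d l := by
    rw [Finset.mul_sum, Finset.mul_sum, ← Finset.sum_add_distrib, ← Finset.sum_add_distrib]
    apply Finset.sum_congr rfl
    intro i hi
    rw [Finset.mem_range] at hi
    unfold mu
    rw [Complex.ofReal_add, Complex.ofReal_add, Complex.ofReal_mul, Complex.ofReal_mul,
      Complex.ofReal_pow, half_tt hi]
    field_simp
  rw [e, h0, h1, h3]
  simp only [vv, Pm, Fin.sum_univ_three, Matrix.cons_val_zero, Matrix.cons_val_one,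
    Matrix.cons_val_two, Matrix.head_cons, Matrix.tail_cons]
  push_cast
  field_simp
  ring


/-- the square of the norm of a real combination -/
theorem norm_comb (c : Fin 3 → ℝ) (v : Fin 3 → ℂ) :
    ‖∑ r, (c r : ℂ) * v r‖ ^ 2 = ∑ r, ∑ s, c r * c s * (v r * conj (v s)).re := by
  rw [← Complex.normSq_eq_norm_sq, ← Complex.ofReal_re (Complex.normSq _), Complex.normSq_eq_conj_mul_self,
    mul_comm, map_sum, Finset.sum_mul_sum, Complex.re_sum]
  apply Finset.sum_congr rfl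
  intro r _
  rw [Complex.re_sum]
  apply Finset.sum_congr rfl
  intro s _
  rw [map_mul, Complex.conj_ofReal]
  have e : (c r : ℂ) * v r * ((c s : ℂ) * conj (v s)) = ((c r * c s : ℝ) : ℂ) * (v r * conj (v s)) := by
    push_cast; ring
  rw [e, Complex.re_ofReal_mul]

theorem swap_sum (c : Fin 3 → ℕ → ℝ) (v : Fin 3 → ℂ) (S : ℕ → ℂ) (m : ℕ) :
    ∑ i ∈ Finset.range m, (conj (∑ r, ((c r i : ℝ) : ℂ) * v r) * S i)
      = ∑ r, conj (v r) * ∑ i ∈ Finset.range m, ((c r i : ℝ) : ℂ) * S i := by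
  have h : ∀ i ∈ Finset.range m, conj (∑ r, ((c r i : ℝ) : ℂ) * v r) * S i
      = ∑ r, conj (v r) * (((c r i : ℝ) : ℂ) * S i) := by
    intro i _
    rw [map_sum, Finset.sum_mul]
    apply Finset.sum_congr rfl
    intro r _
    rw [map_mul, Complex.conj_ofReal]
    ring
  rw [Finset.sum_congr rfl h, Finset.sum_comm]
  apply Finset.sum_congr rfl
  intro r _
  rw [Finset.mul_sum]

/-- Young's inequality -/
theorem young_one {a : ℝ} (ha : 0 < a) (x V : ℂ) :
    2 * (conj x * V).re - ‖x‖ ^ 2 / a ≤ a * ‖V‖ ^ 2 := by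
  have h1 : (conj x * V).re ≤ ‖x‖ * ‖V‖ := by
    have := Complex.re_le_norm (conj x * V)
    rw [norm_mul, Complex.norm_conj] at this
    exact this
  have h2 : 2 * (‖x‖ * ‖V‖) - ‖x‖ ^ 2 / a ≤ a * ‖V‖ ^ 2 := by
    have h3 : 0 ≤ (a * ‖V‖ - ‖x‖) ^ 2 / a := by positivity
    have h4 : (a * ‖V‖ - ‖x‖) ^ 2 / a = a * ‖V‖ ^ 2 - 2 * (‖x‖ * ‖V‖) + ‖x‖ ^ 2 / a := by
      field_simp
      ring
    linarith
  linarith

theorem Pf_ge (T : Test) {b : ℝ} (hb : 0 < b) {m : ℕ} (hm : 1 ≤ m) (d : ℕ → ℂ)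
    (hd : ∀ l ≤ m, d l = d (m - l)) :
    (m : ℝ) ^ 2 / pq (b + 3) m * (∑ r, ∑ s, (Pm T m r s + Pm T m s r - Jm T b m r s)
      * (vv d m r * conj (vv d m s)).re) ≤ Pf (-1) b d m := by
  have hz : 0 < b + 3 := by linarith
  have hm0 : (0:ℝ) < m := by exact_mod_cast (by omega : 0 < m)
  have hq := pq_pos hz m
  set v := vv d m with hv
  set q := pq (b + 3) m with hqd
  have hPf : Pf (-1) b d m = ∑ i ∈ Finset.range m,
      ((m - i : ℕ) : ℝ) / pq (b + 3) i * ‖∑ l ∈ Finset.range (i + 1), d l‖ ^ 2 := by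
    unfold Pf
    apply Finset.sum_congr rfl
    intro i hi
    rw [Finset.mem_range] at hi
    rw [Pool.Agent.Helper24.Br.Vd_lo d hi.le, div_eq_mul_inv]
    congr 4
    rw [Complex.neg_re, Complex.one_re]; ring
  -- the pointwise inequality
  have h1 : ∀ i ∈ Finset.range m,
      2 * (m / q) * (conj (∑ r, ((mu T r (tt m i) : ℝ) : ℂ) * v r)
          * ∑ l ∈ Finset.range (i + 1), d l).re
        - m ^ 2 / q * ((pq (b + 3) i * (tt m i * ‖∑ r, ((T.ν r (tt m i) : ℝ) : ℂ) * v r‖ ^ 2))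
          / (m * q))
        ≤ ((m - i : ℕ) : ℝ) / pq (b + 3) i * ‖∑ l ∈ Finset.range (i + 1), d l‖ ^ 2 := by
    intro i hi
    rw [Finset.mem_range] at hi
    have hqi := pq_pos hz i
    have hmi : (0:ℝ) < ((m - i : ℕ) : ℝ) := by exact_mod_cast (by omega : 0 < m - i)
    have htt := Pool.Agent.Helper24.Br.tt_mem hi
    have hy := young_one (a := ((m - i : ℕ) : ℝ) / pq (b + 3) i) (by positivity)
      (((m / q : ℝ) : ℂ) * ∑ r, ((mu T r (tt m i) : ℝ) : ℂ) * v r)
      (∑ l ∈ Finset.range (i + 1), d l)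
    refine le_trans ?_ hy
    have e0 : (conj (((m / q : ℝ) : ℂ) * ∑ r, ((mu T r (tt m i) : ℝ) : ℂ) * v r)
        * ∑ l ∈ Finset.range (i + 1), d l).re
        = m / q * (conj (∑ r, ((mu T r (tt m i) : ℝ) : ℂ) * v r)
          * ∑ l ∈ Finset.range (i + 1), d l).re := by
      rw [map_mul, Complex.conj_ofReal, mul_assoc, Complex.re_ofReal_mul]
    rw [e0]
    have e1 : ∑ r, ((mu T r (tt m i) : ℝ) : ℂ) * v r
        = ((tt m i : ℝ) : ℂ) * ∑ r, ((T.ν r (tt m i) : ℝ) : ℂ) * v r := by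
      rw [Finset.mul_sum]
      apply Finset.sum_congr rfl
      intro r _
      unfold mu
      rw [T.eq r _ htt]
      push_cast
      ring
    rw [norm_mul, Complex.norm_real, Real.norm_of_nonneg (by positivity : 0 ≤ m / q)]
    have e2 : (m / q * ‖∑ r, ((mu T r (tt m i) : ℝ) : ℂ) * v r‖) ^ 2
          / (((m - i : ℕ) : ℝ) / pq (b + 3) i)
        ≤ m ^ 2 / q * ((pq (b + 3) i * (tt m i * ‖∑ r, ((T.ν r (tt m i) : ℝ) : ℂ) * v r‖ ^ 2))
          / (m * q)) := by
      rw [e1, norm_mul, Complex.norm_real, Real.norm_of_nonneg htt.1]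
      set N := ‖∑ r, ((T.ν r (tt m i) : ℝ) : ℂ) * v r‖
      have h5 : m * tt m i ≤ ((m - i : ℕ) : ℝ) := by
        have : (m : ℝ) * tt m i = ((m - i : ℕ) : ℝ) - 1 / 2 := by
          unfold tt
          field_simp
        linarith
      rw [div_le_iff₀ (by positivity)]
      have h6 : m ^ 2 / q * ((pq (b + 3) i * (tt m i * N ^ 2)) / (m * q))
            * (((m - i : ℕ) : ℝ) / pq (b + 3) i)
          = (m / q ^ 2 * (tt m i * N ^ 2)) * ((m - i : ℕ) : ℝ) := by
        field_simp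
      have h7 : (m / q * (tt m i * N)) ^ 2 = (m / q ^ 2 * (tt m i * N ^ 2)) * (m * tt m i) := by
        field_simp
      rw [h6, h7]
      apply mul_le_mul_of_nonneg_left h5
      have := htt.1
      positivity
    linarith
  have h2 := Finset.sum_le_sum h1
  rw [← hPf, Finset.sum_sub_distrib, ← Finset.mul_sum, ← Finset.mul_sum] at h2
  refine le_trans (le_of_eq ?_) h2
  have h3 : ∑ i ∈ Finset.range m, (conj (∑ r, ((mu T r (tt m i) : ℝ) : ℂ) * v r)
      * ∑ l ∈ Finset.range (i + 1), d l).re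
      = m * ∑ r, ∑ s, Pm T m r s * (v r * conj (v s)).re := by
    have h4 : ∑ i ∈ Finset.range m, (conj (∑ r, ((mu T r (tt m i) : ℝ) : ℂ) * v r)
        * ∑ l ∈ Finset.range (i + 1), d l)
        = ∑ r, conj (v r) * ∑ i ∈ Finset.range m, ((mu T r (tt m i) : ℝ) : ℂ)
          * ∑ l ∈ Finset.range (i + 1), d l := by
      exact swap_sum (fun r i => mu T r (tt m i)) v (fun i => ∑ l ∈ Finset.range (i + 1), d l) m
    rw [← Complex.re_sum, h4, Complex.re_sum, Finset.mul_sum]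
    apply Finset.sum_congr rfl
    intro r _
    rw [mu_sum T d hm hd r, ← hv, Finset.mul_sum, Finset.mul_sum, Complex.re_sum, Finset.mul_sum]
    apply Finset.sum_congr rfl
    intro s _
    have e : conj (v r) * ((m : ℂ) * (((Pm T m r s : ℝ) : ℂ) * v s))
        = ((m * Pm T m r s : ℝ) : ℂ) * (conj (v r) * v s) := by
      push_cast; ring
    rw [e, Complex.re_ofReal_mul, mul_assoc]
    congr 2
    rw [← Complex.conj_re (v r * conj (v s))]
    simp [Complex.mul_re]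
  have h4 : ∑ i ∈ Finset.range m, (pq (b + 3) i * (tt m i
        * ‖∑ r, ((T.ν r (tt m i) : ℝ) : ℂ) * v r‖ ^ 2)) / (m * q)
      = ∑ r, ∑ s, Jm T b m r s * (v r * conj (v s)).re := by
    have h5 : ∀ i ∈ Finset.range m, (pq (b + 3) i * (tt m i
        * ‖∑ r, ((T.ν r (tt m i) : ℝ) : ℂ) * v r‖ ^ 2)) / (m * q)
        = ∑ r, ∑ s, pq (b + 3) i * (T.ν r (tt m i) * T.ν s (tt m i) * tt m i) / (m * q)
          * (v r * conj (v s)).re := by
      intro i _
      rw [norm_comb, Finset.mul_sum, Finset.mul_sum, Finset.sum_div]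
      apply Finset.sum_congr rfl
      intro r _
      rw [Finset.mul_sum, Finset.mul_sum, Finset.sum_div]
      apply Finset.sum_congr rfl
      intro s _
      ring
    rw [Finset.sum_congr rfl h5, Finset.sum_comm]
    apply Finset.sum_congr rfl
    intro r _
    rw [Finset.sum_comm]
    apply Finset.sum_congr rfl
    intro s _
    unfold Jm
    rw [← Finset.sum_mul, ← Finset.sum_div]
  have h5 : ∑ r, ∑ s, Pm T m s r * (v r * conj (v s)).re
      = ∑ r, ∑ s, Pm T m r s * (v r * conj (v s)).re := by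
    rw [Finset.sum_comm]
    apply Finset.sum_congr rfl
    intro r _
    apply Finset.sum_congr rfl
    intro s _
    congr 1
    simp only [Complex.mul_re, Complex.conj_re, Complex.conj_im]
    ring
  rw [h3, h4]
  have h6 : ∑ r, ∑ s, (Pm T m r s + Pm T m s r - Jm T b m r s) * (v r * conj (v s)).re
      = ∑ r, ∑ s, Pm T m r s * (v r * conj (v s)).re
        + ∑ r, ∑ s, Pm T m s r * (v r * conj (v s)).re
        - ∑ r, ∑ s, Jm T b m r s * (v r * conj (v s)).re := by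
    rw [← Finset.sum_add_distrib, ← Finset.sum_sub_distrib]
    apply Finset.sum_congr rfl
    intro r _
    rw [← Finset.sum_add_distrib, ← Finset.sum_sub_distrib]
    apply Finset.sum_congr rfl
    intro s _
    ring
  rw [h6, h5]
  ring

theorem E_cont (T : Test) (r : Fin 3) : ContinuousOn (T.E r) (Icc 0 1) := by
  have h : ContinuousOn (fun y : ℝ => y * T.ν r y - (T.α r * (1 / 2 - y) + T.β r * (1 / 2 - y) ^ 3))
      (Icc 0 1) := by
    apply ContinuousOn.sub
    · exact continuousOn_id.mul (T.cont r)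
    · exact Continuous.continuousOn (by fun_prop)
  refine h.congr ?_
  intro y hy
  show T.E r y = y * T.ν r y - (T.α r * (1 / 2 - y) + T.β r * (1 / 2 - y) ^ 3)
  rw [← T.eq r y hy]
  ring

theorem inv_sq_tendsto (c : ℝ) : Tendsto (fun m : ℕ => c * (1 / (m : ℝ)) ^ 2) atTop (𝓝 0) := by
  have h := (tendsto_one_div_atTop_nhds_zero_nat (𝕜 := ℝ)).pow 2
  have h2 := h.const_mul c
  simpa using h2

theorem Pm_tendsto (T : Test) (r s : Fin 3) :
    Tendsto (fun m : ℕ => Pm T m r s) atTop (𝓝 (T.P r s)) := by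
  have hE : Tendsto (fun m : ℕ => (∑ i ∈ Finset.range m, T.E r (tt m i)) / m) atTop
      (𝓝 (∫ y in (0:ℝ)..1, T.E r y)) := by
    have h := Pool.Agent.Helper24.Br.Av_mid (z := 1) one_pos (E_cont T r)
    simpa [pq_one] using h
  fin_cases s
  · have h := ((hE.div_const 2).add_const (T.α r / 8 + T.β r / 64)).sub (inv_sq_tendsto (T.β r / 32))
    refine (h.congr ?_).trans (le_of_eq ?_)
    · intro m
      simp only [Pm, Fin.zero_eta, Matrix.cons_val_zero]
      ring
    · simp only [Test.P, Fin.zero_eta, Matrix.cons_val_zero]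
      congr 1
      ring
  · have h := (inv_sq_tendsto (T.β r / 8)).const_add (-(T.α r) / 2)
    refine (h.congr ?_).trans (le_of_eq ?_)
    · intro m
      simp only [Pm, Fin.mk_one, Matrix.cons_val_one, Matrix.cons_val_zero]
    · simp only [Test.P, Fin.mk_one, Matrix.cons_val_one, Matrix.cons_val_zero]
      congr 1
      ring
  · have h : Tendsto (fun _ : ℕ => -(T.β r) / 4) atTop (𝓝 (-(T.β r) / 4)) := tendsto_const_nhds
    exact h

theorem Jm_tendsto (T : Test) {b : ℝ} (hb : 0 < b) (r s : Fin 3) :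
    Tendsto (fun m : ℕ => Jm T b m r s) atTop
      (𝓝 (∫ y in (0:ℝ)..1, T.ν r y * T.ν s y * y * (1 - y) ^ (b + 2))) := by
  have h := Pool.Agent.Helper24.Br.Av_mid (z := b + 3) (by linarith)
    (F := fun y => T.ν r y * T.ν s y * y) (((T.cont r).mul (T.cont s)).mul continuousOn_id)
  have e : b + 3 - 1 = b + 2 := by ring
  rw [e] at h
  exact h

theorem perfreq (T : Test) {b : ℝ} (hb : 0 < b) {ε : ℝ} (hε : 0 < ε) :
    ∃ m0 : ℕ, ∀ m : ℕ, 1 ≤ m → m0 ≤ m → ∀ d : ℕ → ℂ, (∀ l ≤ m, d l = d (m - l)) →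
      (m : ℝ) ^ 2 / pq (b + 3) m * ((∑ r, ∑ s, T.Qv b r s * (vv d m r * conj (vv d m s)).re)
        - ε * ∑ r, ‖vv d m r‖ ^ 2) ≤ Pf (-1) b d m := by
  have h1 : ∀ r s : Fin 3, Tendsto (fun m : ℕ => Pm T m r s + Pm T m s r - Jm T b m r s) atTop
      (𝓝 (T.Qv b r s)) := fun r s =>
    ((Pm_tendsto T r s).add (Pm_tendsto T s r)).sub (Jm_tendsto T hb r s)
  have h2 : ∀ r s : Fin 3, ∀ᶠ m : ℕ in atTop,
      |(Pm T m r s + Pm T m s r - Jm T b m r s) - T.Qv b r s| ≤ ε / 3 := by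
    intro r s
    have h3 := (Metric.tendsto_nhds.mp (h1 r s)) (ε / 3) (by positivity)
    filter_upwards [h3] with m hm
    rw [Real.dist_eq] at hm
    exact hm.le
  have h3 : ∀ᶠ m : ℕ in atTop, ∀ r s : Fin 3,
      |(Pm T m r s + Pm T m s r - Jm T b m r s) - T.Qv b r s| ≤ ε / 3 := by
    rw [Filter.eventually_all]
    intro r
    rw [Filter.eventually_all]
    intro s
    exact h2 r s
  obtain ⟨m0, hm0⟩ := Filter.eventually_atTop.mp h3
  refine ⟨m0, fun m hm hmm d hd => ?_⟩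
  refine le_trans ?_ (Pf_ge T hb hm d hd)
  have hq := pq_pos (by linarith : 0 < b + 3) m
  apply mul_le_mul_of_nonneg_left _ (by positivity)
  have hk := hm0 m hmm
  set v := vv d m with hv
  have h4 : ∀ r s : Fin 3, T.Qv b r s * (v r * conj (v s)).re
      - ε / 3 * ((‖v r‖ ^ 2 + ‖v s‖ ^ 2) / 2)
      ≤ (Pm T m r s + Pm T m s r - Jm T b m r s) * (v r * conj (v s)).re := by
    intro r s
    have h5 := hk r s
    have h6 : |(v r * conj (v s)).re| ≤ (‖v r‖ ^ 2 + ‖v s‖ ^ 2) / 2 := by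
      have h7 := Complex.abs_re_le_norm (v r * conj (v s))
      rw [norm_mul, Complex.norm_conj] at h7
      nlinarith [sq_nonneg (‖v r‖ - ‖v s‖)]
    have h8 : |((Pm T m r s + Pm T m s r - Jm T b m r s) - T.Qv b r s) * (v r * conj (v s)).re|
        ≤ ε / 3 * ((‖v r‖ ^ 2 + ‖v s‖ ^ 2) / 2) := by
      rw [abs_mul]
      exact mul_le_mul h5 h6 (abs_nonneg _) (by positivity)
    have h9 := (abs_le.mp h8).1
    linarith
  have h5 := Finset.sum_le_sum (fun r (_ : r ∈ (Finset.univ : Finset (Fin 3))) =>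
    Finset.sum_le_sum (fun s (_ : s ∈ (Finset.univ : Finset (Fin 3))) => h4 r s))
  refine le_trans (le_of_eq ?_) h5
  simp only [Fin.sum_univ_three]
  ring

end Pool.Agent.Helper39.MH
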