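import Mathlib
import Pool.Agent.Helper39.MH.Defs
import Pool.Agent.Helper39.MH.Bridge
import Pool.Agent.Helper39.MH.Euler
import Pool.Agent.Helper39.MH.Bounds
import Pool.Agent.Helper39.MH.LGBase
import Pool.Agent.Helper22.Half.Norms

/-!
MP_16b0ee, project MH, module MH-12a: the weights of the orders, the weighted sums of the
coefficients.
-/

set_option autoImplicit false

open MeasureTheory Set Metric Filter Topology
open scoped Real ComplexConjugate

namespace Pool.Agent.Helper39.MH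

open Pool.Agent.Helper22.Half
open Pool.Agent.Helper22.Marshall (coeff SepHol LogPhi dcoeff GLe)
open Pool.Agent.Helper39.Area (Ext phi)

/-- the weight of the order `m` -/
noncomputable def Wt (b : ℝ) (m : ℕ) : ℝ := (m : ℝ) ^ 2 / pq (b + 3) m

namespace Weights

theorem quot_one (c : ℝ) : Tendsto (fun m : ℕ => (c + (m : ℝ)) / (m : ℝ)) atTop (𝓝 1) := by
  have h1 : Tendsto (fun m : ℕ => c / (m : ℝ) + 1) atTop (𝓝 (0 + 1)) :=
    (tendsto_const_div_atTop_nhds_zero_nat c).add_const 1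
  rw [zero_add] at h1
  refine h1.congr' ?_
  filter_upwards [eventually_gt_atTop 0] with m hm
  have hm' : (m : ℝ) ≠ 0 := by exact_mod_cast hm.ne'
  field_simp

theorem quot_inv (c : ℝ) : Tendsto (fun m : ℕ => (m : ℝ) / (c + (m : ℝ))) atTop (𝓝 1) := by
  have h1 := (quot_one c).inv₀ one_ne_zero
  rw [inv_one] at h1
  refine h1.congr fun m => ?_
  rw [inv_div]

theorem wt_base {b : ℝ} (hb : 0 < b) {m : ℕ} :
    Wt b m * (b * pq (b + 1) m)
      = b * (b + 1) * (b + 2) * ((m : ℝ) / (b + 1 + m)) * ((m : ℝ) / (b + 2 + m)) := by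
  have h1 : pq (b + 3) m = pq (b + 1) m * ((b + 1 + m) / (b + 1)) * ((b + 2 + m) / (b + 2)) := by
    have e1 := pq_add_one (b + 1) m
    have e2 := pq_add_one (b + 2) m
    rw [show b + 1 + 1 = b + 2 by ring] at e1
    rw [show b + 2 + 1 = b + 3 by ring] at e2
    have n1 : b + 1 ≠ 0 := by positivity
    have n2 : b + 2 ≠ 0 := by positivity
    field_simp
    linear_combination (b + 1) * e2 + (b + 2 + m) * e1
  have h2 : 0 < pq (b + 1) m := pq_pos (by positivity) m
  have n3 : b + 1 + (m : ℝ) ≠ 0 := by positivity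
  have n4 : b + 2 + (m : ℝ) ≠ 0 := by positivity
  have n1 : b + 1 ≠ 0 := by positivity
  have n2 : b + 2 ≠ 0 := by positivity
  unfold Wt
  rw [h1]
  field_simp

end Weights

open Weights

theorem wt_tendsto {b : ℝ} (hb : 0 < b) (w : ℕ) :
    Tendsto (fun m : ℕ => Wt b m / (m : ℝ) ^ w * ((b + w) * pq (b + w + 1) m)) atTop
      (𝓝 (b * (b + 1) * (b + 2) / ((Nat.factorial w : ℝ) * pq b w))) := by
  induction w with
  | zero =>
    have h1 := ((quot_inv (b + 1)).const_mul (b * (b + 1) * (b + 2))).mul (quot_inv (b + 2))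
    have e : b * (b + 1) * (b + 2) * 1 * 1
        = b * (b + 1) * (b + 2) / ((Nat.factorial 0 : ℝ) * pq b 0) := by
      rw [pq_zero, Nat.factorial_zero]
      simp
    rw [e] at h1
    refine h1.congr fun m => ?_
    rw [pow_zero, div_one, Nat.cast_zero, add_zero, wt_base hb]
  | succ w ih =>
    have hbw : b + (w : ℝ) ≠ 0 := by positivity
    have h1 := ih.mul ((quot_one (b + w + 1)).div_const (b + w))
    have e : b * (b + 1) * (b + 2) / ((Nat.factorial w : ℝ) * pq b w) * (1 / (b + w))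
        = b * (b + 1) * (b + 2) / ((Nat.factorial (w + 1) : ℝ) * pq b (w + 1)) := by
      rw [Nat.factorial_succ]
      have h2 := pq_succ' b w
      have h3 : (((w + 1) * Nat.factorial w : ℕ) : ℝ) * pq b (w + 1)
          = (Nat.factorial w : ℝ) * pq b w * (b + w) := by
        push_cast
        linear_combination (Nat.factorial w : ℝ) * h2
      rw [h3]
      field_simp
    rw [e] at h1
    refine h1.congr' ?_
    filter_upwards [eventually_gt_atTop 0] with m hm
    have hm' : (m : ℝ) ≠ 0 := by exact_mod_cast hm.ne'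
    have h4 := pq_add_one (b + w + 1) m
    have h5 : (b + w + 1) ≠ 0 := by positivity
    have e2 : b + ((w + 1 : ℕ) : ℝ) = b + w + 1 := by push_cast; ring
    rw [e2, h4]
    field_simp
    ring

theorem um_tendsto {b : ℝ} (hb : 0 < b) :
    Tendsto (fun m : ℕ => ((m : ℝ) + 1) * (m + b + 2) / (b * (b + 1)) * (pq (b + 3) m)⁻¹
      / Wt b m) atTop (𝓝 (1 / (b * (b + 1)))) := by
  have h1 := ((quot_one 1).mul (quot_one (b + 2))).div_const (b * (b + 1))
  rw [one_mul] at h1
  refine h1.congr' ?_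
  filter_upwards [eventually_gt_atTop 0] with m hm
  have hm' : (m : ℝ) ≠ 0 := by exact_mod_cast hm.ne'
  have hp : pq (b + 3) m ≠ 0 := (pq_pos (by positivity) m).ne'
  unfold Wt
  field_simp
  ring

theorem cross_sum {b : ℝ} (hb : 1 ≤ b) (A B : List ℕ) {ρ : ℝ} {β H : ℂ → ℂ} {Φ : ℂ → ℂ → ℂ}
    (h : Data ρ β H Φ) :
    HasSum (fun m : ℕ => ((b + wt A + wt B) * pq (b + wt A + wt B + 1) m)⁻¹
      * (coeff (fun z => Complex.exp (-H z) * ev (fun k => gg H k z) A) m
        * conj (coeff (fun z => Complex.exp (-H z) * ev (fun k => gg H k z) B) m)).re)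
      (LG H b (fun z => (ev (cc H z) A * conj (ev (cc H z) B)).re)) := by
  have hρ0 : 0 < ρ := by linarith [h.one_lt]
  have hp : 0 ≤ b - 1 + wt A + wt B := by
    have : (0:ℝ) ≤ b - 1 := by linarith
    positivity
  have h1 := bridge h.one_lt (exp_ev_diff hρ0 h.diff A) (exp_ev_diff hρ0 h.diff B) hp
  have e1 : b - 1 + (wt A : ℝ) + wt B + 1 = b + wt A + wt B := by ring
  have e2 : b - 1 + (wt A : ℝ) + wt B + 2 = b + wt A + wt B + 1 := by ring
  rw [e1, e2] at h1
  have e3 : LG H b (fun z => (ev (cc H z) A * conj (ev (cc H z) B)).re)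
      = (1 / π) * ∫ z in ball (0 : ℂ) 1, (1 - ‖z‖ ^ 2) ^ (b - 1 + (wt A : ℝ) + wt B)
        * (Complex.exp (-H z) * ev (fun k => gg H k z) A
          * conj (Complex.exp (-H z) * ev (fun k => gg H k z) B)).re := by
    unfold LG
    congr 1
    apply setIntegral_congr_fun measurableSet_ball
    intro z hz
    have hpos : 0 < 1 - ‖z‖ ^ 2 := Bounds.one_sub_sq_pos hz
    simp only
    rw [ev_cc, ev_cc]
    have e4 : (1 - ‖z‖ ^ 2) ^ (b - 1 + (wt A : ℝ) + wt B)
        = (1 - ‖z‖ ^ 2) ^ (b - 1) * (1 - ‖z‖ ^ 2) ^ (wt A) * (1 - ‖z‖ ^ 2) ^ (wt B) := by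
      rw [Real.rpow_add hpos, Real.rpow_add hpos, Real.rpow_natCast, Real.rpow_natCast]
    rw [e4]
    generalize (1 - ‖z‖ ^ 2) ^ (b - 1) = r
    generalize (1 - ‖z‖ ^ 2) ^ (wt A) = s
    generalize (1 - ‖z‖ ^ 2) ^ (wt B) = t
    generalize ev (fun k => gg H k z) A = u
    generalize ev (fun k => gg H k z) B = v
    generalize Complex.exp (-H z) = g
    have e5 : (((s : ℝ) : ℂ) * u * conj (((t : ℝ) : ℂ) * v)).re = s * t * (u * conj v).re := by
      rw [map_mul, Complex.conj_ofReal]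
      have : ((s : ℝ) : ℂ) * u * (((t : ℝ) : ℂ) * conj v) = ((s * t : ℝ) : ℂ) * (u * conj v) := by
        push_cast
        ring
      rw [this, Complex.re_ofReal_mul]
    have e6 : (g * u * conj (g * v)).re = ‖g‖ ^ 2 * (u * conj v).re := by
      rw [map_mul]
      have : g * u * (conj g * conj v) = ((‖g‖ ^ 2 : ℝ) : ℂ) * (u * conj v) := by
        have h7 : g * conj g = ((‖g‖ ^ 2 : ℝ) : ℂ) := by
          rw [Complex.mul_conj, Complex.normSq_eq_norm_sq]
        rw [← h7]
        ring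
      rw [this, Complex.re_ofReal_mul]
    rw [e5, e6]
    ring
  rw [e3]
  exact h1

/-- a bound for a monomial -/
theorem ev_bound {c : ℕ → ℂ} {Cb : ℕ → ℝ} (h0 : ∀ n, 0 ≤ Cb n) (h : ∀ n, ‖c n‖ ≤ Cb n)
    (A : List ℕ) : ‖ev c A‖ ≤ (A.map Cb).prod ∧ 0 ≤ (A.map Cb).prod := by
  induction A with
  | nil => simp [ev]
  | cons a A ih =>
    rw [ev_cons, List.map_cons, List.prod_cons, norm_mul]
    exact ⟨mul_le_mul (h a) ih.1 (norm_nonneg _) (h0 a), mul_nonneg (h0 a) ih.2⟩

theorem cont_cc {ρ : ℝ} (hρ : 1 < ρ) {H : ℂ → ℂ} (hH : DifferentiableOn ℂ H (ball 0 ρ)) (n : ℕ) :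
    ContinuousOn (fun z => cc H z n) (closedBall (0 : ℂ) 1) := by
  have h1 : ContinuousOn (gg H n) (closedBall (0 : ℂ) 1) :=
    (gg_diff (by linarith) hH n).continuousOn.mono (closedBall_subset_ball hρ)
  have h2 : Continuous (fun z : ℂ => (((1 - ‖z‖ ^ 2) ^ (n + 1) : ℝ) : ℂ)) := by fun_prop
  exact h2.continuousOn.mul h1

theorem cont_ev_cc {ρ : ℝ} (hρ : 1 < ρ) {H : ℂ → ℂ} (hH : DifferentiableOn ℂ H (ball 0 ρ))
    (A : List ℕ) : ContinuousOn (fun z => ev (cc H z) A) (closedBall (0 : ℂ) 1) := by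
  induction A with
  | nil =>
    simp only [ev_nil]
    exact continuousOn_const
  | cons a A ih =>
    simp only [ev_cons]
    exact (cont_cc hρ hH a).mul ih

theorem norm_sum {b : ℝ} (hb : 1 ≤ b) (A : List ℕ) : ∃ C : ℝ, 0 ≤ C ∧
    ∀ (ρ : ℝ) (β H : ℂ → ℂ) (Φ : ℂ → ℂ → ℂ), Data ρ β H Φ →
      Summable (fun m : ℕ => Wt b m
        * (‖coeff (fun z => Complex.exp (-H z) * ev (fun k => gg H k z) A) m‖ / (m : ℝ) ^ wt A) ^ 2) ∧
      ∑' m : ℕ, Wt b m
        * (‖coeff (fun z => Complex.exp (-H z) * ev (fun k => gg H k z) A) m‖ / (m : ℝ) ^ wt A) ^ 2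
        ≤ C * LG H b (fun _ => 1) := by
  have hb0 : 0 < b := by linarith
  obtain ⟨Cb, hC0, hCb⟩ := gg_bound
  obtain ⟨K0, hK0⟩ := (wt_tendsto hb0 (wt A + wt A)).bddAbove_range
  have hK : ∀ m : ℕ, Wt b m / (m : ℝ) ^ (wt A + wt A)
      * ((b + wt A + wt A) * pq (b + wt A + wt A + 1) m) ≤ max K0 0 := by
    intro m
    have h1 := hK0 ⟨m, rfl⟩
    simp only at h1
    push_cast at h1
    rw [show b + ((wt A : ℝ) + wt A) = b + wt A + wt A by ring] at h1
    exact h1.trans (le_max_left _ _)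
  have hK1 : 0 ≤ max K0 0 := le_max_right _ _
  generalize max K0 0 = K at hK hK1
  have hP := (ev_bound hC0 (c := fun n => (0:ℂ)) (fun n => by simpa using hC0 n) A).2
  refine ⟨K * (A.map Cb).prod ^ 2, by positivity, ?_⟩
  intro ρ β H Φ h
  have hs := cross_sum hb A A h
  have hre : ∀ x : ℂ, (x * conj x).re = ‖x‖ ^ 2 := by
    intro x
    rw [Complex.mul_conj, Complex.normSq_eq_norm_sq, Complex.ofReal_re]
  simp_rw [hre] at hs
  have hterm : ∀ m : ℕ, Wt b m
      * (‖coeff (fun z => Complex.exp (-H z) * ev (fun k => gg H k z) A) m‖ / (m : ℝ) ^ wt A) ^ 2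
      ≤ K * (((b + wt A + wt A) * pq (b + wt A + wt A + 1) m)⁻¹
        * ‖coeff (fun z => Complex.exp (-H z) * ev (fun k => gg H k z) A) m‖ ^ 2) := by
    intro m
    generalize ‖coeff (fun z => Complex.exp (-H z) * ev (fun k => gg H k z) A) m‖ = x
    have hq1 := pq_pos (z := b + wt A + wt A + 1) (by positivity) m
    have hq : 0 < (b + wt A + wt A) * pq (b + wt A + wt A + 1) m := by positivity
    have h2 : Wt b m * (x / (m : ℝ) ^ wt A) ^ 2 = Wt b m / (m : ℝ) ^ (wt A + wt A)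
        * ((b + wt A + wt A) * pq (b + wt A + wt A + 1) m)
        * (((b + wt A + wt A) * pq (b + wt A + wt A + 1) m)⁻¹ * x ^ 2) := by
      rw [div_pow, ← pow_mul, show wt A * 2 = wt A + wt A by ring]
      generalize (b + wt A + wt A) * pq (b + wt A + wt A + 1) m = q at hq
      have := hq.ne'
      field_simp
    rw [h2]
    exact mul_le_mul_of_nonneg_right (hK m) (by positivity)
  have hnn : ∀ m : ℕ, 0 ≤ Wt b m
      * (‖coeff (fun z => Complex.exp (-H z) * ev (fun k => gg H k z) A) m‖ / (m : ℝ) ^ wt A) ^ 2 := by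
    intro m
    have : 0 ≤ Wt b m := by
      unfold Wt
      have := pq_pos (z := b + 3) (by positivity) m
      positivity
    positivity
  have hsum := Summable.of_nonneg_of_le hnn hterm (hs.summable.mul_left K)
  refine ⟨hsum, ?_⟩
  have h3 := hsum.tsum_le_tsum hterm (hs.summable.mul_left K)
  rw [tsum_mul_left, hs.tsum_eq] at h3
  refine h3.trans ?_
  have hHc : ContinuousOn H (closedBall 0 1) :=
    h.diff.continuousOn.mono (closedBall_subset_ball h.one_lt)
  have hHd : DifferentiableOn ℂ H (ball 0 1) := h.diff.mono (ball_subset_ball h.one_lt.le)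
  have h4 : LG H b (fun z => ‖ev (cc H z) A‖ ^ 2) ≤ LG H b (fun _ => (A.map Cb).prod ^ 2 * 1) := by
    apply LG_mono hHc hb ((cont_ev_cc h.one_lt h.diff A).norm.pow 2) continuousOn_const
    intro z hz
    have h5 := (ev_bound hC0 (fun n => hCb H hHd h.bloch n z hz) A).1
    rw [mul_one]
    exact pow_le_pow_left₀ (norm_nonneg _) h5 2
  rw [LG_smul] at h4
  rw [mul_assoc]
  exact mul_le_mul_of_nonneg_left h4 hK1

end Pool.Agent.Helper39.MH
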