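import Mathlib
import Pool.Agent.Helper39.MH.Defs
import Pool.Agent.Helper39.MH.Euler
import Pool.Agent.Helper39.MH.Bounds
import Pool.Agent.Helper39.MH.LGBase
import Pool.Agent.Helper39.MH.AreaSum
import Pool.Agent.Helper39.MH.PerFreq
import Pool.Agent.Helper39.MH.JetsB
import Pool.Agent.Helper39.MH.Weights

/-!
MP_16b0ee, project MH, module MH-12b: the area inequality in the scaled variables.
-/

set_option autoImplicit false

open MeasureTheory Set Metric Filter Topology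
open scoped Real ComplexConjugate

namespace Pool.Agent.Helper39.MH

open Pool.Agent.Helper22.Half
open Pool.Agent.Helper22.Marshall (coeff SepHol LogPhi dcoeff GLe coeff_const_mul)
open Pool.Agent.Helper39.Area (Ext phi)
open Pool.Agent.Helper24.Br (Um tt)

namespace AF

/-- the coefficients of `G` times a monomial in the jets -/
noncomputable def xc (H : ℂ → ℂ) (A : List ℕ) (m : ℕ) : ℂ :=
  coeff (fun z => Complex.exp (-H z) * ev (fun k => gg H k z) A) m

/-- the normalised moduli -/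
noncomputable def yc (H : ℂ → ℂ) (A : List ℕ) (m : ℕ) : ℝ := ‖xc H A m‖ / (m : ℝ) ^ wt A

theorem yc_nonneg (H : ℂ → ℂ) (A : List ℕ) (m : ℕ) : 0 ≤ yc H A m := by
  unfold yc
  positivity

theorem data_hyp {ρ : ℝ} {β H : ℂ → ℂ} {Φ : ℂ → ℂ → ℂ} (h : Data ρ β H Φ) : Bounds.Hyp H :=
  ⟨h.diff.mono (ball_subset_ball h.one_lt.le), h.bloch⟩

theorem data_zero {ρ : ℝ} {β H : ℂ → ℂ} {Φ : ℂ → ℂ → ℂ} (h : Data ρ β H Φ) : H 0 = 0 := by
  rw [← h.logPhi.diag 0 (mem_ball_self one_pos), h.logPhi.zero_right 0 (mem_ball_self one_pos)]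

theorem data_cont {ρ : ℝ} {β H : ℂ → ℂ} {Φ : ℂ → ℂ → ℂ} (h : Data ρ β H Φ) :
    ContinuousOn H (closedBall 0 1) :=
  h.diff.continuousOn.mono (closedBall_subset_ball h.one_lt)

theorem ev_gg_bound (A : List ℕ) : ∃ C : ℝ, 0 ≤ C ∧ ∀ H : ℂ → ℂ, Bounds.Hyp H →
    ∀ z ∈ ball (0 : ℂ) 1, (1 - ‖z‖ ^ 2) ^ wt A * ‖ev (fun k => gg H k z) A‖ ≤ C := by
  induction A with
  | nil =>
    refine ⟨1, zero_le_one, fun H _ z _ => ?_⟩
    rw [ev_nil, wt_nil]
    simp
  | cons a A ih =>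
    obtain ⟨C, hC0, hC⟩ := ih
    obtain ⟨D, hD0, hD⟩ := Bounds.gg_bound_one a
    refine ⟨D * C, mul_nonneg hD0 hC0, fun H hH z hz => ?_⟩
    rw [ev_cons, wt_cons, pow_add, norm_mul]
    have h1 := hC H hH z hz
    have h2 := hD H hH z hz
    have h0 := (Bounds.one_sub_sq_pos hz).le
    calc (1 - ‖z‖ ^ 2) ^ (a + 1) * (1 - ‖z‖ ^ 2) ^ wt A
          * (‖gg H a z‖ * ‖ev (fun k => gg H k z) A‖)
        = ((1 - ‖z‖ ^ 2) ^ (a + 1) * ‖gg H a z‖)
          * ((1 - ‖z‖ ^ 2) ^ wt A * ‖ev (fun k => gg H k z) A‖) := by ring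
      _ ≤ D * C := mul_le_mul h2 h1 (mul_nonneg (pow_nonneg h0 _) (norm_nonneg _)) hD0

/-- the coefficients are bounded in the class -/
theorem xc_bound (A : List ℕ) (m : ℕ) : ∃ B : ℝ, 0 ≤ B ∧ ∀ (ρ : ℝ) (β H : ℂ → ℂ)
    (Φ : ℂ → ℂ → ℂ), Data ρ β H Φ → ‖xc H A m‖ ≤ B := by
  obtain ⟨C, hC0, hC⟩ := ev_gg_bound A
  refine ⟨Real.exp (28 / (3 / 4)) * ((4 / 3) ^ wt A * C) * 2 ^ m, by positivity,
    fun ρ β H Φ h => ?_⟩
  have hH := data_hyp h
  have hf : DifferentiableOn ℂ (fun z => Complex.exp (-H z) * ev (fun k => gg H k z) A)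
      (ball 0 1) := exp_ev_diff one_pos hH.1 A
  have h1 := Pool.Agent.Helper22.Marshall.coeff_bound hf (r := 1 / 2)
    (M := Real.exp (28 / (3 / 4)) * ((4 / 3) ^ wt A * C)) (by norm_num) (by norm_num)
    (fun z hz => by
      have hzb : z ∈ ball (0 : ℂ) 1 := by rw [mem_ball_zero_iff]; linarith
      have hs : 3 / 4 ≤ 1 - ‖z‖ ^ 2 := by
        have := norm_nonneg z
        nlinarith
      have h2 := Bounds.norm_exp_le hH (data_zero h) (by norm_num : (0:ℝ) < 3 / 4) hzb hs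
      have h3 := hC H hH z hzb
      have h4 : ‖ev (fun k => gg H k z) A‖ ≤ (4 / 3) ^ wt A * C := by
        have h5 : (3 / 4 : ℝ) ^ wt A ≤ (1 - ‖z‖ ^ 2) ^ wt A :=
          pow_le_pow_left₀ (by norm_num) hs _
        have h6 : (3 / 4 : ℝ) ^ wt A * ‖ev (fun k => gg H k z) A‖ ≤ C :=
          (mul_le_mul_of_nonneg_right h5 (norm_nonneg _)).trans h3
        have h7 : (4 / 3 : ℝ) ^ wt A * (3 / 4 : ℝ) ^ wt A = 1 := by
          rw [← mul_pow]; norm_num
        calc ‖ev (fun k => gg H k z) A‖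
            = (4 / 3 : ℝ) ^ wt A * ((3 / 4 : ℝ) ^ wt A * ‖ev (fun k => gg H k z) A‖) := by
              rw [← mul_assoc, h7, one_mul]
          _ ≤ (4 / 3) ^ wt A * C := mul_le_mul_of_nonneg_left h6 (by positivity)
      rw [norm_mul]
      exact mul_le_mul h2 h4 (norm_nonneg _) (Real.exp_pos _).le) m
  rw [one_div, inv_pow] at h1
  have h2 : (0 : ℝ) < 2 ^ m := by positivity
  unfold xc
  calc ‖coeff (fun z => Complex.exp (-H z) * ev (fun k => gg H k z) A) m‖
      = ‖coeff (fun z => Complex.exp (-H z) * ev (fun k => gg H k z) A) m‖ * (2 ^ m)⁻¹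
        * 2 ^ m := by field_simp
    _ ≤ Real.exp (28 / (3 / 4)) * ((4 / 3) ^ wt A * C) * 2 ^ m :=
      mul_le_mul_of_nonneg_right h1 h2.le

/-! ### linearity of the coefficients -/

theorem coeff_add' {f g : ℂ → ℂ} (hf : DifferentiableOn ℂ f (ball 0 1))
    (hg : DifferentiableOn ℂ g (ball 0 1)) (n : ℕ) :
    coeff (fun z => f z + g z) n = coeff f n + coeff g n := by
  apply Pool.Agent.Helper22.Marshall.coeff_eq_of_hasSum one_pos
  intro z hz
  have h1 := Pool.Agent.Helper22.Marshall.hasSum_coeff hf hz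
  have h2 := Pool.Agent.Helper22.Marshall.hasSum_coeff hg hz
  have h3 := h1.add h2
  simp only [← add_mul] at h3
  exact h3

/-- the lower order part of the fourth moment -/
theorem low4_xc {ρ : ℝ} {β H : ℂ → ℂ} {Φ : ℂ → ℂ → ℂ} (h : Data ρ β H Φ) (m : ℕ) :
    coeff (fun z => Complex.exp (-H z) * low4 (fun n => gg H n z)) m
      = 2 / 5 * xc H [0, 1] m + 4 / 5 * xc H [0, 0, 0] m + -(6 / 5) * xc H [2] m
        + 7 / 15 * xc H [0, 0] m + 1 / 5 * xc H [1] m + 1 / 15 * xc H [0] m := by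
  have hH := data_hyp h
  have hd : ∀ A : List ℕ, DifferentiableOn ℂ
      (fun z => Complex.exp (-H z) * ev (fun k => gg H k z) A) (ball 0 1) :=
    fun A => exp_ev_diff one_pos hH.1 A
  have hc : ∀ (c : ℂ) (A : List ℕ), DifferentiableOn ℂ
      (fun z => c * (Complex.exp (-H z) * ev (fun k => gg H k z) A)) (ball 0 1) :=
    fun c A => (hd A).const_mul c
  have e : (fun z => Complex.exp (-H z) * low4 (fun n => gg H n z))
      = fun z => 2 / 5 * (Complex.exp (-H z) * ev (fun k => gg H k z) [0, 1])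
        + 4 / 5 * (Complex.exp (-H z) * ev (fun k => gg H k z) [0, 0, 0])
        + -(6 / 5) * (Complex.exp (-H z) * ev (fun k => gg H k z) [2])
        + 7 / 15 * (Complex.exp (-H z) * ev (fun k => gg H k z) [0, 0])
        + 1 / 5 * (Complex.exp (-H z) * ev (fun k => gg H k z) [1])
        + 1 / 15 * (Complex.exp (-H z) * ev (fun k => gg H k z) [0]) := by
    funext z
    simp only [ev_cons, ev_nil, low4]
    ring
  rw [e]
  rw [coeff_add' (((((hc _ _).fun_add (hc _ _)).fun_add (hc _ _)).fun_add (hc _ _)).fun_add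
      (hc _ _)) (hc _ _),
    coeff_add' ((((hc _ _).fun_add (hc _ _)).fun_add (hc _ _)).fun_add (hc _ _)) (hc _ _),
    coeff_add' (((hc _ _).fun_add (hc _ _)).fun_add (hc _ _)) (hc _ _),
    coeff_add' ((hc _ _).fun_add (hc _ _)) (hc _ _),
    coeff_add' (hc _ _) (hc _ _)]
  simp only [coeff_const_mul]
  rfl

theorem xc_nil (H : ℂ → ℂ) (m : ℕ) : xc H [] m = coeff (fun z => Complex.exp (-H z)) m := by
  unfold xc
  simp only [ev_nil, mul_one]

theorem xc_single (H : ℂ → ℂ) (n m : ℕ) :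
    xc H [n] m = coeff (fun z => Complex.exp (-H z) * gg H n z) m := by
  unfold xc
  simp only [ev_cons, ev_nil, mul_one]

theorem sum_xc {ρ : ℝ} {β H : ℂ → ℂ} {Φ : ℂ → ℂ → ℂ} (h : Data ρ β H Φ) (m : ℕ) :
    ∑ l ∈ Finset.range (m + 1), diagc (EE Φ (-1)) m l = xc H [] m := by
  rw [EE_diag h.logPhi, xc_nil]
  simp only [neg_one_mul]

/-! ### quadratic forms in three complex variables -/

/-- a real quadratic form at a complex vector -/
noncomputable def qc (Q : Fin 3 → Fin 3 → ℝ) (v : Fin 3 → ℂ) : ℝ :=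
  ∑ r, ∑ s, Q r s * (v r * conj (v s)).re

/-- the sum of the moduli of the entries -/
noncomputable def qs (Q : Fin 3 → Fin 3 → ℝ) : ℝ := ∑ r, ∑ s, |Q r s|

theorem qs_nonneg (Q : Fin 3 → Fin 3 → ℝ) : 0 ≤ qs Q :=
  Finset.sum_nonneg fun _ _ => Finset.sum_nonneg fun _ _ => abs_nonneg _

theorem re_conj (x y : ℂ) : (x * conj y).re = x.re * y.re + x.im * y.im := by
  simp [Complex.mul_re]

theorem qc_split (Q : Fin 3 → Fin 3 → ℝ) (v : Fin 3 → ℂ) :
    qc Q v = (∑ r, ∑ s, Q r s * ((v r).re * (v s).re)) + ∑ r, ∑ s, Q r s * ((v r).im * (v s).im) := by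
  unfold qc
  rw [← Finset.sum_add_distrib]
  apply Finset.sum_congr rfl
  intro r _
  rw [← Finset.sum_add_distrib]
  apply Finset.sum_congr rfl
  intro s _
  rw [re_conj]
  ring

theorem qc_le {Q Q' : Fin 3 → Fin 3 → ℝ}
    (hQ : ∀ x : Fin 3 → ℝ, ∑ r, ∑ s, Q r s * (x r * x s) ≤ ∑ r, ∑ s, Q' r s * (x r * x s))
    (v : Fin 3 → ℂ) : qc Q v ≤ qc Q' v := by
  rw [qc_split, qc_split]
  exact add_le_add (hQ fun r => (v r).re) (hQ fun r => (v r).im)

theorem qc_Mt (Q : Fin 3 → Fin 3 → ℝ) (a : Fin 3 → ℂ) :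
    qc (Qam Q) a = qc Q (fun i => ∑ r, (Mt i r : ℂ) * a r) := by
  have h1 : ∀ i j : Fin 3, ((∑ r, (Mt i r : ℂ) * a r) * conj (∑ s, (Mt j s : ℂ) * a s)).re
      = ∑ r, ∑ s, Mt i r * Mt j s * (a r * conj (a s)).re := by
    intro i j
    rw [map_sum, Finset.sum_mul_sum, Complex.re_sum]
    apply Finset.sum_congr rfl
    intro r _
    rw [Complex.re_sum]
    apply Finset.sum_congr rfl
    intro s _
    rw [map_mul, Complex.conj_ofReal]
    have e : (Mt i r : ℂ) * a r * ((Mt j s : ℂ) * conj (a s))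
        = ((Mt i r * Mt j s : ℝ) : ℂ) * (a r * conj (a s)) := by
      push_cast
      ring
    rw [e, Complex.re_ofReal_mul]
  unfold qc
  simp only [h1]
  unfold Qam
  simp only [Finset.sum_mul, Finset.mul_sum]
  -- reorder the four sums
  calc ∑ r, ∑ s, ∑ i, ∑ j, Mt i r * Q i j * Mt j s * (a r * conj (a s)).re
      = ∑ r, ∑ i, ∑ s, ∑ j, Mt i r * Q i j * Mt j s * (a r * conj (a s)).re := by
        apply Finset.sum_congr rfl; intro r _; exact Finset.sum_comm
    _ = ∑ i, ∑ r, ∑ s, ∑ j, Mt i r * Q i j * Mt j s * (a r * conj (a s)).re := Finset.sum_comm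
    _ = ∑ i, ∑ r, ∑ j, ∑ s, Mt i r * Q i j * Mt j s * (a r * conj (a s)).re := by
        apply Finset.sum_congr rfl; intro i _
        apply Finset.sum_congr rfl; intro r _; exact Finset.sum_comm
    _ = ∑ i, ∑ j, ∑ r, ∑ s, Mt i r * Q i j * Mt j s * (a r * conj (a s)).re := by
        apply Finset.sum_congr rfl; intro i _; exact Finset.sum_comm
    _ = ∑ i, ∑ j, ∑ r, ∑ s, Q i j * (Mt i r * Mt j s * (a r * conj (a s)).re) := by
        apply Finset.sum_congr rfl; intro i _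
        apply Finset.sum_congr rfl; intro j _
        apply Finset.sum_congr rfl; intro r _
        apply Finset.sum_congr rfl; intro s _
        ring

theorem qc_diff (Q : Fin 3 → Fin 3 → ℝ) (u v : Fin 3 → ℂ) {U V e : ℝ}
    (hu : ∀ i, ‖u i‖ ≤ U) (hv : ∀ i, ‖v i‖ ≤ V) (hd : ∀ i, ‖u i - v i‖ ≤ e) :
    qc Q u - qc Q v ≤ qs Q * (e * (U + V)) := by
  have he : 0 ≤ e := (norm_nonneg _).trans (hd 0)
  have h1 : ∀ r s : Fin 3, |(u r * conj (u s)).re - (v r * conj (v s)).re| ≤ e * (U + V) := by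
    intro r s
    rw [← Complex.sub_re]
    refine (Complex.abs_re_le_norm _).trans ?_
    have e1 : u r * conj (u s) - v r * conj (v s)
        = (u r - v r) * conj (u s) + v r * conj (u s - v s) := by
      rw [map_sub]
      ring
    rw [e1]
    refine (norm_add_le _ _).trans ?_
    rw [norm_mul, norm_mul, RCLike.norm_conj, RCLike.norm_conj]
    have h2 : ‖u r - v r‖ * ‖u s‖ ≤ e * U := mul_le_mul (hd r) (hu s) (norm_nonneg _) he
    have h3 : ‖v r‖ * ‖u s - v s‖ ≤ V * e :=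
      mul_le_mul (hv r) (hd s) (norm_nonneg _) ((norm_nonneg _).trans (hv r))
    linarith
  have h2 : qc Q u - qc Q v
      = ∑ r, ∑ s, Q r s * ((u r * conj (u s)).re - (v r * conj (v s)).re) := by
    unfold qc
    rw [← Finset.sum_sub_distrib]
    apply Finset.sum_congr rfl
    intro r _
    rw [← Finset.sum_sub_distrib]
    apply Finset.sum_congr rfl
    intro s _
    ring
  rw [h2]
  unfold qs
  rw [Finset.sum_mul]
  apply Finset.sum_le_sum
  intro r _
  rw [Finset.sum_mul]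
  apply Finset.sum_le_sum
  intro s _
  calc Q r s * ((u r * conj (u s)).re - (v r * conj (v s)).re)
      ≤ |Q r s * ((u r * conj (u s)).re - (v r * conj (v s)).re)| := le_abs_self _
    _ = |Q r s| * |(u r * conj (u s)).re - (v r * conj (v s)).re| := abs_mul _ _
    _ ≤ |Q r s| * (e * (U + V)) := mul_le_mul_of_nonneg_left (h1 r s) (abs_nonneg _)

/-- perturbation of the coefficients -/
theorem qc_pert (Q t : Fin 3 → Fin 3 → ℝ) (a : Fin 3 → ℂ) {N e : ℝ} (ha : ∀ i, ‖a i‖ ≤ N)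
    (he : ∀ r s, |t r s - 1| ≤ e) :
    ∑ r, ∑ s, Q r s * t r s * (a r * conj (a s)).re ≤ qc Q a + e * (qs Q * N ^ 2) := by
  have he0 : 0 ≤ e := (abs_nonneg _).trans (he 0 0)
  have hN : 0 ≤ N := (norm_nonneg _).trans (ha 0)
  unfold qc qs
  rw [← mul_assoc, Finset.mul_sum, Finset.sum_mul, ← Finset.sum_add_distrib]
  apply Finset.sum_le_sum
  intro r _
  rw [Finset.mul_sum, Finset.sum_mul, ← Finset.sum_add_distrib]
  apply Finset.sum_le_sum
  intro s _
  have h1 : |(a r * conj (a s)).re| ≤ N ^ 2 := by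
    refine (Complex.abs_re_le_norm _).trans ?_
    rw [norm_mul, RCLike.norm_conj, sq]
    exact mul_le_mul (ha r) (ha s) (norm_nonneg _) hN
  have h2 : Q r s * (t r s - 1) * (a r * conj (a s)).re ≤ |Q r s| * e * N ^ 2 := by
    refine (le_abs_self _).trans ?_
    rw [abs_mul, abs_mul]
    exact mul_le_mul (mul_le_mul_of_nonneg_left (he r s) (abs_nonneg _)) h1 (abs_nonneg _)
      (mul_nonneg (abs_nonneg _) he0)
  linarith

/-! ### the area form as a series -/

/-- the coefficient of the form at the order `m` -/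
noncomputable def kap (Q : Fin 3 → Fin 3 → ℝ) (b : ℝ) (m : ℕ) (r s : Fin 3) : ℝ :=
  b * (b + 1) * (Qam Q r s
    / ((Nat.factorial (wt (am r) + wt (am s)) : ℝ) * pq b (wt (am r) + wt (am s))))
    * ((b + wt (am r) + wt (am s)) * pq (b + wt (am r) + wt (am s) + 1) m)⁻¹

/-- the term of order `m` of the area form -/
noncomputable def cm (Q : Fin 3 → Fin 3 → ℝ) (b : ℝ) (H : ℂ → ℂ) (m : ℕ) : ℝ :=
  ∑ r, ∑ s, kap Q b m r s * (xc H (am r) m * conj (xc H (am s) m)).re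

theorem ev_cc_cont {ρ : ℝ} {β H : ℂ → ℂ} {Φ : ℂ → ℂ → ℂ} (h : Data ρ β H Φ) (A : List ℕ) :
    ContinuousOn (fun z => ev (cc H z) A) (closedBall 0 1) := by
  have h0 : (0 : ℝ) < ρ := one_pos.trans h.one_lt
  have h1 : ContinuousOn (fun z => ev (fun k => gg H k z) A) (closedBall 0 1) :=
    (ev_gg_diff h0 h.diff A).continuousOn.mono (closedBall_subset_ball h.one_lt)
  have e : (fun z => ev (cc H z) A)
      = fun z => (((1 - ‖z‖ ^ 2) ^ (wt A) : ℝ) : ℂ) * ev (fun k => gg H k z) A := by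
    funext z
    exact ev_cc H z A
  rw [e]
  refine ContinuousOn.mul ?_ h1
  apply Continuous.continuousOn
  fun_prop

theorem pair_cont {ρ : ℝ} {β H : ℂ → ℂ} {Φ : ℂ → ℂ → ℂ} (h : Data ρ β H Φ) (A B : List ℕ) :
    ContinuousOn (fun z => (ev (cc H z) A * conj (ev (cc H z) B)).re) (closedBall 0 1) := by
  have h1 := ev_cc_cont h A
  have h2 := ev_cc_cont h B
  exact Complex.continuous_re.comp_continuousOn
    (h1.mul (Complex.continuous_conj.comp_continuousOn h2))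

theorem LG_fsum {H : ℂ → ℂ} {b : ℝ} (hH : ContinuousOn H (closedBall 0 1)) (hb : 1 ≤ b)
    {ι : Type} [DecidableEq ι] (s : Finset ι) (f : ι → ℂ → ℝ)
    (hf : ∀ i ∈ s, ContinuousOn (f i) (closedBall 0 1)) :
    LG H b (fun z => ∑ i ∈ s, f i z) = ∑ i ∈ s, LG H b (f i) := by
  induction s using Finset.induction_on with
  | empty =>
    unfold LG
    simp
  | insert i s hi ih =>
    have h1 := ih (fun j hj => hf j (Finset.mem_insert_of_mem hj))
    have h2 : ContinuousOn (fun z => ∑ j ∈ s, f j z) (closedBall 0 1) :=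
      continuousOn_finsetSum s (fun j hj => hf j (Finset.mem_insert_of_mem hj))
    rw [Finset.sum_insert hi, ← h1, ← LG_add hH hb (hf i (Finset.mem_insert_self i s)) h2]
    apply LG_congr
    intro z _
    rw [Finset.sum_insert hi]

theorem cm_hasSum {ρ : ℝ} {β H : ℂ → ℂ} {Φ : ℂ → ℂ → ℂ} (h : Data ρ β H Φ) {b : ℝ} (hb : 1 ≤ b)
    (Q : Fin 3 → Fin 3 → ℝ) : HasSum (cm Q b H) (LG H b (fun z => qf Q b (cc H z))) := by
  have hH := data_cont h
  set k : Fin 3 → Fin 3 → ℝ := fun r s => b * (b + 1) * (Qam Q r s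
    / ((Nat.factorial (wt (am r) + wt (am s)) : ℝ) * pq b (wt (am r) + wt (am s)))) with hk
  have e : LG H b (fun z => qf Q b (cc H z)) = ∑ r, ∑ s, k r s
      * LG H b (fun z => (ev (cc H z) (am r) * conj (ev (cc H z) (am s))).re) := by
    have e1 : (fun z => qf Q b (cc H z)) = fun z => ∑ r, ∑ s, k r s
        * (ev (cc H z) (am r) * conj (ev (cc H z) (am s))).re := by
      funext z
      unfold qf
      rw [Finset.mul_sum]
      apply Finset.sum_congr rfl
      intro r _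
      rw [Finset.mul_sum]
      apply Finset.sum_congr rfl
      intro s _
      rw [hk]
      ring
    rw [e1, LG_fsum hH hb]
    · apply Finset.sum_congr rfl
      intro r _
      rw [LG_fsum hH hb]
      · apply Finset.sum_congr rfl
        intro s _
        exact LG_smul _ _
      · intro s _
        exact (pair_cont h _ _).const_mul _
    · intro r _
      apply continuousOn_finsetSum
      intro s _
      exact (pair_cont h _ _).const_mul _
  rw [e]
  apply hasSum_sum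
  intro r _
  apply hasSum_sum
  intro s _
  have h1 := (cross_sum hb (am r) (am s) h).mul_left (k r s)
  have e2 : (fun m => k r s * (((b + wt (am r) + wt (am s))
      * pq (b + wt (am r) + wt (am s) + 1) m)⁻¹
      * (coeff (fun z => Complex.exp (-H z) * ev (fun k => gg H k z) (am r)) m
        * conj (coeff (fun z => Complex.exp (-H z) * ev (fun k => gg H k z) (am s)) m)).re))
      = fun m => kap Q b m r s * (xc H (am r) m * conj (xc H (am s) m)).re := by
    funext m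
    rw [hk]
    unfold kap xc
    ring
  rw [e2] at h1
  exact h1

/-! ### the upper form -/

theorem Um_le {b : ℝ} (hb : 1 ≤ b) (d : ℕ → ℂ) (m : ℕ) :
    Um b d m ≤ (b + 2) * ((b * pq (b + 1) m)⁻¹ * ‖∑ l ∈ Finset.range (m + 1), d l‖ ^ 2) := by
  have hp := pq_pos (show (0:ℝ) < b + 1 by linarith) m
  have hb0 : 0 < b := by linarith
  have h1 := pq_add_one (b + 1) m
  have h2 := pq_add_one (b + 2) m
  have e1 : b + 1 + 1 = b + 2 := by ring
  have e2 : b + 2 + 1 = b + 3 := by ring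
  rw [e1] at h1
  rw [e2] at h2
  have hm : (0:ℝ) ≤ m := Nat.cast_nonneg m
  have h3 : pq (b + 2) m = pq (b + 1) m * (b + 1 + m) / (b + 1) := by
    rw [← h1]
    field_simp
  have h4 : pq (b + 3) m = pq (b + 1) m * (b + 1 + m) * (b + 2 + m) / ((b + 1) * (b + 2)) := by
    have h5 : pq (b + 3) m = pq (b + 2) m * (b + 2 + m) / (b + 2) := by
      rw [← h2]
      field_simp
    rw [h5, h3]
    field_simp
  unfold Um
  rw [← mul_assoc]
  apply mul_le_mul_of_nonneg_right _ (by positivity)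
  rw [h4]
  have e3 : ((m : ℝ) + 1) * (m + b + 2) / (b * (b + 1))
      * (pq (b + 1) m * (b + 1 + m) * (b + 2 + m) / ((b + 1) * (b + 2)))⁻¹
      = (b + 2) * (b * pq (b + 1) m)⁻¹ * ((m + 1) / (b + 1 + m)) := by
    have hA : (b + 1 + m : ℝ) ≠ 0 := by positivity
    have hB : (b + 2 + m : ℝ) ≠ 0 := by positivity
    field_simp
    ring
  rw [e3]
  have h5 : ((m : ℝ) + 1) / (b + 1 + m) ≤ 1 := by
    rw [div_le_one (by positivity)]
    linarith
  calc (b + 2) * (b * pq (b + 1) m)⁻¹ * (((m : ℝ) + 1) / (b + 1 + m))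
      ≤ (b + 2) * (b * pq (b + 1) m)⁻¹ * 1 :=
        mul_le_mul_of_nonneg_left h5 (by positivity)
    _ = (b + 2) * (b * pq (b + 1) m)⁻¹ := mul_one _

theorem Pf_sum_le {ρ : ℝ} {β H : ℂ → ℂ} {Φ : ℂ → ℂ → ℂ} (h : Data ρ β H Φ) {b : ℝ} (hb : 1 ≤ b)
    (M : ℕ) : ∑ m ∈ Finset.range M, Pf (-1) b (diagc (EE Φ (-1)) m) m
      ≤ (b + 2) * LG H b (fun _ => 1) := by
  have hb0 : 0 < b := by linarith
  have h1 := area_sum h.ext h.logPhi hb0 M
  have h2 := cross_sum hb [] [] h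
  have e : (fun z => (ev (cc H z) [] * conj (ev (cc H z) [])).re) = fun _ => (1 : ℝ) := by
    funext z
    simp only [ev_nil, map_one, mul_one, Complex.one_re]
  rw [e] at h2
  have e2 : (fun m : ℕ => ((b + wt [] + wt []) * pq (b + wt [] + wt [] + 1) m)⁻¹
      * (coeff (fun z => Complex.exp (-H z) * ev (fun k => gg H k z) []) m
        * conj (coeff (fun z => Complex.exp (-H z) * ev (fun k => gg H k z) []) m)).re)
      = fun m : ℕ => (b * pq (b + 1) m)⁻¹
        * ‖∑ l ∈ Finset.range (m + 1), diagc (EE Φ (-1)) m l‖ ^ 2 := by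
    funext m
    rw [sum_xc h m]
    have e3 : (xc H [] m * conj (xc H [] m)).re = ‖xc H [] m‖ ^ 2 := by
      rw [Complex.mul_conj, Complex.ofReal_re, Complex.normSq_eq_norm_sq]
    rw [← e3, wt_nil]
    unfold xc
    norm_num
  rw [e2] at h2
  have h3 : ∑ m ∈ Finset.range M, (b * pq (b + 1) m)⁻¹
        * ‖∑ l ∈ Finset.range (m + 1), diagc (EE Φ (-1)) m l‖ ^ 2 ≤ LG H b (fun _ => 1) := by
    apply sum_le_hasSum _ _ h2
    intro m _
    have hp := pq_pos (show (0:ℝ) < b + 1 by linarith) m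
    positivity
  refine h1.trans ?_
  refine (Finset.sum_le_sum fun m _ => Um_le hb (diagc (EE Φ (-1)) m) m).trans ?_
  rw [← Finset.mul_sum]
  exact mul_le_mul_of_nonneg_left h3 (by linarith)

/-! ### the monomials of the error terms -/

/-- the monomials which occur -/
def Lst : Fin 8 → List ℕ := ![[], [1], [3], [0], [0, 1], [0, 0, 0], [2], [0, 0]]

/-- the sum of the normalised moduli -/
noncomputable def NN (H : ℂ → ℂ) (m : ℕ) : ℝ := ∑ i, yc H (Lst i) m

/-- the sum of the squares of the normalised moduli -/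
noncomputable def S2 (H : ℂ → ℂ) (m : ℕ) : ℝ := ∑ i, yc H (Lst i) m ^ 2

theorem yc_le (H : ℂ → ℂ) (m : ℕ) (i : Fin 8) : yc H (Lst i) m ≤ NN H m :=
  Finset.single_le_sum (f := fun i => yc H (Lst i) m) (fun i _ => yc_nonneg H (Lst i) m)
    (Finset.mem_univ i)

theorem NN_nonneg (H : ℂ → ℂ) (m : ℕ) : 0 ≤ NN H m :=
  Finset.sum_nonneg fun i _ => yc_nonneg H (Lst i) m

theorem NN_sq (H : ℂ → ℂ) (m : ℕ) : NN H m ^ 2 ≤ 8 * S2 H m := by
  have h := sq_sum_le_card_mul_sum_sq (s := (Finset.univ : Finset (Fin 8)))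
    (f := fun i => yc H (Lst i) m)
  unfold NN S2
  simpa using h

theorem norm_xc (H : ℂ → ℂ) (A : List ℕ) {m : ℕ} (hm : 1 ≤ m) :
    ‖xc H A m‖ = yc H A m * (m : ℝ) ^ wt A := by
  unfold yc
  have h0 : (0 : ℝ) < m := by exact_mod_cast hm
  field_simp

/-- the normalised coefficients -/
noncomputable def ac (H : ℂ → ℂ) (m : ℕ) (r : Fin 3) : ℂ :=
  xc H (am r) m / (m : ℂ) ^ wt (am r)

theorem norm_ac (H : ℂ → ℂ) (m : ℕ) (r : Fin 3) : ‖ac H m r‖ = yc H (am r) m := by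
  unfold ac yc
  rw [norm_div, norm_pow, Complex.norm_natCast]

theorem norm_ac_le (H : ℂ → ℂ) (m : ℕ) (r : Fin 3) : ‖ac H m r‖ ≤ NN H m := by
  rw [norm_ac]
  fin_cases r
  · exact yc_le H m 0
  · exact yc_le H m 1
  · exact yc_le H m 2

/-- the leading part of the functionals -/
noncomputable def uc (H : ℂ → ℂ) (m : ℕ) (i : Fin 3) : ℂ := ∑ r, (Mt i r : ℂ) * ac H m r

theorem norm_uc_le (H : ℂ → ℂ) (m : ℕ) (i : Fin 3) : ‖uc H m i‖ ≤ 28 * NN H m := by
  have h0 := norm_ac_le H m 0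
  have h1 := norm_ac_le H m 1
  have h2 := norm_ac_le H m 2
  have hN := NN_nonneg H m
  have h : ‖uc H m i‖ ≤ |Mt i 0| * ‖ac H m 0‖ + |Mt i 1| * ‖ac H m 1‖ + |Mt i 2| * ‖ac H m 2‖ := by
    unfold uc
    rw [Fin.sum_univ_three]
    refine (norm_add₃_le).trans ?_
    rw [norm_mul, norm_mul, norm_mul, Complex.norm_real, Complex.norm_real, Complex.norm_real]
    exact le_refl _
  refine h.trans ?_
  fin_cases i
  · simp [Mt]
    linarith
  · simp [Mt, abs_of_pos]
    linarith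
  · simp [Mt, abs_of_pos]
    linarith

/-- the error part of the functionals -/
noncomputable def ec (H : ℂ → ℂ) (m : ℕ) : Fin 3 → ℂ :=
  ![0, -xc H [0] m / (3 * (m : ℂ) ^ 2),
    (2 / 5 * xc H [0, 1] m + 4 / 5 * xc H [0, 0, 0] m + -(6 / 5) * xc H [2] m
        + 7 / 15 * xc H [0, 0] m + 1 / 5 * xc H [1] m + 1 / 15 * xc H [0] m) / (m : ℂ) ^ 4]

theorem vv_eq {ρ : ℝ} {β H : ℂ → ℂ} {Φ : ℂ → ℂ → ℂ} (h : Data ρ β H Φ) {m : ℕ} (hm : 1 ≤ m)
    (i : Fin 3) : vv (diagc (EE Φ (-1)) m) m i = uc H m i + ec H m i := by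
  have hm0 : (m : ℂ) ≠ 0 := by
    have : m ≠ 0 := by omega
    exact_mod_cast this
  have e0 := sum_xc h m
  have e2 := jet2 h m
  have e4 := jet4 h m
  rw [← xc_nil, ← xc_single, ← xc_single] at e2
  rw [← xc_nil, ← xc_single, ← xc_single, low4_xc h] at e4
  unfold vv uc ec
  rw [e0, e2, e4, Fin.sum_univ_three]
  unfold ac
  fin_cases i
  · simp [Mt, am, wt]
  · simp [Mt, am, wt]
    field_simp
    ring
  · simp [Mt, am, wt]
    field_simp
    ring

theorem norm_ec_le (H : ℂ → ℂ) {m : ℕ} (hm : 1 ≤ m) (i : Fin 3) :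
    ‖ec H m i‖ ≤ 2 * NN H m / m := by
  have hN := NN_nonneg H m
  have hm0 : (0 : ℝ) < m := by exact_mod_cast hm
  have hm1 : (1 : ℝ) ≤ m := by exact_mod_cast hm
  have key : ∀ A : List ℕ, wt A ≤ 3 → ‖xc H A m‖ ≤ yc H A m * (m : ℝ) ^ 3 := by
    intro A hA
    rw [norm_xc H A hm]
    exact mul_le_mul_of_nonneg_left (pow_le_pow_right₀ hm1 hA) (yc_nonneg H A m)
  fin_cases i
  · have : ec H m 0 = 0 := rfl
    simp only [Fin.zero_eta, this, norm_zero]
    positivity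
  · have e : ec H m 1 = -xc H [0] m / (3 * (m : ℂ) ^ 2) := rfl
    simp only [Fin.mk_one]
    rw [e, norm_div, norm_neg, norm_mul, norm_pow, Complex.norm_natCast, norm_xc H [0] hm]
    have h3 : ‖(3 : ℂ)‖ = 3 := by simp
    have hw : wt [0] = 1 := rfl
    rw [h3, hw, pow_one, div_le_div_iff₀ (by positivity) hm0]
    have h1 : yc H [0] m ≤ NN H m := yc_le H m 3
    have h2 := yc_nonneg H [0] m
    have h4 : 0 < (m : ℝ) ^ 2 := by positivity
    nlinarith
  · have e : ec H m 2 = (2 / 5 * xc H [0, 1] m + 4 / 5 * xc H [0, 0, 0] m + -(6 / 5) * xc H [2] m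
        + 7 / 15 * xc H [0, 0] m + 1 / 5 * xc H [1] m + 1 / 15 * xc H [0] m) / (m : ℂ) ^ 4 := rfl
    simp only [Fin.reduceFinMk]
    rw [e, norm_div, norm_pow, Complex.norm_natCast]
    have k1 := key [0, 1] (by decide)
    have k2 := key [0, 0, 0] (by decide)
    have k3 := key [2] (by decide)
    have k4 := key [0, 0] (by decide)
    have k5 := key [1] (by decide)
    have k6 := key [0] (by decide)
    have hS : yc H [0, 1] m + yc H [0, 0, 0] m + yc H [2] m + yc H [0, 0] m + yc H [1] m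
        + yc H [0] m ≤ NN H m := by
      have z0 := yc_nonneg H [] m
      have z2 := yc_nonneg H [3] m
      have e8 : NN H m = yc H [] m + yc H [1] m + yc H [3] m + yc H [0] m + yc H [0, 1] m
          + yc H [0, 0, 0] m + yc H [2] m + yc H [0, 0] m := by
        unfold NN
        rw [Fin.sum_univ_eight]
        rfl
      rw [e8]
      linarith
    have hn : ‖2 / 5 * xc H [0, 1] m + 4 / 5 * xc H [0, 0, 0] m + -(6 / 5) * xc H [2] m
        + 7 / 15 * xc H [0, 0] m + 1 / 5 * xc H [1] m + 1 / 15 * xc H [0] m‖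
        ≤ 2 * NN H m * (m : ℝ) ^ 3 := by
      have c1 : ‖(2 / 5 : ℂ) * xc H [0, 1] m‖ = 2 / 5 * ‖xc H [0, 1] m‖ := by
        rw [norm_mul]; norm_num
      have c2 : ‖(4 / 5 : ℂ) * xc H [0, 0, 0] m‖ = 4 / 5 * ‖xc H [0, 0, 0] m‖ := by
        rw [norm_mul]; norm_num
      have c3 : ‖-(6 / 5 : ℂ) * xc H [2] m‖ = 6 / 5 * ‖xc H [2] m‖ := by
        rw [norm_mul, norm_neg]; norm_num
      have c4 : ‖(7 / 15 : ℂ) * xc H [0, 0] m‖ = 7 / 15 * ‖xc H [0, 0] m‖ := by
        rw [norm_mul]; norm_num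
      have c5 : ‖(1 / 5 : ℂ) * xc H [1] m‖ = 1 / 5 * ‖xc H [1] m‖ := by
        rw [norm_mul]; norm_num
      have c6 : ‖(1 / 15 : ℂ) * xc H [0] m‖ = 1 / 15 * ‖xc H [0] m‖ := by
        rw [norm_mul]; norm_num
      have n1 := norm_add_le (2 / 5 * xc H [0, 1] m + 4 / 5 * xc H [0, 0, 0] m
        + -(6 / 5) * xc H [2] m + 7 / 15 * xc H [0, 0] m + 1 / 5 * xc H [1] m) (1 / 15 * xc H [0] m)
      have n2 := norm_add_le (2 / 5 * xc H [0, 1] m + 4 / 5 * xc H [0, 0, 0] m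
        + -(6 / 5) * xc H [2] m + 7 / 15 * xc H [0, 0] m) (1 / 5 * xc H [1] m)
      have n3 := norm_add_le (2 / 5 * xc H [0, 1] m + 4 / 5 * xc H [0, 0, 0] m
        + -(6 / 5) * xc H [2] m) (7 / 15 * xc H [0, 0] m)
      have n4 := norm_add_le (2 / 5 * xc H [0, 1] m + 4 / 5 * xc H [0, 0, 0] m)
        (-(6 / 5) * xc H [2] m)
      have n5 := norm_add_le (2 / 5 * xc H [0, 1] m) (4 / 5 * xc H [0, 0, 0] m)
      have hm3 : (0 : ℝ) ≤ (m : ℝ) ^ 3 := by positivity
      have z1 := norm_nonneg (xc H [0, 1] m)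
      have z2 := norm_nonneg (xc H [0, 0, 0] m)
      have z3 := norm_nonneg (xc H [2] m)
      have z4 := norm_nonneg (xc H [0, 0] m)
      have z5 := norm_nonneg (xc H [1] m)
      have z6 := norm_nonneg (xc H [0] m)
      have hS3 := mul_le_mul_of_nonneg_right hS hm3
      linarith
    rw [div_le_div_iff₀ (by positivity) hm0]
    calc _ ≤ 2 * NN H m * (m : ℝ) ^ 3 * m := mul_le_mul_of_nonneg_right hn hm0.le
      _ = 2 * NN H m * (m : ℝ) ^ 4 := by ring

/-! ### the inequality for a large order -/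

/-- the ratio of the exact coefficient and of its leading term -/
noncomputable def tr (b : ℝ) (m w : ℕ) : ℝ :=
  b * (b + 1) * (b + 2) / ((Nat.factorial w : ℝ) * pq b w)
    / (Wt b m / (m : ℝ) ^ w * ((b + w) * pq (b + w + 1) m))

theorem tr_tendsto {b : ℝ} (hb : 0 < b) (w : ℕ) : Tendsto (fun m => tr b m w) atTop (𝓝 1) := by
  have h := wt_tendsto hb w
  have hp := pq_pos hb w
  have h0 : b * (b + 1) * (b + 2) / ((Nat.factorial w : ℝ) * pq b w) ≠ 0 := by positivity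
  have h1 := (tendsto_const_nhds (x := b * (b + 1) * (b + 2)
    / ((Nat.factorial w : ℝ) * pq b w))).div h h0
  rw [div_self h0] at h1
  exact h1

theorem Wt_pos {b : ℝ} (hb : 0 < b) {m : ℕ} (hm : 1 ≤ m) : 0 < Wt b m := by
  unfold Wt
  have hp := pq_pos (show (0:ℝ) < b + 3 by linarith) m
  have : (0:ℝ) < m := by exact_mod_cast hm
  positivity

theorem kap_eq {b : ℝ} (hb : 0 < b) (Q : Fin 3 → Fin 3 → ℝ) {m : ℕ} (hm : 1 ≤ m) (H : ℂ → ℂ)
    (r s : Fin 3) : kap Q b m r s * (xc H (am r) m * conj (xc H (am s) m)).re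
      = Wt b m / (b + 2) * (Qam Q r s * tr b m (wt (am r) + wt (am s))
        * (ac H m r * conj (ac H m s)).re) := by
  have hm0 : (0:ℝ) < m := by exact_mod_cast hm
  have hW := Wt_pos hb hm
  have e1 : (ac H m r * conj (ac H m s)).re
      = (xc H (am r) m * conj (xc H (am s) m)).re / (m : ℝ) ^ (wt (am r) + wt (am s)) := by
    unfold ac
    rw [map_div₀, map_pow, Complex.conj_natCast, div_mul_div_comm, ← pow_add]
    have e2 : (m : ℂ) ^ (wt (am r) + wt (am s)) = (((m : ℝ) ^ (wt (am r) + wt (am s)) : ℝ) : ℂ) := by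
      push_cast
      rfl
    rw [e2, Complex.div_ofReal_re]
  rw [e1]
  unfold kap tr
  set w := wt (am r) + wt (am s) with hw
  have hc : (b + (wt (am r) : ℝ) + (wt (am s) : ℝ)) = b + (w : ℝ) := by
    rw [hw]
    push_cast
    ring
  rw [hc]
  have hp1 := pq_pos hb w
  have hp2 := pq_pos (show (0:ℝ) < b + w + 1 by positivity) m
  have hf : (0:ℝ) < (Nat.factorial w : ℝ) := by exact_mod_cast Nat.factorial_pos w
  have hbw : (0:ℝ) < b + w := by positivity
  field_simp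

theorem per_order (T : Test) {b : ℝ} (hb : 1 ≤ b) (Q : Fin 3 → Fin 3 → ℝ)
    (hQ : ∀ x : Fin 3 → ℝ, ∑ r, ∑ s, Q r s * (x r * x s) ≤ ∑ r, ∑ s, T.Qv b r s * (x r * x s))
    {δ : ℝ} (hδ : 0 < δ) :
    ∃ m1 : ℕ, ∀ m : ℕ, m1 ≤ m → ∀ (ρ : ℝ) (β H : ℂ → ℂ) (Φ : ℂ → ℂ → ℂ), Data ρ β H Φ →
      cm Q b H m ≤ Pf (-1) b (diagc (EE Φ (-1)) m) m / (b + 2) + δ * (Wt b m * S2 H m) := by
  have hb0 : 0 < b := by linarith
  obtain ⟨m0, hm0⟩ := perfreq T hb0 (ε := δ / 64800) (by positivity)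
  set e2 : ℝ := δ / (24 * (qs (Qam Q) + 1)) with he2
  have hqa := qs_nonneg (Qam Q)
  have hqs := qs_nonneg Q
  have he2p : 0 < e2 := by positivity
  have hev : ∀ᶠ m : ℕ in atTop, ∀ r s : Fin 3, |tr b m (wt (am r) + wt (am s)) - 1| ≤ e2 := by
    rw [eventually_all]
    intro r
    rw [eventually_all]
    intro s
    have h1 := tr_tendsto hb0 (wt (am r) + wt (am s))
    have h2 := Metric.tendsto_atTop.mp h1 e2 he2p
    obtain ⟨n0, hn0⟩ := h2
    filter_upwards [eventually_ge_atTop n0] with m hm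
    have h3 := hn0 m hm
    rw [Real.dist_eq] at h3
    exact h3.le
  have hev2 : ∀ᶠ m : ℕ in atTop, 1 ≤ m ∧ m0 ≤ m ∧ 2784 * qs Q / δ ≤ (m : ℝ) ∧
      ∀ r s : Fin 3, |tr b m (wt (am r) + wt (am s)) - 1| ≤ e2 := by
    filter_upwards [eventually_ge_atTop 1, eventually_ge_atTop m0,
      eventually_ge_atTop ⌈2784 * qs Q / δ⌉₊, hev] with m h1 h2 h3 h4
    exact ⟨h1, h2, (Nat.le_ceil _).trans (by exact_mod_cast h3), h4⟩
  obtain ⟨m1, hm1⟩ := eventually_atTop.mp hev2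
  refine ⟨m1, fun m hm ρ β H Φ h => ?_⟩
  obtain ⟨h1, h2, h3, h4⟩ := hm1 m hm
  have hmr : (0:ℝ) < m := by exact_mod_cast h1
  have hmr1 : (1:ℝ) ≤ m := by exact_mod_cast h1
  have hW := Wt_pos hb0 h1
  have hN := NN_nonneg H m
  -- the exact form
  have hA : cm Q b H m ≤ Wt b m / (b + 2)
      * (qc (Qam Q) (ac H m) + e2 * (qs (Qam Q) * NN H m ^ 2)) := by
    have e : cm Q b H m = Wt b m / (b + 2) * ∑ r, ∑ s, Qam Q r s
        * tr b m (wt (am r) + wt (am s)) * (ac H m r * conj (ac H m s)).re := by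
      unfold cm
      rw [Finset.mul_sum]
      apply Finset.sum_congr rfl
      intro r _
      rw [Finset.mul_sum]
      apply Finset.sum_congr rfl
      intro s _
      exact kap_eq hb0 Q h1 H r s
    rw [e]
    apply mul_le_mul_of_nonneg_left _ (by positivity)
    exact qc_pert (Qam Q) (fun r s => tr b m (wt (am r) + wt (am s))) (ac H m) (norm_ac_le H m) h4
  -- the change of variables
  set v : Fin 3 → ℂ := vv (diagc (EE Φ (-1)) m) m with hv
  have hve : ∀ i, ‖uc H m i - v i‖ ≤ 2 * NN H m / m := by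
    intro i
    rw [hv, vv_eq h h1 i]
    have e : uc H m i - (uc H m i + ec H m i) = -ec H m i := by ring
    rw [e, norm_neg]
    exact norm_ec_le H h1 i
  have h2N : 2 * NN H m / m ≤ 2 * NN H m := by
    rw [div_le_iff₀ hmr]
    nlinarith
  have hvn : ∀ i, ‖v i‖ ≤ 30 * NN H m := by
    intro i
    have e : v i = uc H m i - (uc H m i - v i) := by ring
    rw [e]
    refine (norm_sub_le _ _).trans ?_
    have a1 := norm_uc_le H m i
    have a2 := hve i
    linarith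
  have hB : qc (Qam Q) (ac H m) ≤ qc Q v + 116 * qs Q * NN H m ^ 2 / m := by
    have e : qc (Qam Q) (ac H m) = qc Q (uc H m) := qc_Mt Q (ac H m)
    rw [e]
    have a1 := qc_diff Q (uc H m) v (norm_uc_le H m) hvn hve
    have e2 : qs Q * (2 * NN H m / m * (28 * NN H m + 30 * NN H m))
        = 116 * qs Q * NN H m ^ 2 / m := by
      field_simp
      ring
    rw [e2] at a1
    linarith
  have hC : qc Q v ≤ qc (T.Qv b) v := qc_le hQ v
  have hD := hm0 m h1 h2 (diagc (EE Φ (-1)) m) (EE_symm h.logPhi (-1) m)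
  have hD' : Wt b m * (qc (T.Qv b) v - δ / 64800 * ∑ r, ‖v r‖ ^ 2)
      ≤ Pf (-1) b (diagc (EE Φ (-1)) m) m := hD
  have hE : ∑ r, ‖v r‖ ^ 2 ≤ 2700 * NN H m ^ 2 := by
    have a : ∀ r, ‖v r‖ ^ 2 ≤ (30 * NN H m) ^ 2 := fun r =>
      pow_le_pow_left₀ (norm_nonneg _) (hvn r) 2
    rw [Fin.sum_univ_three]
    have a0 := a 0
    have a1 := a 1
    have a2 := a 2
    nlinarith
  have hF : 116 * qs Q * NN H m ^ 2 / m ≤ δ / 24 * NN H m ^ 2 := by
    rw [div_le_iff₀ hmr]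
    rw [div_le_iff₀ hδ] at h3
    have a := mul_le_mul_of_nonneg_right h3 (sq_nonneg (NN H m))
    nlinarith
  have hG : e2 * (qs (Qam Q) * NN H m ^ 2) ≤ δ / 24 * NN H m ^ 2 := by
    have a : e2 * qs (Qam Q) ≤ δ / 24 := by
      rw [he2, div_mul_eq_mul_div, div_le_iff₀ (by positivity)]
      nlinarith
    have a2 := mul_le_mul_of_nonneg_right a (sq_nonneg (NN H m))
    linarith
  have hN2 := NN_sq H m
  -- conclusion
  have hI : qc (Qam Q) (ac H m) + e2 * (qs (Qam Q) * NN H m ^ 2)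
      ≤ (qc (T.Qv b) v - δ / 64800 * ∑ r, ‖v r‖ ^ 2) + δ * S2 H m := by
    have a : δ / 64800 * ∑ r, ‖v r‖ ^ 2 ≤ δ / 64800 * (2700 * NN H m ^ 2) :=
      mul_le_mul_of_nonneg_left hE (by positivity)
    have a2 : δ * NN H m ^ 2 ≤ δ * (8 * S2 H m) := mul_le_mul_of_nonneg_left hN2 hδ.le
    linarith
  have hS : 0 ≤ S2 H m := Finset.sum_nonneg fun i _ => by positivity
  calc cm Q b H m ≤ Wt b m / (b + 2)
      * (qc (Qam Q) (ac H m) + e2 * (qs (Qam Q) * NN H m ^ 2)) := hA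
    _ ≤ Wt b m / (b + 2) * ((qc (T.Qv b) v - δ / 64800 * ∑ r, ‖v r‖ ^ 2) + δ * S2 H m) :=
        mul_le_mul_of_nonneg_left hI (by positivity)
    _ = Wt b m * (qc (T.Qv b) v - δ / 64800 * ∑ r, ‖v r‖ ^ 2) / (b + 2)
        + δ * (Wt b m * S2 H m) / (b + 2) := by ring
    _ ≤ Pf (-1) b (diagc (EE Φ (-1)) m) m / (b + 2) + δ * (Wt b m * S2 H m) := by
        apply add_le_add
        · exact div_le_div_of_nonneg_right hD' (by linarith)
        · apply div_le_self (by positivity)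
          linarith

/-! ### the finite part -/

theorem cm_bound (b : ℝ) (Q : Fin 3 → Fin 3 → ℝ) (m : ℕ) : ∃ C : ℝ, 0 ≤ C ∧
    ∀ (ρ : ℝ) (β H : ℂ → ℂ) (Φ : ℂ → ℂ → ℂ), Data ρ β H Φ → cm Q b H m ≤ C := by
  have h := fun r : Fin 3 => xc_bound (am r) m
  choose B hB0 hB using h
  refine ⟨∑ r, ∑ s, |kap Q b m r s| * (B r * B s), ?_, fun ρ β H Φ hd => ?_⟩
  · exact Finset.sum_nonneg fun r _ => Finset.sum_nonneg fun s _ =>
      mul_nonneg (abs_nonneg _) (mul_nonneg (hB0 r) (hB0 s))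
  · unfold cm
    apply Finset.sum_le_sum
    intro r _
    apply Finset.sum_le_sum
    intro s _
    refine (le_abs_self _).trans ?_
    rw [abs_mul]
    apply mul_le_mul_of_nonneg_left _ (abs_nonneg _)
    refine (Complex.abs_re_le_norm _).trans ?_
    rw [norm_mul, RCLike.norm_conj]
    exact mul_le_mul (hB r ρ β H Φ hd) (hB s ρ β H Φ hd) (norm_nonneg _) (hB0 r)

theorem S2_sum {b : ℝ} (hb : 1 ≤ b) : ∃ C : ℝ, 0 ≤ C ∧
    ∀ (ρ : ℝ) (β H : ℂ → ℂ) (Φ : ℂ → ℂ → ℂ), Data ρ β H Φ → ∀ s : Finset ℕ,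
      ∑ m ∈ s, Wt b m * S2 H m ≤ C * LG H b (fun _ => 1) := by
  have h := fun i : Fin 8 => norm_sum hb (Lst i)
  choose C hC0 hC using h
  refine ⟨∑ i, C i, Finset.sum_nonneg fun i _ => hC0 i, fun ρ β H Φ hd s => ?_⟩
  have hW0 : ∀ m, 0 ≤ Wt b m := by
    intro m
    unfold Wt
    have hp := pq_pos (show (0:ℝ) < b + 3 by linarith) m
    positivity
  have e : ∑ m ∈ s, Wt b m * S2 H m = ∑ i, ∑ m ∈ s, Wt b m * yc H (Lst i) m ^ 2 := by
    rw [Finset.sum_comm]
    apply Finset.sum_congr rfl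
    intro m _
    unfold S2
    rw [Finset.mul_sum]
  rw [e, Finset.sum_mul]
  apply Finset.sum_le_sum
  intro i _
  obtain ⟨h1, h2⟩ := hC i ρ β H Φ hd
  refine le_trans ?_ h2
  exact h1.sum_le_tsum s (fun m _ => mul_nonneg (hW0 m) (sq_nonneg _))

end AF

open AF

theorem area_form (T : Test) {b : ℝ} (hb : 1 ≤ b) (Q : Fin 3 → Fin 3 → ℝ)
    (hQ : ∀ x : Fin 3 → ℝ, ∑ r, ∑ s, Q r s * (x r * x s) ≤ ∑ r, ∑ s, T.Qv b r s * (x r * x s))
    {ε : ℝ} (hε : 0 < ε) :
    ∃ C : ℝ, ∀ (ρ : ℝ) (β H : ℂ → ℂ) (Φ : ℂ → ℂ → ℂ), Data ρ β H Φ →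
      LG H b (fun z => qf Q b (cc H z)) ≤ (1 + ε) * LG H b (fun _ => 1) + C := by
  obtain ⟨C4, hC40, hC4⟩ := S2_sum hb
  have hb0 : 0 < b := by linarith
  set δ : ℝ := ε / (C4 + 1) with hδ
  have hδp : 0 < δ := by positivity
  obtain ⟨m1, hm1⟩ := per_order T hb Q hQ hδp
  have hfin := fun m : ℕ => cm_bound b Q m
  choose B hB0 hB using hfin
  refine ⟨∑ m ∈ Finset.range m1, B m, fun ρ β H Φ h => ?_⟩
  have hsum := (cm_hasSum h hb Q).tendsto_sum_nat
  apply le_of_tendsto hsum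
  filter_upwards [eventually_ge_atTop m1] with M hM
  have hLG : 0 ≤ LG H b (fun _ => 1) :=
    LG_nonneg (data_cont h) hb continuousOn_const (fun z _ => zero_le_one)
  have hPf0 : ∀ m, 0 ≤ Pf (-1) b (diagc (EE Φ (-1)) m) m := by
    intro m
    apply Pf_nonneg
    simp only [Complex.neg_re, Complex.one_re]
    linarith
  rw [← Finset.sum_range_add_sum_Ico _ hM]
  have h1 : ∑ m ∈ Finset.range m1, cm Q b H m ≤ ∑ m ∈ Finset.range m1, B m :=
    Finset.sum_le_sum fun m _ => hB m ρ β H Φ h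
  have h2 : ∑ m ∈ Finset.Ico m1 M, cm Q b H m
      ≤ ∑ m ∈ Finset.Ico m1 M, (Pf (-1) b (diagc (EE Φ (-1)) m) m / (b + 2)
        + δ * (Wt b m * S2 H m)) :=
    Finset.sum_le_sum fun m hm => hm1 m (Finset.mem_Ico.mp hm).1 ρ β H Φ h
  rw [Finset.sum_add_distrib, ← Finset.mul_sum, ← Finset.sum_div] at h2
  have h3 : ∑ m ∈ Finset.Ico m1 M, Pf (-1) b (diagc (EE Φ (-1)) m) m
      ≤ ∑ m ∈ Finset.range M, Pf (-1) b (diagc (EE Φ (-1)) m) m := by
    rw [← Finset.sum_range_add_sum_Ico _ hM]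
    have := Finset.sum_nonneg (s := Finset.range m1)
      (f := fun m => Pf (-1) b (diagc (EE Φ (-1)) m) m) (fun m _ => hPf0 m)
    linarith
  have h4 := Pf_sum_le h hb M
  have h5 : (∑ m ∈ Finset.Ico m1 M, Pf (-1) b (diagc (EE Φ (-1)) m) m) / (b + 2)
      ≤ LG H b (fun _ => 1) := by
    rw [div_le_iff₀ (by linarith)]
    linarith
  have h6 := hC4 ρ β H Φ h (Finset.Ico m1 M)
  have h7 : δ * ∑ m ∈ Finset.Ico m1 M, Wt b m * S2 H m ≤ ε * LG H b (fun _ => 1) := by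
    calc δ * ∑ m ∈ Finset.Ico m1 M, Wt b m * S2 H m
        ≤ δ * (C4 * LG H b (fun _ => 1)) := mul_le_mul_of_nonneg_left h6 hδp.le
      _ = (ε * (C4 / (C4 + 1))) * LG H b (fun _ => 1) := by rw [hδ]; ring
      _ ≤ (ε * 1) * LG H b (fun _ => 1) := by
          apply mul_le_mul_of_nonneg_right _ hLG
          apply mul_le_mul_of_nonneg_left _ hε.le
          rw [div_le_one (by linarith)]
          linarith
      _ = ε * LG H b (fun _ => 1) := by ring
  linarith

end Pool.Agent.Helper39.MH
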