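import Pool.Agent.Helper39.MH.CertT

/-!
MP_16b0ee, project MH, module 13: the check of the certificate by the kernel.
-/

set_option autoImplicit false
set_option maxRecDepth 100000
set_option maxHeartbeats 0

namespace Pool.Agent.Helper39.MH

theorem okR_rd : okR rd = true := by decide +kernel

theorem zer_allT : KT.zer allT = true := by decide +kernel

end Pool.Agent.Helper39.MH
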