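import Pool.Agent.Helper39.MH.CertData

/-!
MP_16b0ee, project MH, module 13: the relations and the fixed part of the certificate as lists of
terms (evaluated by the kernel).
-/

set_option autoImplicit false
set_option maxRecDepth 20000

namespace Pool.Agent.Helper39.MH

/-- the prime of a variable -/
noncomputable def prN (n : Nat) : Nat :=
  Nat.rec (motive := fun _ => Nat) 2
    (fun m _ => Nat.rec (motive := fun _ => Nat) 3
      (fun m _ => Nat.rec (motive := fun _ => Nat) 5
        (fun m _ => Nat.rec (motive := fun _ => Nat) 7 (fun _ _ => 0) m) m) m) n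

/-- the number of a monomial -/
noncomputable def evN (A : List Nat) : Nat :=
  List.rec (motive := fun _ => Nat) 1 (fun a _ ih => Nat.mul (prN a) ih) A

/-- the weight of a monomial -/
noncomputable def wtN (A : List Nat) : Nat :=
  List.rec (motive := fun _ => Nat) 0 (fun a _ ih => Nat.add (Nat.succ a) ih) A

/-- the formal derivative of a variable -/
noncomputable def dvT (n : Nat) : List Tm :=
  Nat.rec (motive := fun _ => List Tm) [.mk true 3 3 1, .mk false 1 4 1]
    (fun m _ => Nat.rec (motive := fun _ => List Tm) [.mk true 4 5 1]
      (fun m _ => Nat.rec (motive := fun _ => List Tm) [.mk true 5 7 1, .mk true 1 9 1]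
        (fun _ _ => []) m) m) n

/-- the formal derivative of a monomial -/
noncomputable def DvT (A : List Nat) : List Tm :=
  List.rec (motive := fun _ => List Tm) []
    (fun a A ih => mulL (.mk true 1 (evN A) 1) (dvT a) ++ mulL (.mk true 1 (prN a) 1) ih) A

/-- twenty times the relation -/
noncomputable def relT (A B : List Nat) : List Tm :=
  mulL (.mk true 20 1 (evN B)) (.mk true 2 (Nat.mul 2 (evN A)) 1 :: DvT A)
    ++ [.mk false (Nat.add 21 (Nat.mul 20 (Nat.add (wtN A) (wtN B)))) (evN A) (evN B)]

/-- add the relations -/
noncomputable def addRels (xs : List (Bool × Nat × List Nat × List Nat)) : KT → KT :=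
  List.rec (motive := fun _ => KT → KT) (fun t => t)
    (fun x _ ih t => KT.force
      (addL (mulL (.mk x.1 x.2.1 1 1) (relT x.2.2.1 x.2.2.2)) t) ih) xs

/-- the entries are smaller than the bound -/
noncomputable def ltN (k : Nat) (A : List Nat) : Bool :=
  List.rec (motive := fun _ => Bool) true (fun a _ ih => and (Nat.ble (Nat.succ a) k) ih) A

/-- the indices of the relations are admissible -/
noncomputable def okR (xs : List (Bool × Nat × List Nat × List Nat)) : Bool :=
  List.rec (motive := fun _ => Bool) true
    (fun x _ ih => and (and (ltN 3 x.2.2.1) (ltN 4 x.2.2.2)) ih) xs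

/-- the first local polynomial -/
def pA : List Tm := [.mk true 1 8 1, .mk true 1 1 8, .mk false 1 6 1, .mk false 1 1 6]

/-- the second local polynomial -/
def pB : List Tm := [.mk true 3 4 1, .mk true 3 1 4, .mk false 1 3 1, .mk false 1 1 3,
  .mk true 2 2 2]

/-- the first factor -/
def f1 : List Tm := [.mk true 1 1 1, .mk true 1 2 1]

/-- the second factor -/
def f2 : List Tm := [.mk true 4 3 1, .mk false 1 1 1, .mk false 2 2 1, .mk false 1 4 1]

/-- the third factor -/
def f3 : List Tm := [.mk true 12 3 1, .mk false 8 5 1, .mk true 4 6 1, .mk false 1 1 1,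
  .mk false 3 2 1, .mk false 3 4 1, .mk false 1 8 1]

/-- `256` times the short constraint -/
noncomputable def E1 : List Tm :=
  .mk true 256 1 1 :: (mulL (.mk false 64 1 1) (mulT f1 (cjT f1))
    ++ mulL (.mk false 12 1 1) (mulT f2 (cjT f2)))

/-- `256` times the constraint -/
noncomputable def E2 : List Tm := E1 ++ mulL (.mk false 5 1 1) (mulT f3 (cjT f3))

/-- the first local term -/
noncomputable def locA : List Tm := mulL (.mk true SA 1 1) (mulT (mulT pA (cjT pA)) E1)

/-- the second local term -/
noncomputable def locB : List Tm := mulL (.mk true SB 1 1) (mulT (mulT pB (cjT pB)) E2)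

/-- the part without the squares -/
noncomputable def fixT : KT :=
  KT.force (addL qT .nil) (fun t => KT.force (addL locA t) (fun t => KT.force (addL locB t)
    (addRels rd)))

/-- everything -/
noncomputable def allT : KT :=
  KT.force fixT (fun t => KT.force (addSqs true sp1 t) (fun t => KT.force (addSqs true sp2 t)
    (fun t => KT.force (addSqs false sm1 t) (addSqs false sm2))))

end Pool.Agent.Helper39.MH
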