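import Mathlib.Data.Int.Basic

/-!
MP_16b0ee, project MH: a small normaliser for real polynomials in the variables and their
conjugates; everything here is evaluated by the kernel (therefore the recursors).
A monomial `A * conj B` is a pair `(x, y)` of natural numbers: products of the primes 2, 3, 5, 7.
-/

set_option autoImplicit false

namespace Pool.Agent.Helper39.MH

/-- search trees: key, positive part, negative part -/
inductive KT where
  | nil : KT
  | node : KT → Nat → Nat → Nat → KT → KT

/-- evaluation of a tree before the continuation -/
noncomputable def KT.force (t : KT) (f : KT → KT) : KT :=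
  KT.rec (motive := fun _ => KT) (f .nil) (fun l k a b r _ _ => f (.node l k a b r)) t

/-- insertion; `s = true`: positive coefficient -/
noncomputable def KT.ins (s : Bool) (k a : Nat) (t : KT) : KT :=
  KT.rec (motive := fun _ => KT)
    (Bool.rec (KT.node .nil k 0 a .nil) (KT.node .nil k a 0 .nil) s)
    (fun l k' p n r ihl ihr =>
      Bool.rec
        (Bool.rec
          (Bool.rec (KT.node l k' p (Nat.add n a) r) (KT.node l k' (Nat.add p a) n r) s)
          (KT.force ihr (fun r' => KT.node l k' p n r'))
          (Nat.ble (Nat.succ k') k))
        (KT.force ihl (fun l' => KT.node l' k' p n r))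
        (Nat.ble (Nat.succ k) k'))
    t

/-- all coefficients vanish -/
noncomputable def KT.zer (t : KT) : Bool :=
  KT.rec (motive := fun _ => Bool) true (fun _ _ p n _ a b => and (Nat.beq p n) (and a b)) t

/-- a term: sign, modulus and the two parts of the monomial -/
inductive Tm where
  | mk : Bool → Nat → Nat → Nat → Tm

/-- the product of two signs -/
noncomputable def sgm (a b : Bool) : Bool := Bool.rec (Bool.rec true false b) b a

/-- the key of the pair `(x, y)` or `(y, x)` -/
noncomputable def key (x y : Nat) : Nat :=
  Bool.rec (Nat.add (Nat.mul x x) y) (Nat.add (Nat.mul y y) x) (Nat.ble x y)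

/-- the product of two terms -/
noncomputable def Tm.mul (u v : Tm) : Tm :=
  Tm.rec (fun s a x y => Tm.rec (fun s' a' x' y' =>
    Tm.mk (sgm s s') (Nat.mul a a') (Nat.mul x x') (Nat.mul y y')) v) u

/-- the conjugate of a term -/
noncomputable def Tm.cj (u : Tm) : Tm := Tm.rec (fun s a x y => Tm.mk s a y x) u

/-- multiplication of a list by a term -/
noncomputable def mulL (u : Tm) (xs : List Tm) : List Tm :=
  List.rec (motive := fun _ => List Tm) [] (fun x _ ih => Tm.mul u x :: ih) xs

/-- the product of two lists -/
noncomputable def mulT (us xs : List Tm) : List Tm :=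
  List.rec (motive := fun _ => List Tm) [] (fun u _ ih => mulL u xs ++ ih) us

/-- the conjugate of a list -/
noncomputable def cjT (xs : List Tm) : List Tm :=
  List.rec (motive := fun _ => List Tm) [] (fun x _ ih => Tm.cj x :: ih) xs

/-- add the real part of a term -/
noncomputable def insT (u : Tm) (t : KT) : KT :=
  Tm.rec (fun s a x y => KT.ins s (key x y) a t) u

/-- add the real parts of the terms of a list -/
noncomputable def addL (xs : List Tm) : KT → KT :=
  List.rec (motive := fun _ => KT → KT) (fun t => t)
    (fun x _ ih t => KT.force (insT x t) ih) xs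

/-- add the real parts of `u * conj x + e * u * x` -/
noncomputable def addRow (e : Bool) (s : Bool) (a x y : Nat) (xs : List Tm) : KT → KT :=
  List.rec (motive := fun _ => KT → KT) (fun t => t)
    (fun u _ ih t => Tm.rec (fun s2 a2 x2 y2 =>
      KT.force (KT.ins (sgm s s2) (key (Nat.mul x y2) (Nat.mul y x2)) (Nat.mul a a2) t)
        (fun t => KT.force (KT.ins (sgm e (sgm s s2)) (key (Nat.mul x x2) (Nat.mul y y2))
          (Nat.mul a a2) t) ih)) u) xs

/-- add `2 w` times the square of the real part (`e = true`) or of the imaginary part -/
noncomputable def addSq (e : Bool) (w : Nat) (xs : List Tm) : KT → KT :=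
  List.rec (motive := fun _ => KT → KT) (fun t => t)
    (fun u xs ih t => Tm.rec (fun s a x y =>
      KT.force (KT.ins true (key (Nat.mul x y) (Nat.mul y x)) (Nat.mul w (Nat.mul a a)) t)
        (fun t => KT.force (KT.ins e (key (Nat.mul x x) (Nat.mul y y))
          (Nat.mul w (Nat.mul a a)) t)
          (fun t => KT.force (addRow e s (Nat.mul 2 (Nat.mul w a)) x y xs t) ih))) u) xs

/-- add the squares of a list -/
noncomputable def addSqs (e : Bool) (xs : List (Nat × List Tm)) : KT → KT :=
  List.rec (motive := fun _ => KT → KT) (fun t => t)
    (fun x _ ih t => KT.force (addSq e x.1 x.2 t) ih) xs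

end Pool.Agent.Helper39.MH
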