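import Mathlib
import Pool.Agent.Helper39.MH.Norm

/-!
MP_16b0ee, project MH: soundness of the normaliser.
-/

set_option autoImplicit false

open scoped ComplexConjugate

namespace Pool.Agent.Helper39.MH

/-- the value of a product of the primes 2, 3, 5, 7 -/
noncomputable def va (c : ℕ → ℂ) (x : ℕ) : ℂ :=
  if x = 0 then 0 else
    c 0 ^ x.factorization 2 * c 1 ^ x.factorization 3 * c 2 ^ x.factorization 5
      * c 3 ^ x.factorization 7

theorem va_one (c : ℕ → ℂ) : va c 1 = 1 := by simp [va]

theorem va_mul (c : ℕ → ℂ) (x y : ℕ) : va c (x * y) = va c x * va c y := by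
  by_cases hx : x = 0
  · simp [va, hx]
  by_cases hy : y = 0
  · simp [va, hy]
  have hxy : x * y ≠ 0 := mul_ne_zero hx hy
  simp only [va, hx, hy, hxy, if_false, Nat.factorization_mul hx hy, Finsupp.coe_add, Pi.add_apply,
    pow_add]
  ring

/-- the value of a sign -/
noncomputable def sg (s : Bool) : ℝ := if s = true then 1 else -1

theorem sg_sgm (a b : Bool) : sg (sgm a b) = sg a * sg b := by
  cases a <;> cases b <;> simp [sg, sgm]

theorem sg_sq (a : Bool) : sg a * sg a = 1 := by cases a <;> simp [sg]

/-- the value of a term -/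
noncomputable def tmv (c : ℕ → ℂ) : Tm → ℂ
  | .mk s a x y => ((sg s * a : ℝ) : ℂ) * (va c x * conj (va c y))

/-- the value of a list -/
noncomputable def lv (c : ℕ → ℂ) (xs : List Tm) : ℂ := (xs.map (tmv c)).sum

theorem lv_nil (c : ℕ → ℂ) : lv c [] = 0 := rfl

theorem lv_cons (c : ℕ → ℂ) (x : Tm) (xs : List Tm) : lv c (x :: xs) = tmv c x + lv c xs := by
  simp [lv]

theorem lv_append (c : ℕ → ℂ) (xs ys : List Tm) : lv c (xs ++ ys) = lv c xs + lv c ys := by
  simp [lv]

theorem tmv_mul (c : ℕ → ℂ) (u v : Tm) : tmv c (u.mul v) = tmv c u * tmv c v := by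
  cases u with
  | mk s a x y =>
    cases v with
    | mk s' a' x' y' =>
      change ((sg (sgm s s') * ((a * a' : ℕ) : ℝ) : ℝ) : ℂ) * (va c (x * x') * conj (va c (y * y')))
        = _
      simp only [tmv, sg_sgm, va_mul, map_mul]
      push_cast
      ring

theorem tmv_cj (c : ℕ → ℂ) (u : Tm) : tmv c u.cj = conj (tmv c u) := by
  cases u with
  | mk s a x y =>
    change ((sg s * (a : ℝ) : ℝ) : ℂ) * (va c y * conj (va c x)) = _
    simp only [tmv, map_mul, Complex.conj_ofReal, Complex.conj_conj]
    ring

theorem lv_mulL (c : ℕ → ℂ) (u : Tm) (xs : List Tm) : lv c (mulL u xs) = tmv c u * lv c xs := by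
  induction xs with
  | nil => simp [mulL, lv_nil]
  | cons x xs ih =>
    change lv c (Tm.mul u x :: mulL u xs) = _
    rw [lv_cons, lv_cons, ih, tmv_mul]
    ring

theorem lv_mulT (c : ℕ → ℂ) (us xs : List Tm) : lv c (mulT us xs) = lv c us * lv c xs := by
  induction us with
  | nil => simp [mulT, lv_nil]
  | cons u us ih =>
    change lv c (mulL u xs ++ mulT us xs) = _
    rw [lv_append, lv_cons, ih, lv_mulL]
    ring

theorem lv_cjT (c : ℕ → ℂ) (xs : List Tm) : lv c (cjT xs) = conj (lv c xs) := by
  induction xs with
  | nil => simp [cjT, lv_nil]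
  | cons x xs ih =>
    change lv c (Tm.cj x :: cjT xs) = _
    rw [lv_cons, lv_cons, ih, tmv_cj, map_add]

/-- the value of a key -/
noncomputable def kv (c : ℕ → ℂ) (k : ℕ) : ℝ :=
  (va c (k - k.sqrt * k.sqrt) * conj (va c k.sqrt)).re

theorem kv_key (c : ℕ → ℂ) (x y : ℕ) : kv c (key x y) = (va c x * conj (va c y)).re := by
  by_cases h : x ≤ y
  · have h1 : key x y = y * y + x := by
      have : Nat.ble x y = true := Nat.ble_eq.mpr h
      simp only [key, this]
      rfl
    have h2 : (y * y + x).sqrt = y := Nat.sqrt_add_eq y (by omega)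
    rw [kv, h1, h2]
    congr 3
    omega
  · have h' : y ≤ x := by omega
    have h1 : key x y = x * x + y := by
      have : Nat.ble x y = false := by
        rw [Bool.eq_false_iff]
        intro h3
        exact h (Nat.ble_eq.mp h3)
      simp only [key, this]
      rfl
    have h2 : (x * x + y).sqrt = x := Nat.sqrt_add_eq x (by omega)
    rw [kv, h1, h2]
    have h3 : x * x + y - x * x = y := by omega
    rw [h3, ← Complex.conj_re, map_mul, Complex.conj_conj, mul_comm]

/-- the value of a tree -/
noncomputable def tv (c : ℕ → ℂ) : KT → ℝ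
  | .nil => 0
  | .node l k p n r => tv c l + ((p : ℝ) - n) * kv c k + tv c r

theorem force_eq (t : KT) (f : KT → KT) : KT.force t f = f t := by cases t <;> rfl

theorem tv_ins (c : ℕ → ℂ) (s : Bool) (k a : ℕ) (t : KT) :
    tv c (KT.ins s k a t) = tv c t + sg s * a * kv c k := by
  induction t with
  | nil => cases s <;> simp [KT.ins, tv, sg]
  | node l k' p n r ihl ihr =>
    have hunf : KT.ins s k a (.node l k' p n r) =
      Bool.rec
        (Bool.rec
          (Bool.rec (KT.node l k' p (Nat.add n a) r) (KT.node l k' (Nat.add p a) n r) s)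
          (KT.force (KT.ins s k a r) (fun r' => KT.node l k' p n r'))
          (Nat.ble (Nat.succ k') k))
        (KT.force (KT.ins s k a l) (fun l' => KT.node l' k' p n r))
        (Nat.ble (Nat.succ k) k') := rfl
    rw [hunf]
    rcases hb : Nat.ble (Nat.succ k) k' with _ | _
    · rcases hb2 : Nat.ble (Nat.succ k') k with _ | _
      · have h1 : ¬ k < k' := by
          intro h
          have := Nat.ble_eq.mpr (Nat.succ_le_of_lt h)
          rw [hb] at this
          exact Bool.false_ne_true this
        have h2 : ¬ k' < k := by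
          intro h
          have := Nat.ble_eq.mpr (Nat.succ_le_of_lt h)
          rw [hb2] at this
          exact Bool.false_ne_true this
        have h3 : k = k' := by omega
        subst h3
        cases s
        · change tv c (KT.node l k p (n + a) r) = _
          simp only [tv, sg]
          push_cast
          simp
          ring
        · change tv c (KT.node l k (p + a) n r) = _
          simp only [tv, sg]
          push_cast
          simp
          ring
      · simp only [force_eq]
        simp only [tv, ihr]
        ring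
    · simp only [force_eq]
      simp only [tv, ihl]
      ring

theorem zer_tv (c : ℕ → ℂ) (t : KT) (h : KT.zer t = true) : tv c t = 0 := by
  induction t with
  | nil => rfl
  | node l k p n r ihl ihr =>
    have h1 : (and (Nat.beq p n) (and (KT.zer l) (KT.zer r))) = true := h
    rw [Bool.and_eq_true, Bool.and_eq_true] at h1
    obtain ⟨h2, h3, h4⟩ := h1
    have h5 : p = n := Nat.eq_of_beq_eq_true h2
    simp only [tv, ihl h3, ihr h4, h5]
    ring

theorem re_tmv (c : ℕ → ℂ) (s : Bool) (a x y : ℕ) :
    (tmv c (.mk s a x y)).re = sg s * a * (va c x * conj (va c y)).re := by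
  simp only [tmv]
  rw [Complex.re_ofReal_mul]

theorem tv_insT (c : ℕ → ℂ) (u : Tm) (t : KT) : tv c (insT u t) = tv c t + (tmv c u).re := by
  cases u with
  | mk s a x y =>
    change tv c (KT.ins s (key x y) a t) = _
    rw [tv_ins, kv_key, re_tmv]

theorem tv_addL (c : ℕ → ℂ) (xs : List Tm) (t : KT) :
    tv c (addL xs t) = tv c t + (lv c xs).re := by
  induction xs generalizing t with
  | nil => simp [addL, lv_nil]
  | cons x xs ih =>
    change tv c (KT.force (insT x t) (addL xs)) = _
    rw [force_eq, ih, tv_insT, lv_cons, Complex.add_re]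
    ring

theorem tv_addRow (c : ℕ → ℂ) (e s : Bool) (a x y : ℕ) (xs : List Tm) (t : KT) :
    tv c (addRow e s a x y xs t) = tv c t
      + ((tmv c (.mk s a x y) * conj (lv c xs)).re + sg e * (tmv c (.mk s a x y) * lv c xs).re) := by
  induction xs generalizing t with
  | nil => simp [addRow, lv_nil]
  | cons u xs ih =>
    cases u with
    | mk s2 a2 x2 y2 =>
      change tv c (KT.force (KT.ins (sgm s s2) (key (x * y2) (y * x2)) (a * a2) t)
        (fun t => KT.force (KT.ins (sgm e (sgm s s2)) (key (x * x2) (y * y2))
          (a * a2) t) (addRow e s a x y xs))) = _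
      rw [force_eq, force_eq, ih, tv_ins, tv_ins, kv_key, kv_key, lv_cons, map_add, mul_add, mul_add,
        Complex.add_re, Complex.add_re]
      have h1 : (tmv c (.mk s a x y) * conj (tmv c (.mk s2 a2 x2 y2))).re
          = sg (sgm s s2) * ((a * a2 : ℕ) : ℝ) * (va c (x * y2) * conj (va c (y * x2))).re := by
        rw [← re_tmv, ← tmv_cj, ← tmv_mul]
        rfl
      have h2 : (tmv c (.mk s a x y) * tmv c (.mk s2 a2 x2 y2)).re
          = sg (sgm s s2) * ((a * a2 : ℕ) : ℝ) * (va c (x * x2) * conj (va c (y * y2))).re := by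
        rw [← re_tmv, ← tmv_mul]
        rfl
      rw [h1, h2, sg_sgm e]
      ring

theorem tv_addSq_aux (c : ℕ → ℂ) (e : Bool) (w : ℕ) (xs : List Tm) (t : KT) :
    tv c (addSq e w xs t) = tv c t
      + w * ((lv c xs * conj (lv c xs)).re + sg e * (lv c xs * lv c xs).re) := by
  induction xs generalizing t with
  | nil => simp [addSq, lv_nil]
  | cons u xs ih =>
    cases u with
    | mk s a x y =>
      change tv c (KT.force (KT.ins true (key (x * y) (y * x)) (w * (a * a)) t)
        (fun t => KT.force (KT.ins e (key (x * x) (y * y)) (w * (a * a)) t)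
          (fun t => KT.force (addRow e s (2 * (w * a)) x y xs t) (addSq e w xs)))) = _
      rw [force_eq, force_eq, force_eq, ih, tv_addRow, tv_ins, tv_ins, kv_key, kv_key, lv_cons]
      set z := tmv c (.mk s a x y) with hz
      set q := lv c xs with hq
      have h0 : tmv c (.mk s (2 * (w * a)) x y) = ((2 * w : ℝ) : ℂ) * z := by
        rw [hz]
        simp only [tmv]
        push_cast
        ring
      have h1 : (va c (x * y) * conj (va c (y * x))).re * ((w * (a * a) : ℕ) : ℝ)
          = w * (z * conj z).re := by
        have : (z * conj z).re = sg (sgm s s) * ((a * a : ℕ) : ℝ)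
            * (va c (x * y) * conj (va c (y * x))).re := by
          rw [← re_tmv, hz, ← tmv_cj, ← tmv_mul]
          rfl
        rw [this, sg_sgm, sg_sq]
        push_cast
        ring
      have h2 : (va c (x * x) * conj (va c (y * y))).re * ((w * (a * a) : ℕ) : ℝ)
          = w * (z * z).re := by
        have : (z * z).re = sg (sgm s s) * ((a * a : ℕ) : ℝ)
            * (va c (x * x) * conj (va c (y * y))).re := by
          rw [← re_tmv, hz, ← tmv_mul]
          rfl
        rw [this, sg_sgm, sg_sq]
        push_cast
        ring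
      have h3 : sg true = 1 := by simp [sg]
      rw [h0, h3]
      have h4 : (((2 * w : ℝ) : ℂ) * z * conj q).re = 2 * w * (z * conj q).re := by
        rw [mul_assoc, Complex.re_ofReal_mul]
      have h5 : (((2 * w : ℝ) : ℂ) * z * q).re = 2 * w * (z * q).re := by
        rw [mul_assoc, Complex.re_ofReal_mul]
      rw [h4, h5]
      have h6 : (q * conj z).re = (z * conj q).re := by
        rw [← Complex.conj_re, map_mul, Complex.conj_conj, mul_comm]
      have h7 : ((z + q) * conj (z + q)).re = (z * conj z).re + 2 * (z * conj q).re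
          + (q * conj q).re := by
        rw [map_add, add_mul, mul_add, mul_add, Complex.add_re, Complex.add_re, Complex.add_re, h6]
        ring
      have h8 : ((z + q) * (z + q)).re = (z * z).re + 2 * (z * q).re + (q * q).re := by
        rw [add_mul, mul_add, mul_add, Complex.add_re, Complex.add_re, Complex.add_re, mul_comm q z]
        ring
      rw [h7, h8]
      linear_combination h1 + sg e * h2

theorem tv_addSq_ge (c : ℕ → ℂ) (e : Bool) (w : ℕ) (xs : List Tm) (t : KT) :
    tv c t ≤ tv c (addSq e w xs t) := by
  rw [tv_addSq_aux]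
  set q := lv c xs
  have hw : (0 : ℝ) ≤ w := Nat.cast_nonneg w
  have h1 : (q * conj q).re = q.re ^ 2 + q.im ^ 2 := by
    simp [Complex.mul_re]
    ring
  have h2 : (q * q).re = q.re ^ 2 - q.im ^ 2 := by
    simp [Complex.mul_re]
    ring
  rw [h1, h2]
  have : 0 ≤ (q.re ^ 2 + q.im ^ 2) + sg e * (q.re ^ 2 - q.im ^ 2) := by
    cases e
    · simp only [sg]
      norm_num
      nlinarith [sq_nonneg q.im]
    · simp only [sg]
      norm_num
      nlinarith [sq_nonneg q.re]
  nlinarith [mul_nonneg hw this]

theorem tv_addSqs_ge (c : ℕ → ℂ) (e : Bool) (xs : List (ℕ × List Tm)) (t : KT) :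
    tv c t ≤ tv c (addSqs e xs t) := by
  induction xs generalizing t with
  | nil => exact le_refl _
  | cons x xs ih =>
    change _ ≤ tv c (KT.force (addSq e x.1 x.2 t) (addSqs e xs))
    rw [force_eq]
    exact (tv_addSq_ge c e x.1 x.2 t).trans (ih _)

end Pool.Agent.Helper39.MH
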