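import Mathlib
import Pool.Agent.Helper39.MH.Defs
import Pool.Agent.Helper39.MH.NormS
import Pool.Agent.Helper39.MH.CertT

/-!
MP_16b0ee, project MH, module 13: the meaning of the term lists of the certificate.
-/

set_option autoImplicit false

open scoped ComplexConjugate

namespace Pool.Agent.Helper39.MH

theorem va_two (c : ℕ → ℂ) : va c 2 = c 0 := by
  simp [va, Nat.prime_two.factorization]

theorem va_three (c : ℕ → ℂ) : va c 3 = c 1 := by
  simp [va, Nat.prime_three.factorization]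

theorem va_five (c : ℕ → ℂ) : va c 5 = c 2 := by
  simp [va, Nat.prime_five.factorization]

theorem va_seven (c : ℕ → ℂ) : va c 7 = c 3 := by
  have : Nat.Prime 7 := by norm_num
  simp [va, this.factorization]

theorem va_four (c : ℕ → ℂ) : va c 4 = c 0 ^ 2 := by
  rw [show 4 = 2 * 2 from rfl, va_mul, va_two]
  ring

theorem va_six (c : ℕ → ℂ) : va c 6 = c 0 * c 1 := by
  rw [show 6 = 2 * 3 from rfl, va_mul, va_two, va_three]

theorem va_eight (c : ℕ → ℂ) : va c 8 = c 0 ^ 3 := by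
  rw [show 8 = 2 * 4 from rfl, va_mul, va_two, va_four]
  ring

theorem va_nine (c : ℕ → ℂ) : va c 9 = c 1 ^ 2 := by
  rw [show 9 = 3 * 3 from rfl, va_mul, va_three]
  ring

theorem va_prN (c : ℕ → ℂ) {n : ℕ} (h : n < 4) : va c (prN n) = c n := by
  interval_cases n
  · exact va_two c
  · exact va_three c
  · exact va_five c
  · exact va_seven c

theorem ltN_cons {k a : ℕ} {A : List ℕ} (h : ltN k (a :: A) = true) :
    a < k ∧ ltN k A = true := by
  have h1 : (and (Nat.ble (Nat.succ a) k) (ltN k A)) = true := h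
  rw [Bool.and_eq_true] at h1
  exact ⟨Nat.le_of_ble_eq_true h1.1, h1.2⟩

theorem ltN_mono {A : List ℕ} (h : ltN 3 A = true) : ltN 4 A = true := by
  induction A with
  | nil => rfl
  | cons a A ih =>
    obtain ⟨h1, h2⟩ := ltN_cons h
    change (and (Nat.ble (Nat.succ a) 4) (ltN 4 A)) = true
    rw [Bool.and_eq_true]
    exact ⟨Nat.ble_eq.mpr (by omega), ih h2⟩

theorem va_evN (c : ℕ → ℂ) {A : List ℕ} (h : ltN 4 A = true) : va c (evN A) = ev c A := by
  induction A with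
  | nil => exact va_one c
  | cons a A ih =>
    obtain ⟨h1, h2⟩ := ltN_cons h
    change va c (prN a * evN A) = _
    rw [va_mul, va_prN c h1, ih h2]
    simp [ev]

theorem wtN_eq (A : List ℕ) : wtN A = wt A := by
  induction A with
  | nil => rfl
  | cons a A ih =>
    change (a + 1) + wtN A = _
    rw [ih]
    simp [wt]

theorem lv_single (c : ℕ → ℂ) (x : Tm) : lv c [x] = tmv c x := by
  rw [lv_cons, lv_nil, add_zero]

theorem tmv_one (c : ℕ → ℂ) (s : Bool) (a x : ℕ) :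
    tmv c (.mk s a x 1) = ((sg s * a : ℝ) : ℂ) * va c x := by
  simp only [tmv, va_one, map_one, mul_one]

theorem tmv_one' (c : ℕ → ℂ) (s : Bool) (a x : ℕ) :
    tmv c (.mk s a 1 x) = ((sg s * a : ℝ) : ℂ) * conj (va c x) := by
  simp only [tmv, va_one, one_mul]

theorem sg_true : sg true = 1 := by simp [sg]

theorem sg_false : sg false = -1 := by simp [sg]

theorem lv_dvT (c : ℕ → ℂ) {n : ℕ} (h : n < 3) : lv c (dvT n) = dval c n := by
  interval_cases n
  · change lv c [.mk true 3 3 1, .mk false 1 4 1] = _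
    rw [lv_cons, lv_single, tmv_one, tmv_one, va_three, va_four, sg_true, sg_false]
    simp [dval]
    ring
  · change lv c [.mk true 4 5 1] = _
    rw [lv_single, tmv_one, va_five, sg_true]
    simp [dval]
    norm_num
  · change lv c [.mk true 5 7 1, .mk true 1 9 1] = _
    rw [lv_cons, lv_single, tmv_one, tmv_one, va_seven, va_nine, sg_true]
    simp [dval]
    ring

theorem lv_DvT (c : ℕ → ℂ) {A : List ℕ} (h : ltN 3 A = true) : lv c (DvT A) = Dv c A := by
  induction A with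
  | nil => rfl
  | cons a A ih =>
    obtain ⟨h1, h2⟩ := ltN_cons h
    change lv c (mulL (.mk true 1 (evN A) 1) (dvT a) ++ mulL (.mk true 1 (prN a) 1) (DvT A)) = _
    rw [lv_append, lv_mulL, lv_mulL, ih h2, lv_dvT c h1, tmv_one, tmv_one,
      va_evN c (ltN_mono h2), va_prN c (by omega), sg_true]
    simp only [Dv]
    push_cast
    ring

theorem re_relT (c : ℕ → ℂ) {A B : List ℕ} (hA : ltN 3 A = true) (hB : ltN 4 B = true) :
    (lv c (relT A B)).re = 20 * relv (21 / 20) c A B := by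
  change (lv c (mulL (.mk true 20 1 (evN B)) (.mk true 2 (2 * (evN A)) 1 :: DvT A)
    ++ [.mk false (21 + 20 * (wtN A + wtN B)) (evN A) (evN B)])).re = _
  have h1 : tmv c (.mk false (21 + 20 * (wtN A + wtN B)) (evN A) (evN B))
      = ((-(21 + 20 * ((wt A : ℝ) + wt B)) : ℝ) : ℂ) * (ev c A * conj (ev c B)) := by
    simp only [tmv, va_evN c (ltN_mono hA), va_evN c hB, sg_false, wtN_eq]
    push_cast
    ring
  have h2 : lv c (mulL (.mk true 20 1 (evN B)) (.mk true 2 (2 * (evN A)) 1 :: DvT A))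
      = ((20 : ℝ) : ℂ) * (DG c A * conj (ev c B)) := by
    rw [lv_mulL, lv_cons, lv_DvT c hA, tmv_one, tmv_one', va_mul, va_two,
      va_evN c (ltN_mono hA), va_evN c hB, sg_true]
    simp only [DG]
    push_cast
    ring
  rw [lv_append, lv_single, h1, h2, Complex.add_re, Complex.re_ofReal_mul, Complex.re_ofReal_mul,
    relv]
  ring

/-- the value of a relation with its factor -/
noncomputable def rv (c : ℕ → ℂ) (x : Bool × ℕ × List ℕ × List ℕ) : ℝ :=
  sg x.1 * x.2.1 * (20 * relv (21 / 20) c x.2.2.1 x.2.2.2)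

theorem tv_addRels (c : ℕ → ℂ) {xs : List (Bool × ℕ × List ℕ × List ℕ)} (h : okR xs = true)
    (t : KT) : tv c (addRels xs t) = tv c t + (xs.map (rv c)).sum := by
  induction xs generalizing t with
  | nil => simp [addRels]
  | cons x xs ih =>
    have h1 : (and (and (ltN 3 x.2.2.1) (ltN 4 x.2.2.2)) (okR xs)) = true := h
    rw [Bool.and_eq_true, Bool.and_eq_true] at h1
    obtain ⟨⟨h2, h3⟩, h4⟩ := h1
    change tv c (KT.force (addL (mulL (.mk x.1 x.2.1 1 1) (relT x.2.2.1 x.2.2.2)) t)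
      (addRels xs)) = _
    rw [force_eq, ih h4, tv_addL, lv_mulL, tmv_one, va_one, mul_one, Complex.re_ofReal_mul,
      re_relT c h2 h3, List.map_cons, List.sum_cons, rv]
    ring

/-- the short constraint -/
noncomputable def ell1 (c : ℕ → ℂ) : ℝ :=
  1 - ‖(1 + c 0) / 2‖ ^ 2 - 3 * ‖c 1 / 2 - (1 + c 0) ^ 2 / 8‖ ^ 2

theorem ell_le_ell1 (c : ℕ → ℂ) : ell c ≤ ell1 c := by
  unfold ell ell1
  have := sq_nonneg ‖(c 1 - c 2) / 2 + (1 + c 0) * c 1 / 4 - (1 + c 0) ^ 3 / 16‖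
  linarith

theorem mul_cj (z : ℂ) : z * conj z = ((‖z‖ ^ 2 : ℝ) : ℂ) := by
  rw [Complex.mul_conj, Complex.normSq_eq_norm_sq]

theorem lv_f1 (c : ℕ → ℂ) : lv c f1 = 1 + c 0 := by
  unfold f1
  simp only [lv_cons, lv_nil, tmv_one, va_one, va_two, sg_true]
  push_cast
  ring

theorem lv_f2 (c : ℕ → ℂ) : lv c f2 = 4 * c 1 - (1 + c 0) ^ 2 := by
  unfold f2
  simp only [lv_cons, lv_nil, tmv_one, va_one, va_two, va_three, va_four, sg_true, sg_false]
  push_cast
  ring

theorem lv_f3 (c : ℕ → ℂ) :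
    lv c f3 = 8 * (c 1 - c 2) + 4 * (1 + c 0) * c 1 - (1 + c 0) ^ 3 := by
  unfold f3
  simp only [lv_cons, lv_nil, tmv_one, va_one, va_two, va_three, va_four, va_five, va_six,
    va_eight, sg_true, sg_false]
  push_cast
  ring

theorem norm_div_sq (z : ℂ) (n : ℝ) (hn : 0 < n) :
    ‖z / (n : ℂ)‖ ^ 2 = ‖z‖ ^ 2 / n ^ 2 := by
  rw [norm_div, div_pow, Complex.norm_real, Real.norm_of_nonneg hn.le]

theorem ell1_eq (c : ℕ → ℂ) :
    256 * ell1 c = 256 - 64 * ‖1 + c 0‖ ^ 2 - 12 * ‖4 * c 1 - (1 + c 0) ^ 2‖ ^ 2 := by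
  have h1 : ‖(1 + c 0) / 2‖ ^ 2 = ‖1 + c 0‖ ^ 2 / 2 ^ 2 := by
    have := norm_div_sq (1 + c 0) 2 (by norm_num)
    simpa using this
  have h2 : ‖c 1 / 2 - (1 + c 0) ^ 2 / 8‖ ^ 2 = ‖4 * c 1 - (1 + c 0) ^ 2‖ ^ 2 / 8 ^ 2 := by
    have := norm_div_sq (4 * c 1 - (1 + c 0) ^ 2) 8 (by norm_num)
    rw [← this]
    congr 2
    push_cast
    ring
  rw [ell1, h1, h2]
  ring

theorem ell_eq (c : ℕ → ℂ) :
    256 * ell c = 256 * ell1 c
      - 5 * ‖8 * (c 1 - c 2) + 4 * (1 + c 0) * c 1 - (1 + c 0) ^ 3‖ ^ 2 := by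
  have h3 : ‖(c 1 - c 2) / 2 + (1 + c 0) * c 1 / 4 - (1 + c 0) ^ 3 / 16‖ ^ 2
      = ‖8 * (c 1 - c 2) + 4 * (1 + c 0) * c 1 - (1 + c 0) ^ 3‖ ^ 2 / 16 ^ 2 := by
    have := norm_div_sq (8 * (c 1 - c 2) + 4 * (1 + c 0) * c 1 - (1 + c 0) ^ 3) 16 (by norm_num)
    rw [← this]
    congr 2
    push_cast
    ring
  rw [ell, h3, ell1]
  ring

theorem lv_E1 (c : ℕ → ℂ) : lv c E1 = ((256 * ell1 c : ℝ) : ℂ) := by
  unfold E1
  rw [lv_cons, lv_append, lv_mulL, lv_mulL, lv_mulT, lv_mulT, lv_cjT, lv_cjT, tmv_one, tmv_one,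
    tmv_one, va_one, sg_true, sg_false, mul_cj, mul_cj, lv_f1, lv_f2, ell1_eq]
  push_cast
  ring

theorem lv_E2 (c : ℕ → ℂ) : lv c E2 = ((256 * ell c : ℝ) : ℂ) := by
  unfold E2
  rw [lv_append, lv_E1, lv_mulL, lv_mulT, lv_cjT, tmv_one, va_one, sg_false, mul_cj, lv_f3,
    ell_eq]
  push_cast
  ring

theorem re_locA (c : ℕ → ℂ) : (lv c locA).re = SA * (‖lv c pA‖ ^ 2 * (256 * ell1 c)) := by
  unfold locA
  rw [lv_mulL, lv_mulT, lv_mulT, lv_cjT, tmv_one, va_one, sg_true, lv_E1, mul_cj, mul_one,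
    Complex.re_ofReal_mul, ← Complex.ofReal_mul, Complex.ofReal_re]
  ring

theorem re_locB (c : ℕ → ℂ) : (lv c locB).re = SB * (‖lv c pB‖ ^ 2 * (256 * ell c)) := by
  unfold locB
  rw [lv_mulL, lv_mulT, lv_mulT, lv_cjT, tmv_one, va_one, sg_true, lv_E2, mul_cj, mul_one,
    Complex.re_ofReal_mul, ← Complex.ofReal_mul, Complex.ofReal_re]
  ring

/-- the first local polynomial -/
def qA : List (ℝ × List ℕ × List ℕ) :=
  [(1, [0, 0, 0], []), (1, [], [0, 0, 0]), (-1, [0, 1], []), (-1, [], [0, 1])]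

/-- the second local polynomial -/
def qB : List (ℝ × List ℕ × List ℕ) :=
  [(3, [0, 0], []), (3, [], [0, 0]), (-1, [1], []), (-1, [], [1]), (2, [0], [0])]

theorem evv_qA (c : ℕ → ℂ) : evv c qA = lv c pA := by
  unfold qA pA evv
  simp only [List.map_cons, List.map_nil, List.sum_cons, List.sum_nil, ev, List.prod_cons,
    List.prod_nil, lv_cons, lv_nil, tmv, va_one, va_eight, va_six, sg_true, sg_false]
  push_cast
  simp only [map_mul, map_pow, map_one]
  ring

theorem evv_qB (c : ℕ → ℂ) : evv c qB = lv c pB := by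
  unfold qB pB evv
  simp only [List.map_cons, List.map_nil, List.sum_cons, List.sum_nil, ev, List.prod_cons,
    List.prod_nil, lv_cons, lv_nil, tmv, va_one, va_two, va_three, va_four, sg_true, sg_false]
  push_cast
  simp only [map_mul, map_pow, map_one]
  ring

end Pool.Agent.Helper39.MH
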