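import Mathlib
import Pool.Agent.Helper39.MH.Defs

/-!
MP_16b0ee, project MH, module 13 (numbers): the test functions `T0`, the matrix `Q0`, and the
comparison of the two quadratic forms at `b = 21/20`.
-/

set_option autoImplicit false

open MeasureTheory Set Metric Filter Topology
open scoped Real ComplexConjugate

namespace Pool.Agent.Helper39.MH

namespace QN

/-- value of a polynomial given by its rational coefficients -/
noncomputable def pl : List ℚ → ℝ → ℝ
  | [], _ => 0
  | a :: l, x => (a : ℝ) + x * pl l x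

/-- sum of two coefficient lists -/
def ladd : List ℚ → List ℚ → List ℚ
  | [], m => m
  | a :: l, [] => a :: l
  | a :: l, b :: m => (a + b) :: ladd l m

/-- multiple of a coefficient list -/
def lsmul (a : ℚ) : List ℚ → List ℚ
  | [] => []
  | b :: m => (a * b) :: lsmul a m

/-- product of two coefficient lists -/
def lmul : List ℚ → List ℚ → List ℚ
  | [], _ => []
  | a :: l, m => ladd (lsmul a m) (0 :: lmul l m)

theorem pl_ladd (l m : List ℚ) (x : ℝ) : pl (ladd l m) x = pl l x + pl m x := by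
  induction l generalizing m with
  | nil => simp [ladd, pl]
  | cons a l ih =>
    cases m with
    | nil => simp [ladd, pl]
    | cons b m =>
      simp only [ladd, pl, ih m]
      push_cast
      ring

theorem pl_lsmul (a : ℚ) (m : List ℚ) (x : ℝ) : pl (lsmul a m) x = (a : ℝ) * pl m x := by
  induction m with
  | nil => simp [lsmul, pl]
  | cons b m ih =>
    simp only [lsmul, pl, ih]
    push_cast
    ring

theorem pl_lmul (l m : List ℚ) (x : ℝ) : pl (lmul l m) x = pl l x * pl m x := by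
  induction l with
  | nil => simp [lmul, pl]
  | cons a l ih =>
    simp only [lmul, pl_ladd, pl_lsmul, pl, ih]
    push_cast
    ring

theorem pl_cont (l : List ℚ) : Continuous (pl l) := by
  induction l with
  | nil =>
    have h : pl [] = fun _ : ℝ => (0 : ℝ) := by
      funext x
      rfl
    rw [h]
    exact continuous_const
  | cons a l ih =>
    have h : pl (a :: l) = fun x : ℝ => (a : ℝ) + x * pl l x := by
      funext x
      rfl
    rw [h]
    exact continuous_const.add (continuous_id.mul ih)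

/-- integrals against `x^(61/20)` -/
def Il : List ℚ → ℕ → ℚ
  | [], _ => 0
  | a :: l, k => a / ((k : ℚ) + 81 / 20) + Il l (k + 1)

/-- integrals of even polynomials -/
def Je : List ℚ → ℕ → ℚ
  | [], _ => 0
  | a :: l, k => a * (1 / 4) ^ k / (2 * (k : ℚ) + 1) + Je l (k + 1)

theorem int_pow_rpow {p : ℝ} (hp : 0 < p) (k : ℕ) :
    ∫ x in (0:ℝ)..1, x ^ k * x ^ p = 1 / ((k : ℝ) + p + 1) := by
  have h : ∫ x in (0:ℝ)..1, x ^ k * x ^ p = ∫ x in (0:ℝ)..1, x ^ ((k : ℝ) + p) := by
    apply intervalIntegral.integral_congr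
    intro x hx
    rw [uIcc_of_le zero_le_one] at hx
    simp only
    rw [Real.rpow_add_of_nonneg hx.1 (Nat.cast_nonneg k) hp.le, Real.rpow_natCast]
  have hk : (0:ℝ) ≤ (k : ℝ) := Nat.cast_nonneg k
  rw [h, integral_rpow (Or.inl (by linarith)), Real.one_rpow,
    Real.zero_rpow (by positivity)]
  simp

theorem int_pl_aux (l : List ℚ) (k : ℕ) :
    ∫ x in (0:ℝ)..1, x ^ k * pl l x * x ^ (61 / 20 : ℝ) = ((Il l k : ℚ) : ℝ) := by
  induction l generalizing k with
  | nil => simp [pl, Il]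
  | cons a l ih =>
    have h1 : ∀ x : ℝ, x ^ k * pl (a :: l) x * x ^ (61 / 20 : ℝ)
        = (a : ℝ) * (x ^ k * x ^ (61 / 20 : ℝ)) + x ^ (k + 1) * pl l x * x ^ (61 / 20 : ℝ) := by
      intro x
      simp only [pl]
      ring
    have hc : Continuous (fun x : ℝ => x ^ (61 / 20 : ℝ)) :=
      continuous_id.rpow_const (fun _ => Or.inr (by norm_num))
    simp only [h1]
    rw [intervalIntegral.integral_add, intervalIntegral.integral_const_mul,
      int_pow_rpow (by norm_num), ih (k + 1)]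
    · simp only [Il]
      push_cast
      congr 1
      rw [mul_one_div]
      congr 1
      ring
    · exact (continuous_const.mul ((continuous_pow k).mul hc)).intervalIntegrable _ _
    · exact (((continuous_pow (k + 1)).mul (pl_cont l)).mul hc).intervalIntegrable _ _

theorem int_pl (l : List ℚ) :
    ∫ y in (0:ℝ)..1, pl l (1 - y) * (1 - y) ^ (61 / 20 : ℝ) = ((Il l 0 : ℚ) : ℝ) := by
  have h := int_pl_aux l 0
  rw [← h]
  have h2 := intervalIntegral.integral_comp_sub_left (a := 0) (b := 1)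
    (fun x : ℝ => pl l x * x ^ (61 / 20 : ℝ)) (1 : ℝ)
  simp only [sub_self, sub_zero] at h2
  rw [h2]
  simp

theorem int_even (k : ℕ) : ∫ y in (0:ℝ)..1, ((1 / 2 - y) ^ 2) ^ k = (1 / 4) ^ k / (2 * (k : ℝ) + 1) := by
  have h2 := intervalIntegral.integral_comp_sub_left (a := 0) (b := 1)
    (fun x : ℝ => (x ^ 2) ^ k) (1 / 2 : ℝ)
  rw [h2]
  have h3 : ∀ x : ℝ, (x ^ 2) ^ k = x ^ (2 * k) := by
    intro x
    rw [pow_mul]
  simp only [h3]
  rw [integral_pow]
  have e1 : (1 / 2 - 0 : ℝ) ^ (2 * k + 1) = (1 / 2) * (1 / 4) ^ k := by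
    rw [pow_succ, pow_mul]
    norm_num
    ring
  have e2 : (1 / 2 - 1 : ℝ) ^ (2 * k + 1) = -((1 / 2) * (1 / 4) ^ k) := by
    rw [pow_succ, pow_mul]
    norm_num
    ring
  rw [e1, e2]
  push_cast
  congr 1
  ring

theorem int_Je (l : List ℚ) (k : ℕ) :
    ∫ y in (0:ℝ)..1, ((1 / 2 - y) ^ 2) ^ k * pl l ((1 / 2 - y) ^ 2) = ((Je l k : ℚ) : ℝ) := by
  induction l generalizing k with
  | nil => simp [pl, Je]
  | cons a l ih =>
    have h1 : ∀ y : ℝ, ((1 / 2 - y) ^ 2) ^ k * pl (a :: l) ((1 / 2 - y) ^ 2)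
        = (a : ℝ) * ((1 / 2 - y) ^ 2) ^ k
          + ((1 / 2 - y) ^ 2) ^ (k + 1) * pl l ((1 / 2 - y) ^ 2) := by
      intro y
      simp only [pl]
      ring
    have hs : Continuous (fun y : ℝ => (1 / 2 - y) ^ 2) := by fun_prop
    simp only [h1]
    rw [intervalIntegral.integral_add, intervalIntegral.integral_const_mul, int_even,
      ih (k + 1)]
    · simp only [Je]
      push_cast
      congr 1
      rw [mul_div_assoc]
    · exact (continuous_const.mul (hs.pow k)).intervalIntegrable _ _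
    · exact ((hs.pow (k + 1)).mul ((pl_cont l).comp hs)).intervalIntegrable _ _

/-- coefficients of the even parts, in powers of `(1/2 - y)^2` -/
def EL : Fin 3 → List ℚ := ![
  [8053/4000, -27651/250, 242202/125, -1983584/125, 9790272/125, -25353216/125, 5312512/25],
  [173/40, 34804/5, -767296/5, 5987744/5, -5886464, 15235584, -79804416/5],
  [-263/8, -41880, 1194320, -9061952, 44433152, -114965504, 120430592]]

/-- coefficients of the quotients, in powers of `x = 1 - y` -/
def NL : Fin 3 → List ℚ := ![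
  [29077/2000, -108817/1000, 130477/500, -282554/125, 3524608/125, -23755808/125, 93528512/125,
    -222757696/125, 323588096/125, -280116224/125, 5312512/5, -5312512/25],
  [-45887/20, 158007/10, -154023/5, 859104/5, -10571072/5, 14276128, -280998912/5, 669220864/5,
    -972158976/5, 841572864/5, -79804416, 79804416/5],
  [105977/4, -319773/2, 286253, -1305728, 15934592, -107722560, 424041984, -1009865216,
    1467027456, -1269986304, 602152960, -120430592]]

/-- the coefficients of the linear odd parts -/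
def al : Fin 3 → ℚ := ![1131/125, -5322/5, 6717]

/-- the coefficients of the cubic odd parts -/
def be : Fin 3 → ℚ := ![-47173/500, 13435, -132845]

theorem eq_aux (r : Fin 3) (y : ℝ) :
    pl (EL r) ((1 / 2 - y) ^ 2) + (al r : ℝ) * (1 / 2 - y) + (be r : ℝ) * (1 / 2 - y) ^ 3
      = y * pl (NL r) (1 - y) := by
  fin_cases r
  · simp [pl, EL, NL, al, be]
    ring
  · simp [pl, EL, NL, al, be]
    ring
  · simp [pl, EL, NL, al, be]
    ring

/-- the pairing matrix, rational -/
def Pq (r s : Fin 3) : ℚ :=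
  (![Je (EL r) 0 / 2 + al r / 8 + be r / 64, -(al r) / 2, -(be r) / 4] : Fin 3 → ℚ) s

/-- the quadratic form of `T0`, rational -/
def Qrat (r s : Fin 3) : ℚ := Pq r s + Pq s r - Il (lmul (lmul (NL r) (NL s)) [1, -1]) 0

/-- the chosen matrix, rational -/
def Q0q : Fin 3 → Fin 3 → ℚ := ![
  ![871711241137725467/1966080000000000000, -370593791780805533/81920000000000000,
    966122153631712089/40960000000000000],
  ![-370593791780805533/81920000000000000, 5449781165773990401/10240000000000000,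
    -17196771411626594733/5120000000000000],
  ![966122153631712089/40960000000000000, -17196771411626594733/5120000000000000,
    85020136772779435689/2560000000000000]]

/-- difference of the two forms -/
def Dq (r s : Fin 3) : ℚ := Qrat r s - Q0q r s

theorem chk : 0 < Dq 0 0 ∧ 0 < Dq 0 0 * Dq 1 1 - Dq 0 1 * Dq 0 1 ∧
    0 ≤ Dq 0 0 * (Dq 1 1 * Dq 2 2 - Dq 1 2 * Dq 1 2) - Dq 0 1 * (Dq 0 1 * Dq 2 2 - Dq 0 2 * Dq 1 2)
      + Dq 0 2 * (Dq 0 1 * Dq 1 2 - Dq 0 2 * Dq 1 1) ∧
    Dq 1 0 = Dq 0 1 ∧ Dq 2 0 = Dq 0 2 ∧ Dq 2 1 = Dq 1 2 := by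
  decide +kernel

/-- a symmetric matrix of order 3 with positive leading minors -/
theorem psd3 {a b c d e f : ℝ} (h1 : 0 < a) (h2 : 0 < a * d - b * b)
    (h3 : 0 ≤ a * (d * f - e * e) - b * (b * f - c * e) + c * (b * e - c * d)) (x y z : ℝ) :
    0 ≤ a * x ^ 2 + 2 * b * x * y + 2 * c * x * z + d * y ^ 2 + 2 * e * y * z + f * z ^ 2 := by
  have key : a * (a * d - b * b) * (a * x ^ 2 + 2 * b * x * y + 2 * c * x * z + d * y ^ 2
      + 2 * e * y * z + f * z ^ 2)
      = (a * d - b * b) * (a * x + b * y + c * z) ^ 2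
        + ((a * d - b * b) * y + (a * e - b * c) * z) ^ 2
        + a * (a * (d * f - e * e) - b * (b * f - c * e) + c * (b * e - c * d)) * z ^ 2 := by
    ring
  have hpos : 0 < a * (a * d - b * b) := mul_pos h1 h2
  have hn : 0 ≤ a * (a * d - b * b) * (a * x ^ 2 + 2 * b * x * y + 2 * c * x * z + d * y ^ 2
      + 2 * e * y * z + f * z ^ 2) := by
    rw [key]
    have k1 : 0 ≤ (a * d - b * b) * (a * x + b * y + c * z) ^ 2 :=
      mul_nonneg h2.le (sq_nonneg _)
    have k2 : 0 ≤ ((a * d - b * b) * y + (a * e - b * c) * z) ^ 2 := sq_nonneg _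
    have k3 : 0 ≤ a * (a * (d * f - e * e) - b * (b * f - c * e) + c * (b * e - c * d)) * z ^ 2 :=
      mul_nonneg (mul_nonneg h1.le h3) (sq_nonneg _)
    linarith
  exact nonneg_of_mul_nonneg_right hn hpos

end QN

open QN

/-- the chosen test functions -/
noncomputable def T0 : Test where
  E r y := pl (EL r) ((1 / 2 - y) ^ 2)
  α r := (al r : ℝ)
  β r := (be r : ℝ)
  ν r y := pl (NL r) (1 - y)
  cont r := ((pl_cont (NL r)).comp (continuous_const.sub continuous_id)).continuousOn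
  even r y _ := by
    have h : (1 / 2 - (1 - y) : ℝ) ^ 2 = (1 / 2 - y) ^ 2 := by ring
    rw [h]
  eq r y _ := eq_aux r y

/-- the chosen matrix -/
noncomputable def Q0 : Fin 3 → Fin 3 → ℝ := ![
  ![871711241137725467/1966080000000000000, -370593791780805533/81920000000000000,
    966122153631712089/40960000000000000],
  ![-370593791780805533/81920000000000000, 5449781165773990401/10240000000000000,
    -17196771411626594733/5120000000000000],
  ![966122153631712089/40960000000000000, -17196771411626594733/5120000000000000,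
    85020136772779435689/2560000000000000]]

theorem Q0_eq (r s : Fin 3) : Q0 r s = ((Q0q r s : ℚ) : ℝ) := by
  fin_cases r <;> fin_cases s <;> simp [Q0, Q0q]

theorem T0_P (r s : Fin 3) : T0.P r s = ((Pq r s : ℚ) : ℝ) := by
  have h : ∫ y in (0:ℝ)..1, T0.E r y = ((Je (EL r) 0 : ℚ) : ℝ) := by
    rw [← int_Je (EL r) 0]
    apply intervalIntegral.integral_congr
    intro y _
    simp only [T0, pow_zero, one_mul]
  unfold Test.P Pq
  rw [h]
  fin_cases s <;> simp [T0]

theorem T0_Qv (r s : Fin 3) : T0.Qv (21 / 20) r s = ((Qrat r s : ℚ) : ℝ) := by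
  unfold Test.Qv Qrat
  rw [T0_P, T0_P]
  have h : ∫ y in (0:ℝ)..1, T0.ν r y * T0.ν s y * y * (1 - y) ^ ((21 / 20 : ℝ) + 2)
      = ((Il (lmul (lmul (NL r) (NL s)) [1, -1]) 0 : ℚ) : ℝ) := by
    rw [← int_pl]
    apply intervalIntegral.integral_congr
    intro y _
    have e : (21 / 20 : ℝ) + 2 = 61 / 20 := by norm_num
    simp only [T0, e, pl_lmul]
    have e2 : pl [1, -1] (1 - y) = y := by
      simp [pl]
    rw [e2]
  rw [h]
  push_cast
  ring

theorem Q0_le (x : Fin 3 → ℝ) :
    ∑ r, ∑ s, Q0 r s * (x r * x s) ≤ ∑ r, ∑ s, T0.Qv (21 / 20) r s * (x r * x s) := by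
  obtain ⟨h1, h2, h3, h4, h5, h6⟩ := chk
  have g1 : (0:ℝ) < ((Dq 0 0 : ℚ) : ℝ) := by exact_mod_cast h1
  have g2 : (0:ℝ) < ((Dq 0 0 : ℚ) : ℝ) * ((Dq 1 1 : ℚ) : ℝ)
      - ((Dq 0 1 : ℚ) : ℝ) * ((Dq 0 1 : ℚ) : ℝ) := by exact_mod_cast h2
  have g3 : (0:ℝ) ≤ ((Dq 0 0 : ℚ) : ℝ) * (((Dq 1 1 : ℚ) : ℝ) * ((Dq 2 2 : ℚ) : ℝ)
      - ((Dq 1 2 : ℚ) : ℝ) * ((Dq 1 2 : ℚ) : ℝ))
      - ((Dq 0 1 : ℚ) : ℝ) * (((Dq 0 1 : ℚ) : ℝ) * ((Dq 2 2 : ℚ) : ℝ)
        - ((Dq 0 2 : ℚ) : ℝ) * ((Dq 1 2 : ℚ) : ℝ))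
      + ((Dq 0 2 : ℚ) : ℝ) * (((Dq 0 1 : ℚ) : ℝ) * ((Dq 1 2 : ℚ) : ℝ)
        - ((Dq 0 2 : ℚ) : ℝ) * ((Dq 1 1 : ℚ) : ℝ)) := by exact_mod_cast h3
  have g := psd3 g1 g2 g3 (x 0) (x 1) (x 2)
  have hD : ∀ r s : Fin 3, T0.Qv (21 / 20) r s = Q0 r s + ((Dq r s : ℚ) : ℝ) := by
    intro r s
    rw [T0_Qv, Q0_eq]
    unfold Dq
    push_cast
    ring
  simp only [hD, Fin.sum_univ_three, h4, h5, h6]
  nlinarith [g]

end Pool.Agent.Helper39.MH
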