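import Mathlib
import Pool.Agent.Helper39.MH.QNum
import Pool.Agent.Helper39.MH.CertS
import Pool.Agent.Helper39.MH.CertCheck

/-!
MP_16b0ee, project MH, module 13: the certificate for the exponent 21/20.
-/

set_option autoImplicit false

open scoped ComplexConjugate

namespace Pool.Agent.Helper39.MH

open Pool.Agent.Helper22.Half

theorem qf_eq (c : ℕ → ℂ) : 10 ^ 7 * qf Q0 (21 / 20) c
    = 82199123839 - 721989775246 * (c 1).re + 436836244726 * (c 3).re
      + 276326793852 * (c 1 * conj (c 1)).re - 135262995614 * (c 1 * conj (c 3)).re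
      + 8931362256 * (c 3 * conj (c 3)).re := by
  have e31 : (c 3 * conj (c 1)).re = (c 1 * conj (c 3)).re := by
    rw [← Complex.conj_re, map_mul, Complex.conj_conj, mul_comm]
  have p0 : pq (21 / 20 : ℝ) 0 = 1 := rfl
  have p1 : pq (21 / 20 : ℝ) 1 = 21 / 20 := by
    rw [pq_succ, p0]; norm_num
  have p2 : pq (21 / 20 : ℝ) 2 = 861 / 800 := by
    rw [show (2 : ℕ) = 1 + 1 from rfl, pq_succ, p1]; norm_num
  have p3 : pq (21 / 20 : ℝ) 3 = 861 / 800 * ((21 / 20 + 2) / 3) := by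
    rw [show (3 : ℕ) = 2 + 1 from rfl, pq_succ, p2]; norm_num
  have p4 : pq (21 / 20 : ℝ) 4 = 861 / 800 * ((21 / 20 + 2) / 3) * ((21 / 20 + 3) / 4) := by
    rw [show (4 : ℕ) = 3 + 1 from rfl, pq_succ, p3]; norm_num
  have p5 : pq (21 / 20 : ℝ) 5 = 861 / 800 * ((21 / 20 + 2) / 3) * ((21 / 20 + 3) / 4)
      * ((21 / 20 + 4) / 5) := by
    rw [show (5 : ℕ) = 4 + 1 from rfl, pq_succ, p4]; norm_num
  have p6 : pq (21 / 20 : ℝ) 6 = 861 / 800 * ((21 / 20 + 2) / 3) * ((21 / 20 + 3) / 4)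
      * ((21 / 20 + 4) / 5) * ((21 / 20 + 5) / 6) := by
    rw [show (6 : ℕ) = 5 + 1 from rfl, pq_succ, p5]; norm_num
  have p7 : pq (21 / 20 : ℝ) 7 = 861 / 800 * ((21 / 20 + 2) / 3) * ((21 / 20 + 3) / 4)
      * ((21 / 20 + 4) / 5) * ((21 / 20 + 5) / 6) * ((21 / 20 + 6) / 7) := by
    rw [show (7 : ℕ) = 6 + 1 from rfl, pq_succ, p6]; norm_num
  have p8 : pq (21 / 20 : ℝ) 8 = 861 / 800 * ((21 / 20 + 2) / 3) * ((21 / 20 + 3) / 4)
      * ((21 / 20 + 4) / 5) * ((21 / 20 + 5) / 6) * ((21 / 20 + 6) / 7)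
      * ((21 / 20 + 7) / 8) := by
    rw [show (8 : ℕ) = 7 + 1 from rfl, pq_succ, p7]; norm_num
  have w0 : wt (am 0) = 0 := rfl
  have w1 : wt (am 1) = 2 := rfl
  have w2 : wt (am 2) = 4 := rfl
  have a0 : ev c (am 0) = 1 := by simp [ev, am]
  have a1 : ev c (am 1) = c 1 := by simp [ev, am]
  have a2 : ev c (am 2) = c 3 := by simp [ev, am]
  have q00 : Qam Q0 0 0 = Q0 0 0 - 1 / 2 * Q0 0 1 + 5 / 8 * Q0 0 2 + 1 / 16 * Q0 1 1
      - 5 / 32 * Q0 1 2 + 25 / 256 * Q0 2 2 := by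
    simp [Qam, Mt, Fin.sum_univ_three, Q0]; norm_num
  have q01 : Qam Q0 0 1 = 2 * Q0 0 1 - 3 * Q0 0 2 - 1 / 2 * Q0 1 1 + 11 / 8 * Q0 1 2
      - 15 / 16 * Q0 2 2 := by
    simp [Qam, Mt, Fin.sum_univ_three, Q0]; norm_num
  have q10 : Qam Q0 1 0 = Qam Q0 0 1 := by
    simp [Qam, Mt, Fin.sum_univ_three, Q0]; norm_num
  have q02 : Qam Q0 0 2 = 24 * Q0 0 2 - 6 * Q0 1 2 + 15 / 2 * Q0 2 2 := by
    simp [Qam, Mt, Fin.sum_univ_three, Q0]; norm_num
  have q20 : Qam Q0 2 0 = Qam Q0 0 2 := by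
    simp [Qam, Mt, Fin.sum_univ_three, Q0]; norm_num
  have q11 : Qam Q0 1 1 = 4 * Q0 1 1 - 12 * Q0 1 2 + 9 * Q0 2 2 := by
    simp [Qam, Mt, Fin.sum_univ_three, Q0]; norm_num
  have q12 : Qam Q0 1 2 = 48 * Q0 1 2 - 72 * Q0 2 2 := by
    simp [Qam, Mt, Fin.sum_univ_three, Q0]; norm_num
  have q21 : Qam Q0 2 1 = Qam Q0 1 2 := by
    simp [Qam, Mt, Fin.sum_univ_three, Q0]; norm_num
  have q22 : Qam Q0 2 2 = 576 * Q0 2 2 := by
    simp [Qam, Mt, Fin.sum_univ_three, Q0]; norm_num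
  have f0 : Nat.factorial 0 = 1 := rfl
  have f2 : Nat.factorial 2 = 2 := rfl
  have f4 : Nat.factorial 4 = 24 := rfl
  have f6 : Nat.factorial 6 = 720 := rfl
  have f8 : Nat.factorial 8 = 40320 := rfl
  unfold qf
  simp only [Fin.sum_univ_three, w0, w1, w2, a0, a1, a2, Nat.zero_add, Nat.add_zero,
    Nat.reduceAdd, q10, q20, q21, f0, f2, f4, f6, f8, p0, p2, p4, p6, p8, e31, map_one, mul_one,
    one_mul, Complex.conj_re, Complex.one_re]
  rw [q00, q01, q02, q11, q12, q22]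
  simp only [Q0, Matrix.cons_val_zero, Matrix.cons_val_one, Matrix.cons_val]
  push_cast
  ring

theorem re_qT (c : ℕ → ℂ) :
    (lv c qT).re = SS * (1961 / 500000 + (1 - qf Q0 (21 / 20) c)) := by
  have h := qf_eq c
  have hq : qf Q0 (21 / 20) c = (82199123839 - 721989775246 * (c 1).re + 436836244726 * (c 3).re
      + 276326793852 * (c 1 * conj (c 1)).re - 135262995614 * (c 1 * conj (c 3)).re
      + 8931362256 * (c 3 * conj (c 3)).re) / 10 ^ 7 := by
    rw [← h]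
    ring
  rw [hq]
  unfold qT SS
  simp only [lv_cons, lv_nil, Complex.add_re, re_tmv, va_one, va_three, va_seven, sg_true,
    sg_false, map_one, mul_one, one_mul, Complex.conj_re, Complex.one_re, Complex.zero_re]
  push_cast
  ring

theorem tv_fixT (c : ℕ → ℂ) : tv c fixT = (lv c qT).re + (lv c locA).re + (lv c locB).re
    + (rd.map (rv c)).sum := by
  unfold fixT
  rw [force_eq, force_eq, force_eq, tv_addRels c okR_rd, tv_addL, tv_addL, tv_addL]
  simp only [tv]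
  ring

theorem tv_fixT_le (c : ℕ → ℂ) : tv c fixT ≤ 0 := by
  have h := zer_tv c allT zer_allT
  rw [← h]
  unfold allT
  rw [force_eq, force_eq, force_eq, force_eq]
  exact (tv_addSqs_ge c true sp1 _).trans ((tv_addSqs_ge c true sp2 _).trans
    ((tv_addSqs_ge c false sm1 _).trans (tv_addSqs_ge c false sm2 _)))

/-- the relations of the certificate with their coefficients -/
noncomputable def relsC : List (ℝ × List ℕ × List ℕ) :=
  rd.map (fun x => (sg x.1 * x.2.1 * 20 / SS, x.2.2.1, x.2.2.2))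

theorem sum_relsC (c : ℕ → ℂ) :
    SS * (relsC.map (fun x => x.1 * relv (21 / 20) c x.2.1 x.2.2)).sum = (rd.map (rv c)).sum := by
  have hS : (SS : ℝ) ≠ 0 := by
    unfold SS
    norm_num
  unfold relsC
  generalize rd = xs
  induction xs with
  | nil => simp
  | cons x xs ih =>
    simp only [List.map_cons, List.sum_cons]
    rw [mul_add, ih, rv]
    congr 1
    field_simp

/-- the certificate -/
theorem cert : ∃ (rels : List (ℝ × List ℕ × List ℕ)) (η α : ℝ)
    (loc : List (ℝ × List (ℝ × List ℕ × List ℕ))), 0 < η ∧ 0 ≤ α ∧ (∀ x ∈ loc, 0 ≤ x.1) ∧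
    ∀ c : ℕ → ℂ, η + α * (1 - qf Q0 (21 / 20) c)
      + (rels.map (fun x => x.1 * relv (21 / 20) c x.2.1 x.2.2)).sum
      + (loc.map (fun x => x.1 * ‖evv c x.2‖ ^ 2)).sum * ell c ≤ 0 := by
  refine ⟨relsC, 1961 / 500000, 1, [(1 / 4, qA), (1 / 5, qB)], by norm_num, by norm_num, ?_, ?_⟩
  · intro x hx
    simp only [List.mem_cons, List.not_mem_nil, or_false] at hx
    rcases hx with rfl | rfl <;> norm_num
  · intro c
    have h1 := tv_fixT_le c
    rw [tv_fixT, re_qT, re_locA, re_locB, ← sum_relsC, ← evv_qA, ← evv_qB] at h1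
    simp only [List.map_cons, List.map_nil, List.sum_cons, List.sum_nil, add_zero, one_mul]
    have hS : (0 : ℝ) < SS := by
      unfold SS
      norm_num
    have hA : (SA : ℝ) * 256 = SS * (1 / 4) := by
      unfold SA SS
      norm_num
    have hB : (SB : ℝ) * 256 = SS * (1 / 5) := by
      unfold SB SS
      norm_num
    set N := (relsC.map (fun x => x.1 * relv (21 / 20) c x.2.1 x.2.2)).sum
    set q := qf Q0 (21 / 20) c
    set a := ‖evv c qA‖ ^ 2 with ha
    set d := ‖evv c qB‖ ^ 2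
    have ha0 : 0 ≤ a := sq_nonneg _
    have h2 : SA * (a * (256 * ell1 c)) = SS * (1 / 4 * a * ell1 c) := by
      linear_combination (a * ell1 c) * hA
    have h3 : SB * (d * (256 * ell c)) = SS * (1 / 5 * d * ell c) := by
      linear_combination (d * ell c) * hB
    rw [h2, h3] at h1
    have h4 : SS * (1961 / 500000 + (1 - q) + 1 / 4 * a * ell1 c + 1 / 5 * d * ell c + N) ≤ 0 := by
      linarith
    have h5 : 1961 / 500000 + (1 - q) + 1 / 4 * a * ell1 c + 1 / 5 * d * ell c + N ≤ 0 := by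
      by_contra hcon
      push Not at hcon
      exact absurd h4 (not_le.mpr (mul_pos hS hcon))
    have h6 : 1 / 4 * a * ell c ≤ 1 / 4 * a * ell1 c :=
      mul_le_mul_of_nonneg_left (ell_le_ell1 c) (by positivity)
    linarith

end Pool.Agent.Helper39.MH
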