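import Mathlib
import Pool.Agent.Helper39.MH.Defs
import Pool.Agent.Helper22.Marshall.ClassIneq
import Pool.Agent.Helper24.Br.Inj

/-!
MP_16b0ee, project MH, module MH-10: the area theorem for the square root transform of a univalent
function on the unit disc, in terms of the first coefficients.
-/

set_option autoImplicit false

open MeasureTheory Set Metric Filter Topology
open scoped Real ComplexConjugate

namespace Pool.Agent.Helper39.MH

open Pool.Agent.Helper22.Marshall (coeff SepHol LogPhi dcoeff GLe)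
open Pool.Agent.Helper39.Area (Ext phi)

/-- the square of a point of the disc is in the disc -/
private theorem sq_mem {u : ℂ} (hu : u ∈ ball (0 : ℂ) 1) : u ^ 2 ∈ ball (0 : ℂ) 1 := by
  rw [mem_ball_zero_iff] at hu ⊢
  rw [norm_pow]
  nlinarith [norm_nonneg u]

/-- the data of the square root transform -/
private theorem sqrt_data {F : ℂ → ℂ} (hF : DifferentiableOn ℂ F (ball 0 1))
    (hinj : InjOn F (ball 0 1)) (hF0 : F 0 = 0) (hF1 : deriv F 0 = 1) :
    ∃ (g k : ℂ → ℂ), DifferentiableOn ℂ g (ball 0 1) ∧ DifferentiableOn ℂ k (ball 0 1) ∧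
      (∀ s, F s = s * g s) ∧ g 0 = 1 ∧ k 0 = 1 ∧ (∀ s ∈ ball (0 : ℂ) 1, k s * k s * g s = 1) ∧
      (∀ s ∈ ball (0 : ℂ) 1, k s ≠ 0) := by
  have h0b : (0:ℂ) ∈ ball (0:ℂ) 1 := mem_ball_self one_pos
  have hb0 : ball (0:ℂ) 1 ∈ 𝓝 (0:ℂ) := ball_mem_nhds 0 one_pos
  set g : ℂ → ℂ := dslope F 0 with hg
  have hgd : DifferentiableOn ℂ g (ball 0 1) := (Complex.differentiableOn_dslope hb0).mpr hF
  have hg0 : g 0 = 1 := by rw [hg, dslope_same, hF1]
  have hgf : ∀ s : ℂ, F s = s * g s := by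
    intro s
    by_cases h : s = 0
    · subst h; simp [hF0]
    · rw [hg, dslope_of_ne _ h, slope_def_field, hF0]
      field_simp
      ring
  have hgne : ∀ s ∈ ball (0:ℂ) 1, g s ≠ 0 := by
    intro s hs h
    by_cases h0 : s = 0
    · subst h0; rw [hg0] at h; exact one_ne_zero h
    · apply h0
      apply hinj hs h0b
      rw [hgf s, h, mul_zero, hF0]
  obtain ⟨L, hL, hL0, hLe⟩ := Pool.Agent.Helper24.Br.exists_log_ball hgd hgne hg0
  refine ⟨g, fun s => Complex.exp (-(L s) / 2), hgd, ?_, hgf, hg0, ?_, ?_, ?_⟩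
  · exact ((hL.neg).div_const 2).cexp
  · simp only [hL0, neg_zero, zero_div, Complex.exp_zero]
  · intro s hs
    rw [← hLe s hs, ← Complex.exp_add, ← Complex.exp_add]
    have : -L s / 2 + -L s / 2 + L s = 0 := by ring
    rw [this, Complex.exp_zero]
  · intro s _
    exact Complex.exp_ne_zero _

/-- the square root transform is in the class -/
private theorem sqrt_ext {F g k : ℂ → ℂ} (hF : DifferentiableOn ℂ F (ball 0 1))
    (hinj : InjOn F (ball 0 1)) (hk : DifferentiableOn ℂ k (ball 0 1))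
    (hgf : ∀ s, F s = s * g s) (hk0 : k 0 = 1)
    (hkg : ∀ s ∈ ball (0 : ℂ) 1, k s * k s * g s = 1) (hkne : ∀ s ∈ ball (0 : ℂ) 1, k s ≠ 0) :
    ∃ β : ℂ → ℂ, Ext β ∧ ∀ u ∈ ball (0 : ℂ) 1, u ≠ 0 → phi β u = k (u ^ 2) / u := by
  have h0b : (0:ℂ) ∈ ball (0:ℂ) 1 := mem_ball_self one_pos
  have hb0 : ball (0:ℂ) 1 ∈ 𝓝 (0:ℂ) := ball_mem_nhds 0 one_pos
  set k1 : ℂ → ℂ := dslope k 0 with hk1
  have hk1d : DifferentiableOn ℂ k1 (ball 0 1) := (Complex.differentiableOn_dslope hb0).mpr hk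
  have hk1e : ∀ s : ℂ, s ≠ 0 → k1 s = (k s - 1) / s := by
    intro s hs
    rw [hk1, dslope_of_ne _ hs, slope_def_field, hk0, sub_zero]
  set β : ℂ → ℂ := fun u => u * k1 (u ^ 2) with hβ
  have hsq : MapsTo (fun u : ℂ => u ^ 2) (ball (0:ℂ) 1) (ball (0:ℂ) 1) := fun u hu => sq_mem hu
  have hβd : DifferentiableOn ℂ β (ball 0 1) := by
    have h1 : DifferentiableOn ℂ (fun u : ℂ => k1 (u ^ 2)) (ball 0 1) :=
      hk1d.comp (by fun_prop) hsq
    exact differentiableOn_id.mul h1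
  have hphi : ∀ u : ℂ, u ≠ 0 → u⁻¹ + β u = k (u ^ 2) / u := by
    intro u hu
    have h2 : u ^ 2 ≠ 0 := pow_ne_zero _ hu
    simp only [hβ]
    rw [hk1e _ h2]
    field_simp
    ring
  -- the relation with F
  have hrel : ∀ u ∈ ball (0:ℂ) 1, u ≠ 0 → (u⁻¹ + β u) ^ 2 * F (u ^ 2) = 1 := by
    intro u hu h0
    rw [hphi u h0, hgf]
    have h3 := hkg _ (sq_mem hu)
    have : (k (u ^ 2) / u) ^ 2 * (u ^ 2 * g (u ^ 2)) = k (u ^ 2) * k (u ^ 2) * g (u ^ 2) := by
      field_simp
    rw [this, h3]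
  have hinj2 : ∀ u w : ℂ, u ∈ ball (0:ℂ) 1 → w ∈ ball (0:ℂ) 1 → u ≠ 0 → w ≠ 0 →
      u⁻¹ + β u = w⁻¹ + β w → u = w := by
    intro u w hu hw hu0 hw0 h
    have h1 := hrel u hu hu0
    have h2 := hrel w hw hw0
    rw [h] at h1
    have hne : (w⁻¹ + β w) ^ 2 ≠ 0 := by
      intro h3
      rw [h3, zero_mul] at h2
      exact zero_ne_one h2
    have h3 : F (u ^ 2) = F (w ^ 2) := mul_left_cancel₀ hne (h1.trans h2.symm)
    have h4 : u ^ 2 = w ^ 2 := hinj (sq_mem hu) (sq_mem hw) h3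
    rw [hphi u hu0, hphi w hw0, h4] at h
    have h5 := hkne _ (sq_mem hw)
    rw [div_eq_div_iff hu0 hw0] at h
    exact (mul_left_cancel₀ h5 h).symm
  refine ⟨β, ⟨hβd, hinj2, ?_⟩, fun u _ h0 => hphi u h0⟩
  intro u hu
  by_cases h0 : u = 0
  · subst h0; simp
  · intro hcon
    have hub : ball (0:ℂ) 1 ∈ 𝓝 u := isOpen_ball.mem_nhds hu
    have h1 : HasDerivAt (fun u : ℂ => u⁻¹ + β u) (-(u ^ 2)⁻¹ + deriv β u) u :=
      (hasDerivAt_inv h0).add ((hβd.differentiableAt hub).hasDerivAt)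
    have hz : -(u ^ 2)⁻¹ + deriv β u = 0 := by
      have h2 : u ^ 2 ≠ 0 := pow_ne_zero _ h0
      have h3 : deriv β u = 1 / u ^ 2 := by
        rw [eq_div_iff h2]
        linear_combination -hcon
      rw [h3]
      field_simp
      ring
    rw [hz] at h1
    have h2 : HasDerivAt (fun u : ℂ => F (u ^ 2)) (deriv F (u ^ 2) * (2 * u)) u := by
      have h3 : HasDerivAt F (deriv F (u ^ 2)) (u ^ 2) :=
        (hF.differentiableAt (isOpen_ball.mem_nhds (sq_mem hu))).hasDerivAt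
      have h4 : HasDerivAt (fun u : ℂ => u ^ 2) (2 * u) u := by
        simpa using hasDerivAt_pow 2 u
      exact h3.comp u h4
    have h3 := (h1.pow 2).mul h2
    have h4 : (fun u : ℂ => (u⁻¹ + β u) ^ 2 * F (u ^ 2)) =ᶠ[𝓝 u] fun _ => (1 : ℂ) := by
      filter_upwards [hub, isOpen_ne.mem_nhds h0] with w hw hw0
      exact hrel w hw hw0
    have h5 := (h3.congr_of_eventuallyEq h4.symm).unique (hasDerivAt_const u (1 : ℂ))
    have h6 : (u⁻¹ + β u) ^ 2 ≠ 0 := by
      intro h7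
      have h8 := hrel u hu h0
      rw [h7, zero_mul] at h8
      exact zero_ne_one h8
    have h7 : (u⁻¹ + β u) ^ 2 * (deriv F (u ^ 2) * (2 * u)) = 0 := by
      simpa using h5
    have h8 := Pool.Agent.Helper24.Br.deriv_ne_of_inj isOpen_ball hF hinj (sq_mem hu)
    rcases mul_eq_zero.mp h7 with h9 | h9
    · exact h6 h9
    · rcases mul_eq_zero.mp h9 with h10 | h10
      · exact h8 h10
      · exact h0 (by simpa using h10)

theorem sqrt_area {F : ℂ → ℂ} (hF : DifferentiableOn ℂ F (ball 0 1)) (hinj : InjOn F (ball 0 1))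
    (hF0 : F 0 = 0) (hF1 : deriv F 0 = 1) {a2 a3 a4 : ℂ} (h2 : coeff F 2 = a2)
    (h3 : coeff F 3 = a3) (h4 : coeff F 4 = a4) {B0 B1 B2 : ℂ} (hB0 : B0 = -a2)
    (hB1 : B1 = a2 ^ 2 - a3) (hB2 : B2 = -a4 + 2 * a2 * a3 - a2 ^ 3) :
    ‖B0 / 2‖ ^ 2 + 3 * ‖B1 / 2 - B0 ^ 2 / 8‖ ^ 2
      + 5 * ‖B2 / 2 - B0 * B1 / 4 + B0 ^ 3 / 16‖ ^ 2 ≤ 1 := by
  obtain ⟨g, k, hg, hk, hgf, hg0, hk0, hkg, hkne⟩ := sqrt_data hF hinj hF0 hF1
  obtain ⟨β, hE, hphi⟩ := sqrt_ext hF hinj hk hgf hk0 hkg hkne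
  have hb0 : ball (0:ℂ) 1 ∈ 𝓝 (0:ℂ) := ball_mem_nhds 0 one_pos
  have hga : AnalyticAt ℂ g 0 := hg.analyticAt hb0
  have hka : AnalyticAt ℂ k 0 := hk.analyticAt hb0
  -- the coefficients of g
  have hcg : ∀ n, coeff F (n + 1) = coeff g n := by
    intro n
    have e : F = fun z => z * g z := funext hgf
    have ha : AnalyticAt ℂ (fun z : ℂ => z) 0 := analyticAt_id
    rw [e, Pool.Agent.Helper22.Marshall.coeff_mul ha hga, Finset.sum_eq_single 1]
    · have : coeff (fun z : ℂ => z) 1 = 1 := by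
        rw [Pool.Agent.Helper22.Marshall.coeff_one]
        simp
      rw [this, one_mul]
      rfl
    · intro i _ hi
      have : coeff (fun z : ℂ => z) i = 0 := by
        rcases Nat.eq_zero_or_pos i with h | h
        · subst h
          rw [Pool.Agent.Helper22.Marshall.coeff_zero]
        · have h1 : coeff (fun z : ℂ => z) i = (if i = 1 then 1 else 0 : ℂ) := by
            apply Pool.Agent.Helper22.Marshall.coeff_eq_of_hasSum
              (a := fun i => if i = 1 then 1 else 0) one_pos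
            intro z _
            have h2 : HasSum (fun n : ℕ => (if n = 1 then 1 else 0 : ℂ) * z ^ n)
                ((if 1 = 1 then 1 else 0 : ℂ) * z ^ 1) := by
              apply hasSum_single
              intro b hb
              rw [if_neg hb, zero_mul]
            simpa using h2
          rw [h1, if_neg hi]
      rw [this, zero_mul]
    · intro h
      exact absurd (Finset.mem_range.mpr (by omega)) h
  have g0 : coeff g 0 = 1 := by rw [Pool.Agent.Helper22.Marshall.coeff_zero, hg0]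
  have g1 : coeff g 1 = a2 := by rw [← hcg, h2]
  have g2 : coeff g 2 = a3 := by rw [← hcg, h3]
  have g3 : coeff g 3 = a4 := by rw [← hcg, h4]
  have k0 : coeff k 0 = 1 := by rw [Pool.Agent.Helper22.Marshall.coeff_zero, hk0]
  -- the coefficients of the product
  have hprod : (fun z => k z * k z * g z) =ᶠ[𝓝 0] fun _ => (1 : ℂ) := by
    filter_upwards [hb0] with z hz
    exact hkg z hz
  have hone : ∀ n, 0 < n → coeff (fun _ : ℂ => (1 : ℂ)) n = 0 := by
    intro n hn
    have h1 : coeff (fun _ : ℂ => (1 : ℂ)) n = (if n = 0 then 1 else 0 : ℂ) := by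
      apply Pool.Agent.Helper22.Marshall.coeff_eq_of_hasSum
        (a := fun i => if i = 0 then 1 else 0) one_pos
      intro z _
      have h2 : HasSum (fun n : ℕ => (if n = 0 then 1 else 0 : ℂ) * z ^ n)
          ((if 0 = 0 then 1 else 0 : ℂ) * z ^ 0) := by
        apply hasSum_single
        intro b hb
        rw [if_neg hb, zero_mul]
      simpa using h2
    rw [h1, if_neg (by omega)]
  have hkk : ∀ n, coeff (fun z => k z * k z) n
      = ∑ i ∈ Finset.range (n + 1), coeff k i * coeff k (n - i) :=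
    fun n => Pool.Agent.Helper22.Marshall.coeff_mul hka hka n
  have hpr : ∀ n, 0 < n → ∑ i ∈ Finset.range (n + 1), coeff (fun z => k z * k z) i
      * coeff g (n - i) = 0 := by
    intro n hn
    have hka2 : AnalyticAt ℂ (fun z => k z * k z) 0 := hka.mul hka
    rw [← Pool.Agent.Helper22.Marshall.coeff_mul hka2 hga n,
      Pool.Agent.Helper22.Marshall.coeff_congr hprod, hone n hn]
  have q0 : coeff (fun z => k z * k z) 0 = 1 := by
    rw [hkk]; simp [k0]
  have q1 : coeff (fun z => k z * k z) 1 = 2 * coeff k 1 := by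
    rw [hkk]; simp [Finset.sum_range_succ, k0]; ring
  have q2 : coeff (fun z => k z * k z) 2 = 2 * coeff k 2 + coeff k 1 ^ 2 := by
    rw [hkk]; simp [Finset.sum_range_succ, k0]; ring
  have q3 : coeff (fun z => k z * k z) 3 = 2 * coeff k 3 + 2 * coeff k 1 * coeff k 2 := by
    rw [hkk]; simp [Finset.sum_range_succ, k0]; ring
  have r1 := hpr 1 (by norm_num)
  have r2 := hpr 2 (by norm_num)
  have r3 := hpr 3 (by norm_num)
  simp only [Finset.sum_range_succ, Finset.sum_range_zero, zero_add, Nat.sub_zero, Nat.sub_self,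
    show (2 - 1 : ℕ) = 1 from rfl, show (3 - 1 : ℕ) = 2 from rfl,
    q0, q1, q2, q3, g0, g1, g2, g3] at r1 r2 r3
  have c1 : coeff k 1 = B0 / 2 := by
    rw [hB0]; linear_combination r1 / 2
  have c2 : coeff k 2 = B1 / 2 - B0 ^ 2 / 8 := by
    rw [hB1, hB0]
    have c1' : coeff k 1 = -a2 / 2 := by rw [c1, hB0]
    rw [c1'] at r2
    linear_combination r2 / 2
  have c3 : coeff k 3 = B2 / 2 - B0 * B1 / 4 + B0 ^ 3 / 16 := by
    rw [hB2, hB1, hB0]
    have c1' : coeff k 1 = -a2 / 2 := by rw [c1, hB0]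
    have c2' : coeff k 2 = (a2 ^ 2 - a3) / 2 - a2 ^ 2 / 8 := by rw [c2, hB1, hB0]; ring
    rw [c1', c2'] at r3
    linear_combination r3 / 2
  -- the area inequality
  have hv : ∀ ζ : ℂ, ζ ≠ 0 → ‖ζ‖ < 1 →
      HasSum (fun m => (if Even m then coeff k (m / 2) else 0) * ζ ^ m)
        (ζ ^ 1 * (Polynomial.X : Polynomial ℂ).eval (phi β ζ)) := by
    intro ζ h0 hζ
    have hζb : ζ ∈ ball (0:ℂ) 1 := mem_ball_zero_iff.mpr hζ
    have e1 : ζ ^ 1 * (Polynomial.X : Polynomial ℂ).eval (phi β ζ) = k (ζ ^ 2) := by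
      rw [Polynomial.eval_X, hphi ζ hζb h0]
      field_simp
    rw [e1]
    have h5 := Pool.Agent.Helper22.Marshall.hasSum_coeff hk
      (z := ζ ^ 2) (by simpa using sq_mem hζb)
    have hi : Function.Injective (fun j : ℕ => 2 * j) := by
      intro a b hab
      have : 2 * a = 2 * b := hab
      omega
    rw [← hi.hasSum_iff]
    · refine h5.congr_fun ?_
      intro j
      simp only [Function.comp]
      rw [if_pos (even_two_mul j), Nat.mul_div_cancel_left _ two_pos, pow_mul]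
    · intro m hm
      rw [if_neg, zero_mul]
      intro hev
      apply hm
      obtain ⟨r, hr⟩ := hev
      exact ⟨r, by simp only; omega⟩
  have hA := Pool.Agent.Helper22.Marshall.gLe_one hE 1 Polynomial.X _
    (by rw [Polynomial.natDegree_X]) hv 7
  simp only [Finset.sum_range_succ, Finset.sum_range_zero, zero_add] at hA
  have e0 : (Even 0) := ⟨0, rfl⟩
  have e2 : (Even 2) := ⟨1, rfl⟩
  have e4 : (Even 4) := ⟨2, rfl⟩
  have e6 : (Even 6) := ⟨3, rfl⟩
  have o1 : ¬ (Even 1) := by decide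
  have o3 : ¬ (Even 3) := by decide
  have o5 : ¬ (Even 5) := by decide
  simp only [if_pos e0, if_pos e2, if_pos e4, if_pos e6, if_neg o1, if_neg o3, if_neg o5] at hA
  norm_num at hA
  rw [k0, c1, c2, c3] at hA
  simpa using hA

end Pool.Agent.Helper39.MH
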