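import Mathlib
import Pool.Agent.Helper39.MH.Defs
import Pool.Agent.Helper39.MH.Euler
import Pool.Agent.Helper39.MH.Bounds
import Pool.Agent.Helper39.MH.SqrtArea
import Pool.Agent.Helper22.Marshall.CoeffMul

/-!
MP_16b0ee, project MH, module MH-11: the pointwise constraint. For `z ≠ 0` in the disc the function
`F u = (f (z (1 + u) / (1 + |z|^2 u)) - f z) / (z (1 - |z|^2) f' z)`, `f = phi β`, is univalent in
the unit disc and normalised; its coefficients are polynomials in the scaled jets and `1 - |z|^2`.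
-/

set_option autoImplicit false

open MeasureTheory Set Metric Filter Topology
open scoped Real ComplexConjugate

namespace Pool.Agent.Helper39.MH

open Pool.Agent.Helper22.Half
open Pool.Agent.Helper22.Marshall (coeff SepHol LogPhi dcoeff GLe)
open Pool.Agent.Helper39.Area (Ext phi)

namespace Ell

/-! ### coefficients -/

theorem an0 {f : ℂ → ℂ} (hf : DifferentiableOn ℂ f (ball 0 1)) : AnalyticAt ℂ f 0 :=
  hf.analyticAt (ball_mem_nhds 0 one_pos)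

theorem cadd {f g : ℂ → ℂ} (hf : DifferentiableOn ℂ f (ball 0 1))
    (hg : DifferentiableOn ℂ g (ball 0 1)) (n : ℕ) :
    coeff (fun z => f z + g z) n = coeff f n + coeff g n := by
  apply Pool.Agent.Helper22.Marshall.coeff_eq_of_hasSum one_pos
    (a := fun n => coeff f n + coeff g n)
  intro z hz
  have h := (Pool.Agent.Helper22.Marshall.hasSum_coeff hf hz).add
    (Pool.Agent.Helper22.Marshall.hasSum_coeff hg hz)
  have e : (fun n => (coeff f n + coeff g n) * z ^ n)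
      = fun n => coeff f n * z ^ n + coeff g n * z ^ n := by
    funext n; ring
  rw [e]
  exact h

theorem cmul {f g : ℂ → ℂ} (hf : DifferentiableOn ℂ f (ball 0 1))
    (hg : DifferentiableOn ℂ g (ball 0 1)) (n : ℕ) :
    coeff (fun z => f z * g z) n = ∑ i ∈ Finset.range (n + 1), coeff f i * coeff g (n - i) :=
  Pool.Agent.Helper22.Marshall.coeff_mul (an0 hf) (an0 hg) n

/-- coefficients of a quadratic polynomial -/
theorem cquad (a b c : ℂ) (n : ℕ) :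
    coeff (fun u => a + b * u + c * u ^ 2) n
      = if n = 0 then a else if n = 1 then b else if n = 2 then c else 0 := by
  apply Pool.Agent.Helper22.Marshall.coeff_eq_of_hasSum one_pos
    (a := fun n => if n = 0 then a else if n = 1 then b else if n = 2 then c else 0)
  intro z _
  have h : HasSum (fun n : ℕ =>
      (if n = 0 then a else if n = 1 then b else if n = 2 then c else 0) * z ^ n)
      (∑ n ∈ Finset.range 3,
        (if n = 0 then a else if n = 1 then b else if n = 2 then c else 0) * z ^ n) := by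
    apply hasSum_sum_of_ne_finset_zero
    intro n hn
    have : 3 ≤ n := by simpa using hn
    rw [if_neg (by omega), if_neg (by omega), if_neg (by omega), zero_mul]
  have e : ∑ n ∈ Finset.range 3,
      (if n = 0 then a else if n = 1 then b else if n = 2 then c else 0) * z ^ n
      = a + b * z + c * z ^ 2 := by
    simp [Finset.sum_range_succ]
  rw [e] at h
  exact h

/-- the first coefficients from a differential equation -/
theorem crel {X R : ℂ → ℂ} (hX : DifferentiableOn ℂ X (ball 0 1)) {q : ℂ}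
    (h : ∀ u ∈ ball (0 : ℂ) 1, (1 + u) * (1 + q * u) * deriv X u = R u) :
    coeff R 0 = coeff X 1 ∧ coeff R 1 = 2 * coeff X 2 + (1 + q) * coeff X 1 ∧
      coeff R 2 = 3 * coeff X 3 + 2 * (1 + q) * coeff X 2 + q * coeff X 1 := by
  have hX' := Pool.Agent.Helper22.Marshall.differentiableOn_deriv hX
  have hP : DifferentiableOn ℂ (fun u : ℂ => 1 + (1 + q) * u + q * u ^ 2) (ball 0 1) := by
    fun_prop
  have e : R =ᶠ[𝓝 0] fun u => (1 + (1 + q) * u + q * u ^ 2) * deriv X u := by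
    filter_upwards [ball_mem_nhds (0 : ℂ) one_pos] with u hu
    rw [← h u hu]
    ring
  have hc : ∀ n, coeff R n = ∑ i ∈ Finset.range (n + 1),
      coeff (fun u : ℂ => 1 + (1 + q) * u + q * u ^ 2) i * coeff (deriv X) (n - i) := by
    intro n
    rw [Pool.Agent.Helper22.Marshall.coeff_congr e n]
    exact cmul hP hX' n
  simp only [cquad, Pool.Agent.Helper22.Marshall.coeff_deriv] at hc
  have e0 := hc 0
  have e1 := hc 1
  have e2 := hc 2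
  norm_num [Finset.sum_range_succ] at e0 e1 e2
  refine ⟨?_, ?_, ?_⟩
  · linear_combination e0
  · linear_combination e1
  · linear_combination e2

/-! ### the disc automorphism -/

/-- the disc automorphism -/
noncomputable def SS (z u : ℂ) : ℂ := z * (1 + u) / (1 + ((‖z‖ ^ 2 : ℝ) : ℂ) * u)

theorem one_add_ne {u : ℂ} (hu : u ∈ ball (0 : ℂ) 1) : 1 + u ≠ 0 := by
  intro h
  have h1 : u = -1 := by linear_combination h
  rw [h1] at hu
  simp at hu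

theorem den_ne {z u : ℂ} (hz : z ∈ ball (0 : ℂ) 1) (hu : u ∈ ball (0 : ℂ) 1) :
    1 + ((‖z‖ ^ 2 : ℝ) : ℂ) * u ≠ 0 := by
  apply one_add_ne
  rw [mem_ball_zero_iff] at *
  rw [norm_mul, Complex.norm_real, Real.norm_of_nonneg (by positivity)]
  have h1 : ‖z‖ ^ 2 ≤ 1 := by nlinarith [norm_nonneg z]
  nlinarith [norm_nonneg u]

theorem SS_mem {z u : ℂ} (hz : z ∈ ball (0 : ℂ) 1) (hu : u ∈ ball (0 : ℂ) 1) :
    SS z u ∈ ball (0 : ℂ) 1 := by
  have hd := den_ne hz hu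
  rw [mem_ball_zero_iff] at *
  unfold SS
  rw [norm_div, div_lt_one (norm_pos_iff.2 hd)]
  apply lt_of_pow_lt_pow_left₀ 2 (norm_nonneg _)
  have hq0 : 0 ≤ ‖z‖ ^ 2 := by positivity
  have hq1 : ‖z‖ ^ 2 < 1 := by nlinarith [norm_nonneg z]
  have hu2 : u.re * u.re + u.im * u.im < 1 := by
    have h1 : ‖u‖ ^ 2 < 1 := by nlinarith [norm_nonneg u]
    rwa [Complex.sq_norm, Complex.normSq_apply] at h1
  rw [norm_mul, mul_pow]
  generalize ‖z‖ ^ 2 = q at *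
  rw [Complex.sq_norm, Complex.sq_norm, Complex.normSq_apply, Complex.normSq_apply]
  simp only [Complex.add_re, Complex.add_im, Complex.one_re, Complex.one_im, Complex.mul_re,
    Complex.mul_im, Complex.ofReal_re, Complex.ofReal_im, zero_mul, sub_zero, add_zero, zero_add]
  have h3 : 0 < (1 - q) * (1 - q * (u.re * u.re + u.im * u.im)) := by
    apply mul_pos (by linarith)
    nlinarith [mul_self_nonneg u.re, mul_self_nonneg u.im]
  nlinarith [h3]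

theorem SS_ne {z u : ℂ} (hz : z ∈ ball (0 : ℂ) 1) (h0 : z ≠ 0) (hu : u ∈ ball (0 : ℂ) 1) :
    SS z u ≠ 0 :=
  div_ne_zero (mul_ne_zero h0 (one_add_ne hu)) (den_ne hz hu)

theorem SS_zero (z : ℂ) : SS z 0 = z := by simp [SS]

theorem one_sub_ne {z : ℂ} (hz : z ∈ ball (0 : ℂ) 1) : 1 - ((‖z‖ ^ 2 : ℝ) : ℂ) ≠ 0 := by
  rw [mem_ball_zero_iff] at hz
  have h1 : ‖z‖ ^ 2 < 1 := by nlinarith [norm_nonneg z]
  intro h
  have h2 : ((‖z‖ ^ 2 : ℝ) : ℂ) = ((1 : ℝ) : ℂ) := by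
    rw [Complex.ofReal_one]
    linear_combination -h
  have h3 := Complex.ofReal_injective h2
  linarith

theorem SS_inj {z u v : ℂ} (hz : z ∈ ball (0 : ℂ) 1) (h0 : z ≠ 0) (hu : u ∈ ball (0 : ℂ) 1)
    (hv : v ∈ ball (0 : ℂ) 1) (h : SS z u = SS z v) : u = v := by
  unfold SS at h
  rw [div_eq_div_iff (den_ne hz hu) (den_ne hz hv)] at h
  have h1 : z * (1 - ((‖z‖ ^ 2 : ℝ) : ℂ)) * (u - v) = 0 := by linear_combination h
  rcases mul_eq_zero.1 h1 with h2 | h2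
  · exact absurd h2 (mul_ne_zero h0 (one_sub_ne hz))
  · exact sub_eq_zero.1 h2

theorem hasDerivAt_SS {z u : ℂ} (hz : z ∈ ball (0 : ℂ) 1) (hu : u ∈ ball (0 : ℂ) 1) :
    HasDerivAt (SS z) (z * (1 - ((‖z‖ ^ 2 : ℝ) : ℂ)) / (1 + ((‖z‖ ^ 2 : ℝ) : ℂ) * u) ^ 2) u := by
  have hd := den_ne hz hu
  have h1 : HasDerivAt (fun u : ℂ => z * (1 + u)) z u := by
    simpa using ((hasDerivAt_id u).const_add 1).const_mul z
  have h2 : ∀ q : ℂ, HasDerivAt (fun u : ℂ => 1 + q * u) q u := fun q => by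
    simpa using ((hasDerivAt_id u).const_mul q).const_add 1
  have h3 := h1.fun_div (h2 ((‖z‖ ^ 2 : ℝ) : ℂ)) hd
  have e : z * (1 - ((‖z‖ ^ 2 : ℝ) : ℂ)) / (1 + ((‖z‖ ^ 2 : ℝ) : ℂ) * u) ^ 2
      = (z * (1 + ((‖z‖ ^ 2 : ℝ) : ℂ) * u) - z * (1 + u) * ((‖z‖ ^ 2 : ℝ) : ℂ))
        / (1 + ((‖z‖ ^ 2 : ℝ) : ℂ) * u) ^ 2 := by
    congr 1
    ring
  rw [e]
  exact h3

theorem SS_diff {z : ℂ} (hz : z ∈ ball (0 : ℂ) 1) : DifferentiableOn ℂ (SS z) (ball 0 1) :=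
  fun _ hu => (hasDerivAt_SS hz hu).differentiableAt.differentiableWithinAt

theorem comp_diff {z : ℂ} (hz : z ∈ ball (0 : ℂ) 1) {g : ℂ → ℂ}
    (hg : DifferentiableOn ℂ g (ball 0 1)) :
    DifferentiableOn ℂ (fun u => g (SS z u)) (ball 0 1) :=
  hg.comp (SS_diff hz) fun _ hu => SS_mem hz hu

theorem comp_deriv {z u : ℂ} (hz : z ∈ ball (0 : ℂ) 1) (hu : u ∈ ball (0 : ℂ) 1) {g : ℂ → ℂ}
    (hg : DifferentiableOn ℂ g (ball 0 1)) :
    HasDerivAt (fun u => g (SS z u)) (deriv g (SS z u)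
      * (z * (1 - ((‖z‖ ^ 2 : ℝ) : ℂ)) / (1 + ((‖z‖ ^ 2 : ℝ) : ℂ) * u) ^ 2)) u :=
  (hg.differentiableAt (isOpen_ball.mem_nhds (SS_mem hz hu))).hasDerivAt.comp u
    (hasDerivAt_SS hz hu)

theorem comp_rel {z u : ℂ} (hz : z ∈ ball (0 : ℂ) 1) (hu : u ∈ ball (0 : ℂ) 1) {g : ℂ → ℂ}
    (hg : DifferentiableOn ℂ g (ball 0 1)) :
    (1 + u) * (1 + ((‖z‖ ^ 2 : ℝ) : ℂ) * u) * deriv (fun u => g (SS z u)) u
      = (1 - ((‖z‖ ^ 2 : ℝ) : ℂ)) * th g (SS z u) := by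
  have hd := den_ne hz hu
  rw [(comp_deriv hz hu hg).deriv]
  unfold th
  generalize deriv g (SS z u) = D
  unfold SS
  field_simp

/-! ### the transform -/

/-- the derivative of the transform -/
noncomputable def WW (H : ℂ → ℂ) (z u : ℂ) : ℂ :=
  ((1 + u) ^ 2)⁻¹ * Complex.exp (H (SS z u) - H z)

/-- the transform -/
noncomputable def FF (β H : ℂ → ℂ) (z u : ℂ) : ℂ :=
  (phi β (SS z u) - phi β z) * (-(z / (1 - ((‖z‖ ^ 2 : ℝ) : ℂ))) * Complex.exp (-H z))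

theorem FF_deriv {β H : ℂ → ℂ} (hE : Ext β)
    (hexp : ∀ z ∈ ball (0 : ℂ) 1, Complex.exp (H z) = 1 - z ^ 2 * deriv β z) {z u : ℂ}
    (hz : z ∈ ball (0 : ℂ) 1) (h0 : z ≠ 0) (hu : u ∈ ball (0 : ℂ) 1) :
    HasDerivAt (FF β H z) (WW H z u) u := by
  have hd := den_ne hz hu
  have h1 := one_add_ne hu
  have hS := SS_mem hz hu
  have hS0 := SS_ne hz h0 hu
  have hτ := one_sub_ne hz
  have h2 := ((Pool.Agent.Helper39.Area.hasDerivAt_phi hE.diff hS hS0).comp u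
    (hasDerivAt_SS hz hu)).sub_const (phi β z)
  have h3 := h2.mul_const (-(z / (1 - ((‖z‖ ^ 2 : ℝ) : ℂ))) * Complex.exp (-H z))
  have h4 : Pool.Agent.Helper39.Area.dphi β (SS z u)
      = -((SS z u) ^ 2)⁻¹ * Complex.exp (H (SS z u)) := by
    unfold Pool.Agent.Helper39.Area.dphi
    rw [hexp _ hS]
    field_simp
    ring
  have e : WW H z u = Pool.Agent.Helper39.Area.dphi β (SS z u)
      * (z * (1 - ((‖z‖ ^ 2 : ℝ) : ℂ)) / (1 + ((‖z‖ ^ 2 : ℝ) : ℂ) * u) ^ 2)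
      * (-(z / (1 - ((‖z‖ ^ 2 : ℝ) : ℂ))) * Complex.exp (-H z)) := by
    rw [h4]
    unfold WW
    rw [sub_eq_add_neg (H (SS z u)), Complex.exp_add]
    generalize Complex.exp (H (SS z u)) = a
    generalize Complex.exp (-H z) = b
    unfold SS
    generalize ((‖z‖ ^ 2 : ℝ) : ℂ) = q at *
    have hd' : 1 + u * q ≠ 0 := by rwa [mul_comm u q]
    field_simp
  rw [e]
  exact h3

theorem WW_diff {H : ℂ → ℂ} (hH : DifferentiableOn ℂ H (ball 0 1)) {z : ℂ}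
    (hz : z ∈ ball (0 : ℂ) 1) : DifferentiableOn ℂ (WW H z) (ball 0 1) := by
  unfold WW
  apply DifferentiableOn.fun_mul
  · apply DifferentiableOn.fun_inv
    · fun_prop
    · intro u hu
      exact pow_ne_zero 2 (one_add_ne hu)
  · exact ((comp_diff hz hH).sub_const _).cexp

theorem WW_rel {H : ℂ → ℂ} (hH : DifferentiableOn ℂ H (ball 0 1)) {z : ℂ}
    (hz : z ∈ ball (0 : ℂ) 1) {u : ℂ} (hu : u ∈ ball (0 : ℂ) 1) :
    (1 + u) * (1 + ((‖z‖ ^ 2 : ℝ) : ℂ) * u) * deriv (WW H z) u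
      = ((-2 + (-2 * ((‖z‖ ^ 2 : ℝ) : ℂ)) * u + 0 * u ^ 2)
        + (-2 * (1 - ((‖z‖ ^ 2 : ℝ) : ℂ))) * gg H 0 (SS z u)) * WW H z u := by
  have hd := den_ne hz hu
  have h1 := one_add_ne hu
  have h2 := comp_rel hz hu hH
  have h3 := comp_deriv hz hu hH
  rw [h3.deriv] at h2
  have h4 : HasDerivAt (fun u : ℂ => ((1 + u) ^ 2)⁻¹) (-(2 * (1 + u)) / ((1 + u) ^ 2) ^ 2) u := by
    have h5 : HasDerivAt (fun u : ℂ => (1 + u) ^ 2) (2 * (1 + u)) u := by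
      simpa using ((hasDerivAt_id u).const_add 1).fun_pow 2
    exact h5.inv (pow_ne_zero 2 h1)
  have h6 := h4.mul ((h3.sub_const (H z)).cexp)
  have h7 : deriv (WW H z) u = -(2 * (1 + u)) / ((1 + u) ^ 2) ^ 2
      * Complex.exp (H (SS z u) - H z) + ((1 + u) ^ 2)⁻¹ * (Complex.exp (H (SS z u) - H z)
      * (deriv H (SS z u)
        * (z * (1 - ((‖z‖ ^ 2 : ℝ) : ℂ)) / (1 + ((‖z‖ ^ 2 : ℝ) : ℂ) * u) ^ 2))) := h6.deriv
  rw [h7]
  have h8 : th H (SS z u) = -2 * gg H 0 (SS z u) := by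
    rw [gg_zero]
    ring
  rw [h8] at h2
  unfold WW
  generalize Complex.exp (H (SS z u) - H z) = a at *
  generalize deriv H (SS z u)
    * (z * (1 - ((‖z‖ ^ 2 : ℝ) : ℂ)) / (1 + ((‖z‖ ^ 2 : ℝ) : ℂ) * u) ^ 2) = D at *
  generalize gg H 0 (SS z u) = G at *
  generalize ((‖z‖ ^ 2 : ℝ) : ℂ) = q at *
  have e : (1 + u) * (1 + q * u) * (-(2 * (1 + u)) / ((1 + u) ^ 2) ^ 2 * a
      + ((1 + u) ^ 2)⁻¹ * (a * D)) = ((1 + u) ^ 2)⁻¹ * a * (-2 * (1 + q * u)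
        + (1 + u) * (1 + q * u) * D) := by
    field_simp
  rw [e, h2]
  ring

/-- **The coefficients of the transform.** -/
theorem trans_coeff {β H : ℂ → ℂ} (hE : Ext β) (hH : DifferentiableOn ℂ H (ball 0 1))
    (hexp : ∀ z ∈ ball (0 : ℂ) 1, Complex.exp (H z) = 1 - z ^ 2 * deriv β z) {z : ℂ}
    (hz : z ∈ ball (0 : ℂ) 1) (h0 : z ≠ 0) (c0 c1 c2 t : ℂ) (ht : t = ((1 - ‖z‖ ^ 2 : ℝ) : ℂ))
    (hc0 : cc H z 0 = c0) (hc1 : cc H z 1 = c1) (hc2 : cc H z 2 = c2) :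
    coeff (FF β H z) 2 = -(1 + c0) ∧
    coeff (FF β H z) 3 = (1 + c0) ^ 2 - c1 - t * c0 / 3 ∧
    coeff (FF β H z) 4 = -(1 + c0) ^ 3 + 2 * (1 + c0) * (c1 + t * c0 / 3) + (c1 - c2)
      - t * (3 * c1 / 4 - c0 / 3 + t * c0 / 6 - c0 ^ 2 / 12) := by
  have hq : ((‖z‖ ^ 2 : ℝ) : ℂ) = 1 - t := by
    rw [ht]
    push_cast
    ring
  have hg : ∀ n, DifferentiableOn ℂ (gg H n) (ball 0 1) := fun n => gg_diff one_pos hH n
  -- the jets along the automorphism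
  have hG : ∀ n, DifferentiableOn ℂ (fun u => gg H n (SS z u)) (ball 0 1) :=
    fun n => comp_diff hz (hg n)
  have hx0 : coeff (fun u => gg H 0 (SS z u)) 0 = gg H 0 z := by
    rw [Pool.Agent.Helper22.Marshall.coeff_zero, SS_zero]
  have hy0 : coeff (fun u => gg H 1 (SS z u)) 0 = gg H 1 z := by
    rw [Pool.Agent.Helper22.Marshall.coeff_zero, SS_zero]
  -- the equation of `gg H 1`
  have r1 := crel (hG 1) (q := 1 - t) (R := fun u => (4 * t) * gg H 2 (SS z u)) (fun u hu => by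
    have h1 := comp_rel hz hu (hg 1)
    rw [hq, th_gg 1] at h1
    rw [h1]
    simp only [dval]
    norm_num
    ring)
  have hy1 : coeff (fun u => gg H 1 (SS z u)) 1 = 4 * t * gg H 2 z := by
    rw [← r1.1, Pool.Agent.Helper22.Marshall.coeff_zero, SS_zero]
  -- the equation of `gg H 0`
  have r0 := crel (hG 0) (q := 1 - t) (R := fun u => (3 * t) * gg H 1 (SS z u)
      + (-t) * (gg H 0 (SS z u) * gg H 0 (SS z u))) (fun u hu => by
    have h1 := comp_rel hz hu (hg 0)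
    rw [hq, th_gg 0] at h1
    rw [h1]
    simp only [dval]
    norm_num
    ring)
  have hR0 : ∀ n, coeff (fun u => (3 * t) * gg H 1 (SS z u)
      + (-t) * (gg H 0 (SS z u) * gg H 0 (SS z u))) n = (3 * t) * coeff (fun u => gg H 1 (SS z u)) n
      + (-t) * ∑ i ∈ Finset.range (n + 1), coeff (fun u => gg H 0 (SS z u)) i
        * coeff (fun u => gg H 0 (SS z u)) (n - i) := by
    intro n
    rw [cadd ((hG 1).const_mul _) (((hG 0).fun_mul (hG 0)).const_mul _),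
      Pool.Agent.Helper22.Marshall.coeff_const_mul, Pool.Agent.Helper22.Marshall.coeff_const_mul,
      cmul (hG 0) (hG 0)]
  have hx1 : coeff (fun u => gg H 0 (SS z u)) 1 = t * (3 * gg H 1 z - gg H 0 z ^ 2) := by
    rw [← r0.1, hR0 0]
    simp only [zero_add, Finset.sum_range_one, Nat.sub_zero, hx0, hy0]
    ring
  have hx2 : 2 * coeff (fun u => gg H 0 (SS z u)) 2 = t * (3 * (4 * t * gg H 2 z)
      - 2 * gg H 0 z * (t * (3 * gg H 1 z - gg H 0 z ^ 2)))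
      - (2 - t) * (t * (3 * gg H 1 z - gg H 0 z ^ 2)) := by
    have h1 := r0.2.1
    rw [hR0 1] at h1
    simp only [Finset.sum_range_succ, Finset.sum_range_zero, Nat.sub_zero, Nat.sub_self, zero_add,
      hx0, hx1, hy1] at h1
    linear_combination -h1
  -- the equation of the derivative of the transform
  have hW := WW_diff hH hz
  have hV : DifferentiableOn ℂ (fun u : ℂ => (-2 + (-2 * (1 - t)) * u + 0 * u ^ 2)
      + (-2 * t) * gg H 0 (SS z u)) (ball 0 1) := by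
    apply DifferentiableOn.fun_add
    · fun_prop
    · exact (hG 0).const_mul _
  have rW := crel hW (q := 1 - t) (R := fun u => ((-2 + (-2 * (1 - t)) * u + 0 * u ^ 2)
      + (-2 * t) * gg H 0 (SS z u)) * WW H z u) (fun u hu => by
    have h1 := WW_rel hH hz hu
    rw [hq] at h1
    rw [h1]
    ring)
  have hVc : ∀ n, coeff (fun u : ℂ => (-2 + (-2 * (1 - t)) * u + 0 * u ^ 2)
      + (-2 * t) * gg H 0 (SS z u)) n = (if n = 0 then -2 else if n = 1 then -2 * (1 - t) else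
        if n = 2 then 0 else 0) + (-2 * t) * coeff (fun u => gg H 0 (SS z u)) n := by
    intro n
    rw [cadd (by fun_prop) ((hG 0).const_mul _), cquad,
      Pool.Agent.Helper22.Marshall.coeff_const_mul]
  have hRW : ∀ n, coeff (fun u => ((-2 + (-2 * (1 - t)) * u + 0 * u ^ 2)
      + (-2 * t) * gg H 0 (SS z u)) * WW H z u) n = ∑ i ∈ Finset.range (n + 1),
        ((if i = 0 then -2 else if i = 1 then -2 * (1 - t) else
        if i = 2 then 0 else 0) + (-2 * t) * coeff (fun u => gg H 0 (SS z u)) i)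
        * coeff (WW H z) (n - i) := by
    intro n
    rw [cmul hV hW]
    simp only [hVc]
  have hw0 : coeff (WW H z) 0 = 1 := by
    rw [Pool.Agent.Helper22.Marshall.coeff_zero]
    unfold WW
    rw [SS_zero]
    simp
  -- scaled jets
  have tg0 : t * gg H 0 z = c0 := by
    rw [← hc0, ht]
    simp [cc]
  have tg1 : t ^ 2 * gg H 1 z = c1 := by
    rw [← hc1, ht]
    simp [cc]
  have tg2 : t ^ 3 * gg H 2 z = c2 := by
    rw [← hc2, ht]
    simp [cc]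
  have tx1 : t * coeff (fun u => gg H 0 (SS z u)) 1 = 3 * c1 - c0 ^ 2 := by
    rw [hx1, ← tg1, ← tg0]
    ring
  have tx2 : 2 * (t * coeff (fun u => gg H 0 (SS z u)) 2)
      = 12 * c2 - 2 * c0 * (3 * c1 - c0 ^ 2) - (2 - t) * (3 * c1 - c0 ^ 2) := by
    rw [← tg0, ← tg1, ← tg2]
    linear_combination t * hx2
  generalize hX1 : coeff (fun u => gg H 0 (SS z u)) 1 = x1 at *
  generalize hX2 : coeff (fun u => gg H 0 (SS z u)) 2 = x2 at *
  have w1 : coeff (WW H z) 1 = -2 * (1 + c0) := by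
    rw [← rW.1, hRW 0]
    simp only [zero_add, Finset.sum_range_one, Nat.sub_zero, hx0, hw0, if_true]
    rw [← tg0]
    ring
  have w2 : coeff (WW H z) 2 = 2 * (1 + c0) ^ 2 - (1 - t) - (3 * c1 - c0 ^ 2)
      + (2 - t) * (1 + c0) := by
    have h1 := rW.2.1
    rw [hRW 1] at h1
    simp only [Finset.sum_range_succ, Finset.sum_range_zero, Nat.sub_zero, Nat.sub_self, zero_add,
      hx0, hX1, hw0, w1, if_true, one_ne_zero, if_false] at h1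
    have h2 : (-2 + -2 * t * gg H 0 z) = -2 * (1 + c0) := by rw [← tg0]; ring
    rw [h2] at h1
    linear_combination (-1 / 2) * h1 - tx1
  have w3 : 3 * coeff (WW H z) 3 = -2 * ((1 + c0) * (2 * (1 + c0) ^ 2 - (1 - t)
      - (3 * c1 - c0 ^ 2) + (2 - t) * (1 + c0)) + ((1 - t) + (3 * c1 - c0 ^ 2)) * (-2 * (1 + c0))
      + (12 * c2 - 2 * c0 * (3 * c1 - c0 ^ 2) - (2 - t) * (3 * c1 - c0 ^ 2)) / 2)
      - 2 * (2 - t) * (2 * (1 + c0) ^ 2 - (1 - t) - (3 * c1 - c0 ^ 2) + (2 - t) * (1 + c0))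
      - (1 - t) * (-2 * (1 + c0)) := by
    have h1 := rW.2.2
    rw [hRW 2] at h1
    simp only [Finset.sum_range_succ, Finset.sum_range_zero, Nat.sub_zero, Nat.sub_self, zero_add,
      hx0, hX1, hX2, hw0, w1, w2, if_true, one_ne_zero, if_false, OfNat.ofNat_ne_zero,
      OfNat.ofNat_ne_one, show (2 : ℕ) - 1 = 1 from rfl] at h1
    have h2 : (-2 + -2 * t * gg H 0 z) = -2 * (1 + c0) := by rw [← tg0]; ring
    rw [h2] at h1
    linear_combination -h1 + (-2 * (-2 * (1 + c0))) * tx1 - tx2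
  -- the coefficients of the transform
  have hFd : deriv (FF β H z) =ᶠ[𝓝 0] WW H z := by
    filter_upwards [ball_mem_nhds (0 : ℂ) one_pos] with u hu
    exact (FF_deriv hE hexp hz h0 hu).deriv
  have hF : ∀ n : ℕ, ((n : ℂ) + 1) * coeff (FF β H z) (n + 1) = coeff (WW H z) n := by
    intro n
    rw [← Pool.Agent.Helper22.Marshall.coeff_deriv, Pool.Agent.Helper22.Marshall.coeff_congr hFd]
  have f2 := hF 1
  have f3 := hF 2
  have f4 := hF 3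
  rw [w1] at f2
  rw [w2] at f3
  norm_num at f2 f3 f4
  refine ⟨?_, ?_, ?_⟩
  · linear_combination (1 / 2) * f2
  · linear_combination (1 / 3) * f3
  · linear_combination (1 / 4) * f4 + (1 / 12) * w3

/-- the transform is univalent -/
theorem FF_inj {β H : ℂ → ℂ} (hE : Ext β) {z : ℂ} (hz : z ∈ ball (0 : ℂ) 1) (h0 : z ≠ 0) :
    InjOn (FF β H z) (ball 0 1) := by
  intro u hu v hv h
  unfold FF at h
  have h1 : (-(z / (1 - ((‖z‖ ^ 2 : ℝ) : ℂ))) * Complex.exp (-H z)) ≠ 0 :=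
    mul_ne_zero (neg_ne_zero.2 (div_ne_zero h0 (one_sub_ne hz))) (Complex.exp_ne_zero _)
  have h2 := sub_left_injective (mul_right_cancel₀ h1 h)
  exact SS_inj hz h0 hu hv (hE.inj _ _ (SS_mem hz hu) (SS_mem hz hv) (SS_ne hz h0 hu)
    (SS_ne hz h0 hv) h2)

theorem norm_sq_perturb {v w d : ℂ} {t D : ℝ} (h : v = w + (t : ℂ) * d) (ht : 0 ≤ t) (ht1 : t ≤ 1)
    (hw : ‖w‖ ≤ 1) (hd : ‖d‖ ≤ D) : ‖v‖ ^ 2 ≤ ‖w‖ ^ 2 + t * (2 * D + D ^ 2) := by
  have hD : 0 ≤ D := (norm_nonneg d).trans hd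
  have h1 : ‖v‖ ≤ ‖w‖ + t * D := by
    rw [h]
    refine (norm_add_le _ _).trans ?_
    rw [norm_mul, Complex.norm_real, Real.norm_of_nonneg ht]
    gcongr
  have h2 : ‖v‖ ^ 2 ≤ (‖w‖ + t * D) ^ 2 := pow_le_pow_left₀ (norm_nonneg _) h1 2
  have h3 : ‖w‖ * (t * D) ≤ 1 * (t * D) := mul_le_mul_of_nonneg_right hw (by positivity)
  have h4 : t * (t * D ^ 2) ≤ 1 * (t * D ^ 2) := mul_le_mul_of_nonneg_right ht1 (by positivity)
  nlinarith

theorem norm_le_one_of_sq {v : ℂ} (h : ‖v‖ ^ 2 ≤ 1) : ‖v‖ ≤ 1 := by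
  nlinarith [norm_nonneg v]

theorem bd0 {M : ℝ} {c0 : ℂ} (hM1 : 1 ≤ M) (b0 : ‖c0‖ ≤ M) : ‖-c0 / 6‖ ≤ 10 * M ^ 3 := by
  have hM11 : M ≤ M ^ 3 := by
    calc M = M ^ 1 := (pow_one M).symm
      _ ≤ M ^ 3 := pow_le_pow_right₀ hM1 (by norm_num)
  rw [norm_div, norm_neg, show ‖(6 : ℂ)‖ = 6 by simp]
  linarith [norm_nonneg c0]

theorem bd1 {M t : ℝ} {c0 c1 : ℂ} (hM1 : 1 ≤ M) (ht : 0 ≤ t) (ht1 : t ≤ 1) (b0 : ‖c0‖ ≤ M)
    (b1 : ‖c1‖ ≤ M) : ‖-((3 * c1 / 4 - c0 / 3 + t * c0 / 6 - c0 ^ 2 / 12) / 2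
      - (1 + c0) * c0 / 12)‖ ≤ 10 * M ^ 3 := by
  have hM11 : M ≤ M ^ 3 := by
    calc M = M ^ 1 := (pow_one M).symm
      _ ≤ M ^ 3 := pow_le_pow_right₀ hM1 (by norm_num)
  have hM2 : M ^ 2 ≤ M ^ 3 := pow_le_pow_right₀ hM1 (by norm_num)
  have e1 : ‖3 * c1 / 4‖ = 3 / 4 * ‖c1‖ := by rw [norm_div, norm_mul]; norm_num; ring
  have e2 : ‖c0 / 3‖ = ‖c0‖ / 3 := by rw [norm_div]; norm_num
  have e3 : ‖(t : ℂ) * c0 / 6‖ = t * ‖c0‖ / 6 := by
    rw [norm_div, norm_mul, Complex.norm_real, Real.norm_of_nonneg ht]; norm_num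
  have e4 : ‖c0 ^ 2 / 12‖ = ‖c0‖ ^ 2 / 12 := by rw [norm_div, norm_pow]; norm_num
  have e5 : ‖(1 + c0) * c0 / 12‖ = ‖1 + c0‖ * ‖c0‖ / 12 := by rw [norm_div, norm_mul]; norm_num
  have n1 := norm_sub_le (3 * c1 / 4) (c0 / 3)
  have n2 := norm_add_le (3 * c1 / 4 - c0 / 3) ((t : ℂ) * c0 / 6)
  have n3 := norm_sub_le (3 * c1 / 4 - c0 / 3 + (t : ℂ) * c0 / 6) (c0 ^ 2 / 12)
  have n4 : ‖(3 * c1 / 4 - c0 / 3 + (t : ℂ) * c0 / 6 - c0 ^ 2 / 12) / 2‖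
      = ‖3 * c1 / 4 - c0 / 3 + (t : ℂ) * c0 / 6 - c0 ^ 2 / 12‖ / 2 := by
    rw [norm_div]; norm_num
  have n5 := norm_sub_le ((3 * c1 / 4 - c0 / 3 + (t : ℂ) * c0 / 6 - c0 ^ 2 / 12) / 2)
    ((1 + c0) * c0 / 12)
  have n6 : ‖1 + c0‖ ≤ 1 + ‖c0‖ := by
    have := norm_add_le 1 c0
    rwa [norm_one] at this
  rw [norm_neg]
  have k1 : t * ‖c0‖ ≤ 1 * ‖c0‖ := mul_le_mul_of_nonneg_right ht1 (norm_nonneg _)
  have k2 : ‖c0‖ ^ 2 ≤ M ^ 2 := pow_le_pow_left₀ (norm_nonneg _) b0 2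
  have k3 : ‖1 + c0‖ * ‖c0‖ ≤ (1 + ‖c0‖) * ‖c0‖ := mul_le_mul_of_nonneg_right n6 (norm_nonneg _)
  nlinarith [norm_nonneg c0, norm_nonneg c1]

theorem bd2 {M : ℝ} {c0 c1 c2 : ℂ} (hM1 : 1 ≤ M) (b0 : ‖1 + c0‖ ≤ 2 * M) (b1 : ‖c1‖ ≤ M)
    (b2 : ‖c2‖ ≤ M) : ‖(1 + c0) / 2‖ ^ 2 + 3 * ‖c1 / 2 - (1 + c0) ^ 2 / 8‖ ^ 2
      + 5 * ‖(c1 - c2) / 2 + (1 + c0) * c1 / 4 - (1 + c0) ^ 3 / 16‖ ^ 2 ≤ 10000 * M ^ 6 := by
  have hM0 : 0 ≤ M := by linarith
  have hM11 : M ≤ M ^ 3 := by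
    calc M = M ^ 1 := (pow_one M).symm
      _ ≤ M ^ 3 := pow_le_pow_right₀ hM1 (by norm_num)
  have hM2 : M ^ 2 ≤ M ^ 3 := pow_le_pow_right₀ hM1 (by norm_num)
  have p2 : ‖1 + c0‖ ^ 2 ≤ (2 * M) ^ 2 := pow_le_pow_left₀ (norm_nonneg _) b0 2
  have p3 : ‖1 + c0‖ ^ 3 ≤ (2 * M) ^ 3 := pow_le_pow_left₀ (norm_nonneg _) b0 3
  have p4 : ‖1 + c0‖ * ‖c1‖ ≤ 2 * M * M := mul_le_mul b0 b1 (norm_nonneg _) (by positivity)
  have e1 : ‖(1 + c0) / 2‖ = ‖1 + c0‖ / 2 := by rw [norm_div]; norm_num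
  have e2 : ‖c1 / 2‖ = ‖c1‖ / 2 := by rw [norm_div]; norm_num
  have e3 : ‖(1 + c0) ^ 2 / 8‖ = ‖1 + c0‖ ^ 2 / 8 := by rw [norm_div, norm_pow]; norm_num
  have e4 : ‖(c1 - c2) / 2‖ = ‖c1 - c2‖ / 2 := by rw [norm_div]; norm_num
  have e5 : ‖(1 + c0) * c1 / 4‖ = ‖1 + c0‖ * ‖c1‖ / 4 := by rw [norm_div, norm_mul]; norm_num
  have e6 : ‖(1 + c0) ^ 3 / 16‖ = ‖1 + c0‖ ^ 3 / 16 := by rw [norm_div, norm_pow]; norm_num
  have n1 := norm_sub_le (c1 / 2) ((1 + c0) ^ 2 / 8)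
  have n2 := norm_sub_le c1 c2
  have n3 := norm_add_le ((c1 - c2) / 2) ((1 + c0) * c1 / 4)
  have n4 := norm_sub_le ((c1 - c2) / 2 + (1 + c0) * c1 / 4) ((1 + c0) ^ 3 / 16)
  have a1 : ‖(1 + c0) / 2‖ ≤ 4 * M ^ 3 := by linarith
  have a2 : ‖c1 / 2 - (1 + c0) ^ 2 / 8‖ ≤ 4 * M ^ 3 := by nlinarith
  have a3 : ‖(c1 - c2) / 2 + (1 + c0) * c1 / 4 - (1 + c0) ^ 3 / 16‖ ≤ 4 * M ^ 3 := by nlinarith
  have q1 := pow_le_pow_left₀ (norm_nonneg _) a1 2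
  have q2 := pow_le_pow_left₀ (norm_nonneg _) a2 2
  have q3 := pow_le_pow_left₀ (norm_nonneg _) a3 2
  have e : (4 * M ^ 3) ^ 2 = 16 * M ^ 6 := by ring
  have h6 : 0 ≤ M ^ 6 := by positivity
  linarith

end Ell

open Ell in
/-- **The pointwise constraint.** -/
theorem ell_ge : ∃ C : ℝ, 0 ≤ C ∧ ∀ (ρ : ℝ) (β H : ℂ → ℂ) (Φ : ℂ → ℂ → ℂ), Data ρ β H Φ →
    ∀ z ∈ ball (0 : ℂ) 1, -(C * (1 - ‖z‖ ^ 2)) ≤ ell (cc H z) := by
  obtain ⟨Cb, hCb0, hCb⟩ := gg_bound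
  set M : ℝ := 1 + Cb 0 + Cb 1 + Cb 2 with hM
  have hM1 : 1 ≤ M := by
    have := hCb0 0
    have := hCb0 1
    have := hCb0 2
    linarith
  -- the bound of the perturbations
  set D : ℝ := 10 * M ^ 3 with hD
  have hM3 : 1 ≤ M ^ 3 := one_le_pow₀ hM1
  refine ⟨8 * (2 * D + D ^ 2) + 10000 * M ^ 6, by positivity, ?_⟩
  intro ρ β H Φ h z hz
  have hH : DifferentiableOn ℂ H (ball 0 1) := h.diff.mono (ball_subset_ball h.one_lt.le)
  obtain ⟨c0, hc0⟩ : ∃ c0, cc H z 0 = c0 := ⟨_, rfl⟩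
  obtain ⟨c1, hc1⟩ : ∃ c1, cc H z 1 = c1 := ⟨_, rfl⟩
  obtain ⟨c2, hc2⟩ : ∃ c2, cc H z 2 = c2 := ⟨_, rfl⟩
  have b0 : ‖c0‖ ≤ M := by
    rw [← hc0]
    have h1 := hCb H hH h.bloch 0 z hz
    have := hCb0 1
    have := hCb0 2
    linarith
  have b1 : ‖c1‖ ≤ M := by
    rw [← hc1]
    have h1 := hCb H hH h.bloch 1 z hz
    have := hCb0 0
    have := hCb0 2
    linarith
  have b2 : ‖c2‖ ≤ M := by
    rw [← hc2]
    have h1 := hCb H hH h.bloch 2 z hz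
    have := hCb0 0
    have := hCb0 1
    linarith
  have b01 : ‖1 + c0‖ ≤ 2 * M := by
    refine (norm_add_le _ _).trans ?_
    rw [norm_one]
    linarith
  have ht0 : 0 < 1 - ‖z‖ ^ 2 := by
    have hz' := mem_ball_zero_iff.1 hz
    nlinarith [norm_nonneg z]
  have ht1 : 1 - ‖z‖ ^ 2 ≤ 1 := by nlinarith [norm_nonneg z]
  have hM2 : M ^ 2 ≤ M ^ 3 := pow_le_pow_right₀ hM1 (by norm_num)
  have hM11 : M ≤ M ^ 3 := by
    calc M = M ^ 1 := (pow_one M).symm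
      _ ≤ M ^ 3 := pow_le_pow_right₀ hM1 (by norm_num)
  unfold ell
  rw [hc0, hc1, hc2]
  by_cases h0 : z = 0
  · have h1 := bd2 hM1 b01 b1 b2
    have h2 : (1 - ‖z‖ ^ 2 : ℝ) = 1 := by rw [h0, norm_zero]; norm_num
    rw [h2]
    have h3 : 0 ≤ 8 * (2 * D + D ^ 2) := by positivity
    linarith
  · have hF0 : FF β H z 0 = 0 := by
      unfold FF
      rw [SS_zero]
      ring
    have hFd : DifferentiableOn ℂ (FF β H z) (ball 0 1) := fun u hu =>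
      (FF_deriv h.ext h.exp_eq hz h0 hu).differentiableAt.differentiableWithinAt
    have hF1 : deriv (FF β H z) 0 = 1 := by
      rw [(FF_deriv h.ext h.exp_eq hz h0 (mem_ball_self one_pos)).deriv]
      unfold WW
      rw [SS_zero]
      simp
    obtain ⟨f2, f3, f4⟩ := trans_coeff h.ext hH h.exp_eq hz h0 c0 c1 c2
      ((1 - ‖z‖ ^ 2 : ℝ) : ℂ) rfl hc0 hc1 hc2
    generalize (1 - ‖z‖ ^ 2 : ℝ) = t at *
    have key := sqrt_area hFd (FF_inj h.ext hz h0) hF0 hF1 f2 f3 f4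
      (B0 := 1 + c0) (B1 := c1 + t * c0 / 3)
      (B2 := -(c1 - c2) + t * (3 * c1 / 4 - c0 / 3 + t * c0 / 6 - c0 ^ 2 / 12))
      (by ring) (by ring) (by ring)
    have n0 : 0 ≤ ‖(1 + c0) / 2‖ ^ 2 := by positivity
    have n1 : 0 ≤ ‖(c1 + t * c0 / 3) / 2 - (1 + c0) ^ 2 / 8‖ ^ 2 := by positivity
    have n2 : 0 ≤ ‖(-(c1 - c2) + t * (3 * c1 / 4 - c0 / 3 + t * c0 / 6 - c0 ^ 2 / 12)) / 2
      - (1 + c0) * (c1 + t * c0 / 3) / 4 + (1 + c0) ^ 3 / 16‖ ^ 2 := by positivity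
    have m1 : ‖(c1 + t * c0 / 3) / 2 - (1 + c0) ^ 2 / 8‖ ≤ 1 :=
      norm_le_one_of_sq (by linarith)
    have m2 : ‖(-(c1 - c2) + t * (3 * c1 / 4 - c0 / 3 + t * c0 / 6 - c0 ^ 2 / 12)) / 2
      - (1 + c0) * (c1 + t * c0 / 3) / 4 + (1 + c0) ^ 3 / 16‖ ≤ 1 :=
      norm_le_one_of_sq (by linarith)
    have p1 := norm_sq_perturb (v := c1 / 2 - (1 + c0) ^ 2 / 8)
      (w := (c1 + t * c0 / 3) / 2 - (1 + c0) ^ 2 / 8) (d := -c0 / 6) (t := t) (D := D)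
      (by ring) ht0.le ht1 m1 (bd0 hM1 b0)
    have p2 := norm_sq_perturb (v := -((c1 - c2) / 2 + (1 + c0) * c1 / 4 - (1 + c0) ^ 3 / 16))
      (w := (-(c1 - c2) + t * (3 * c1 / 4 - c0 / 3 + t * c0 / 6 - c0 ^ 2 / 12)) / 2
      - (1 + c0) * (c1 + t * c0 / 3) / 4 + (1 + c0) ^ 3 / 16)
      (d := -((3 * c1 / 4 - c0 / 3 + t * c0 / 6 - c0 ^ 2 / 12) / 2 - (1 + c0) * c0 / 12))
      (t := t) (D := D)
      (by ring) ht0.le ht1 m2 (bd1 hM1 ht0.le ht1 b0 b1)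
    rw [norm_neg] at p2
    nlinarith [mul_nonneg ht0.le (show 0 ≤ M ^ 6 by positivity)]

end Pool.Agent.Helper39.MH
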