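import Mathlib
import Pool.Agent.Helper39.MH.EulerS
import Pool.Agent.Helper39.MH.Bridge

/-!
MP_16b0ee, project MH, module MH-9: the stationarity relation, for `G = exp (s H)`, `s` complex,
and for `s = -1`.
-/

set_option autoImplicit false

open MeasureTheory Set Metric Filter Topology
open scoped Real ComplexConjugate

namespace Pool.Agent.Helper39.MH

open Pool.Agent.Helper22.Half
open Pool.Agent.Helper22.Marshall (coeff SepHol LogPhi dcoeff GLe hasSum_coeff_deriv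
  coeff_eq_of_hasSum)


/-- weighted area integral with the density `|G|^2 (1-|z|^2)^(b-1)`, `G = exp (s H)` -/
noncomputable def LGs (s : ℂ) (H : ℂ → ℂ) (b : ℝ) (f : ℂ → ℝ) : ℝ :=
  (1 / π) * ∫ z in ball (0 : ℂ) 1, (1 - ‖z‖ ^ 2) ^ (b - 1) * ‖Complex.exp (s * H z)‖ ^ 2 * f z

theorem LGs_neg_one (H : ℂ → ℂ) (b : ℝ) (f : ℂ → ℝ) : LGs (-1) H b f = LG H b f := by
  unfold LGs LG
  simp only [neg_one_mul]

/-- the relation polynomial of the pair `(A, B)`, `s` complex -/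
noncomputable def relvs (s : ℂ) (b : ℝ) (c : ℕ → ℂ) (A B : List ℕ) : ℝ :=
  (DGs s c A * conj (ev c B)).re - (b + wt A + wt B) * (ev c A * conj (ev c B)).re

theorem relvs_neg_one (b : ℝ) (c : ℕ → ℂ) (A B : List ℕ) :
    relvs (-1) b c A B = relv b c A B := by
  unfold relvs relv
  rw [DGs_neg_one]

theorem integrableOn_rel {ρ : ℝ} (hρ : 1 < ρ) {F K : ℂ → ℂ}
    (hF : DifferentiableOn ℂ F (ball 0 ρ)) (hK : DifferentiableOn ℂ K (ball 0 ρ)) {p : ℝ}
    (hp : 0 ≤ p) :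
    IntegrableOn (fun z : ℂ => (1 - ‖z‖ ^ 2) ^ p * (F z * conj (K z)).re) (ball (0 : ℂ) 1) := by
  have hsub : closedBall (0 : ℂ) 1 ⊆ ball 0 ρ := closedBall_subset_ball hρ
  have hc : ContinuousOn (fun z : ℂ => (1 - ‖z‖ ^ 2) ^ p * (F z * conj (K z)).re)
      (closedBall (0 : ℂ) 1) := by
    refine ContinuousOn.mul ?_ ?_
    · refine ContinuousOn.rpow_const (by fun_prop) fun z _ => Or.inr hp
    · refine Complex.continuous_re.comp_continuousOn ?_
      refine (hF.continuousOn.mono hsub).mul ?_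
      exact Complex.continuous_conj.comp_continuousOn (hK.continuousOn.mono hsub)
  exact (hc.integrableOn_compact (isCompact_closedBall 0 1)).mono_set ball_subset_closedBall

/-- integration by parts in terms of the coefficients -/
theorem parts {ρ : ℝ} (hρ : 1 < ρ) {F K : ℂ → ℂ} (hF : DifferentiableOn ℂ F (ball 0 ρ))
    (hK : DifferentiableOn ℂ K (ball 0 ρ)) {p : ℝ} (hp1 : 1 ≤ p) :
    (1 / π) * (∫ z in ball (0 : ℂ) 1, (1 - ‖z‖ ^ 2) ^ p * (th F z * conj (K z)).re)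
        - p * ((1 / π) * ∫ z in ball (0 : ℂ) 1, (1 - ‖z‖ ^ 2) ^ (p - 1)
            * (F z * conj (K z)).re)
      = -(p + 1) * ((1 / π) * ∫ z in ball (0 : ℂ) 1, (1 - ‖z‖ ^ 2) ^ p
            * (F z * conj (K z)).re) := by
  have hp0 : 0 ≤ p := by linarith
  have hpm : 0 ≤ p - 1 := by linarith
  have hT : DifferentiableOn ℂ (th F) (ball 0 ρ) :=
    differentiableOn_id.mul (hF.deriv isOpen_ball)
  have b1 := bridge hρ hT hK hp0
  have b2 := (bridge hρ hF hK hpm).mul_left p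
  have b3 := (bridge hρ hF hK hp0).mul_left (-(p + 1))
  have hF1 : DifferentiableOn ℂ F (ball 0 1) := hF.mono (ball_subset_ball hρ.le)
  have hfe : (fun m : ℕ => ((p + 1) * pq (p + 2) m)⁻¹ * (coeff (th F) m * conj (coeff K m)).re
      - p * (((p - 1 + 1) * pq (p - 1 + 2) m)⁻¹ * (coeff F m * conj (coeff K m)).re))
      = fun m : ℕ => -(p + 1) * (((p + 1) * pq (p + 2) m)⁻¹
        * (coeff F m * conj (coeff K m)).re) := by
    funext m
    rw [coeff_th hF1 m]
    have h4 : ((m : ℂ) * coeff F m * conj (coeff K m)).re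
        = m * (coeff F m * conj (coeff K m)).re := by
      rw [mul_assoc]
      have : (m : ℂ) = ((m : ℝ) : ℂ) := by push_cast; rfl
      rw [this, Complex.re_ofReal_mul]
    rw [h4]
    have h5 := pq_add_one (p + 1) m
    have h6 : 0 < pq (p + 1) m := pq_pos (by linarith) m
    have h8 : (p + 1 + 1 : ℝ) = p + 2 := by ring
    have h9 : (p - 1 + 2 : ℝ) = p + 1 := by ring
    have h10 : (p - 1 + 1 : ℝ) = p := by ring
    rw [h8] at h5
    rw [h9, h10]
    have hp1' : (p + 1 : ℝ) ≠ 0 := by linarith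
    have hp0' : (p : ℝ) ≠ 0 := by linarith
    have h11 : ((p + 1) * pq (p + 2) m)⁻¹ = (pq (p + 1) m)⁻¹ * (p + 1 + m)⁻¹ := by
      rw [h5, mul_inv]
    have h12 : (p + 1 + m : ℝ) ≠ 0 := by positivity
    rw [h11]
    field_simp
    ring
  have b4 := b1.sub b2
  rw [hfe] at b4
  exact b4.unique b3

/-- the stationarity relation for complex `s` -/
theorem relation_s (s : ℂ) {ρ : ℝ} (hρ : 1 < ρ) {H : ℂ → ℂ}
    (hH : DifferentiableOn ℂ H (ball 0 ρ)) {b : ℝ} (hb : 1 ≤ b) (A B : List ℕ) :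
    LGs s H b (fun z => relvs s b (cc H z) A B)
      = -(b + wt A + wt B + 1) * LGs s H b (fun z => (1 - ‖z‖ ^ 2)
          * (ev (cc H z) A * conj (ev (cc H z) B)).re) := by
  have hρ0 : 0 < ρ := by linarith
  set F : ℂ → ℂ := fun z => Complex.exp (s * H z) * ev (fun k => gg H k z) A with hFdef
  set K : ℂ → ℂ := fun z => Complex.exp (s * H z) * ev (fun k => gg H k z) B with hKdef
  have hF : DifferentiableOn ℂ F (ball 0 ρ) := exp_ev_diff_s s hρ0 hH A
  have hK : DifferentiableOn ℂ K (ball 0 ρ) := exp_ev_diff_s s hρ0 hH B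
  have hT : DifferentiableOn ℂ (th F) (ball 0 ρ) :=
    differentiableOn_id.mul (hF.deriv isOpen_ball)
  set p : ℝ := b + wt A + wt B with hp
  have hwA : (0 : ℝ) ≤ wt A := Nat.cast_nonneg _
  have hwB : (0 : ℝ) ≤ wt B := Nat.cast_nonneg _
  have hp1 : 1 ≤ p := by rw [hp]; linarith
  have hp0 : 0 ≤ p := by linarith
  have hpm : 0 ≤ p - 1 := by linarith
  have hprod : ∀ (g a c : ℂ) (x y : ℝ), ‖g‖ ^ 2 * (((x : ℂ) * a) * conj ((y : ℂ) * c)).re
      = x * y * ((g * a) * conj (g * c)).re := by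
    intro g a c x y
    have h1 : (g * a) * conj (g * c) = ((‖g‖ ^ 2 : ℝ) : ℂ) * (a * conj c) := by
      rw [map_mul]
      have := Complex.mul_conj g
      rw [Complex.normSq_eq_norm_sq] at this
      rw [← this]
      ring
    have h2 : ((x : ℂ) * a) * conj ((y : ℂ) * c) = ((x * y : ℝ) : ℂ) * (a * conj c) := by
      rw [map_mul, Complex.conj_ofReal]
      push_cast
      ring
    rw [h1, h2, Complex.re_ofReal_mul, Complex.re_ofReal_mul]
    ring
  have hpow : ∀ (t : ℝ), 0 < t → ∀ n : ℕ, t ^ (b - 1) * t ^ n = t ^ (b - 1 + n) := by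
    intro t ht n
    rw [Real.rpow_add ht, Real.rpow_natCast]
  have e1 : ∀ z ∈ ball (0 : ℂ) 1, (1 - ‖z‖ ^ 2) ^ (b - 1) * ‖Complex.exp (s * H z)‖ ^ 2
      * relvs s b (cc H z) A B = (1 - ‖z‖ ^ 2) ^ p * (th F z * conj (K z)).re
        - p * ((1 - ‖z‖ ^ 2) ^ (p - 1) * (F z * conj (K z)).re) := by
    intro z hz
    have hz1 : ‖z‖ < 1 := by simpa using hz
    have ht : 0 < 1 - ‖z‖ ^ 2 := by nlinarith [norm_nonneg z]
    have hzρ : z ∈ ball (0 : ℂ) ρ := ball_subset_ball hρ.le hz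
    unfold relvs
    rw [DGs_cc, ev_cc, ev_cc, mul_sub, hFdef, th_ev_s s hρ0 hH hzρ A]
    congr 1
    · rw [mul_assoc, hprod]
      have h3 : (p : ℝ) = b - 1 + ((wt A + 1 + wt B : ℕ) : ℝ) := by
        rw [hp]; push_cast; ring
      rw [h3, ← hpow _ ht, pow_add]
      ring
    · have h3 : (p - 1 : ℝ) = b - 1 + ((wt A + wt B : ℕ) : ℝ) := by
        rw [hp]; push_cast; ring
      rw [h3, ← hpow _ ht, pow_add, ← hp]
      have := hprod (Complex.exp (s * H z)) (ev (fun k => gg H k z) A)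
        (ev (fun k => gg H k z) B) ((1 - ‖z‖ ^ 2) ^ wt A) ((1 - ‖z‖ ^ 2) ^ wt B)
      linear_combination ((1 - ‖z‖ ^ 2) ^ (b - 1) * p) * this
  have e2 : ∀ z ∈ ball (0 : ℂ) 1, (1 - ‖z‖ ^ 2) ^ (b - 1) * ‖Complex.exp (s * H z)‖ ^ 2
      * ((1 - ‖z‖ ^ 2) * (ev (cc H z) A * conj (ev (cc H z) B)).re)
        = (1 - ‖z‖ ^ 2) ^ p * (F z * conj (K z)).re := by
    intro z hz
    have hz1 : ‖z‖ < 1 := by simpa using hz
    have ht : 0 < 1 - ‖z‖ ^ 2 := by nlinarith [norm_nonneg z]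
    rw [ev_cc, ev_cc]
    have h3 : (p : ℝ) = b - 1 + ((wt A + wt B + 1 : ℕ) : ℝ) := by
      rw [hp]; push_cast; ring
    rw [h3, ← hpow _ ht, pow_add, pow_add, pow_one]
    have := hprod (Complex.exp (s * H z)) (ev (fun k => gg H k z) A)
      (ev (fun k => gg H k z) B) ((1 - ‖z‖ ^ 2) ^ wt A) ((1 - ‖z‖ ^ 2) ^ wt B)
    linear_combination ((1 - ‖z‖ ^ 2) ^ (b - 1) * (1 - ‖z‖ ^ 2)) * this
  have hL : LGs s H b (fun z => relvs s b (cc H z) A B)
      = (1 / π) * (∫ z in ball (0 : ℂ) 1, (1 - ‖z‖ ^ 2) ^ p * (th F z * conj (K z)).re)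
        - p * ((1 / π) * ∫ z in ball (0 : ℂ) 1, (1 - ‖z‖ ^ 2) ^ (p - 1)
            * (F z * conj (K z)).re) := by
    unfold LGs
    rw [setIntegral_congr_fun measurableSet_ball e1,
      integral_sub (integrableOn_rel hρ hT hK hp0)
        ((integrableOn_rel hρ hF hK hpm).const_mul p), integral_const_mul]
    ring
  have hR : LGs s H b (fun z => (1 - ‖z‖ ^ 2) * (ev (cc H z) A * conj (ev (cc H z) B)).re)
      = (1 / π) * ∫ z in ball (0 : ℂ) 1, (1 - ‖z‖ ^ 2) ^ p * (F z * conj (K z)).re := by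
    unfold LGs
    rw [setIntegral_congr_fun measurableSet_ball e2]
  rw [hL, hR]
  exact parts hρ hF hK hp1

theorem relation {ρ : ℝ} (hρ : 1 < ρ) {H : ℂ → ℂ} (hH : DifferentiableOn ℂ H (ball 0 ρ)) {b : ℝ}
    (hb : 1 ≤ b) (A B : List ℕ) :
    LG H b (fun z => relv b (cc H z) A B)
      = -(b + wt A + wt B + 1) * LG H b (fun z => (1 - ‖z‖ ^ 2)
          * (ev (cc H z) A * conj (ev (cc H z) B)).re) := by
  have h := relation_s (-1) hρ hH hb A B
  rw [LGs_neg_one, LGs_neg_one] at h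
  simp only [relvs_neg_one] at h
  exact h

end Pool.Agent.Helper39.MH
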