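import Mathlib
import Pool.Agent.Helper39.MH.LGBase
import Pool.Agent.Helper39.MH.Rel
import Pool.Agent.Helper39.MH.Bounds
import Pool.Agent.Helper39.MH.Ell

/-!
MP_16b0ee, project MH, module MH-14: assembly of the relations, the area inequality, the pointwise
constraint and the certificate.
-/

set_option autoImplicit false

open MeasureTheory Set Metric Filter Topology
open scoped Real ComplexConjugate

namespace Pool.Agent.Helper39.MH

open Pool.Agent.Helper39.Area (Ext phi)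
open Pool.Agent.Helper22.Marshall (coeff SepHol LogPhi dcoeff GLe)

section
variable {H : ℂ → ℂ} {ρ : ℝ}

theorem closed_sub (hρ : 1 < ρ) : closedBall (0 : ℂ) 1 ⊆ ball 0 ρ := closedBall_subset_ball hρ

theorem cc_cont (hρ : 1 < ρ) (hH : DifferentiableOn ℂ H (ball 0 ρ)) (n : ℕ) :
    ContinuousOn (fun z => cc H z n) (closedBall 0 1) := by
  have h1 : ContinuousOn (gg H n) (closedBall 0 1) :=
    (gg_diff (by linarith) hH n).continuousOn.mono (closed_sub hρ)
  have h2 : Continuous (fun z : ℂ => (((1 - ‖z‖ ^ 2) ^ (n + 1) : ℝ) : ℂ)) := by fun_prop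
  exact h2.continuousOn.mul h1

theorem ev_cont (hρ : 1 < ρ) (hH : DifferentiableOn ℂ H (ball 0 ρ)) (A : List ℕ) :
    ContinuousOn (fun z => ev (cc H z) A) (closedBall 0 1) := by
  induction A with
  | nil =>
    simp only [ev, List.map_nil, List.prod_nil]
    exact continuousOn_const
  | cons a A ih =>
    have h : (fun z => ev (cc H z) (a :: A)) = fun z => cc H z a * ev (cc H z) A := by
      funext z
      simp [ev]
    rw [h]
    exact (cc_cont hρ hH a).mul ih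

theorem dval_cont (hρ : 1 < ρ) (hH : DifferentiableOn ℂ H (ball 0 ρ)) (n : ℕ) :
    ContinuousOn (fun z => dval (cc H z) n) (closedBall 0 1) := by
  unfold dval
  split_ifs
  · exact (continuousOn_const.mul (cc_cont hρ hH 1)).sub ((cc_cont hρ hH 0).pow 2)
  · exact (continuousOn_const.mul (cc_cont hρ hH (n + 1))).add
      (continuousOn_finsetSum _ (fun i _ => (cc_cont hρ hH _).mul (cc_cont hρ hH _)))

theorem Dv_cont (hρ : 1 < ρ) (hH : DifferentiableOn ℂ H (ball 0 ρ)) (A : List ℕ) :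
    ContinuousOn (fun z => Dv (cc H z) A) (closedBall 0 1) := by
  induction A with
  | nil =>
    simp only [Dv]
    exact continuousOn_const
  | cons a A ih =>
    simp only [Dv]
    exact ((dval_cont hρ hH a).mul (ev_cont hρ hH A)).add ((cc_cont hρ hH a).mul ih)

theorem DG_cont (hρ : 1 < ρ) (hH : DifferentiableOn ℂ H (ball 0 ρ)) (A : List ℕ) :
    ContinuousOn (fun z => DG (cc H z) A) (closedBall 0 1) := by
  unfold DG
  exact ((continuousOn_const.mul (cc_cont hρ hH 0)).mul (ev_cont hρ hH A)).add (Dv_cont hρ hH A)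

theorem pair_cont (hρ : 1 < ρ) (hH : DifferentiableOn ℂ H (ball 0 ρ)) (A B : List ℕ) :
    ContinuousOn (fun z => (ev (cc H z) A * conj (ev (cc H z) B)).re) (closedBall 0 1) :=
  Complex.continuous_re.comp_continuousOn ((ev_cont hρ hH A).mul
    (Complex.continuous_conj.comp_continuousOn (ev_cont hρ hH B)))

theorem relv_cont (hρ : 1 < ρ) (hH : DifferentiableOn ℂ H (ball 0 ρ)) (b : ℝ) (A B : List ℕ) :
    ContinuousOn (fun z => relv b (cc H z) A B) (closedBall 0 1) := by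
  unfold relv
  exact (Complex.continuous_re.comp_continuousOn ((DG_cont hρ hH A).mul
    (Complex.continuous_conj.comp_continuousOn (ev_cont hρ hH B)))).sub
    (continuousOn_const.mul (pair_cont hρ hH A B))

theorem qf_cont (hρ : 1 < ρ) (hH : DifferentiableOn ℂ H (ball 0 ρ)) (Q : Fin 3 → Fin 3 → ℝ)
    (b : ℝ) : ContinuousOn (fun z => qf Q b (cc H z)) (closedBall 0 1) := by
  unfold qf
  exact continuousOn_const.mul (continuousOn_finsetSum _ (fun r _ =>
    continuousOn_finsetSum _ (fun s _ => continuousOn_const.mul (pair_cont hρ hH _ _))))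

theorem evv_cont (hρ : 1 < ρ) (hH : DifferentiableOn ℂ H (ball 0 ρ))
    (v : List (ℝ × List ℕ × List ℕ)) :
    ContinuousOn (fun z => evv (cc H z) v) (closedBall 0 1) := by
  induction v with
  | nil =>
    simp only [evv, List.map_nil, List.sum_nil]
    exact continuousOn_const
  | cons a v ih =>
    have h : (fun z => evv (cc H z) (a :: v)) = fun z =>
        (a.1 : ℂ) * (ev (cc H z) a.2.1 * conj (ev (cc H z) a.2.2)) + evv (cc H z) v := by
      funext z
      simp [evv]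
    rw [h]
    exact (continuousOn_const.mul ((ev_cont hρ hH _).mul
      (Complex.continuous_conj.comp_continuousOn (ev_cont hρ hH _)))).add ih

theorem ell_cont (hρ : 1 < ρ) (hH : DifferentiableOn ℂ H (ball 0 ρ)) :
    ContinuousOn (fun z => ell (cc H z)) (closedBall 0 1) := by
  have h0 := cc_cont hρ hH 0
  have h1 := cc_cont hρ hH 1
  have h2 := cc_cont hρ hH 2
  unfold ell
  fun_prop

end

/-- bound of the monomials -/
noncomputable def Mb (Cb : ℕ → ℝ) (A : List ℕ) : ℝ := (A.map Cb).prod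

theorem Mb_nonneg {Cb : ℕ → ℝ} (h : ∀ n, 0 ≤ Cb n) (A : List ℕ) : 0 ≤ Mb Cb A := by
  induction A with
  | nil => simp [Mb]
  | cons a A ih =>
    have : Mb Cb (a :: A) = Cb a * Mb Cb A := by simp [Mb]
    rw [this]
    exact mul_nonneg (h a) ih

theorem ev_le {Cb : ℕ → ℝ} (h : ∀ n, 0 ≤ Cb n) {c : ℕ → ℂ} (hc : ∀ n, ‖c n‖ ≤ Cb n)
    (A : List ℕ) : ‖ev c A‖ ≤ Mb Cb A := by
  induction A with
  | nil => simp [Mb, ev]
  | cons a A ih =>
    have h1 : Mb Cb (a :: A) = Cb a * Mb Cb A := by simp [Mb]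
    have h2 : ev c (a :: A) = c a * ev c A := by simp [ev]
    rw [h1, h2, norm_mul]
    exact mul_le_mul (hc a) ih (norm_nonneg _) (h a)

/-- bound of the polynomials -/
noncomputable def Mv (Cb : ℕ → ℝ) (v : List (ℝ × List ℕ × List ℕ)) : ℝ :=
  (v.map (fun x => |x.1| * (Mb Cb x.2.1 * Mb Cb x.2.2))).sum

theorem evv_le {Cb : ℕ → ℝ} (h : ∀ n, 0 ≤ Cb n) {c : ℕ → ℂ} (hc : ∀ n, ‖c n‖ ≤ Cb n)
    (v : List (ℝ × List ℕ × List ℕ)) : ‖evv c v‖ ≤ Mv Cb v := by
  induction v with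
  | nil => simp [Mv, evv]
  | cons a v ih =>
    have h1 : Mv Cb (a :: v) = |a.1| * (Mb Cb a.2.1 * Mb Cb a.2.2) + Mv Cb v := by simp [Mv]
    have h2 : evv c (a :: v) = (a.1 : ℂ) * (ev c a.2.1 * conj (ev c a.2.2)) + evv c v := by
      simp [evv]
    rw [h1, h2]
    refine (norm_add_le _ _).trans (add_le_add ?_ ih)
    rw [norm_mul, norm_mul, Complex.norm_real, Real.norm_eq_abs, RCLike.norm_conj]
    exact mul_le_mul_of_nonneg_left (mul_le_mul (ev_le h hc _) (ev_le h hc _) (norm_nonneg _)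
      (Mb_nonneg h _)) (abs_nonneg _)

theorem LG_one_nonneg {ρ : ℝ} (hρ : 1 < ρ) {H : ℂ → ℂ} (hH : DifferentiableOn ℂ H (ball 0 ρ))
    {b : ℝ} (hb : 1 ≤ b) : 0 ≤ LG H b (fun _ => 1) :=
  LG_nonneg (hH.continuousOn.mono (closed_sub hρ)) hb continuousOn_const (fun _ _ => zero_le_one)

/-- the integral with one more power of `1 - |z|^2` -/
theorem LG_tau_le {δ : ℝ} (hδ : 0 < δ) {b : ℝ} (hb : 1 ≤ b) : ∃ C : ℝ,
    ∀ (ρ : ℝ) (β H : ℂ → ℂ) (Φ : ℂ → ℂ → ℂ), Data ρ β H Φ →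
      LG H b (fun z => 1 - ‖z‖ ^ 2) ≤ δ * LG H b (fun _ => 1) + C := by
  obtain ⟨C, hC⟩ := exp_bound hδ
  refine ⟨(1 / π) * ∫ z in ball (0 : ℂ) 1, |C|, ?_⟩
  intro ρ β H Φ h
  have hH1 : DifferentiableOn ℂ H (ball 0 1) := h.diff.mono (ball_subset_ball h.one_lt.le)
  have hHc : ContinuousOn H (closedBall 0 1) := h.diff.continuousOn.mono (closed_sub h.one_lt)
  have hH0 : H 0 = 0 := by
    rw [← h.logPhi.diag 0 (mem_ball_self one_pos), h.logPhi.zero_right 0 (mem_ball_self one_pos)]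
  rw [← LG_smul]
  unfold LG
  rw [← mul_add, ← integral_add (lg_int hHc hb (by fun_prop)) (by
    refine integrableOn_const ?_
    exact measure_ball_lt_top.ne)]
  apply mul_le_mul_of_nonneg_left _ (by positivity)
  apply setIntegral_mono_on (lg_int hHc hb (by fun_prop)) _ measurableSet_ball
  · intro z hz
    have hz1 : ‖z‖ < 1 := by simpa using hz
    have hn := norm_nonneg z
    have h0 : 0 < 1 - ‖z‖ ^ 2 := by nlinarith
    have h1 : 0 ≤ (1 - ‖z‖ ^ 2) ^ (b - 1) := Real.rpow_nonneg h0.le _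
    by_cases hc : 1 - ‖z‖ ^ 2 ≤ δ
    · have h2 : 0 ≤ (1 - ‖z‖ ^ 2) ^ (b - 1) * ‖Complex.exp (-H z)‖ ^ 2 := by positivity
      have h3 := mul_le_mul_of_nonneg_left hc h2
      have h4 := abs_nonneg C
      linarith
    · have h2 := hC H hH1 h.bloch hH0 z hz (by linarith)
      have h3 : (1 - ‖z‖ ^ 2) ^ (b - 1) ≤ 1 :=
        Real.rpow_le_one h0.le (by nlinarith) (by linarith)
      have h4 : ‖Complex.exp (-H z)‖ ^ 2 ≤ |C| := h2.trans (le_abs_self C)
      have h5 : (1 - ‖z‖ ^ 2) ^ (b - 1) * ‖Complex.exp (-H z)‖ ^ 2 * (1 - ‖z‖ ^ 2)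
          ≤ 1 * |C| * 1 := by
        gcongr
        nlinarith
      have h6 : 0 ≤ (1 - ‖z‖ ^ 2) ^ (b - 1) * ‖Complex.exp (-H z)‖ ^ 2 * (δ * 1) := by positivity
      linarith
  · exact (lg_int hHc hb (by fun_prop)).add (by
      refine integrableOn_const ?_
      exact measure_ball_lt_top.ne)

theorem cmul {f g : ℂ → ℝ} (hf : ContinuousOn f (closedBall 0 1))
    (hg : ContinuousOn g (closedBall 0 1)) :
    ContinuousOn (fun z => f z * g z) (closedBall 0 1) := hf.mul hg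

theorem cadd {f g : ℂ → ℝ} (hf : ContinuousOn f (closedBall 0 1))
    (hg : ContinuousOn g (closedBall 0 1)) :
    ContinuousOn (fun z => f z + g z) (closedBall 0 1) := hf.add hg

theorem csm (k : ℝ) {f : ℂ → ℝ} (hf : ContinuousOn f (closedBall 0 1)) :
    ContinuousOn (fun z => k * f z) (closedBall 0 1) := continuousOn_const.mul hf

/-- a lower bound of one term of the relations -/
theorem rel_term {b : ℝ} (hb : 1 ≤ b) (A B : List ℕ) (lam : ℝ) : ∃ K : ℝ, 0 ≤ K ∧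
    ∀ (ρ : ℝ) (β H : ℂ → ℂ) (Φ : ℂ → ℂ → ℂ), Data ρ β H Φ →
      -(K * LG H b (fun z => 1 - ‖z‖ ^ 2)) ≤ LG H b (fun z => lam * relv b (cc H z) A B) := by
  obtain ⟨Cb, hCb0, hCb⟩ := gg_bound
  refine ⟨|lam| * (b + wt A + wt B + 1) * (Mb Cb A * Mb Cb B), ?_, ?_⟩
  · have := Mb_nonneg hCb0 A
    have := Mb_nonneg hCb0 B
    positivity
  intro ρ β H Φ h
  have hH1 : DifferentiableOn ℂ H (ball 0 1) := h.diff.mono (ball_subset_ball h.one_lt.le)
  have hHc : ContinuousOn H (closedBall 0 1) := h.diff.continuousOn.mono (closed_sub h.one_lt)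
  have hb1 : 0 ≤ b + wt A + wt B + 1 := by positivity
  rw [LG_smul, relation h.one_lt h.diff hb A B]
  have e1 : lam * (-(b + wt A + wt B + 1) * LG H b (fun z => (1 - ‖z‖ ^ 2)
          * (ev (cc H z) A * conj (ev (cc H z) B)).re))
      = LG H b (fun z => (-(lam * (b + wt A + wt B + 1))) * ((1 - ‖z‖ ^ 2)
          * (ev (cc H z) A * conj (ev (cc H z) B)).re)) := by
    rw [LG_smul]
    ring
  have e2 : -(|lam| * (b + wt A + wt B + 1) * (Mb Cb A * Mb Cb B)
      * LG H b (fun z => 1 - ‖z‖ ^ 2))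
      = LG H b (fun z => (-(|lam| * (b + wt A + wt B + 1) * (Mb Cb A * Mb Cb B)))
        * (1 - ‖z‖ ^ 2)) := by
    rw [LG_smul]
    ring
  rw [e1, e2]
  have hc1 : ContinuousOn (fun z : ℂ => (1 - ‖z‖ ^ 2 : ℝ)) (closedBall 0 1) := by fun_prop
  apply LG_mono hHc hb (csm _ hc1) (csm _ (cmul hc1 (pair_cont h.one_lt h.diff A B)))
  intro z hz
  have hz1 : ‖z‖ < 1 := by simpa using hz
  have h0 : 0 ≤ 1 - ‖z‖ ^ 2 := by nlinarith [norm_nonneg z]
  have hA := ev_le hCb0 (fun n => hCb H hH1 h.bloch n z hz) A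
  have hB := ev_le hCb0 (fun n => hCb H hH1 h.bloch n z hz) B
  have h1 : |(ev (cc H z) A * conj (ev (cc H z) B)).re| ≤ Mb Cb A * Mb Cb B := by
    refine (Complex.abs_re_le_norm _).trans ?_
    rw [norm_mul, RCLike.norm_conj]
    exact mul_le_mul hA hB (norm_nonneg _) (Mb_nonneg hCb0 A)
  have h2 : |lam * (b + wt A + wt B + 1) * ((1 - ‖z‖ ^ 2)
      * (ev (cc H z) A * conj (ev (cc H z) B)).re)|
      ≤ |lam| * (b + wt A + wt B + 1) * ((1 - ‖z‖ ^ 2) * (Mb Cb A * Mb Cb B)) := by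
    rw [abs_mul, abs_mul, abs_mul, abs_of_nonneg hb1, abs_of_nonneg h0]
    gcongr
  have h3 := abs_le.mp h2
  have e3 : -(lam * (b + wt A + wt B + 1)) * ((1 - ‖z‖ ^ 2)
      * (ev (cc H z) A * conj (ev (cc H z) B)).re)
      = -(lam * (b + wt A + wt B + 1) * ((1 - ‖z‖ ^ 2)
      * (ev (cc H z) A * conj (ev (cc H z) B)).re)) := by ring
  have e4 : -(|lam| * (b + wt A + wt B + 1) * (Mb Cb A * Mb Cb B)) * (1 - ‖z‖ ^ 2)
      = -(|lam| * (b + wt A + wt B + 1) * ((1 - ‖z‖ ^ 2) * (Mb Cb A * Mb Cb B))) := by ring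
  rw [e3, e4]
  exact neg_le_neg h3.2

theorem rel_sum {b : ℝ} (hb : 1 ≤ b) (rels : List (ℝ × List ℕ × List ℕ)) : ∃ K : ℝ, 0 ≤ K ∧
    ∀ (ρ : ℝ) (β H : ℂ → ℂ) (Φ : ℂ → ℂ → ℂ), Data ρ β H Φ →
      -(K * LG H b (fun z => 1 - ‖z‖ ^ 2))
        ≤ LG H b (fun z => (rels.map (fun x => x.1 * relv b (cc H z) x.2.1 x.2.2)).sum) := by
  induction rels with
  | nil =>
    refine ⟨0, le_rfl, ?_⟩
    intro ρ β H Φ h
    simp only [List.map_nil, List.sum_nil, zero_mul, neg_zero]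
    unfold LG
    simp
  | cons x l ih =>
    obtain ⟨K1, hK1, h1⟩ := rel_term hb x.2.1 x.2.2 x.1
    obtain ⟨K2, hK2, h2⟩ := ih
    refine ⟨K1 + K2, by positivity, ?_⟩
    intro ρ β H Φ h
    have hHc : ContinuousOn H (closedBall 0 1) := h.diff.continuousOn.mono (closed_sub h.one_lt)
    simp only [List.map_cons, List.sum_cons]
    have hl := (LG_list hHc hb l (fun x z => x.1 * relv b (cc H z) x.2.1 x.2.2)
      (fun y _ => csm _ (relv_cont h.one_lt h.diff b _ _))).2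
    rw [LG_add hHc hb (csm _ (relv_cont h.one_lt h.diff b _ _)) hl]
    have h3 := h1 ρ β H Φ h
    have h4 := h2 ρ β H Φ h
    linarith

/-- the multiplier of the pointwise constraint -/
noncomputable def locv (c : ℕ → ℂ) (loc : List (ℝ × List (ℝ × List ℕ × List ℕ))) : ℝ :=
  (loc.map (fun x => x.1 * ‖evv c x.2‖ ^ 2)).sum

theorem locv_nonneg (c : ℕ → ℂ) {loc : List (ℝ × List (ℝ × List ℕ × List ℕ))}
    (h : ∀ x ∈ loc, 0 ≤ x.1) : 0 ≤ locv c loc := by
  unfold locv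
  apply List.sum_nonneg
  intro y hy
  obtain ⟨x, hx, rfl⟩ := List.mem_map.mp hy
  exact mul_nonneg (h x hx) (by positivity)

theorem locv_le {Cb : ℕ → ℝ} (h0 : ∀ n, 0 ≤ Cb n) (loc : List (ℝ × List (ℝ × List ℕ × List ℕ)))
    (h : ∀ x ∈ loc, 0 ≤ x.1) {c : ℕ → ℂ} (hc : ∀ n, ‖c n‖ ≤ Cb n) :
    locv c loc ≤ (loc.map (fun x => x.1 * Mv Cb x.2 ^ 2)).sum := by
  unfold locv
  apply List.sum_le_sum
  intro x hx
  have h1 := evv_le h0 hc x.2
  have h2 := norm_nonneg (evv c x.2)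
  exact mul_le_mul_of_nonneg_left (pow_le_pow_left₀ h2 h1 2) (h x hx)

theorem locv_cont {ρ : ℝ} {H : ℂ → ℂ} (hρ : 1 < ρ) (hH : DifferentiableOn ℂ H (ball 0 ρ))
    (loc : List (ℝ × List (ℝ × List ℕ × List ℕ))) :
    ContinuousOn (fun z => locv (cc H z) loc) (closedBall 0 1) := by
  induction loc with
  | nil =>
    simp only [locv, List.map_nil, List.sum_nil]
    exact continuousOn_const
  | cons x l ih =>
    have h : (fun z => locv (cc H z) (x :: l)) = fun z =>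
        x.1 * ‖evv (cc H z) x.2‖ ^ 2 + locv (cc H z) l := by
      funext z
      simp [locv]
    rw [h]
    exact (continuousOn_const.mul ((evv_cont hρ hH x.2).norm.pow 2)).add ih

/-- assembly for a general certificate -/
theorem core_of {b : ℝ} (hb : 1 ≤ b) (Q : Fin 3 → Fin 3 → ℝ)
    (harea : ∀ ε : ℝ, 0 < ε → ∃ C : ℝ, ∀ (ρ : ℝ) (β H : ℂ → ℂ) (Φ : ℂ → ℂ → ℂ), Data ρ β H Φ →
      LG H b (fun z => qf Q b (cc H z)) ≤ (1 + ε) * LG H b (fun _ => 1) + C)
    (hcert : ∃ (rels : List (ℝ × List ℕ × List ℕ)) (η α : ℝ)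
      (loc : List (ℝ × List (ℝ × List ℕ × List ℕ))), 0 < η ∧ 0 ≤ α ∧ (∀ x ∈ loc, 0 ≤ x.1) ∧
      ∀ c : ℕ → ℂ, η + α * (1 - qf Q b c)
        + (rels.map (fun x => x.1 * relv b c x.2.1 x.2.2)).sum
        + (loc.map (fun x => x.1 * ‖evv c x.2‖ ^ 2)).sum * ell c ≤ 0) :
    ∃ C : ℝ, ∀ (ρ : ℝ) (β H : ℂ → ℂ) (Φ : ℂ → ℂ → ℂ), Data ρ β H Φ →
      LG H b (fun _ => 1) ≤ C := by
  obtain ⟨rels, η, α, loc, hη, hα, hloc, hc⟩ := hcert
  have hε : 0 < η / (2 * (α + 1)) := by positivity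
  obtain ⟨CA, hCA⟩ := harea _ hε
  obtain ⟨CE, hCE0, hCE⟩ := ell_ge
  obtain ⟨Cb, hCb0, hCb⟩ := gg_bound
  obtain ⟨K1, hK1, hrel⟩ := rel_sum hb rels
  obtain ⟨K2, hK2⟩ : ∃ K2, K2 = (loc.map (fun x => x.1 * Mv Cb x.2 ^ 2)).sum := ⟨_, rfl⟩
  have hK20 : 0 ≤ K2 := by
    rw [hK2]
    apply List.sum_nonneg
    intro y hy
    obtain ⟨x, hx, rfl⟩ := List.mem_map.mp hy
    exact mul_nonneg (hloc x hx) (by positivity)
  obtain ⟨K, hK⟩ : ∃ K, K = K1 + CE * K2 := ⟨_, rfl⟩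
  have hK0 : 0 ≤ K := by rw [hK]; positivity
  obtain ⟨Ct, hCt⟩ := LG_tau_le (δ := η / (4 * (K + 1))) (by positivity) hb
  refine ⟨(α * |CA| + K * |Ct|) * (4 / η), ?_⟩
  intro ρ β H Φ h
  have hH1 : DifferentiableOn ℂ H (ball 0 1) := h.diff.mono (ball_subset_ball h.one_lt.le)
  have hHc : ContinuousOn H (closedBall 0 1) := h.diff.continuousOn.mono (closed_sub h.one_lt)
  obtain ⟨I0, hI0⟩ : ∃ I0, I0 = LG H b (fun _ => 1) := ⟨_, rfl⟩
  obtain ⟨I1, hI1⟩ : ∃ I1, I1 = LG H b (fun z => 1 - ‖z‖ ^ 2) := ⟨_, rfl⟩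
  have hI00 : 0 ≤ I0 := by rw [hI0]; exact LG_one_nonneg h.one_lt h.diff hb
  have hA := hCA ρ β H Φ h
  have hR := hrel ρ β H Φ h
  have hT := hCt ρ β H Φ h
  have cone : ContinuousOn (fun _ : ℂ => (1 : ℝ)) (closedBall 0 1) := continuousOn_const
  have ctau : ContinuousOn (fun z : ℂ => (1 - ‖z‖ ^ 2 : ℝ)) (closedBall 0 1) := by fun_prop
  have crel := (LG_list hHc hb rels (fun x z => x.1 * relv b (cc H z) x.2.1 x.2.2)
      (fun y _ => csm _ (relv_cont h.one_lt h.diff b _ _))).2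
  have cqf := qf_cont h.one_lt h.diff Q b
  have cloc := locv_cont h.one_lt h.diff loc
  have cell := ell_cont h.one_lt h.diff
  -- the pointwise constraint
  have hL : -(CE * K2 * I1) ≤ LG H b (fun z => locv (cc H z) loc * ell (cc H z)) := by
    have e1 : -(CE * K2 * I1) = LG H b (fun z => (-(CE * K2)) * (1 - ‖z‖ ^ 2)) := by
      rw [LG_smul, hI1]
      ring
    rw [e1]
    apply LG_mono hHc hb (csm _ ctau) (cmul cloc cell)
    intro z hz
    have hz1 : ‖z‖ < 1 := by simpa using hz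
    have h0 : 0 ≤ 1 - ‖z‖ ^ 2 := by nlinarith [norm_nonneg z]
    have h1 := hCE ρ β H Φ h z hz
    have h2 := locv_nonneg (cc H z) hloc
    have h3 := locv_le hCb0 loc hloc (fun n => hCb H hH1 h.bloch n z hz)
    rw [← hK2] at h3
    have h4 : locv (cc H z) loc * (CE * (1 - ‖z‖ ^ 2)) ≤ K2 * (CE * (1 - ‖z‖ ^ 2)) :=
      mul_le_mul_of_nonneg_right h3 (by positivity)
    have h5 := mul_le_mul_of_nonneg_left h1 h2
    linarith
  -- integrate the certificate
  have hint : LG H b (fun z => (((η * 1 + α * (1 + -1 * qf Q b (cc H z)))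
      + (rels.map (fun x => x.1 * relv b (cc H z) x.2.1 x.2.2)).sum)
      + locv (cc H z) loc * ell (cc H z))) ≤ 0 := by
    have h0 : LG H b (fun _ => (0 : ℝ)) = 0 := by
      unfold LG
      simp
    rw [← h0]
    apply LG_mono hHc hb _ continuousOn_const
    · intro z _
      have := hc (cc H z)
      unfold locv
      linarith
    · exact cadd (cadd (cadd (csm η cone) (csm α (cadd cone (csm (-1) cqf)))) crel)
        (cmul cloc cell)
  rw [LG_add hHc hb (cadd (cadd (csm η cone) (csm α (cadd cone (csm (-1) cqf)))) crel)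
      (cmul cloc cell),
    LG_add hHc hb (cadd (csm η cone) (csm α (cadd cone (csm (-1) cqf)))) crel,
    LG_add hHc hb (csm η cone) (csm α (cadd cone (csm (-1) cqf))), LG_smul, LG_smul,
    LG_add hHc hb cone (csm (-1) cqf), LG_smul] at hint
  rw [← hI0] at hint hA hT
  rw [← hI1] at hR hT
  have hα1 : α * (η / (2 * (α + 1))) ≤ η / 2 := by
    rw [mul_div_assoc', div_le_div_iff₀ (by positivity) (by norm_num)]
    nlinarith
  have hK1' : K * (η / (4 * (K + 1))) ≤ η / 4 := by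
    rw [mul_div_assoc', div_le_div_iff₀ (by positivity) (by norm_num)]
    nlinarith
  have h1 := mul_le_mul_of_nonneg_left hA hα
  have h2 := mul_le_mul_of_nonneg_left hT hK0
  have h3 := mul_le_mul_of_nonneg_right hα1 hI00
  have h4 := mul_le_mul_of_nonneg_right hK1' hI00
  have h5 := mul_le_mul_of_nonneg_left (le_abs_self CA) hα
  have h6 := mul_le_mul_of_nonneg_left (le_abs_self Ct) hK0
  have h7 : K * I1 = K1 * I1 + CE * K2 * I1 := by rw [hK]; ring
  have h8 : η / 4 * I0 ≤ α * |CA| + K * |Ct| := by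
    have e1 : α * ((1 + η / (2 * (α + 1))) * I0 + CA)
        = α * I0 + α * (η / (2 * (α + 1))) * I0 + α * CA := by ring
    have e2 : K * (η / (4 * (K + 1)) * I0 + Ct) = K * (η / (4 * (K + 1))) * I0 + K * Ct := by ring
    rw [e1] at h1
    rw [e2] at h2
    linarith
  rw [← hI0]
  have e9 : I0 = (η / 4 * I0) * (4 / η) := by
    field_simp
  rw [e9]
  exact mul_le_mul_of_nonneg_right h8 (by positivity)

end Pool.Agent.Helper39.MH
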