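import Mathlib
import Pool.Agent.Helper39.MH.Defs
import Pool.Agent.Helper39.MH.Bridge
import Pool.Agent.Helper24.Br.Inj
import Pool.Agent.Helper22.Half.MeanA
import Pool.Agent.Helper39.Dim.Bloch2

/-!
MP_16b0ee, project MH, module MH-15: dilation and transfer to the exterior of the unit disc.
-/

set_option autoImplicit false

open MeasureTheory Set Metric Filter Topology
open scoped Real ComplexConjugate

namespace Pool.Agent.Helper39.MH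

open Pool.Agent.Helper22.Half
open Pool.Agent.Helper22.Marshall (coeff SepHol LogPhi dcoeff GLe parseval_comb exists_logPhi)
open Pool.Agent.Helper39.Area (Ext phi toDisc)
open Pool.Agent.Helper24.Br (deriv_ne_of_inj exists_log_ball)

/-- the data in the unit disc of a map of the class -/
private theorem disc_data {ψ : ℂ → ℂ} {c : ℂ}
    (hψ : DifferentiableOn ℂ ψ {z : ℂ | 1 < ‖z‖})
    (hinj : Set.InjOn ψ {z : ℂ | 1 < ‖z‖})
    (hc : Tendsto (fun z => ψ z - z) (Bornology.cobounded ℂ) (𝓝 c)) :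
    ∃ β H : ℂ → ℂ, Ext β ∧ DifferentiableOn ℂ H (ball 0 1) ∧ H 0 = 0 ∧
      (∀ z ∈ ball (0 : ℂ) 1, Complex.exp (H z) = 1 - z ^ 2 * deriv β z) ∧
      (∀ z ∈ ball (0 : ℂ) 1, (1 - ‖z‖ ^ 2) * ‖deriv H z‖ ≤ 28) ∧
      ∀ ζ ∈ ball (0 : ℂ) 1, ζ ≠ 0 → Complex.exp (H ζ) = deriv ψ ζ⁻¹ := by
  have hne : ∀ z : ℂ, 1 < ‖z‖ → deriv ψ z ≠ 0 := fun z hz =>
    deriv_ne_of_inj Pool.Agent.Helper39.Area.isOpen_ext hψ hinj hz
  have hexp : ∀ z : ℂ, 1 < ‖z‖ → Complex.exp ((fun z => Complex.log (deriv ψ z)) z) =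
      deriv ψ z := fun z hz => Complex.exp_log (hne z hz)
  obtain ⟨hE, hex⟩ := Pool.Agent.Helper39.Area.ext_data hψ hinj hc hexp
  have hq : DifferentiableOn ℂ (fun ζ => 1 - ζ ^ 2 * deriv (toDisc c (fun z => ψ z - z)) ζ)
      (ball 0 1) := by
    have h1 := hE.diff.deriv isOpen_ball
    have h2 : DifferentiableOn ℂ (fun ζ : ℂ => ζ ^ 2) (ball 0 1) := by fun_prop
    exact (differentiableOn_const (1 : ℂ)).sub (h2.mul h1)
  obtain ⟨H, hH, hH0, hHe⟩ := exists_log_ball hq (fun z hz => hE.ne z hz) (by simp)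
  have hHψ : ∀ ζ ∈ ball (0 : ℂ) 1, ζ ≠ 0 → Complex.exp (H ζ) = deriv ψ ζ⁻¹ := by
    intro ζ hζ h0
    rw [hHe ζ hζ, ← hex ζ hζ]
    simp only [toDisc]
    rw [if_neg h0]
    exact Complex.exp_log (hne _ (Pool.Agent.Helper39.Area.inv_mem hζ h0))
  refine ⟨toDisc c (fun z => ψ z - z), H, hE, hH, hH0, hHe, ?_, hHψ⟩
  -- the logarithm in the exterior domain
  have hmem : ∀ z : ℂ, 1 < ‖z‖ → z ≠ 0 ∧ z⁻¹ ∈ ball (0 : ℂ) 1 := by
    intro z hz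
    have hz0 : z ≠ 0 := by
      rintro rfl
      simp at hz
      linarith
    refine ⟨hz0, ?_⟩
    rw [mem_ball_zero_iff, norm_inv]
    exact inv_lt_one_of_one_lt₀ hz
  have hh : DifferentiableOn ℂ (fun z => H z⁻¹) {z : ℂ | 1 < ‖z‖} := by
    intro z hz
    obtain ⟨hz0, hzb⟩ := hmem z hz
    exact ((hH.differentiableAt (isOpen_ball.mem_nhds hzb)).comp z
      (differentiableAt_inv hz0)).differentiableWithinAt
  have hexph : ∀ z : ℂ, 1 < ‖z‖ → Complex.exp ((fun z => H z⁻¹) z) = deriv ψ z := by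
    intro z hz
    obtain ⟨hz0, hzb⟩ := hmem z hz
    have := hHψ z⁻¹ hzb (inv_ne_zero hz0)
    rwa [inv_inv] at this
  have hlim : Tendsto (fun z => H z⁻¹) (Bornology.cobounded ℂ) (𝓝 0) := by
    have h1 : ContinuousAt H 0 := hH.continuousOn.continuousAt (ball_mem_nhds 0 one_pos)
    have h2 : Tendsto H (𝓝 0) (𝓝 0) := by
      have h3 : Tendsto H (𝓝 0) (𝓝 (H 0)) := h1
      rwa [hH0] at h3
    exact h2.comp tendsto_inv₀_cobounded
  have heq : toDisc 0 (fun z => H z⁻¹) = H := by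
    funext ζ
    simp only [toDisc]
    split_ifs with h
    · rw [h, hH0]
    · rw [inv_inv]
  intro z hz
  have := Pool.Agent.Helper39.Dim.bloch_disc hψ hinj ⟨c, hc⟩ hh hexph hlim hz
  rwa [heq] at this

/-- the dilated data -/
private theorem dil_data {β H : ℂ → ℂ} (hE : Ext β) (hH : DifferentiableOn ℂ H (ball 0 1))
    (hH0 : H 0 = 0) (hexp : ∀ z ∈ ball (0 : ℂ) 1, Complex.exp (H z) = 1 - z ^ 2 * deriv β z)
    (hbl : ∀ z ∈ ball (0 : ℂ) 1, (1 - ‖z‖ ^ 2) * ‖deriv H z‖ ≤ 28) {ρ : ℝ} (hρ : 1 < ρ) :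
    ∃ (βρ : ℂ → ℂ) (Φ : ℂ → ℂ → ℂ), Data ρ βρ (fun z => H (z / (ρ : ℂ))) Φ := by
  have hρ0 : 0 < ρ := by linarith
  have hρc : (ρ : ℂ) ≠ 0 := by exact_mod_cast hρ0.ne'
  have hnρ : ‖(ρ : ℂ)‖ = ρ := by rw [Complex.norm_real, Real.norm_of_nonneg hρ0.le]
  have hmem' : ∀ z ∈ ball (0 : ℂ) ρ, z / (ρ : ℂ) ∈ ball (0 : ℂ) 1 := by
    intro z hz
    rw [mem_ball_zero_iff] at hz ⊢
    rw [norm_div, hnρ, div_lt_one hρ0]
    exact hz
  have hmem : ∀ z ∈ ball (0 : ℂ) 1, z / (ρ : ℂ) ∈ ball (0 : ℂ) 1 := by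
    intro z hz
    apply hmem' z
    rw [mem_ball_zero_iff] at hz ⊢
    linarith
  have hd : ∀ {F : ℂ → ℂ}, DifferentiableOn ℂ F (ball 0 1) → ∀ z ∈ ball (0 : ℂ) ρ,
      HasDerivAt (fun z => F (z / (ρ : ℂ))) (deriv F (z / (ρ : ℂ)) * (1 / (ρ : ℂ))) z := by
    intro F hF z hz
    have h1 : HasDerivAt F (deriv F (z / (ρ : ℂ))) (z / (ρ : ℂ)) :=
      (hF.differentiableAt (isOpen_ball.mem_nhds (hmem' z hz))).hasDerivAt
    exact h1.comp z ((hasDerivAt_id z).div_const (ρ : ℂ))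
  have hsub : ∀ z ∈ ball (0 : ℂ) 1, z ∈ ball (0 : ℂ) ρ := by
    intro z hz
    rw [mem_ball_zero_iff] at hz ⊢
    linarith
  have hdβ : ∀ z ∈ ball (0 : ℂ) 1,
      HasDerivAt (fun z => β (z / (ρ : ℂ)) / (ρ : ℂ)) (deriv β (z / (ρ : ℂ)) / (ρ : ℂ) ^ 2) z := by
    intro z hz
    have h1 := (hd hE.diff z (hsub z hz)).div_const (ρ : ℂ)
    have e : deriv β (z / (ρ : ℂ)) / (ρ : ℂ) ^ 2
        = deriv β (z / (ρ : ℂ)) * (1 / (ρ : ℂ)) / (ρ : ℂ) := by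
      field_simp
    rw [e]
    exact h1
  have hexpρ : ∀ z ∈ ball (0 : ℂ) 1, Complex.exp (H (z / (ρ : ℂ)))
      = 1 - z ^ 2 * deriv (fun z => β (z / (ρ : ℂ)) / (ρ : ℂ)) z := by
    intro z hz
    rw [(hdβ z hz).deriv, hexp _ (hmem z hz)]
    field_simp
  have hExt : Ext (fun z => β (z / (ρ : ℂ)) / (ρ : ℂ)) := by
    refine ⟨fun z hz => (hdβ z hz).differentiableAt.differentiableWithinAt, ?_, ?_⟩
    · intro ζ ω hζ hω hζ0 hω0 heq
      have h1 := hE.inj (ζ / (ρ : ℂ)) (ω / (ρ : ℂ)) (hmem ζ hζ) (hmem ω hω)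
        (div_ne_zero hζ0 hρc) (div_ne_zero hω0 hρc) (by
          rw [inv_div, inv_div, div_eq_mul_inv, div_eq_mul_inv]
          have h2 : (ρ : ℂ) * (ζ⁻¹ + β (ζ / (ρ : ℂ)) / (ρ : ℂ))
              = (ρ : ℂ) * (ω⁻¹ + β (ω / (ρ : ℂ)) / (ρ : ℂ)) := by rw [heq]
          rw [mul_add, mul_add, mul_div_cancel₀ _ hρc, mul_div_cancel₀ _ hρc] at h2
          exact h2)
      exact (div_left_inj' hρc).mp h1
    · intro ζ hζ h'
      rw [← hexpρ ζ hζ] at h'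
      exact Complex.exp_ne_zero _ h'
  have hHρ : DifferentiableOn ℂ (fun z => H (z / (ρ : ℂ))) (ball 0 ρ) :=
    fun z hz => (hd hH z hz).differentiableAt.differentiableWithinAt
  obtain ⟨Φ, hΦ⟩ := exists_logPhi hExt (H := fun z => H (z / (ρ : ℂ)))
    (hHρ.continuousOn.mono (fun z hz => hsub z hz)) (by simp [hH0]) hexpρ
  refine ⟨_, Φ, hρ, hExt, hΦ, hHρ, ?_, hexpρ⟩
  intro z hz
  rw [(hd hH z (hsub z hz)).deriv, norm_mul, norm_div, norm_one, hnρ]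
  have h1 := hbl _ (hmem z hz)
  rw [norm_div, hnρ] at h1
  have h0 := norm_nonneg (deriv H (z / (ρ : ℂ)))
  have hz1 : ‖z‖ < 1 := mem_ball_zero_iff.mp hz
  have hz0 := norm_nonneg z
  have h2 : 1 - ‖z‖ ^ 2 ≤ 1 - (‖z‖ / ρ) ^ 2 := by
    have h3 : ‖z‖ / ρ ≤ ‖z‖ := div_le_self hz0 hρ.le
    have h4 : 0 ≤ ‖z‖ / ρ := by positivity
    nlinarith
  have h5 : 0 ≤ 1 - ‖z‖ ^ 2 := by nlinarith
  have h6 : 1 / ρ ≤ 1 := by
    rw [div_le_one hρ0]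
    exact hρ.le
  calc (1 - ‖z‖ ^ 2) * (‖deriv H (z / (ρ : ℂ))‖ * (1 / ρ))
      ≤ (1 - ‖z‖ ^ 2) * (‖deriv H (z / (ρ : ℂ))‖ * 1) := by gcongr
    _ ≤ (1 - (‖z‖ / ρ) ^ 2) * (‖deriv H (z / (ρ : ℂ))‖ * 1) := by gcongr
    _ ≤ 28 := by rw [mul_one]; exact h1

/-- the circle mean is bounded by the area integral -/
private theorem circle_le {ρ : ℝ} (hρ : 1 < ρ) {H : ℂ → ℂ} (hH : DifferentiableOn ℂ H (ball 0 ρ))
    {b : ℝ} (hb : 1 ≤ b) {r : ℝ} (hr0 : 0 ≤ r) (hr1 : r < 1) :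
    (1 / (2 * π)) * ∫ θ in (-π)..π,
      ‖Complex.exp (-H ((r : ℂ) * Complex.exp ((θ : ℂ) * Complex.I)))‖ ^ 2
      ≤ b * LG H b (fun _ => 1) * (1 - r ^ 2) ^ (-b) := by
  have hF : DifferentiableOn ℂ (fun z => Complex.exp (-H z)) (ball 0 ρ) := hH.neg.cexp
  have hF1 : DifferentiableOn ℂ (fun z => Complex.exp (-H z)) (ball 0 1) :=
    hF.mono (ball_subset_ball hρ.le)
  have hbr := bridge hρ hF hF (p := b - 1) (by linarith)
  have e1 : b - 1 + 1 = b := by ring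
  have e2 : b - 1 + 2 = b + 1 := by ring
  rw [e1, e2] at hbr
  have hL : (1 / π) * ∫ z in ball (0 : ℂ) 1, (1 - ‖z‖ ^ 2) ^ (b - 1)
      * (Complex.exp (-H z) * conj (Complex.exp (-H z))).re = LG H b (fun _ => 1) := by
    unfold LG
    congr 2
    funext z
    rw [Complex.mul_conj, Complex.normSq_eq_norm_sq, mul_one]
    norm_cast
  rw [hL] at hbr
  have hpar := parseval_comb hF1 0 1 hr0 hr1
  simp only [zero_mul, zero_add, one_mul] at hpar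
  have hx0 : 0 ≤ r ^ 2 := by positivity
  have hx1 : r ^ 2 < 1 := by nlinarith
  have h3 := hbr.mul_left (b * (1 - r ^ 2) ^ (-b))
  have h4 := hasSum_le (fun m => ?_) hpar h3
  · refine h4.trans (le_of_eq (by ring))
  · have h5 := pow_mul_pq_le (b := b) (by linarith) hx0 hx1 m
    have h6 : r ^ (2 * m) = (r ^ 2) ^ m := by rw [← pow_mul]
    have hpq := pq_pos (by linarith : 0 < b + 1) m
    have hb0 : 0 < b := by linarith
    rw [h6, Complex.mul_conj, Complex.normSq_eq_norm_sq, Complex.ofReal_re]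
    have h7 : b * (1 - r ^ 2) ^ (-b)
        * ((b * pq (b + 1) m)⁻¹ * ‖coeff (fun z => Complex.exp (-H z)) m‖ ^ 2)
        = (1 - r ^ 2) ^ (-b) * (pq (b + 1) m)⁻¹
          * ‖coeff (fun z => Complex.exp (-H z)) m‖ ^ 2 := by
      field_simp
    rw [h7, mul_comm]
    apply mul_le_mul_of_nonneg_right _ (by positivity)
    rw [le_mul_inv_iff₀ hpq]
    exact h5

private theorem periodic_shift {f : ℂ → ℝ} (r : ℝ) :
    ∫ θ in (0:ℝ)..(2 * π), f ((r : ℂ) * Complex.exp ((θ : ℂ) * Complex.I))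
      = ∫ θ in (-π)..π, f ((r : ℂ) * Complex.exp ((θ : ℂ) * Complex.I)) := by
  have hper : Function.Periodic (fun θ : ℝ => f ((r : ℂ) * Complex.exp ((θ : ℂ) * Complex.I)))
      (2 * π) := by
    intro θ
    have : Complex.exp (((θ + 2 * π : ℝ) : ℂ) * Complex.I) = Complex.exp ((θ : ℂ) * Complex.I) := by
      push_cast
      rw [add_mul, Complex.exp_add, Complex.exp_two_pi_mul_I, mul_one]
    simp only [this]
  have h2 := hper.intervalIntegral_add_eq 0 (-π)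
  have e1 : (0:ℝ) + 2 * π = 2 * π := by ring
  have e2 : -π + 2 * π = π := by ring
  rw [e1, e2] at h2
  exact h2

/-- the circle integral in both coordinates (as in Helper39/HR/Means.lean) -/
private theorem transfer_gen (F : ℂ → ℝ) (h : ℂ → ℂ) {R : ℝ} (hR : 1 < R) :
    (∫ θ in (0:ℝ)..(2 * π), F (h ((R : ℂ) * Complex.exp ((θ : ℂ) * Complex.I)))) =
      ∫ θ in (0:ℝ)..(2 * π),
        F (toDisc 0 h (((R⁻¹ : ℝ) : ℂ) * Complex.exp ((θ : ℂ) * Complex.I))) := by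
  have hR0 : R ≠ 0 := by linarith
  obtain ⟨k, hk⟩ : ∃ k : ℝ → ℝ, k = fun (θ : ℝ) =>
    F (toDisc 0 h (((R⁻¹ : ℝ) : ℂ) * Complex.exp ((θ : ℂ) * Complex.I))) := ⟨_, rfl⟩
  have h1 : ∀ θ : ℝ, F (h ((R : ℂ) * Complex.exp ((θ : ℂ) * Complex.I))) = k (-θ) := by
    intro θ
    simp only [hk]
    have hne : ((R⁻¹ : ℝ) : ℂ) * Complex.exp (((-θ : ℝ) : ℂ) * Complex.I) ≠ 0 := by
      apply mul_ne_zero _ (Complex.exp_ne_zero _)
      exact_mod_cast inv_ne_zero hR0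
    have h2 : (((R⁻¹ : ℝ) : ℂ) * Complex.exp (((-θ : ℝ) : ℂ) * Complex.I))⁻¹ =
        (R : ℂ) * Complex.exp ((θ : ℂ) * Complex.I) := by
      rw [mul_inv, ← Complex.exp_neg]
      push_cast
      rw [inv_inv]
      congr 2
      ring
    simp only [toDisc]
    rw [if_neg hne, h2]
  simp_rw [h1]
  rw [intervalIntegral.integral_comp_neg (fun θ => k θ)]
  have hper : Function.Periodic k (2 * π) := by
    intro θ
    simp only [hk]
    have : Complex.exp (((θ + 2 * π : ℝ) : ℂ) * Complex.I) = Complex.exp ((θ : ℂ) * Complex.I) := by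
      push_cast
      rw [add_mul, Complex.exp_add, Complex.exp_two_pi_mul_I, mul_one]
    rw [this]
  have h2 := hper.intervalIntegral_add_eq (-(2 * π)) 0
  have e1 : -(2 * π) + 2 * π = (0:ℝ) := by ring
  have e2 : (0:ℝ) + 2 * π = 2 * π := by ring
  rw [e1, e2] at h2
  rw [neg_zero, h2, hk]

/-- the bound in the exterior domain from the bound for the dilated data, for any exponent -/
theorem brennan_of_core {b : ℝ} (hb : 1 ≤ b)
    (core : ∃ C : ℝ, ∀ (ρ : ℝ) (β H : ℂ → ℂ) (Φ : ℂ → ℂ → ℂ), Data ρ β H Φ →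
      LG H b (fun _ => 1) ≤ C) : ∃ C : ℝ, ∀ ψ : ℂ → ℂ,
    DifferentiableOn ℂ ψ {z : ℂ | 1 < ‖z‖} →
    Set.InjOn ψ {z : ℂ | 1 < ‖z‖} →
    (∃ c : ℂ, Tendsto (fun z => ψ z - z) (Bornology.cobounded ℂ) (𝓝 c)) →
    ∀ R : ℝ, 1 < R →
      (1 / (2 * π)) * ∫ θ in (0:ℝ)..(2 * π),
        1 / ‖deriv ψ ((R : ℂ) * Complex.exp ((θ : ℂ) * Complex.I))‖ ^ 2
        ≤ C * (R ^ 2 / (R ^ 2 - 1)) ^ b := by
  obtain ⟨C, hC⟩ := core
  refine ⟨b * max C 0 * 2 ^ b, ?_⟩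
  intro ψ hψ hinj hc R hR
  have hb0 : 0 ≤ b := by linarith
  obtain ⟨c, hc⟩ := hc
  obtain ⟨β, H, hE, hH, hH0, hexp, hbl, hψH⟩ := disc_data hψ hinj hc
  have hR0 : 0 < R := by linarith
  obtain ⟨ρ, hρdef⟩ : ∃ ρ : ℝ, ρ = Real.sqrt R := ⟨_, rfl⟩
  have hρ2 : ρ ^ 2 = R := by rw [hρdef]; exact Real.sq_sqrt hR0.le
  have hρ : 1 < ρ := by
    rw [hρdef, Real.lt_sqrt zero_le_one]
    simpa using hR
  have hρ0 : 0 < ρ := by linarith
  obtain ⟨βρ, Φ, hD⟩ := dil_data hE hH hH0 hexp hbl hρ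
  have hLG := hC ρ βρ _ Φ hD
  have hr1 : ρ⁻¹ < 1 := inv_lt_one_of_one_lt₀ hρ
  have hr0 : 0 ≤ ρ⁻¹ := by positivity
  have hcirc := circle_le hρ hD.diff hb hr0 hr1
  -- both coordinates
  rw [transfer_gen (fun w => 1 / ‖w‖ ^ 2) (deriv ψ) hR]
  have hRi0 : 0 < R⁻¹ := by positivity
  have e1 : ∀ θ : ℝ, 1 / ‖toDisc 0 (deriv ψ) (((R⁻¹ : ℝ) : ℂ) *
      Complex.exp ((θ : ℂ) * Complex.I))‖ ^ 2 =
      (fun ζ => ‖Complex.exp (-H (ζ / (ρ : ℂ)))‖ ^ 2)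
        (((ρ⁻¹ : ℝ) : ℂ) * Complex.exp ((θ : ℂ) * Complex.I)) := by
    intro θ
    have hne : ((R⁻¹ : ℝ) : ℂ) * Complex.exp ((θ : ℂ) * Complex.I) ≠ 0 := by
      apply mul_ne_zero _ (Complex.exp_ne_zero _)
      exact_mod_cast hRi0.ne'
    have hmem : ((R⁻¹ : ℝ) : ℂ) * Complex.exp ((θ : ℂ) * Complex.I) ∈ ball (0 : ℂ) 1 := by
      rw [mem_ball_zero_iff, norm_mul, Complex.norm_exp_ofReal_mul_I, mul_one, Complex.norm_real,
        Real.norm_of_nonneg hRi0.le]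
      exact inv_lt_one_of_one_lt₀ hR
    have harg : ((ρ⁻¹ : ℝ) : ℂ) * Complex.exp ((θ : ℂ) * Complex.I) / (ρ : ℂ)
        = ((R⁻¹ : ℝ) : ℂ) * Complex.exp ((θ : ℂ) * Complex.I) := by
      rw [← hρ2]
      push_cast
      have hρc : (ρ : ℂ) ≠ 0 := by exact_mod_cast hρ0.ne'
      field_simp
    simp only [toDisc]
    rw [if_neg hne, ← hψH _ hmem hne, harg, Complex.exp_neg, norm_inv, inv_pow, one_div]
  simp_rw [e1]
  rw [periodic_shift (f := fun ζ => ‖Complex.exp (-H (ζ / (ρ : ℂ)))‖ ^ 2) ρ⁻¹]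
  refine hcirc.trans ?_
  have hx : 0 < 1 - ρ⁻¹ ^ 2 := by nlinarith
  have hRR : 0 < R ^ 2 - 1 := by nlinarith
  have h2 : (1 - ρ⁻¹ ^ 2)⁻¹ ≤ 2 * (R ^ 2 / (R ^ 2 - 1)) := by
    have h3 : 1 - ρ⁻¹ ^ 2 = (R - 1) / R := by
      rw [inv_pow, hρ2]
      field_simp
    rw [h3, inv_div, ← mul_div_assoc, div_le_div_iff₀ (by linarith) hRR]
    nlinarith [mul_pos hR0 (by linarith : 0 < R - 1)]
  have h4 : (1 - ρ⁻¹ ^ 2) ^ (-b)
      ≤ 2 ^ b * (R ^ 2 / (R ^ 2 - 1)) ^ b := by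
    rw [Real.rpow_neg hx.le, ← Real.inv_rpow hx.le, ← Real.mul_rpow (by norm_num)
      (by positivity)]
    exact Real.rpow_le_rpow (by positivity) h2 hb0
  have h5 : 0 ≤ (1 - ρ⁻¹ ^ 2) ^ (-b) := Real.rpow_nonneg hx.le _
  calc b * LG (fun z => H (z / (ρ : ℂ))) b (fun _ => 1)
        * (1 - ρ⁻¹ ^ 2) ^ (-b)
      ≤ b * max C 0 * (1 - ρ⁻¹ ^ 2) ^ (-b) := by
        apply mul_le_mul_of_nonneg_right _ h5
        apply mul_le_mul_of_nonneg_left _ hb0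
        exact hLG.trans (le_max_left _ _)
    _ ≤ b * max C 0
        * (2 ^ b * (R ^ 2 / (R ^ 2 - 1)) ^ b) := by
        apply mul_le_mul_of_nonneg_left h4
        have := le_max_right C 0
        positivity
    _ = _ := by ring

end Pool.Agent.Helper39.MH
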