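import Mathlib
import Pool.Agent.Helper39.MH.Core
import Pool.Agent.Helper39.MH.Transfer
import Pool.Agent.Helper39.MH.AreaForm
import Pool.Agent.Helper39.MH.QNum
import Pool.Agent.Helper39.MH.Cert

/-!
MP_16b0ee, project MH: the final theorem.
-/

set_option autoImplicit false

open MeasureTheory Set Metric Filter Topology
open scoped Real ComplexConjugate

namespace Pool.Agent.Helper39.MH

theorem core : ∃ C : ℝ, ∀ (ρ : ℝ) (β H : ℂ → ℂ) (Φ : ℂ → ℂ → ℂ), Data ρ β H Φ →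
    LG H (21 / 20) (fun _ => 1) ≤ C :=
  core_of (by norm_num) Q0 (fun _ hε => area_form T0 (by norm_num) Q0 Q0_le hε) cert

theorem brennan_mean : ∃ C : ℝ, ∀ ψ : ℂ → ℂ,
    DifferentiableOn ℂ ψ {z : ℂ | 1 < ‖z‖} →
    Set.InjOn ψ {z : ℂ | 1 < ‖z‖} →
    (∃ c : ℂ, Tendsto (fun z => ψ z - z) (Bornology.cobounded ℂ) (𝓝 c)) →
    ∀ R : ℝ, 1 < R →
      (1 / (2 * π)) * ∫ θ in (0:ℝ)..(2 * π),
        1 / ‖deriv ψ ((R : ℂ) * Complex.exp ((θ : ℂ) * Complex.I))‖ ^ 2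
        ≤ C * (R ^ 2 / (R ^ 2 - 1)) ^ (21 / 20 : ℝ) :=
  brennan_of_core (by norm_num) core

end Pool.Agent.Helper39.MH
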